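import Pool.Agent.Helper82.GP.Defs

/-!
A Lipschitz surface above a given one avoiding a sparse set of obstacles.
-/

namespace Pool.Agent.Helper82.GP

namespace Avoid

/-- Sites reached after at most `n` steps. -/
def Rk {β : Type*} (δ : β → β → ℕ) (κ G : ℕ) (O : Finset (ℤ × β)) (U : β → ℤ) :
    ℕ → ℤ × β → Prop
  | 0, o => o ∈ O ∧ o.1 ≤ U o.2
  | n + 1, o => o ∈ O ∧ (Rk δ κ G O U n o ∨
      ∃ o', Rk δ κ G O U n o' ∧ o.1 ≤ o'.1 + G + 1 - ((δ o.2 o'.2 / κ : ℕ) : ℤ))

theorem Rk.mem {β : Type*} {δ : β → β → ℕ} {κ G : ℕ} {O : Finset (ℤ × β)} {U : β → ℤ}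
    {n : ℕ} {o : ℤ × β} (h : Rk δ κ G O U n o) : o ∈ O := by
  cases n with
  | zero => exact h.1
  | succ n => exact h.1

theorem Rk.succ {β : Type*} {δ : β → β → ℕ} {κ G : ℕ} {O : Finset (ℤ × β)} {U : β → ℤ}
    {n : ℕ} {o : ℤ × β} (h : Rk δ κ G O U n o) : Rk δ κ G O U (n + 1) o :=
  ⟨h.mem, Or.inl h⟩

theorem Rk.mono {β : Type*} {δ : β → β → ℕ} {κ G : ℕ} {O : Finset (ℤ × β)} {U : β → ℤ}
    {n k : ℕ} {o : ℤ × β} (h : Rk δ κ G O U n o) (hk : n ≤ k) : Rk δ κ G O U k o := by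
  induction k, hk using Nat.le_induction with
  | base => exact h
  | succ k _ ih => exact ih.succ

theorem chain {β : Type*} [DecidableEq β] (δ : β → β → ℕ) (hδ0 : ∀ z, δ z z = 0)
    (hδt : ∀ x y z, δ x z ≤ δ x y + δ y z) (hδs : ∀ z w, δ z w = δ w z)
    (κ G : ℕ) (hκ : 1 ≤ κ) (O : Finset (ℤ × β))
    (U : β → ℤ) (hU : ∀ z w, (2 * κ : ℤ) * (U z - U w) ≤ δ z w + (2 * κ - 1)) (l : ℕ) :
    ∀ o, Rk δ κ G O U l o → (∀ j < l, ¬ Rk δ κ G O U j o) →
      ∃ (E : Finset (ℤ × β)) (D : ℤ), E ⊆ O ∧ E.card = l + 1 ∧ (∀ e ∈ E, Rk δ κ G O U l e) ∧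
        (∀ e ∈ E, (δ o.2 e.2 : ℤ) ≤ D ∧ e.1 ≤ U e.2 + l * (G + 3) ∧ o.1 ≤ e.1 + l * (G + 3)) ∧
        D ≤ 2 * κ * l * (G + 3) ∧ 2 * κ * (o.1 - U o.2) + D ≤ 2 * κ * l * (G + 3) ∧
        (l ≠ 0 → ∀ e ∈ E, e.1 ≤ o.1 + (2 * l + 1) * (G + 3)) := by
  have hκ' : (1 : ℤ) ≤ κ := by exact_mod_cast hκ
  induction l with
  | zero =>
    intro o ho _
    refine ⟨{o}, 0, ?_, ?_, ?_, ?_, ?_, ?_, ?_⟩
    · simpa using ho.1
    · simp
    · simpa using ho
    · intro e he
      rw [Finset.mem_singleton] at he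
      subst he
      refine ⟨by simp [hδ0], ?_, ?_⟩
      · simpa using ho.2
      · simp
    · simp
    · have := ho.2
      have h2 : 2 * (κ : ℤ) * (o.1 - U o.2) ≤ 0 :=
        mul_nonpos_of_nonneg_of_nonpos (by positivity) (by linarith)
      simpa using h2
    · simp
  | succ l ih =>
    intro o ho hmin
    have hnl : ¬ Rk δ κ G O U l o := hmin l (by omega)
    obtain ⟨hoO, h | ⟨o', ho', hoo'⟩⟩ := ho
    · exact absurd h hnl
    have hmin' : ∀ j < l, ¬ Rk δ κ G O U j o' := by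
      intro j hj hR
      exact hmin (j + 1) (by omega) ⟨hoO, Or.inr ⟨o', hR, hoo'⟩⟩
    obtain ⟨E, D, hEO, hEc, hER, hE1, hD1, hD2, -⟩ := ih o' ho' hmin'
    have hoE : o ∉ E := fun h => hnl (hER o h)
    have hoU : U o.2 < o.1 := by
      by_contra hcon
      push Not at hcon
      exact hmin 0 (by omega) ⟨hoO, hcon⟩
    -- floor inequality
    have hfl : (δ o.2 o'.2 : ℤ) ≤ κ * ((δ o.2 o'.2 / κ : ℕ) : ℤ) + (κ - 1) := by
      have h1 := Nat.div_add_mod (δ o.2 o'.2) κ
      have h2 := Nat.mod_lt (δ o.2 o'.2) (show 0 < κ by omega)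
      have h3 : (δ o.2 o'.2 : ℤ) = κ * ((δ o.2 o'.2 / κ : ℕ) : ℤ) + ((δ o.2 o'.2 % κ : ℕ) : ℤ) := by
        exact_mod_cast h1.symm
      have h4 : ((δ o.2 o'.2 % κ : ℕ) : ℤ) < κ := by exact_mod_cast h2
      linarith
    have hUU := hU o'.2 o.2
    rw [hδs o'.2 o.2] at hUU
    have hfl0 : (0 : ℤ) ≤ ((δ o.2 o'.2 / κ : ℕ) : ℤ) := by positivity
    have hGl : (0 : ℤ) ≤ G := by positivity
    have hl0 : (0 : ℤ) ≤ l := by positivity
    have key : 2 * (κ : ℤ) * (o.1 - U o.2) + (D + δ o.2 o'.2) ≤ 2 * κ * (l + 1) * (G + 3) := by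
      have h1 : 2 * (κ : ℤ) * o.1 ≤ 2 * κ * (o'.1 + G + 1 - ((δ o.2 o'.2 / κ : ℕ) : ℤ)) :=
        mul_le_mul_of_nonneg_left hoo' (by positivity)
      nlinarith
    have key2 : D + δ o.2 o'.2 ≤ 2 * κ * (l + 1) * (G + 3) := by
      have h2 : 0 ≤ 2 * (κ : ℤ) * (o.1 - U o.2) := mul_nonneg (by positivity) (by linarith)
      linarith
    have hD0 : (0 : ℤ) ≤ D := by
      have hne : E.Nonempty := by
        rw [← Finset.card_pos, hEc]; omega
      obtain ⟨e, he⟩ := hne
      have := (hE1 e he).1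
      have h0 : (0 : ℤ) ≤ δ o'.2 e.2 := by positivity
      linarith
    have hU2 : ∀ e : ℤ × β, (δ o.2 e.2 : ℤ) ≤ D + δ o.2 o'.2 →
        U e.2 ≤ U o.2 + (l + 1) * (G + 3) + 1 := by
      intro e he
      have h1 := hU e.2 o.2
      rw [hδs e.2 o.2] at h1
      have h2 : 2 * (κ : ℤ) * (U e.2 - U o.2) ≤ 2 * κ * ((l + 1) * (G + 3) + 1) - 1 := by
        nlinarith
      by_contra hcon
      push Not at hcon
      have h3 : (l + 1) * (G + 3) + 1 ≤ U e.2 - U o.2 := by linarith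
      have h4 := mul_le_mul_of_nonneg_left h3 (show (0 : ℤ) ≤ 2 * κ by positivity)
      linarith
    refine ⟨insert o E, D + δ o.2 o'.2, ?_, ?_, ?_, ?_, ?_, ?_, ?_⟩
    · intro e he
      rcases Finset.mem_insert.1 he with rfl | he
      · exact hoO
      · exact hEO he
    · rw [Finset.card_insert_of_notMem hoE, hEc]
    · intro e he
      rcases Finset.mem_insert.1 he with rfl | he
      · exact ⟨hoO, Or.inr ⟨o', ho', hoo'⟩⟩
      · exact (hER e he).succ
    · intro e he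
      rcases Finset.mem_insert.1 he with rfl | he
      · refine ⟨?_, ?_, ?_⟩
        · rw [hδ0]
          have : (0 : ℤ) ≤ δ e.2 o'.2 := by positivity
          push_cast
          linarith
        · have h1 : 2 * (κ : ℤ) * (e.1 - U e.2) ≤ 2 * κ * ((l + 1) * (G + 3)) := by
            have : (0 : ℤ) ≤ δ e.2 o'.2 := by positivity
            linarith
          have h2 := le_of_mul_le_mul_left h1 (by positivity)
          push_cast
          linarith
        · push_cast
          nlinarith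
      · obtain ⟨h1, h2, h3⟩ := hE1 e he
        refine ⟨?_, ?_, ?_⟩
        · have := hδt o.2 o'.2 e.2
          have : (δ o.2 e.2 : ℤ) ≤ δ o.2 o'.2 + δ o'.2 e.2 := by exact_mod_cast this
          linarith
        · push_cast
          linarith
        · push_cast
          linarith
    · push_cast
      linarith
    · push_cast
      linarith
    · intro _ e he
      rcases Finset.mem_insert.1 he with rfl | he
      · push_cast
        nlinarith
      · obtain ⟨h1, h2, h3⟩ := hE1 e he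
        have h4 : (δ o.2 e.2 : ℤ) ≤ D + δ o.2 o'.2 := by
          have := hδt o.2 o'.2 e.2
          have : (δ o.2 e.2 : ℤ) ≤ δ o.2 o'.2 + δ o'.2 e.2 := by exact_mod_cast this
          linarith
        have h5 := hU2 e h4
        push_cast
        nlinarith

theorem exists_rk {β : Type*} (δ : β → β → ℕ) (κ G : ℕ) (O : Finset (ℤ × β)) (U : β → ℤ)
    (m : ℕ) (hno : ∀ o, Rk δ κ G O U m o → ∃ j < m, Rk δ κ G O U j o) (n : ℕ) :
    ∀ o, Rk δ κ G O U n o → ∃ j < m, Rk δ κ G O U j o := by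
  classical
  induction n using Nat.strong_induction_on with
  | _ n ih =>
    intro o ho
    by_cases hn : n < m
    · exact ⟨n, hn, ho⟩
    by_cases hnm : n = m
    · subst hnm
      exact hno o ho
    · obtain ⟨n', rfl⟩ : ∃ n', n = n' + 1 := ⟨n - 1, by omega⟩
      obtain ⟨hoO, h | ⟨o', ho', hoo'⟩⟩ := ho
      · exact ih n' (by omega) o h
      · obtain ⟨j, hj, hR⟩ := ih n' (by omega) o' ho'
        exact ih (j + 1) (by omega) o ⟨hoO, Or.inr ⟨o', hR, hoo'⟩⟩

end Avoid

open Avoid in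
theorem avoid {β : Type*} (δ : β → β → ℕ) (hδ0 : ∀ z, δ z z = 0) (hδs : ∀ z w, δ z w = δ w z)
    (hδt : ∀ x y z, δ x z ≤ δ x y + δ y z) (κ G m : ℕ) (hκ : 1 ≤ κ) (O : Finset (ℤ × β))
    (U : β → ℤ) (hU : ∀ z w, (2 * κ : ℤ) * (U z - U w) ≤ δ z w + (2 * κ - 1))
    (hsp : ∀ (c : ℤ × β) (E : Finset (ℤ × β)), E ⊆ O →
      (∀ o ∈ E, |o.1 - c.1| ≤ 4 * κ * (m + 1) * (G + 3) ∧
        (δ o.2 c.2 : ℤ) ≤ 4 * κ * (m + 1) * (G + 3)) → E.card ≤ m) :
    ∃ h : β → ℤ, (∀ z, U z ≤ h z ∧ h z ≤ U z + (m + 1) * (G + 3)) ∧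
      (∀ z w, (κ : ℤ) * (h z - h w) ≤ δ z w + (κ - 1)) ∧
      ∀ o ∈ O, ¬ (o.1 ≤ h o.2 ∧ h o.2 ≤ o.1 + G) := by
  classical
  have hκ' : (1 : ℤ) ≤ κ := by exact_mod_cast hκ
  have hG0 : (0 : ℤ) ≤ G := by positivity
  have hm0 : (0 : ℤ) ≤ m := by positivity
  -- no point of rank exactly m
  have hno : ∀ o, Rk δ κ G O U m o → ∃ j < m, Rk δ κ G O U j o := by
    intro o ho
    by_contra hcon
    push Not at hcon
    obtain ⟨E, D, hEO, hEc, hER, hE1, hD1, hD2, hE3⟩ :=
      chain δ hδ0 hδt hδs κ G hκ O U hU m o ho hcon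
    have hR : (1 : ℤ) * (m + 1) * (G + 3) ≤ κ * (m + 1) * (G + 3) := by
      have : (0 : ℤ) ≤ (m + 1) * (G + 3) := by positivity
      nlinarith
    have := hsp o E hEO ?_
    · omega
    intro e he
    obtain ⟨h1, h2, h3⟩ := hE1 e he
    constructor
    · rw [abs_le]
      constructor
      · nlinarith
      · by_cases hm : m = 0
        · subst hm
          have hE1' : E = {e} := by
            obtain ⟨x, hx⟩ := Finset.card_eq_one.1 (show E.card = 1 by simpa using hEc)
            rw [hx] at he ⊢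
            rw [Finset.mem_singleton.1 he]
          obtain ⟨E', D', hE'O, hE'c, hE'R, hE'1, -⟩ :=
            chain δ hδ0 hδt hδs κ G hκ O U hU 0 o ho hcon
          -- direct contradiction : singleton of o is already too big
          have h5 := hsp o {o} (by simpa using ho.mem) (by
            intro x hx
            rw [Finset.mem_singleton] at hx
            subst hx
            simp only [sub_self, abs_zero, hδ0]
            constructor
            · positivity
            · push_cast; positivity)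
          simp at h5
        · have := hE3 hm e he
          nlinarith
    · rw [hδs e.2 o.2]
      have : 2 * (κ : ℤ) * m * (G + 3) ≤ 4 * κ * (m + 1) * (G + 3) := by
        have h6 : (0 : ℤ) ≤ κ * (G + 3) := by positivity
        nlinarith
      linarith
  have hall := exists_rk δ κ G O U m hno
  -- the set J
  let J : Finset (ℤ × β) := O.filter (fun o => ∃ n, Rk δ κ G O U n o)
  let f : β → Option (ℤ × β) → ℤ := fun z x =>
    x.elim (U z) (fun o => o.1 + G + 1 - ((δ z o.2 / κ : ℕ) : ℤ))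
  let S : Finset (Option (ℤ × β)) := insert none (J.image some)
  have hS : S.Nonempty := ⟨none, Finset.mem_insert_self _ _⟩
  have hSJ : ∀ x ∈ S, x = none ∨ ∃ o ∈ J, x = some o := by
    intro x hx
    rcases Finset.mem_insert.1 hx with h | h
    · exact Or.inl h
    · obtain ⟨o, ho, rfl⟩ := Finset.mem_image.1 h
      exact Or.inr ⟨o, ho, rfl⟩
  have hJb : ∀ o ∈ J, o.1 + G + 3 ≤ U o.2 + (m + 1) * (G + 3) := by
    intro o ho
    obtain ⟨hoO, n, hn⟩ := Finset.mem_filter.1 ho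
    have hex := hall n o hn
    have hex' : ∃ j, Rk δ κ G O U j o := ⟨n, hn⟩
    obtain ⟨j, hj, hRj⟩ := hex
    have hfj : Nat.find hex' ≤ j := Nat.find_min' hex' hRj
    obtain ⟨E, D, hEO, hEc, hER, hE1, hD1, hD2, hE3⟩ :=
      chain δ hδ0 hδt hδs κ G hκ O U hU (Nat.find hex') o (Nat.find_spec hex')
        (fun i hi => Nat.find_min hex' hi)
    have hD0 : (0 : ℤ) ≤ D := by
      have hne : E.Nonempty := by
        rw [← Finset.card_pos, hEc]; omega
      obtain ⟨e, he⟩ := hne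
      have := (hE1 e he).1
      have h0 : (0 : ℤ) ≤ δ o.2 e.2 := by positivity
      linarith
    have h1 : 2 * (κ : ℤ) * (o.1 - U o.2) ≤ 2 * κ * ((Nat.find hex' : ℤ) * (G + 3)) := by
      linarith
    have h2 := le_of_mul_le_mul_left h1 (by positivity)
    have h3 : (Nat.find hex' : ℤ) ≤ m := by
      have : Nat.find hex' ≤ m := by omega
      exact_mod_cast this
    nlinarith
  refine ⟨fun z => S.sup' hS (f z), ?_, ?_, ?_⟩
  · intro z
    constructor
    · exact Finset.le_sup' (f z) (Finset.mem_insert_self none _)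
    · apply Finset.sup'_le
      intro x hx
      rcases hSJ x hx with rfl | ⟨o, ho, rfl⟩
      · show U z ≤ _
        have : (0 : ℤ) ≤ (m + 1) * (G + 3) := by positivity
        linarith
      · show o.1 + G + 1 - ((δ z o.2 / κ : ℕ) : ℤ) ≤ _
        have h1 := hJb o ho
        have h2 := hU o.2 z
        rw [hδs o.2 z] at h2
        have hfl : (δ z o.2 : ℤ) ≤ κ * ((δ z o.2 / κ : ℕ) : ℤ) + (κ - 1) := by
          have h1 := Nat.div_add_mod (δ z o.2) κ
          have h2 := Nat.mod_lt (δ z o.2) (show 0 < κ by omega)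
          have h3 : (δ z o.2 : ℤ) = κ * ((δ z o.2 / κ : ℕ) : ℤ) + ((δ z o.2 % κ : ℕ) : ℤ) := by
            exact_mod_cast h1.symm
          have h4 : ((δ z o.2 % κ : ℕ) : ℤ) < κ := by exact_mod_cast h2
          linarith
        have hfl0 : (0 : ℤ) ≤ ((δ z o.2 / κ : ℕ) : ℤ) := by positivity
        -- U o.2 - U z ≤ fl + 2
        have h3 : U o.2 - U z ≤ ((δ z o.2 / κ : ℕ) : ℤ) + 2 := by
          by_contra hcon
          push Not at hcon
          have h4 : ((δ z o.2 / κ : ℕ) : ℤ) + 3 ≤ U o.2 - U z := by linarith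
          have h5 := mul_le_mul_of_nonneg_left h4 (show (0 : ℤ) ≤ 2 * κ by positivity)
          nlinarith
        linarith
  · intro z w
    -- Lipschitz
    obtain ⟨x, hx, hxe⟩ := Finset.exists_mem_eq_sup' hS (f z)
    have hw : f w x ≤ S.sup' hS (f w) := Finset.le_sup' (f w) hx
    have hstep : (κ : ℤ) * (f z x - f w x) ≤ δ z w + (κ - 1) := by
      rcases hSJ x hx with rfl | ⟨o, ho, rfl⟩
      · show (κ : ℤ) * (U z - U w) ≤ _
        have h1 := hU z w
        by_cases hd : δ z w = 0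
        · rw [hd] at h1 ⊢
          have h2 : U z - U w ≤ 0 := by
            by_contra hcon
            push Not at hcon
            have h4 : 1 ≤ U z - U w := by linarith
            have h5 := mul_le_mul_of_nonneg_left h4 (show (0 : ℤ) ≤ 2 * κ by positivity)
            push_cast at h1
            linarith
          have h3 : (κ : ℤ) * (U z - U w) ≤ 0 :=
            mul_nonpos_of_nonneg_of_nonpos (by positivity) h2
          push_cast
          linarith
        · have hd1 : (1 : ℤ) ≤ δ z w := by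
            have : 1 ≤ δ z w := Nat.one_le_iff_ne_zero.2 hd
            exact_mod_cast this
          linarith
      · show (κ : ℤ) * ((o.1 + G + 1 - ((δ z o.2 / κ : ℕ) : ℤ)) -
          (o.1 + G + 1 - ((δ w o.2 / κ : ℕ) : ℤ))) ≤ _
        have h1 : δ w o.2 ≤ δ z w + δ z o.2 := by
          have := hδt w z o.2
          rw [hδs w z] at this
          exact this
        have hz1 := Nat.div_add_mod (δ z o.2) κ
        have hz2 := Nat.mod_lt (δ z o.2) (show 0 < κ by omega)
        have hz3 : (δ z o.2 : ℤ) = κ * ((δ z o.2 / κ : ℕ) : ℤ) + ((δ z o.2 % κ : ℕ) : ℤ) := by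
          exact_mod_cast hz1.symm
        have hz4 : ((δ z o.2 % κ : ℕ) : ℤ) < κ := by exact_mod_cast hz2
        have hw1 := Nat.div_add_mod (δ w o.2) κ
        have hw3 : (δ w o.2 : ℤ) = κ * ((δ w o.2 / κ : ℕ) : ℤ) + ((δ w o.2 % κ : ℕ) : ℤ) := by
          exact_mod_cast hw1.symm
        have hw5 : (0 : ℤ) ≤ ((δ w o.2 % κ : ℕ) : ℤ) := by positivity
        have h1' : (δ w o.2 : ℤ) ≤ δ z w + δ z o.2 := by exact_mod_cast h1
        nlinarith
    have h2 : (κ : ℤ) * f w x ≤ κ * S.sup' hS (f w) :=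
      mul_le_mul_of_nonneg_left hw (by positivity)
    show (κ : ℤ) * (S.sup' hS (f z) - S.sup' hS (f w)) ≤ _
    rw [hxe]
    linarith
  · intro o ho hcon
    obtain ⟨h1, h2⟩ := hcon
    have hoJ : o ∈ J := by
      obtain ⟨x, hx, hxe⟩ := Finset.exists_mem_eq_sup' hS (f o.2)
      change o.1 ≤ S.sup' hS (f o.2) at h1
      rw [hxe] at h1
      rcases hSJ x hx with rfl | ⟨o', ho', rfl⟩
      · exact Finset.mem_filter.2 ⟨ho, 0, ho, h1⟩
      · obtain ⟨-, n, hn⟩ := Finset.mem_filter.1 ho'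
        exact Finset.mem_filter.2 ⟨ho, n + 1, ho, Or.inr ⟨o', hn, h1⟩⟩
    have h3 : f o.2 (some o) ≤ S.sup' hS (f o.2) :=
      Finset.le_sup' (f o.2) (Finset.mem_insert_of_mem (Finset.mem_image_of_mem _ hoJ))
    have h4 : f o.2 (some o) = o.1 + G + 1 := by
      show o.1 + G + 1 - ((δ o.2 o.2 / κ : ℕ) : ℤ) = _
      rw [hδ0]
      simp
    change S.sup' hS (f o.2) ≤ o.1 + G at h2
    rw [h4] at h3
    linarith

end Pool.Agent.Helper82.GP
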