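import Pool.Agent.Helper82.GP.Defs
import Pool.Agent.Helper82.GreedyDefs

/-!
Basic facts on `greedy`.
-/

namespace Pool.Agent.Helper82.GP

open MeasureTheory ProbabilityTheory Filter
open scoped ENNReal Topology
open Pool.Agent.Helper82.Greedy

theorem saw_bound {d n : ℕ} {γ : Fin (n + 1) → (Fin d → ℤ)} (h : IsSAW d n γ) (i : Fin (n + 1)) :
    ∑ j, |γ i j| ≤ (i : ℕ) := by
  induction i using Fin.induction with
  | zero => simp [h.1]
  | succ i ih =>
    have h1 := h.2.2 i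
    have h2 : ∑ j, |γ i.succ j| ≤ ∑ j, |γ i.succ j - γ i.castSucc j| + ∑ j, |γ i.castSucc j| := by
      rw [← Finset.sum_add_distrib]
      refine Finset.sum_le_sum fun j _ => ?_
      have := abs_add_le (γ i.succ j - γ i.castSucc j) (γ i.castSucc j)
      simpa using this
    have h3 : ((i.succ : Fin (n + 1)) : ℕ) = (i : ℕ) + 1 := by simp
    have h4 : ((i.castSucc : Fin (n + 1)) : ℕ) = (i : ℕ) := by simp
    rw [h4] at ih
    rw [h3]
    push_cast
    linarith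

theorem saw_coord_bound {d n : ℕ} {γ : Fin (n + 1) → (Fin d → ℤ)} (h : IsSAW d n γ)
    (i : Fin (n + 1)) (j : Fin d) : |γ i j| ≤ (n : ℤ) := by
  have h1 := saw_bound h i
  have h2 : |γ i j| ≤ ∑ j, |γ i j| :=
    Finset.single_le_sum (f := fun j => |γ i j|) (fun j _ => abs_nonneg _) (Finset.mem_univ j)
  have h3 : ((i : ℕ) : ℤ) ≤ n := by exact_mod_cast Nat.lt_succ_iff.1 i.2
  linarith

theorem saw_finite (d n : ℕ) : {γ : Fin (n + 1) → (Fin d → ℤ) | IsSAW d n γ}.Finite := by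
  refine Set.Finite.subset (Set.finite_Icc (fun _ _ => -(n : ℤ)) (fun _ _ => (n : ℤ))) ?_
  intro γ hγ
  constructor
  · intro i j
    exact (abs_le.1 (saw_coord_bound hγ i j)).1
  · intro i j
    exact (abs_le.1 (saw_coord_bound hγ i j)).2

/-- The finite set of self-avoiding paths of length `n`. -/
noncomputable def saws (d n : ℕ) : Finset (Fin (n + 1) → (Fin d → ℤ)) := (saw_finite d n).toFinset

@[simp] theorem mem_saws {d n : ℕ} {γ : Fin (n + 1) → (Fin d → ℤ)} :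
    γ ∈ saws d n ↔ IsSAW d n γ := by
  simp [saws]

theorem exists_saw (d n : ℕ) (hd : 1 ≤ d) : ∃ γ : Fin (n + 1) → (Fin d → ℤ), IsSAW d n γ := by
  have j0 : Fin d := ⟨0, hd⟩
  refine ⟨fun i j => if j = j0 then ((i : ℕ) : ℤ) else 0, ?_, ?_, ?_⟩
  · funext j
    simp
  · intro a b hab
    have := congrFun hab j0
    simp only [if_true] at this
    exact Fin.ext (by exact_mod_cast this)
  · intro i
    rw [Finset.sum_eq_single j0]
    · simp
    · intro j _ hj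
      simp [hj]
    · simp

theorem saws_nonempty (d n : ℕ) (hd : 1 ≤ d) : (saws d n).Nonempty := by
  obtain ⟨γ, hγ⟩ := exists_saw d n hd
  exact ⟨γ, mem_saws.2 hγ⟩

/-- The set of weights in the definition of `greedy`. -/
theorem greedy_set_eq (d : ℕ) (x : (Fin d → ℤ) → ℝ) (n : ℕ) :
    {s | ∃ γ : Fin (n + 1) → (Fin d → ℤ), IsSAW d n γ ∧ s = ∑ i : Fin n, x (γ i.succ)} =
      (fun γ : Fin (n + 1) → (Fin d → ℤ) => ∑ i : Fin n, x (γ i.succ)) '' (saws d n) := by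
  ext s
  constructor
  · rintro ⟨γ, h, rfl⟩
    exact ⟨γ, by simpa using h, rfl⟩
  · rintro ⟨γ, h, rfl⟩
    exact ⟨γ, by simpa using h, rfl⟩

theorem greedy_set_finite (d : ℕ) (x : (Fin d → ℤ) → ℝ) (n : ℕ) :
    {s | ∃ γ : Fin (n + 1) → (Fin d → ℤ), IsSAW d n γ ∧
      s = ∑ i : Fin n, x (γ i.succ)}.Finite := by
  rw [greedy_set_eq]
  exact (saws d n).finite_toSet.image _

theorem le_greedy {d : ℕ} (x : (Fin d → ℤ) → ℝ) {n : ℕ} {γ : Fin (n + 1) → (Fin d → ℤ)}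
    (h : IsSAW d n γ) : ∑ i : Fin n, x (γ i.succ) ≤ greedy d x n :=
  le_csSup (greedy_set_finite d x n).bddAbove ⟨γ, h, rfl⟩

theorem exists_greedy (d : ℕ) (hd : 1 ≤ d) (x : (Fin d → ℤ) → ℝ) (n : ℕ) :
    ∃ γ : Fin (n + 1) → (Fin d → ℤ), IsSAW d n γ ∧ greedy d x n = ∑ i : Fin n, x (γ i.succ) := by
  obtain ⟨γ, hγ⟩ := exists_saw d n hd
  have hne : {s | ∃ γ : Fin (n + 1) → (Fin d → ℤ), IsSAW d n γ ∧
      s = ∑ i : Fin n, x (γ i.succ)}.Nonempty := ⟨_, γ, hγ, rfl⟩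
  exact hne.csSup_mem (greedy_set_finite d x n)

theorem greedy_le {d : ℕ} (hd : 1 ≤ d) (x : (Fin d → ℤ) → ℝ) {n : ℕ} {c : ℝ}
    (h : ∀ γ : Fin (n + 1) → (Fin d → ℤ), IsSAW d n γ → ∑ i : Fin n, x (γ i.succ) ≤ c) :
    greedy d x n ≤ c := by
  obtain ⟨γ, h1, h2⟩ := exists_greedy d hd x n
  rw [h2]
  exact h γ h1

theorem greedy_eq_sup' (d : ℕ) (hd : 1 ≤ d) (x : (Fin d → ℤ) → ℝ) (n : ℕ) :
    greedy d x n = (saws d n).sup' (saws_nonempty d n hd) (fun γ => ∑ i : Fin n, x (γ i.succ)) := by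
  apply le_antisymm
  · refine greedy_le hd x fun γ hγ => ?_
    exact Finset.le_sup' (fun γ : Fin (n + 1) → (Fin d → ℤ) => ∑ i : Fin n, x (γ i.succ))
      (mem_saws.2 hγ)
  · refine Finset.sup'_le _ _ fun γ hγ => ?_
    exact le_greedy x (mem_saws.1 hγ)

/-- The vertex set (origin excluded) of a path. -/
noncomputable def vset {d n : ℕ} (γ : Fin (n + 1) → (Fin d → ℤ)) : Finset (Fin d → ℤ) :=
  Finset.univ.image (fun i : Fin n => γ i.succ)

theorem sum_vset {d n : ℕ} {γ : Fin (n + 1) → (Fin d → ℤ)} (h : IsSAW d n γ)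
    (x : (Fin d → ℤ) → ℝ) : ∑ v ∈ vset γ, x v = ∑ i : Fin n, x (γ i.succ) := by
  rw [vset, Finset.sum_image]
  intro a _ b _ hab
  exact Fin.succ_injective _ (h.2.1 hab)

theorem card_vset {d n : ℕ} {γ : Fin (n + 1) → (Fin d → ℤ)} (h : IsSAW d n γ) :
    (vset γ).card = n := by
  rw [vset, Finset.card_image_of_injective]
  · simp
  · intro a b hab
    exact Fin.succ_injective _ (h.2.1 hab)

theorem greedy_mono {d : ℕ} (hd : 1 ≤ d) {x y : (Fin d → ℤ) → ℝ} (h : ∀ v, x v ≤ y v) (n : ℕ) :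
    greedy d x n ≤ greedy d y n := by
  refine greedy_le hd x fun γ hγ => ?_
  exact (Finset.sum_le_sum fun i _ => h _).trans (le_greedy y hγ)

theorem greedy_add_le {d : ℕ} (hd : 1 ≤ d) (x y : (Fin d → ℤ) → ℝ) (n : ℕ) :
    greedy d (fun v => x v + y v) n ≤ greedy d x n + greedy d y n := by
  refine greedy_le hd _ fun γ hγ => ?_
  rw [Finset.sum_add_distrib]
  exact add_le_add (le_greedy x hγ) (le_greedy y hγ)

theorem greedy_le_const {d : ℕ} (hd : 1 ≤ d) {x : (Fin d → ℤ) → ℝ} {c : ℝ} (h : ∀ v, x v ≤ c)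
    (n : ℕ) : greedy d x n ≤ n * c := by
  refine greedy_le hd x fun γ hγ => ?_
  calc ∑ i : Fin n, x (γ i.succ) ≤ ∑ i : Fin n, c := Finset.sum_le_sum fun i _ => h _
    _ = n * c := by simp

theorem const_le_greedy {d : ℕ} (hd : 1 ≤ d) {x : (Fin d → ℤ) → ℝ} {c : ℝ} (h : ∀ v, c ≤ x v)
    (n : ℕ) : n * c ≤ greedy d x n := by
  obtain ⟨γ, hγ⟩ := exists_saw d n hd
  calc (n : ℝ) * c = ∑ i : Fin n, c := by simp
    _ ≤ ∑ i : Fin n, x (γ i.succ) := Finset.sum_le_sum fun i _ => h _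
    _ ≤ greedy d x n := le_greedy x hγ

theorem greedy_zero {d : ℕ} (hd : 1 ≤ d) (x : (Fin d → ℤ) → ℝ) : greedy d x 0 = 0 := by
  obtain ⟨γ, _, h2⟩ := exists_greedy d hd x 0
  simpa using h2

/-- Two weight functions that agree in the box give the same value. -/
theorem greedy_congr {d : ℕ} (hd : 1 ≤ d) {x y : (Fin d → ℤ) → ℝ} {n : ℕ}
    (h : ∀ v, (∀ j, |v j| ≤ (n : ℤ)) → x v = y v) : greedy d x n = greedy d y n := by
  apply le_antisymm
  · refine greedy_le hd x fun γ hγ => ?_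
    rw [Finset.sum_congr rfl fun i _ => h _ (saw_coord_bound hγ i.succ)]
    exact le_greedy y hγ
  · refine greedy_le hd y fun γ hγ => ?_
    rw [Finset.sum_congr rfl fun i _ => (h _ (saw_coord_bound hγ i.succ)).symm]
    exact le_greedy x hγ

theorem measurable_greedy {Ω : Type*} [MeasurableSpace Ω] {d : ℕ} (hd : 1 ≤ d)
    {X : (Fin d → ℤ) → Ω → ℝ} (hX : ∀ v, Measurable (X v)) (n : ℕ) :
    Measurable (fun ω => greedy d (fun v => X v ω) n) := by
  have h : (fun ω => greedy d (fun v => X v ω) n) =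
      (saws d n).sup' (saws_nonempty d n hd) (fun γ ω => ∑ i : Fin n, X (γ i.succ) ω) := by
    funext ω
    rw [greedy_eq_sup' d hd, Finset.sup'_apply]
  rw [h]
  exact Finset.measurable_sup' _ fun γ _ => Finset.measurable_sum _ fun i _ => hX _

theorem integrable_greedy {Ω : Type*} [MeasurableSpace Ω] (P : Measure Ω) [IsFiniteMeasure P]
    {d : ℕ} (hd : 1 ≤ d) {X : (Fin d → ℤ) → Ω → ℝ} (hX : ∀ v, Measurable (X v)) {lo hi : ℝ}
    (hb : ∀ v ω, lo ≤ X v ω ∧ X v ω ≤ hi) (n : ℕ) :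
    Integrable (fun ω => greedy d (fun v => X v ω) n) P := by
  refine Integrable.of_bound (measurable_greedy hd hX n).aestronglyMeasurable
    (max |n * lo| |n * hi|) (Filter.Eventually.of_forall fun ω => ?_)
  have h1 := const_le_greedy hd (fun v => (hb v ω).1) n
  have h2 := greedy_le_const hd (fun v => (hb v ω).2) n
  rw [Real.norm_eq_abs]
  exact abs_le_max_abs_abs h1 h2

/-- Composition with a measurable function preserves i.i.d. families. -/
theorem IsIID.comp {Ω : Type*} [MeasurableSpace Ω] {P : Measure Ω} {d : ℕ}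
    {X : (Fin d → ℤ) → Ω → ℝ} (h : IsIID P d X) {g : ℝ → ℝ} (hg : Measurable g) :
    IsIID P d (fun v ω => g (X v ω)) := by
  refine ⟨fun v => hg.comp (h.1 v), ?_, fun v => ?_⟩
  · exact h.2.1.comp (fun _ => g) (fun _ => hg)
  · exact (h.2.2 v).comp hg

end Pool.Agent.Helper82.GP
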