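import Pool.Agent.Helper82.GP.Defs

/-!
Geometry of the strands inside a region.
-/

namespace Pool.Agent.Helper82.GP
namespace GeoL

variable {β : Type*} {GB : SimpleGraph β}

/-- Joined inside a set. -/
def Jn (GB : SimpleGraph β) (S : Set (ℤ × β)) (u v : ℤ × β) : Prop :=
  ∃ w : (LG GB).Walk u v, ∀ x ∈ w.support, x ∈ S

theorem Jn.refl {S : Set (ℤ × β)} {u : ℤ × β} (h : u ∈ S) : Jn GB S u u :=
  ⟨SimpleGraph.Walk.nil, by simpa using h⟩

theorem Jn.symm {S : Set (ℤ × β)} {u v : ℤ × β} (h : Jn GB S u v) : Jn GB S v u := by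
  obtain ⟨w, hw⟩ := h
  exact ⟨w.reverse, fun x hx => hw x (by simpa using hx)⟩

theorem Jn.trans {S : Set (ℤ × β)} {u v x : ℤ × β} (h : Jn GB S u v) (h' : Jn GB S v x) :
    Jn GB S u x := by
  obtain ⟨w, hw⟩ := h
  obtain ⟨w', hw'⟩ := h'
  refine ⟨w.append w', fun y hy => ?_⟩
  rw [SimpleGraph.Walk.mem_support_append_iff] at hy
  exact hy.elim (hw y) (hw' y)

theorem Jn.adj {S : Set (ℤ × β)} {u v : ℤ × β} (h : (LG GB).Adj u v) (hu : u ∈ S) (hv : v ∈ S) :
    Jn GB S u v := by
  refine ⟨SimpleGraph.Walk.cons h SimpleGraph.Walk.nil, fun x hx => ?_⟩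
  simp only [SimpleGraph.Walk.support_cons, SimpleGraph.Walk.support_nil, List.mem_cons,
    List.not_mem_nil, or_false] at hx
  rcases hx with rfl | rfl
  · exact hu
  · exact hv

theorem vert {S : Set (ℤ × β)} (x : β) (s : ℤ) (n : ℕ)
    (h : ∀ t, s ≤ t → t ≤ s + n → (t, x) ∈ S) : Jn GB S (s, x) (s + n, x) := by
  induction n with
  | zero =>
    have := h s le_rfl (by simp)
    simpa using Jn.refl (GB := GB) this
  | succ n ih =>
    have h1 := ih fun t ht1 ht2 => h t ht1 (by push_cast; omega)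
    refine h1.trans (Jn.adj (Or.inl ⟨rfl, ?_⟩) (h _ (by omega) (by push_cast; omega))
      (h _ (by omega) le_rfl))
    simp only
    push_cast
    rw [show (s + (n : ℤ) - (s + (n + 1))) = -1 by ring]
    simp

theorem vert' {S : Set (ℤ × β)} (x : β) (s t : ℤ)
    (h : ∀ r, min s t ≤ r → r ≤ max s t → (r, x) ∈ S) : Jn GB S (s, x) (t, x) := by
  rcases le_total s t with h1 | h1
  · obtain ⟨n, hn⟩ := Int.le.dest h1
    rw [← hn]
    refine vert x s n fun r hr1 hr2 => h r ?_ ?_
    · rw [min_eq_left h1]; exact hr1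
    · rw [max_eq_right h1]; omega
  · obtain ⟨n, hn⟩ := Int.le.dest h1
    rw [← hn]
    refine (vert x t n fun r hr1 hr2 => h r ?_ ?_).symm
    · rw [min_eq_right h1]; exact hr1
    · rw [max_eq_left h1]; omega

/-- A two-row band over consecutive columns is connected. -/
theorem band {S : Set (ℤ × β)} (z : ℕ → β) (f : ℕ → ℤ) (u n : ℕ)
    (hadj : ∀ i, u ≤ i → i < u + n → GB.Adj (z i) (z (i + 1)))
    (hlip : ∀ i, u ≤ i → i < u + n → |f i - f (i + 1)| ≤ 1)
    (h : ∀ i, u ≤ i → i ≤ u + n → (f i, z i) ∈ S ∧ (f i + 1, z i) ∈ S) :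
    Jn GB S (f u + 1, z u) (f (u + n) + 1, z (u + n)) := by
  induction n with
  | zero => exact Jn.refl (h u le_rfl (by simp)).2
  | succ n ih =>
    have h1 := ih (fun i hi1 hi2 => hadj i hi1 (by omega)) (fun i hi1 hi2 => hlip i hi1 (by omega))
      (fun i hi1 hi2 => h i hi1 (by omega))
    have hA := h (u + n) (by omega) (by omega)
    have hB := h (u + (n + 1)) (by omega) (by omega)
    have hL := abs_le.1 (hlip (u + n) (by omega) (by omega))
    rw [show u + n + 1 = u + (n + 1) by omega] at hL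
    set t := min (f (u + n)) (f (u + (n + 1))) + 1 with ht
    have ht1 : t = f (u + n) ∨ t = f (u + n) + 1 := by omega
    have ht2 : t = f (u + (n + 1)) ∨ t = f (u + (n + 1)) + 1 := by omega
    have hAt : (t, z (u + n)) ∈ S := by
      rcases ht1 with h | h <;> rw [h]
      · exact hA.1
      · exact hA.2
    have hBt : (t, z (u + (n + 1))) ∈ S := by
      rcases ht2 with h | h <;> rw [h]
      · exact hB.1
      · exact hB.2
    have j1 : Jn GB S (f (u + n) + 1, z (u + n)) (t, z (u + n)) := by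
      refine vert' _ _ _ fun r hr1 hr2 => ?_
      have hr : r = f (u + n) ∨ r = f (u + n) + 1 := by omega
      rcases hr with h | h <;> rw [h]
      · exact hA.1
      · exact hA.2
    have j2 : Jn GB S (t, z (u + n)) (t, z (u + (n + 1))) :=
      Jn.adj (Or.inr ⟨rfl, hadj (u + n) (by omega) (by omega)⟩) hAt hBt
    have j3 : Jn GB S (t, z (u + (n + 1))) (f (u + (n + 1)) + 1, z (u + (n + 1))) := by
      refine vert' _ _ _ fun r hr1 hr2 => ?_
      have hr : r = f (u + (n + 1)) ∨ r = f (u + (n + 1)) + 1 := by omega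
      rcases hr with h | h <;> rw [h]
      · exact hB.1
      · exact hB.2
    exact ((h1.trans j1).trans j2).trans j3

/-- The region of a strand. -/
def RegS (r : Region β) (l p q : ℕ) : Set (ℤ × β) :=
  {v | ∃ i < r.m, v.2 = r.z i ∧
    ((p ≤ i ∧ i ≤ q ∧ i + l ≤ r.m ∧ r.a i + (2 * l - 1) ≤ v.1 ∧ v.1 ≤ r.a i + 2 * l) ∨
     (p + i + 1 ≤ 2 * r.m ∧ 2 * r.m ≤ q + i + 1 ∧ i + l ≤ r.m ∧ r.b i - 2 * l ≤ v.1 ∧
        v.1 ≤ r.b i - (2 * l - 1)) ∨
     (i + l = r.m ∧ p ≤ i ∧ 2 * r.m ≤ q + i + 1 ∧ r.a i + (2 * l - 1) ≤ v.1 ∧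
        v.1 ≤ r.b i - (2 * l - 1)) ∨
     (i = p ∧ r.a i ≤ v.1 ∧ v.1 ≤ r.a i + 2 * l) ∨
     (i + p + 1 = 2 * r.m ∧ r.b i - 2 * l ≤ v.1 ∧ v.1 ≤ r.b i) ∨
     (i = q ∧ r.a i ≤ v.1 ∧ v.1 ≤ r.a i + 2 * l) ∨
     (i + q + 1 = 2 * r.m ∧ r.b i - 2 * l ≤ v.1 ∧ v.1 ≤ r.b i))}

theorem col_iff {r : Region β} {p : ℕ} (h2 : r.col p + 3 < r.m) :
    p + 3 < r.m ∨ r.m + 2 < p := by
  unfold Region.col at h2
  split_ifs at h2 <;> omega

theorem reg_coll {r : Region β} (hr : r.Good GB) {l p q : ℕ} (hl1 : 1 ≤ l) (hl3 : l ≤ 3)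
    {v : ℤ × β} (hv : v ∈ RegS r l p q) : v ∈ r.coll := by
  obtain ⟨i, hi, hz, h⟩ := hv
  have ht := hr.thick i hi
  refine ⟨i, hi, hz, ?_, ?_, ?_⟩ <;>
    rcases h with h | h | h | h | h | h | h <;> omega

theorem reg_site {r : Region β} (hr : r.Good GB) {l p q : ℕ} (hl1 : 1 ≤ l) (hl3 : l ≤ 3)
    (hpq : p < q) (hq : q < 2 * r.m) {c : ℕ} (hc : c < 2 * r.m) (h : r.site c ∈ RegS r l p q) :
    c = p ∨ c = q := by
  unfold Region.site at h
  split_ifs at h with h1
  · obtain ⟨i, hi, hz, h⟩ := h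
    have := hr.inj h1 hi hz
    subst this
    have ht := hr.thick c hi
    simp only at h
    rcases h with h | h | h | h | h | h | h <;> omega
  · obtain ⟨i, hi, hz, h⟩ := h
    have h3 : 2 * r.m - 1 - c < r.m := by omega
    have := hr.inj h3 hi hz
    have ht := hr.thick i hi
    simp only [this] at h
    rcases h with h | h | h | h | h | h | h <;> omega

theorem reg_disj {r : Region β} (hr : r.Good GB) {l p q l' p' q' : ℕ} (hl1 : 1 ≤ l) (hl3 : l ≤ 3)
    (hl1' : 1 ≤ l') (hl3' : l' ≤ 3) (hpq : p < q) (hq : q < 2 * r.m)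
    (hp3 : r.col p + 3 < r.m) (hq3 : r.col q + 3 < r.m)
    (hpq' : p' < q') (hq' : q' < 2 * r.m) (hp3' : r.col p' + 3 < r.m)
    (hq3' : r.col q' + 3 < r.m) (h : q < p' ∨ (l < l' ∧ p' < p ∧ q < q')) :
    Disjoint (RegS r l p q) (RegS r l' p' q') := by
  rw [Set.disjoint_left]
  rintro v ⟨i, hi, hz, h1⟩ ⟨j, hj, hz', h2⟩
  have := hr.inj hi hj (hz.symm.trans hz')
  subst this
  have ht := hr.thick i hi
  have c1 := col_iff hp3
  have c2 := col_iff hq3
  have c3 := col_iff hp3'
  have c4 := col_iff hq3'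
  rcases h1 with h1 | h1 | h1 | h1 | h1 | h1 | h1 <;>
    rcases h2 with h2 | h2 | h2 | h2 | h2 | h2 | h2 <;> omega

theorem reg_conn {r : Region β} (hr : r.Good GB) {l p q : ℕ} (hl1 : 1 ≤ l) (hl3 : l ≤ 3)
    (hpq : p < q) (hq : q < 2 * r.m) (hp3 : r.col p + 3 < r.m) (hq3 : r.col q + 3 < r.m) :
    Jn GB (RegS r l p q) (r.site p) (r.site q) := by
  have c1 := col_iff hp3
  have c2 := col_iff hq3
  have hadjm : ∀ i, i + 1 < r.m → GB.Adj (r.z i) (r.z (i + 1)) := hr.adj
  -- ends
  have endp : ∀ c, (c = p ∨ c = q) → c < r.m →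
      Jn GB (RegS r l p q) (r.site c) (r.a c + 2 * l, r.z c) := by
    intro c hc hcm
    rw [Region.site, if_pos hcm]
    refine vert' _ _ _ fun t ht1 ht2 => ?_
    refine ⟨c, hcm, rfl, ?_⟩
    simp only
    rcases hc with hc | hc
    · right; right; right; left; omega
    · right; right; right; right; right; left; omega
  have endt : ∀ c, (c = p ∨ c = q) → r.m ≤ c → c < 2 * r.m →
      Jn GB (RegS r l p q) (r.site c) (r.b (2 * r.m - 1 - c) - (2 * l - 1), r.z (2 * r.m - 1 - c)) := by
    intro c hc hcm hc2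
    rw [Region.site, if_neg (by omega)]
    refine vert' _ _ _ fun t ht1 ht2 => ?_
    refine ⟨2 * r.m - 1 - c, by omega, rfl, ?_⟩
    simp only
    rcases hc with hc | hc
    · right; right; right; right; left; omega
    · right; right; right; right; right; right; omega
  rcases c2 with c2 | c2
  · -- both at the bottom
    have hqm : q < r.m := by omega
    have hpm : p < r.m := by omega
    have hb := band (GB := GB) (S := RegS r l p q) r.z (fun i => r.a i + (2 * l - 1)) p (q - p)
      (fun i _ hi => hadjm i (by omega))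
      (fun i _ hi => by
        have := hr.lip_a i (by omega)
        simpa using this)
      (fun i hi1 hi2 => by
        constructor
        · refine ⟨i, by omega, rfl, Or.inl ?_⟩
          simp only
          omega
        · refine ⟨i, by omega, rfl, Or.inl ?_⟩
          simp only
          omega)
    rw [show p + (q - p) = q by omega] at hb
    simp only [show ∀ x : ℤ, x + (2 * (l : ℤ) - 1) + 1 = x + 2 * l from fun x => by ring] at hb
    exact ((endp p (Or.inl rfl) hpm).trans hb).trans (endp q (Or.inr rfl) hqm).symm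
  · have hqm : r.m ≤ q := by omega
    set cq := 2 * r.m - 1 - q with hcq
    rcases c1 with c1 | c1
    · -- from the bottom to the top
      have hpm : p < r.m := by omega
      set w := r.m - l with hw
      have hb := band (GB := GB) (S := RegS r l p q) r.z (fun i => r.a i + (2 * l - 1)) p (w - p)
        (fun i _ hi => hadjm i (by omega))
        (fun i _ hi => by
          have := hr.lip_a i (by omega)
          simpa using this)
        (fun i hi1 hi2 => by
          constructor
          · refine ⟨i, by omega, rfl, Or.inl ?_⟩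
            simp only
            omega
          · refine ⟨i, by omega, rfl, Or.inl ?_⟩
            simp only
            omega)
      rw [show p + (w - p) = w by omega] at hb
      simp only [show ∀ x : ℤ, x + (2 * (l : ℤ) - 1) + 1 = x + 2 * l from fun x => by ring] at hb
      have hwm : w < r.m := by omega
      have htw := hr.thick w hwm
      have hturn : Jn GB (RegS r l p q) (r.a w + 2 * l, r.z w) (r.b w - (2 * l - 1), r.z w) := by
        refine vert' _ _ _ fun t ht1 ht2 => ?_
        refine ⟨w, hwm, rfl, Or.inr (Or.inr (Or.inl ?_))⟩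
        simp only
        omega
      have hb2 := band (GB := GB) (S := RegS r l p q) r.z (fun i => r.b i - 2 * l) cq (w - cq)
        (fun i _ hi => hadjm i (by omega))
        (fun i _ hi => by
          have := hr.lip_b i (by omega)
          simpa using this)
        (fun i hi1 hi2 => by
          constructor
          · refine ⟨i, by omega, rfl, Or.inr (Or.inl ?_)⟩
            simp only
            omega
          · refine ⟨i, by omega, rfl, Or.inr (Or.inl ?_)⟩
            simp only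
            omega)
      rw [show cq + (w - cq) = w by omega] at hb2
      simp only [show ∀ x : ℤ, x - 2 * (l : ℤ) + 1 = x - (2 * l - 1) from fun x => by ring] at hb2
      exact ((((endp p (Or.inl rfl) hpm).trans hb).trans hturn).trans hb2.symm).trans
        (endt q (Or.inr rfl) hqm hq).symm
    · -- both at the top
      have hpm : r.m ≤ p := by omega
      set cp := 2 * r.m - 1 - p with hcp
      have hb2 := band (GB := GB) (S := RegS r l p q) r.z (fun i => r.b i - 2 * l) cq (cp - cq)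
        (fun i _ hi => hadjm i (by omega))
        (fun i _ hi => by
          have := hr.lip_b i (by omega)
          simpa using this)
        (fun i hi1 hi2 => by
          constructor
          · refine ⟨i, by omega, rfl, Or.inr (Or.inl ?_)⟩
            simp only
            omega
          · refine ⟨i, by omega, rfl, Or.inr (Or.inl ?_)⟩
            simp only
            omega)
      rw [show cq + (cp - cq) = cp by omega] at hb2
      simp only [show ∀ x : ℤ, x - 2 * (l : ℤ) + 1 = x - (2 * l - 1) from fun x => by ring] at hb2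
      exact ((endt p (Or.inl rfl) hpm (by omega)).trans hb2.symm).trans
        (endt q (Or.inr rfl) hqm hq).symm

end GeoL

open GeoL in
theorem geo {β : Type*} (GB : SimpleGraph β) (r : Region β) (hr : r.Good GB) :
    ∃ Reg : ℕ → ℕ → ℕ → Set (ℤ × β),
      (∀ l p q, 1 ≤ l → l ≤ 3 → p < q → q < 2 * r.m → r.col p + 3 < r.m → r.col q + 3 < r.m →
        ∃ w : (LG GB).Walk (r.site p) (r.site q), ∀ v ∈ w.support, v ∈ Reg l p q) ∧
      (∀ l p q, 1 ≤ l → l ≤ 3 → p < q → q < 2 * r.m → r.col p + 3 < r.m → r.col q + 3 < r.m →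
        ∀ v ∈ Reg l p q, v ∈ r.coll) ∧
      (∀ l p q, 1 ≤ l → l ≤ 3 → p < q → q < 2 * r.m → r.col p + 3 < r.m → r.col q + 3 < r.m →
        ∀ c < 2 * r.m, r.site c ∈ Reg l p q → c = p ∨ c = q) ∧
      (∀ l p q l' p' q', 1 ≤ l → l ≤ 3 → 1 ≤ l' → l' ≤ 3 →
        p < q → q < 2 * r.m → r.col p + 3 < r.m → r.col q + 3 < r.m →
        p' < q' → q' < 2 * r.m → r.col p' + 3 < r.m → r.col q' + 3 < r.m →
        (q < p' ∨ (l < l' ∧ p' < p ∧ q < q')) → Disjoint (Reg l p q) (Reg l' p' q')) := by
  refine ⟨RegS r, ?_, ?_, ?_, ?_⟩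
  · intro l p q h1 h2 h3 h4 h5 h6
    exact reg_conn hr h1 h2 h3 h4 h5 h6
  · intro l p q h1 h2 h3 h4 h5 h6 v hv
    exact reg_coll hr h1 h2 hv
  · intro l p q h1 h2 h3 h4 h5 h6 c hc h
    exact reg_site hr h1 h2 h3 h4 hc h
  · intro l p q l' p' q' h1 h2 h3 h4 h5 h6 h7 h8 h9 h10 h11 h12 h13
    exact reg_disj hr h1 h2 h3 h4 h5 h6 h7 h8 h9 h10 h11 h12 h13

end Pool.Agent.Helper82.GP
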