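import Pool.Agent.Helper82.GP.Defs

/-!
The abstract merging lemma.
-/

namespace Pool.Agent.Helper82.GP

/-- Two arcs of the linking are equal, or separated, or nested. -/
theorem arc_tri {q : ℕ} {op : ℕ → Prop} (h0 : op 0) {l i j l' i' j' : ℕ} (h : Arc q op l i j)
    (h' : Arc q op l' i' j') :
    (l = l' ∧ i = i' ∧ j = j') ∨ j < i' ∨ j' < i ∨ (l < l' ∧ i' < i ∧ j < j') ∨
      (l' < l ∧ i < i' ∧ j' < j) := by
  rcases h with ⟨t, ht, h1⟩ | ⟨t, s, hts, hs, h1, h2, h3⟩ | ⟨t, ht, h1, h2⟩ <;>
    rcases h' with ⟨t', ht', h1'⟩ | ⟨t', s', hts', hs', h1', h2', h3'⟩ | ⟨t', ht', h1', h2'⟩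
  · rcases lt_trichotomy t t' with h | h | h
    · right; left; omega
    · left; omega
    · right; right; left; omega
  · -- low t, mid (2t'+1, 2s')
    rcases lt_or_ge t' t with h | h
    · rcases lt_or_ge t s' with h4 | h4
      · right; right; right; left; omega
      · rcases eq_or_lt_of_le h4 with h5 | h5
        · exact absurd (h5 ▸ h2') h1
        · right; right; left; omega
    · rcases eq_or_lt_of_le h with h5 | h5
      · exact absurd (h5 ▸ h1') h1
      · right; left; omega
  · -- low t, outer t'
    rcases lt_trichotomy t t' with h | h | h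
    · have : t ≠ 0 := by
        rintro rfl
        exact h1 h0
      right; right; right; left; omega
    · exact absurd (h ▸ h1') h1
    · right; right; left; omega
  · -- mid, low
    rcases lt_or_ge t t' with h | h
    · rcases lt_or_ge t' s with h4 | h4
      · right; right; right; right; omega
      · rcases eq_or_lt_of_le h4 with h5 | h5
        · exact absurd (h5 ▸ h2) h1'
        · right; left; omega
    · rcases eq_or_lt_of_le h with h5 | h5
      · exact absurd (h5 ▸ h1) h1'
      · right; right; left; omega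
  · -- mid, mid
    rcases lt_trichotomy t t' with h | h | h
    · have : s ≤ t' := by
        by_contra hc
        exact h3 t' h (by omega) h1'
      right; left; omega
    · have : s = s' := by
        subst h
        rcases lt_trichotomy s s' with h4 | h4 | h4
        · exact absurd h2 (h3' s hts h4)
        · exact h4
        · exact absurd h2' (h3 s' hts' h4)
      left; omega
    · have : s' ≤ t := by
        by_contra hc
        exact h3' t h (by omega) h1
      right; right; left; omega
  · -- mid, outer
    have h4 : s ≤ t' := by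
      by_contra hc
      exact h2' s (by omega) hs h2
    right; right; right; left; omega
  · -- outer, low
    rcases lt_trichotomy t' t with h | h | h
    · have : t' ≠ 0 := by
        rintro rfl
        exact h1' h0
      right; right; right; right; omega
    · exact absurd (h ▸ h1) h1'
    · right; left; omega
  · -- outer, mid
    have h4 : s' ≤ t := by
      by_contra hc
      exact h2 s' (by omega) hs' h2'
    right; right; right; right; omega
  · -- outer, outer
    have : t = t' := by
      rcases lt_trichotomy t t' with h4 | h4 | h4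
      · exact absurd h1' (h2 t' h4 ht')
      · exact h4
      · exact absurd h1 (h2' t h4 ht)
    left; omega

theorem arc_lt {q : ℕ} {op : ℕ → Prop} {l i j : ℕ} (h : Arc q op l i j) :
    1 ≤ l ∧ l ≤ 3 ∧ i < j ∧ j < 2 * q := by
  rcases h with ⟨t, ht, h1⟩ | ⟨t, s, hts, hs, h1, h2, h3⟩ | ⟨t, ht, h1, h2⟩ <;> omega

/-- Every index is an end of an arc. -/
theorem arc_exists {q : ℕ} {op : ℕ → Prop} (h0 : op 0) {i : ℕ} (hi : i < 2 * q) :
    ∃ l j, Arc q op l i j ∨ Arc q op l j i := by
  classical
  rcases Nat.even_or_odd' i with ⟨t, rfl | rfl⟩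
  · by_cases ht : op t
    · rcases Nat.eq_zero_or_pos t with h | h
      · subst h
        -- the outer arc
        set J := Nat.findGreatest (fun u => op u) (q - 1) with hJ
        have h1 : op J := Nat.findGreatest_spec (P := fun u => op u) (Nat.zero_le (q - 1)) h0
        have h2 : J ≤ q - 1 := Nat.findGreatest_le _
        refine ⟨3, 2 * J + 1, Or.inl ?_⟩
        exact Arc.outer J (by omega) h1 fun u hu1 hu2 hu3 => by
          have := Nat.le_findGreatest (P := fun u => op u) (show u ≤ q - 1 by omega) hu3
          omega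
      · set s := Nat.findGreatest (fun u => op u) (t - 1) with hs
        have h1 : op s := Nat.findGreatest_spec (P := fun u => op u) (Nat.zero_le (t - 1)) h0
        have h2 : s ≤ t - 1 := Nat.findGreatest_le _
        refine ⟨2, 2 * s + 1, Or.inr ?_⟩
        exact Arc.mid s t (by omega) (by omega) h1 ht fun u hu1 hu2 hu3 => by
          have := Nat.le_findGreatest (P := fun u => op u) (show u ≤ t - 1 by omega) hu3
          omega
    · exact ⟨1, 2 * t + 1, Or.inl (Arc.low t (by omega) ht)⟩
  · by_cases ht : op t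
    · by_cases hn : ∃ s, t < s ∧ s < q ∧ op s
      · have hn' : ∃ s, t < s ∧ s < q ∧ op s := hn
        set s := Nat.find hn' with hs
        obtain ⟨h1, h2, h3⟩ := Nat.find_spec hn'
        rw [← hs] at h1 h2 h3
        refine ⟨2, 2 * s, Or.inl ?_⟩
        exact Arc.mid t s h1 h2 ht h3 fun u hu1 hu2 hu3 =>
          Nat.find_min hn' hu2 ⟨hu1, by omega, hu3⟩
      · refine ⟨3, 0, Or.inr ?_⟩
        exact Arc.outer t (by omega) ht fun u hu1 hu2 hu3 => hn ⟨u, hu1, hu2, hu3⟩
    · exact ⟨1, 2 * t, Or.inr (Arc.low t (by omega) ht)⟩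

namespace MergeL

variable {E : Type*} {q : ℕ} {e : ℕ → E} {x0 x1 : E}

/-- The linking together with the swap pair. -/
def Mt (q : ℕ) (e : ℕ → E) (x0 x1 : E) (op : ℕ → Prop) (u v : E) : Prop :=
  Lk q e op u v ∨ (u = x0 ∧ v = x1) ∨ (u = x1 ∧ v = x0)

theorem Lk_symm {op : ℕ → Prop} {u v : E} (h : Lk q e op u v) : Lk q e op v u := by
  obtain ⟨l, i, j, h1, h2 | h2⟩ := h
  · exact ⟨l, i, j, h1, Or.inr ⟨h2.2, h2.1⟩⟩
  · exact ⟨l, i, j, h1, Or.inl ⟨h2.2, h2.1⟩⟩

theorem Mt_symm {op : ℕ → Prop} {u v : E} (h : Mt q e x0 x1 op u v) :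
    Mt q e x0 x1 op v u := by
  rcases h with h | h | h
  · exact Or.inl (Lk_symm h)
  · exact Or.inr (Or.inr ⟨h.2, h.1⟩)
  · exact Or.inr (Or.inl ⟨h.2, h.1⟩)

theorem Lk_ends {op : ℕ → Prop} {u v : E} (h : Lk q e op u v) :
    ∃ i < 2 * q, u = e i := by
  obtain ⟨l, i, j, h1, h2 | h2⟩ := h
  · exact ⟨i, by have := arc_lt h1; omega, h2.1⟩
  · exact ⟨j, by have := arc_lt h1; omega, h2.1⟩

theorem Lk_unique (hinj : Set.InjOn e (Set.Iio (2 * q))) {op : ℕ → Prop} (h0 : op 0) {u v w : E}
    (h : Lk q e op u v) (h' : Lk q e op u w) : v = w := by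
  obtain ⟨l, i, j, h1, h2⟩ := h
  obtain ⟨l', i', j', h1', h2'⟩ := h'
  have a1 := arc_lt h1
  have a2 := arc_lt h1'
  have ht := arc_tri h0 h1 h1'
  have hin : ∀ a b, a < 2 * q → b < 2 * q → e a = e b → a = b := fun a b ha hb hab =>
    hinj ha hb hab
  rcases h2 with ⟨h2, h3⟩ | ⟨h2, h3⟩ <;> rcases h2' with ⟨h2', h3'⟩ | ⟨h2', h3'⟩
  · have h4 := hin i i' (by omega) (by omega) (h2.symm.trans h2')
    have h5 : j = j' := by omega
    rw [h3, h3', h5]
  · have h4 := hin i j' (by omega) (by omega) (h2.symm.trans h2')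
    omega
  · have h4 := hin j i' (by omega) (by omega) (h2.symm.trans h2')
    omega
  · have h4 := hin j j' (by omega) (by omega) (h2.symm.trans h2')
    have h5 : i = i' := by omega
    rw [h3, h3', h5]

theorem Mt_unique (hinj : Set.InjOn e (Set.Iio (2 * q))) (hx : x0 ≠ x1)
    (hx0 : ∀ i < 2 * q, e i ≠ x0) (hx1 : ∀ i < 2 * q, e i ≠ x1)
    {op : ℕ → Prop} (h0 : op 0) {u v w : E}
    (h : Mt q e x0 x1 op u v) (h' : Mt q e x0 x1 op u w) : v = w := by
  rcases h with h | ⟨h1, h2⟩ | ⟨h1, h2⟩ <;> rcases h' with h' | ⟨h1', h2'⟩ | ⟨h1', h2'⟩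
  · exact Lk_unique hinj h0 h h'
  · obtain ⟨i, hi, hi2⟩ := Lk_ends h
    exact absurd (hi2.symm.trans h1') (hx0 i hi)
  · obtain ⟨i, hi, hi2⟩ := Lk_ends h
    exact absurd (hi2.symm.trans h1') (hx1 i hi)
  · obtain ⟨i, hi, hi2⟩ := Lk_ends h'
    exact absurd (hi2.symm.trans h1) (hx0 i hi)
  · rw [h2, h2']
  · exact absurd (h1.symm.trans h1') hx
  · obtain ⟨i, hi, hi2⟩ := Lk_ends h'
    exact absurd (hi2.symm.trans h1) (hx1 i hi)
  · exact absurd (h1'.symm.trans h1) hx
  · rw [h2, h2']

theorem Lk_exists {op : ℕ → Prop} (h0 : op 0) {i : ℕ} (hi : i < 2 * q) :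
    ∃ j < 2 * q, j ≠ i ∧ Lk q e op (e i) (e j) := by
  obtain ⟨l, j, h | h⟩ := arc_exists h0 hi
  · have := arc_lt h
    exact ⟨j, by omega, by omega, l, i, j, h, Or.inl ⟨rfl, rfl⟩⟩
  · have := arc_lt h
    exact ⟨j, by omega, by omega, l, j, i, h, Or.inr ⟨rfl, rfl⟩⟩

/-- The parity argument. -/
theorem par [DecidableEq E] (M : E → E → Prop) (hMs : ∀ u v, M u v → M v u)
    (hMu : ∀ u v w, M u v → M u w → v = w) (C : Finset E) (hC : Even C.card) (a : E) (ha : a ∈ C)
    (h : ∀ x ∈ C, x ≠ a → ∃ y ∈ C, y ≠ a ∧ y ≠ x ∧ M x y) : False := by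
  choose! f hf1 hf2 hf3 hf4 using h
  have h1 : ∑ x ∈ C.erase a, (1 : ZMod 2) = 0 := by
    refine Finset.sum_involution (fun x _ => f x) ?_ ?_ ?_ ?_
    · intro x _
      decide
    · intro x hx _
      rw [Finset.mem_erase] at hx
      exact hf3 x hx.2 hx.1
    · intro x hx
      rw [Finset.mem_erase] at hx ⊢
      exact ⟨hf2 x hx.2 hx.1, hf1 x hx.2 hx.1⟩
    · intro x hx
      rw [Finset.mem_erase] at hx
      have h3 := hf4 x hx.2 hx.1
      have h4 := hf4 (f x) (hf1 x hx.2 hx.1) (hf2 x hx.2 hx.1)
      exact hMu _ _ _ h4 (hMs _ _ h3)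
  rw [Finset.sum_const, nsmul_eq_mul, mul_one, Finset.card_erase_of_mem ha,
    ZMod.natCast_eq_zero_iff] at h1
  have h2 : 0 < C.card := Finset.card_pos.2 ⟨a, ha⟩
  obtain ⟨t, ht⟩ := hC
  omega

end MergeL

open MergeL in
theorem merge {E : Type*} [Fintype E] [DecidableEq E] (q : ℕ) (e : ℕ → E) (x0 x1 : E)
    (hinj : Set.InjOn e (Set.Iio (2 * q))) (hx : x0 ≠ x1)
    (hx0 : ∀ i < 2 * q, e i ≠ x0) (hx1 : ∀ i < 2 * q, e i ≠ x1)
    (hE : ∀ x, x = x0 ∨ x = x1 ∨ ∃ i < 2 * q, x = e i)
    (r : E → E → Prop) (hsymm : ∀ x y, r x y → r y x)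
    (heven : ∀ C : Finset E, (∀ x ∈ C, ∀ y, r x y → y ∈ C) → Even C.card)
    (h0 : ∃ i < 2 * q, r x0 (e i)) :
    ∃ op : ℕ → Prop, op 0 ∧
      ∀ x, Relation.ReflTransGen (fun u v => r u v ∨ Lk q e op u v) x0 x := by
  classical
  have hinj' : ∀ a b, a < 2 * q → b < 2 * q → e a = e b → a = b := fun a b ha hb hab =>
    hinj ha hb hab
  have hq : 1 ≤ q := by
    obtain ⟨i, hi, _⟩ := h0
    omega
  set RL : (ℕ → Prop) → E → E → Prop := fun op u v => r u v ∨ Mt q e x0 x1 op u v with hRL
  have hRLs : ∀ op u v, RL op u v → RL op v u := by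
    rintro op u v (h | h)
    · exact Or.inl (hsymm _ _ h)
    · exact Or.inr (Mt_symm h)
  have hCs : ∀ op u v, Relation.ReflTransGen (RL op) u v → Relation.ReflTransGen (RL op) v u := by
    intro op u v h
    induction h with
    | refl => exact Relation.ReflTransGen.refl
    | tail _ h2 ih2 => exact Relation.ReflTransGen.head (hRLs op _ _ h2) ih2
  -- the greedy construction
  have hgreedy : ∀ j, 1 ≤ j → j ≤ q → ∃ op : ℕ → Prop, op 0 ∧ (∀ t, j ≤ t → ¬ op t) ∧
      ∀ i < 2 * j, Relation.ReflTransGen (RL op) (e 0) (e i) := by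
    intro j hj
    induction j, hj using Nat.le_induction with
    | base =>
      intro _
      refine ⟨fun t => t = 0, rfl, fun t ht h => by omega, ?_⟩
      intro i hi
      rcases Nat.eq_zero_or_pos i with h | h
      · rw [h]
      · have hi1 : i = 1 := by omega
        subst hi1
        refine Relation.ReflTransGen.single (Or.inr (Or.inl ⟨3, 0, 2 * 0 + 1, ?_, Or.inl
          ⟨rfl, rfl⟩⟩))
        exact Arc.outer 0 hq rfl fun u hu1 _ hu2 => by omega
    | succ j hj ih =>
      intro hjq
      obtain ⟨op, hop0, hopj, hall⟩ := ih (by omega)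
      by_cases hcon : Relation.ReflTransGen (RL op) (e 0) (e (2 * j))
      · refine ⟨op, hop0, fun t ht => hopj t (by omega), ?_⟩
        intro i hi
        rcases Nat.lt_or_ge i (2 * j) with h | h
        · exact hall i h
        · rcases eq_or_lt_of_le h with h | h
          · rw [← h]; exact hcon
          · have hi1 : i = 2 * j + 1 := by omega
            subst hi1
            refine hcon.tail (Or.inr (Or.inl ⟨1, 2 * j, 2 * j + 1, ?_, Or.inl ⟨rfl, rfl⟩⟩))
            exact Arc.low j (by omega) (hopj j le_rfl)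
      · -- open the pair `j`
        set J := Nat.findGreatest (fun u => op u) (j - 1) with hJ
        have hJ1 : op J := Nat.findGreatest_spec (P := fun u => op u) (Nat.zero_le (j - 1)) hop0
        have hJ2 : J ≤ j - 1 := Nat.findGreatest_le _
        have hJ3 : ∀ u, J < u → ¬ op u := by
          intro u hu1 hu2
          rcases Nat.lt_or_ge u j with h | h
          · have := Nat.le_findGreatest (P := fun u => op u) (show u ≤ j - 1 by omega) hu2
            omega
          · exact hopj u h hu2
        set op' : ℕ → Prop := fun t => op t ∨ t = j with hop'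
        have houter : Arc q op 3 0 (2 * J + 1) :=
          Arc.outer J (by omega) hJ1 fun u hu1 _ hu2 => hJ3 u hu1 hu2
        have hlow : Arc q op 1 (2 * j) (2 * j + 1) := Arc.low j (by omega) (hopj j le_rfl)
        have hmid' : Arc q op' 2 (2 * J + 1) (2 * j) :=
          Arc.mid J j (by omega) (by omega) (Or.inl hJ1) (Or.inr rfl) fun u hu1 hu2 hu3 => by
            rcases hu3 with h | h
            · exact hJ3 u hu1 h
            · omega
        have houter' : Arc q op' 3 0 (2 * j + 1) :=
          Arc.outer j (by omega) (Or.inr rfl) fun u hu1 _ hu3 => by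
            rcases hu3 with h | h
            · exact hopj u (by omega) h
            · omega
        -- arcs of `op` other than these two are arcs of `op'`
        have hkeep : ∀ l a b, Arc q op l a b → (a = 0 ∧ b = 2 * J + 1) ∨
            (a = 2 * j ∧ b = 2 * j + 1) ∨ Arc q op' l a b := by
          rintro l a b (⟨t, ht, h⟩ | ⟨t, s, hts, hs, h1, h2, h3⟩ | ⟨t, ht, h1, h2⟩)
          · rcases eq_or_ne t j with h4 | h4
            · right; left; omega
            · right; right
              exact Arc.low t ht fun h5 => h5.elim h h4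
          · right; right
            refine Arc.mid t s hts hs (Or.inl h1) (Or.inl h2) fun u hu1 hu2 hu3 => ?_
            rcases hu3 with h4 | h4
            · exact h3 u hu1 hu2 h4
            · have : ¬ op s := hopj s (by omega)
              exact this h2
          · left
            have : t = J := by
              rcases lt_trichotomy t J with h4 | h4 | h4
              · exact absurd hJ1 (h2 J h4 (by omega))
              · exact h4
              · exact absurd h1 (hJ3 t h4)
            omega
        -- the relation without the two arcs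
        set RM : E → E → Prop := fun u v => RL op u v ∧
          ¬ ((u = e 0 ∧ v = e (2 * J + 1)) ∨ (u = e (2 * J + 1) ∧ v = e 0) ∨
            (u = e (2 * j) ∧ v = e (2 * j + 1)) ∨ (u = e (2 * j + 1) ∧ v = e (2 * j))) ∨ r u v
          with hRM
        have hRMRL : ∀ u v, RM u v → RL op u v := by
          rintro u v (h | h)
          · exact h.1
          · exact Or.inl h
        have hRMRL' : ∀ u v, RM u v → RL op' u v := by
          rintro u v (⟨h | h, h2⟩ | h)
          · exact Or.inl h
          · rcases h with ⟨l, a, b, h3, h4⟩ | h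
            · rcases hkeep l a b h3 with ⟨h5, h6⟩ | ⟨h5, h6⟩ | h5
              · exfalso
                subst h5 h6
                apply h2
                rcases h4 with h4 | h4
                · exact Or.inl h4
                · exact Or.inr (Or.inl h4)
              · exfalso
                subst h5 h6
                apply h2
                rcases h4 with h4 | h4
                · exact Or.inr (Or.inr (Or.inl h4))
                · exact Or.inr (Or.inr (Or.inr h4))
              · exact Or.inr (Or.inl ⟨l, a, b, h5, h4⟩)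
            · exact Or.inr (Or.inr h)
          · exact Or.inl h
        have hMu : ∀ u v w, Mt q e x0 x1 op u v → Mt q e x0 x1 op u w → v = w :=
          fun u v w => Mt_unique hinj hx hx0 hx1 hop0
        have hMex : ∀ u, ∃ v, v ≠ u ∧ Mt q e x0 x1 op u v := by
          intro u
          rcases hE u with rfl | rfl | ⟨i, hi, rfl⟩
          · exact ⟨x1, hx.symm, Or.inr (Or.inl ⟨rfl, rfl⟩)⟩
          · exact ⟨x0, hx, Or.inr (Or.inr ⟨rfl, rfl⟩)⟩
          · obtain ⟨k, hk, hki, hL⟩ := Lk_exists (e := e) hop0 hi
            exact ⟨e k, fun h => hki (hinj' _ _ hk hi h), Or.inl hL⟩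
        have hM0 : Mt q e x0 x1 op (e 0) (e (2 * J + 1)) :=
          Or.inl ⟨3, 0, 2 * J + 1, houter, Or.inl ⟨rfl, rfl⟩⟩
        have hMj : Mt q e x0 x1 op (e (2 * j)) (e (2 * j + 1)) :=
          Or.inl ⟨1, 2 * j, 2 * j + 1, hlow, Or.inl ⟨rfl, rfl⟩⟩
        -- class finsets
        have hclass : ∀ a, Even (Finset.univ.filter
            (fun v => Relation.ReflTransGen RM a v)).card := by
          intro a
          apply heven
          intro x hxm y hxy
          rw [Finset.mem_filter] at hxm ⊢
          exact ⟨Finset.mem_univ _, hxm.2.tail (Or.inr hxy)⟩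
        -- claim A
        have hA : Relation.ReflTransGen RM (e 0) (e (2 * J + 1)) := by
          by_contra hA
          refine par (Mt q e x0 x1 op) (fun u v => Mt_symm) hMu _ (hclass (e 0)) (e 0)
            (by simp [Relation.ReflTransGen.refl]) ?_
          intro x hxm hxne
          rw [Finset.mem_filter] at hxm
          obtain ⟨y, hyne, hxy⟩ := hMex x
          have hxJ : x ≠ e (2 * J + 1) := by
            rintro rfl
            exact hA hxm.2
          have hxj : x ≠ e (2 * j) := by
            rintro rfl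
            exact hcon (Relation.ReflTransGen.mono hRMRL _ _ hxm.2)
          have hxj' : x ≠ e (2 * j + 1) := by
            rintro rfl
            exact hcon ((Relation.ReflTransGen.mono hRMRL _ _ hxm.2).tail (Or.inr (Mt_symm hMj)))
          refine ⟨y, ?_, ?_, hyne, hxy⟩
          · rw [Finset.mem_filter]
            refine ⟨Finset.mem_univ _, hxm.2.tail (Or.inl ⟨Or.inr hxy, ?_⟩)⟩
            rintro (h | h | h | h)
            · exact hxne h.1
            · exact hxJ h.1
            · exact hxj h.1
            · exact hxj' h.1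
          · rintro rfl
            exact hxJ (hMu _ _ _ (Mt_symm hxy) hM0)
        -- claim B
        have hB : Relation.ReflTransGen RM (e (2 * j)) (e (2 * j + 1)) := by
          by_contra hB
          refine par (Mt q e x0 x1 op) (fun u v => Mt_symm) hMu _ (hclass (e (2 * j)))
            (e (2 * j)) (by simp [Relation.ReflTransGen.refl]) ?_
          intro x hxm hxne
          rw [Finset.mem_filter] at hxm
          obtain ⟨y, hyne, hxy⟩ := hMex x
          have hx0' : x ≠ e 0 := by
            rintro rfl
            exact hcon (hCs _ _ _ (Relation.ReflTransGen.mono hRMRL _ _ hxm.2))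
          have hxJ : x ≠ e (2 * J + 1) := by
            rintro rfl
            exact hcon (hCs _ _ _ ((Relation.ReflTransGen.mono hRMRL _ _ hxm.2).tail
              (Or.inr (Mt_symm hM0))))
          have hxj' : x ≠ e (2 * j + 1) := by
            rintro rfl
            exact hB hxm.2
          refine ⟨y, ?_, ?_, hyne, hxy⟩
          · rw [Finset.mem_filter]
            refine ⟨Finset.mem_univ _, hxm.2.tail (Or.inl ⟨Or.inr hxy, ?_⟩)⟩
            rintro (h | h | h | h)
            · exact hx0' h.1
            · exact hxJ h.1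
            · exact hxne h.1
            · exact hxj' h.1
          · rintro rfl
            exact hxj' (hMu _ _ _ (Mt_symm hxy) hMj)
        have hA' := Relation.ReflTransGen.mono hRMRL' _ _ hA
        have hB' := Relation.ReflTransGen.mono hRMRL' _ _ hB
        have hstep : ∀ u v, RL op u v → Relation.ReflTransGen (RL op') u v := by
          intro u v huv
          by_cases hc : (u = e 0 ∧ v = e (2 * J + 1)) ∨ (u = e (2 * J + 1) ∧ v = e 0) ∨
            (u = e (2 * j) ∧ v = e (2 * j + 1)) ∨ (u = e (2 * j + 1) ∧ v = e (2 * j))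
          · rcases hc with ⟨rfl, rfl⟩ | ⟨rfl, rfl⟩ | ⟨rfl, rfl⟩ | ⟨rfl, rfl⟩
            · exact hA'
            · exact hCs _ _ _ hA'
            · exact hB'
            · exact hCs _ _ _ hB'
          · exact Relation.ReflTransGen.single (hRMRL' u v (Or.inl ⟨huv, hc⟩))
        have hmono : ∀ u v, Relation.ReflTransGen (RL op) u v →
            Relation.ReflTransGen (RL op') u v := by
          intro u v h
          induction h with
          | refl => exact Relation.ReflTransGen.refl
          | tail _ h2 ih2 => exact ih2.trans (hstep _ _ h2)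
        refine ⟨op', Or.inl hop0, fun t ht h => ?_, ?_⟩
        · rcases h with h | h
          · exact hopj t (by omega) h
          · omega
        · intro i hi
          have h2j : Relation.ReflTransGen (RL op') (e 0) (e (2 * j)) :=
            hA'.tail (Or.inr (Or.inl ⟨2, 2 * J + 1, 2 * j, hmid', Or.inl ⟨rfl, rfl⟩⟩))
          rcases Nat.lt_or_ge i (2 * j) with h | h
          · exact hmono _ _ (hall i h)
          · rcases eq_or_lt_of_le h with h | h
            · rw [← h]; exact h2j
            · have hi1 : i = 2 * j + 1 := by omega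
              rw [hi1]
              exact h2j.trans hB'
  obtain ⟨op, hop0, _, hall⟩ := hgreedy q hq le_rfl
  refine ⟨op, hop0, ?_⟩
  set RN : E → E → Prop := fun u v => r u v ∨ Lk q e op u v with hRN
  set C : Finset E := Finset.univ.filter (fun v => Relation.ReflTransGen RN x0 v) with hC
  have hmemC : ∀ v, v ∈ C ↔ Relation.ReflTransGen RN x0 v := by
    intro v
    simp [hC]
  have hCeven : Even C.card := by
    apply heven
    intro x hxm y hxy
    rw [hmemC] at hxm ⊢
    exact hxm.tail (Or.inl hxy)
  have hx1C : x1 ∈ C := by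
    by_contra hc
    refine par (Mt q e x0 x1 op) (fun u v => Mt_symm)
      (fun u v w => Mt_unique hinj hx hx0 hx1 hop0) C hCeven x0
      ((hmemC _).2 Relation.ReflTransGen.refl) ?_
    intro x hxm hxne
    rcases hE x with h | h | ⟨i, hi, h⟩
    · exact absurd h hxne
    · exact absurd (h ▸ hxm) hc
    · obtain ⟨k, hk, hki, hL⟩ := Lk_exists (e := e) hop0 hi
      subst h
      exact ⟨e k, (hmemC _).2 (((hmemC _).1 hxm).tail (Or.inr hL)), hx0 k hk,
        fun h => hki (hinj' _ _ hk hi h), Or.inl hL⟩
  have hCcl : ∀ u v, RL op u v → u ∈ C → v ∈ C := by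
    rintro u v (h | h | ⟨h1, h2⟩ | ⟨h1, h2⟩) hu
    · exact (hmemC _).2 (((hmemC _).1 hu).tail (Or.inl h))
    · exact (hmemC _).2 (((hmemC _).1 hu).tail (Or.inr h))
    · rw [h2]; exact hx1C
    · rw [h2]; exact (hmemC _).2 Relation.ReflTransGen.refl
  have hCcl' : ∀ u v, Relation.ReflTransGen (RL op) u v → u ∈ C → v ∈ C := by
    intro u v h hu
    induction h with
    | refl => exact hu
    | tail _ h2 ih2 => exact hCcl _ _ h2 ih2
  obtain ⟨i, hi, hri⟩ := h0
  have hei : e i ∈ C := (hmemC _).2 (Relation.ReflTransGen.single (Or.inl hri))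
  have he0 : e 0 ∈ C := hCcl' _ _ (hCs _ _ _ (hall i hi)) hei
  intro x
  rw [← hmemC]
  rcases hE x with h | h | ⟨k, hk, h⟩
  · rw [h]; exact (hmemC _).2 Relation.ReflTransGen.refl
  · rw [h]; exact hx1C
  · rw [h]; exact hCcl' _ _ (hall k hk) he0

end Pool.Agent.Helper82.GP
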