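import Pool.Agent.Helper82.GP.Extract
import Pool.Agent.Helper82.GP.Merge
import Pool.Agent.Helper82.GP.Geo

namespace Pool.Agent.Helper82.GP
namespace Comp

variable {V : Type*} {G : SimpleGraph V}

/-- The kept part of a path: edges with both ends in `R` are removed. -/
def KG {x y : V} (p : G.Walk x y) (R : Set V) : SimpleGraph V where
  Adj u v := s(u, v) ∈ p.edges ∧ ¬ (u ∈ R ∧ v ∈ R)
  symm := ⟨by
    rintro u v ⟨h1, h2⟩
    exact ⟨by rwa [Sym2.eq_swap], fun h => h2 ⟨h.2, h.1⟩⟩⟩
  loopless := ⟨by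
    rintro u ⟨h1, h2⟩
    exact G.loopless.irrefl _ (p.adj_of_mem_edges h1)⟩

/-- Entries: vertices of `R` with exactly one neighbour along the path in `R`. -/
def IsEnt {x y : V} (p : G.Walk x y) (R : Set V) (v : V) : Prop :=
  ∃ i, 0 < i ∧ i < p.length ∧ v = p.getVert i ∧ v ∈ R ∧
    (p.getVert (i - 1) ∈ R ↔ p.getVert (i + 1) ∉ R)

/-- Index `i` carries a kept edge to `i + 1`. -/
def Kept {x y : V} (p : G.Walk x y) (R : Set V) (i : ℕ) : Prop :=
  ¬ (p.getVert i ∈ R ∧ p.getVert (i + 1) ∈ R)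

theorem KG_succ {x y : V} (p : G.Walk x y) (R : Set V) {i : ℕ} (hi : i < p.length)
    (hk : Kept p R i) : (KG p R).Adj (p.getVert i) (p.getVert (i + 1)) :=
  ⟨getVert_edge p hi, hk⟩

open Classical in
theorem K_even {x y : V} (p : G.Walk x y) (hp : p.IsPath) (R : Set V) (hx : x ∉ R) (hy : y ∉ R)
    (hxy : x ≠ y) (C : Finset V) (hC : ∀ v ∈ C, v = x ∨ v = y ∨ IsEnt p R v)
    (hcl : ∀ v ∈ C, ∀ w, (w = x ∨ w = y ∨ IsEnt p R w) → (KG p R).Reachable v w → w ∈ C) :
    Even C.card := by
  set n := p.length with hn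
  have hn1 : 1 ≤ n := by
    by_contra hc
    have : p.length = 0 := by omega
    have h1 := p.getVert_length
    rw [this, p.getVert_zero] at h1
    exact hxy h1
  set I : Finset ℕ := (Finset.range (n + 1)).filter
    (fun i => ∃ v ∈ C, (KG p R).Reachable v (p.getVert i)) with hI
  have hstep : ∀ i, i < n → Kept p R i → (i ∈ I ↔ i + 1 ∈ I) := by
    intro i hi hk
    have hadj := KG_succ p R hi hk
    simp only [hI, Finset.mem_filter, Finset.mem_range]
    constructor
    · rintro ⟨_, v, hv, hr⟩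
      exact ⟨by omega, v, hv, hr.trans hadj.reachable⟩
    · rintro ⟨_, v, hv, hr⟩
      exact ⟨by omega, v, hv, hr.trans hadj.symm.reachable⟩
  set dL : ℕ → ℕ := fun i => if 1 ≤ i ∧ Kept p R (i - 1) then 1 else 0 with hdL
  set dR : ℕ → ℕ := fun i => if i < n ∧ Kept p R i then 1 else 0 with hdR
  have hsum : ∑ i ∈ I, dL i = ∑ i ∈ I, dR i := by
    rw [hdL, hdR]
    simp only [Finset.sum_boole, Nat.cast_id]
    symm
    refine Finset.card_bij (fun i _ => i + 1) ?_ ?_ ?_
    · intro i hi
      rw [Finset.mem_filter] at hi ⊢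
      exact ⟨(hstep i hi.2.1 hi.2.2).1 hi.1, by omega, by simpa using hi.2.2⟩
    · intro i _ j _ h
      omega
    · intro j hj
      rw [Finset.mem_filter] at hj
      have hj1 : j < n + 1 := by
        have := hj.1
        simp only [hI, Finset.mem_filter, Finset.mem_range] at this
        exact this.1
      refine ⟨j - 1, ?_, by omega⟩
      rw [Finset.mem_filter]
      have h2 : j - 1 + 1 = j := by omega
      exact ⟨(hstep (j - 1) (by omega) hj.2.2).2 (by rw [h2]; exact hj.1), by omega, hj.2.2⟩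
  have hdeg : ∀ i ∈ I, (dL i + dR i = 1 ↔
      (p.getVert i = x ∨ p.getVert i = y ∨ IsEnt p R (p.getVert i))) := by
    intro i hi
    have hi1 : i < n + 1 := by
      simp only [hI, Finset.mem_filter, Finset.mem_range] at hi
      exact hi.1
    rcases Nat.eq_zero_or_pos i with h0 | h0
    · subst h0
      have hk : Kept p R 0 := by
        intro h
        rw [p.getVert_zero] at h
        exact hx h.1
      simp [hdL, hdR, hk, show 0 < n by omega]
    · rcases eq_or_lt_of_le (Nat.lt_succ_iff.1 hi1) with h1 | h1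
      · have hk : Kept p R (i - 1) := by
          intro h
          have h2 : i - 1 + 1 = p.length := by omega
          rw [h2, p.getVert_length] at h
          exact hy h.2
        have hv : p.getVert i = y := by rw [h1, hn, p.getVert_length]
        have h3 : ¬ i < n := by omega
        simp [hdL, hdR, hk, hv, h3, show 1 ≤ i by omega]
      · have hne1 : p.getVert i ≠ x := by
          intro h
          have := getVert_inj hp (by omega) (Nat.zero_le _) (h.trans p.getVert_zero.symm)
          omega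
        have hne2 : p.getVert i ≠ y := by
          intro h
          have := getVert_inj hp (by omega) le_rfl (h.trans p.getVert_length.symm)
          omega
        have h2 : i - 1 + 1 = i := by omega
        have hE : IsEnt p R (p.getVert i) ↔ p.getVert i ∈ R ∧
            (p.getVert (i - 1) ∈ R ↔ p.getVert (i + 1) ∉ R) := by
          constructor
          · rintro ⟨j, hj0, hj1, hj2, hj3, hj4⟩
            have := getVert_inj hp (by omega) (by omega) hj2
            subst this
            exact ⟨hj3, hj4⟩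
          · rintro ⟨h3, h4⟩
            exact ⟨i, h0, by omega, rfl, h3, h4⟩
        simp only [hdL, hdR, hE, hne1, hne2, false_or, Kept, h2, h1, true_and,
          show 1 ≤ i by omega]
        by_cases ha : p.getVert i ∈ R <;> by_cases hb : p.getVert (i - 1) ∈ R <;>
          by_cases hc : p.getVert (i + 1) ∈ R <;> simp [ha, hb, hc]
  have hcard : C.card = (I.filter (fun i => dL i + dR i = 1)).card := by
    symm
    refine Finset.card_bij (fun i _ => p.getVert i) ?_ ?_ ?_
    · intro i hi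
      rw [Finset.mem_filter] at hi
      have h1 := (hdeg i hi.1).1 hi.2
      have h2 := hi.1
      simp only [hI, Finset.mem_filter] at h2
      obtain ⟨_, v, hv, hr⟩ := h2
      exact hcl v hv _ h1 hr
    · intro i hi j hj h
      rw [Finset.mem_filter] at hi hj
      have h1 := hi.1
      have h2 := hj.1
      simp only [hI, Finset.mem_filter, Finset.mem_range] at h1 h2
      exact getVert_inj hp (by omega) (by omega) h
    · intro v hv
      have h1 := hC v hv
      have h2 : ∃ i ≤ n, p.getVert i = v := by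
        rcases h1 with rfl | rfl | ⟨i, _, hi, hvi, _⟩
        · exact ⟨0, by omega, p.getVert_zero⟩
        · exact ⟨n, le_rfl, p.getVert_length⟩
        · exact ⟨i, by omega, hvi.symm⟩
      obtain ⟨i, hi, hiv⟩ := h2
      have h3 : i ∈ I := by
        simp only [hI, Finset.mem_filter, Finset.mem_range]
        exact ⟨by omega, v, hv, by rw [hiv]⟩
      refine ⟨i, ?_, hiv⟩
      rw [Finset.mem_filter]
      exact ⟨h3, (hdeg i h3).2 (by rw [hiv]; exact h1)⟩
  have hpar : Even (∑ i ∈ I, (dL i + dR i)) := by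
    rw [Finset.sum_add_distrib, hsum]
    exact Even.add_self _
  rw [hcard]
  have hdle : ∀ i, dL i + dR i = 0 ∨ dL i + dR i = 1 ∨ dL i + dR i = 2 := by
    intro i
    simp only [hdL, hdR]
    split_ifs <;> simp
  rw [← Nat.not_odd_iff_even] at hpar ⊢
  intro hodd
  apply hpar
  rw [Finset.odd_sum_iff_odd_card_odd]
  convert hodd using 2
  refine Finset.filter_congr fun i _ => ?_
  rcases hdle i with h | h | h <;> rw [h] <;> simp

theorem site_inj {β : Type*} {GB : SimpleGraph β} {r : Region β} (hr : r.Good GB) {c d : ℕ}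
    (hc : c < 2 * r.m) (hd : d < 2 * r.m) (h : r.site c = r.site d) : c = d := by
  unfold Region.site at h
  by_cases h1 : c < r.m <;> by_cases h2 : d < r.m
  · rw [if_pos h1, if_pos h2, Prod.mk.injEq] at h
    exact hr.inj h1 h2 h.2
  · rw [if_pos h1, if_neg h2, Prod.mk.injEq] at h
    have h3 : 2 * r.m - 1 - d < r.m := by omega
    have h4 := hr.inj h1 h3 h.2
    have h5 := hr.thick c h1
    rw [← h4] at h
    omega
  · rw [if_neg h1, if_pos h2, Prod.mk.injEq] at h
    have h3 : 2 * r.m - 1 - c < r.m := by omega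
    have h4 := hr.inj h3 h2 h.2
    have h5 := hr.thick d h2
    rw [h4] at h
    omega
  · rw [if_neg h1, if_neg h2, Prod.mk.injEq] at h
    have h3 : 2 * r.m - 1 - c < r.m := by omega
    have h4 : 2 * r.m - 1 - d < r.m := by omega
    have h5 := hr.inj h3 h4 h.2
    omega

theorem site_mem_coll {β : Type*} {GB : SimpleGraph β} {r : Region β} (hr : r.Good GB) {c : ℕ}
    (hc : c < 2 * r.m) : r.site c ∈ r.coll := by
  unfold Region.site
  by_cases h1 : c < r.m
  · rw [if_pos h1]
    have := hr.thick c h1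
    exact ⟨c, h1, rfl, le_rfl, by simp only; omega, Or.inl (by simp only; omega)⟩
  · rw [if_neg h1]
    have h3 : 2 * r.m - 1 - c < r.m := by omega
    have := hr.thick _ h3
    exact ⟨2 * r.m - 1 - c, h3, rfl, by simp only; omega, le_rfl,
      Or.inr (Or.inl (by simp only; omega))⟩

theorem coll_sub_car {β : Type*} {r : Region β} {v : ℤ × β} (h : v ∈ r.coll) : v ∈ r.car := by
  obtain ⟨i, hi, h1, h2, h3, _⟩ := h
  exact ⟨i, hi, h1, h2, h3⟩

/-- A vertex of a region with a path neighbour outside is a row-zero site. -/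
theorem exists_site {β : Type*} {GB : SimpleGraph β} {r : Region β}
    {x₀ x₁ : ℤ × β} {p : (LG GB).Walk x₀ x₁}
    (hrow : ∀ u v, s(u, v) ∈ p.edges → u ∈ r.car → v ∉ r.car →
      ∃ i < r.m, u.2 = r.z i ∧ (u.1 = r.a i ∨ u.1 = r.b i))
    (hclean : ∀ i, r.m ≤ i + 3 → i < r.m → ∀ v ∈ p.support, v ∈ r.car → v.2 ≠ r.z i)
    {u v : ℤ × β} (he : s(u, v) ∈ p.edges) (hu : u ∈ r.car) (hv : v ∉ r.car) :
    ∃ c < 2 * r.m, u = r.site c ∧ r.col c + 3 < r.m := by
  obtain ⟨i, hi, h1, h2⟩ := hrow u v he hu hv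
  have hi3 : i + 3 < r.m := by
    by_contra hc
    exact hclean i (by omega) hi u (p.fst_mem_support_of_mem_edges he) hu h1
  rcases h2 with h2 | h2
  · refine ⟨i, by omega, ?_, ?_⟩
    · rw [Region.site, if_pos hi]
      exact Prod.ext h2 h1
    · rw [Region.col, if_pos hi]
      exact hi3
  · have h3 : ¬ (2 * r.m - 1 - i < r.m) := by omega
    have h4 : 2 * r.m - 1 - (2 * r.m - 1 - i) = i := by omega
    refine ⟨2 * r.m - 1 - i, by omega, ?_, ?_⟩
    · rw [Region.site, if_neg h3, h4]
      exact Prod.ext h2 h1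
    · rw [Region.col, if_neg h3, h4]
      exact hi3

theorem ent_site {β : Type*} {GB : SimpleGraph β} {r : Region β}
    {x₀ x₁ : ℤ × β} {p : (LG GB).Walk x₀ x₁}
    (hrow : ∀ u v, s(u, v) ∈ p.edges → u ∈ r.car → v ∉ r.car →
      ∃ i < r.m, u.2 = r.z i ∧ (u.1 = r.a i ∨ u.1 = r.b i))
    (hclean : ∀ i, r.m ≤ i + 3 → i < r.m → ∀ v ∈ p.support, v ∈ r.car → v.2 ≠ r.z i)
    {v : ℤ × β} (hv : IsEnt p r.car v) :
    ∃ c < 2 * r.m, v = r.site c ∧ r.col c + 3 < r.m := by
  obtain ⟨i, hi0, hi, hvi, hvR, hiff⟩ := hv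
  have h2 : i - 1 + 1 = i := by omega
  by_cases h : p.getVert (i - 1) ∈ r.car
  · refine exists_site hrow hclean (v := p.getVert (i + 1)) ?_ hvR (hiff.1 h)
    rw [hvi]
    exact getVert_edge p hi
  · refine exists_site hrow hclean (v := p.getVert (i - 1)) ?_ hvR h
    have := getVert_edge p (i := i - 1) (by omega)
    rw [h2, Sym2.eq_swap] at this
    rwa [hvi]

/-- A kept edge at a vertex of an entry: an entry has at most one kept edge. -/
theorem ent_K_unique {x y : V} {p : G.Walk x y} (hp : p.IsPath) {R : Set V} {v a b : V}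
    (hv : IsEnt p R v) (ha : (KG p R).Adj v a) (hb : (KG p R).Adj v b) : a = b := by
  obtain ⟨i, hi0, hi, hvi, hvR, hiff⟩ := hv
  have key : ∀ w, (KG p R).Adj v w → (w = p.getVert (i - 1) ∨ w = p.getVert (i + 1)) ∧ w ∉ R := by
    rintro w ⟨hw1, hw2⟩
    have hwR : w ∉ R := fun h => hw2 ⟨hvR, h⟩
    rw [edge_iff] at hw1
    obtain ⟨j, hj, (⟨h1, h2⟩ | ⟨h1, h2⟩)⟩ := hw1
    · have := getVert_inj hp (by omega) (by omega) (hvi.symm.trans h1)
      subst this
      exact ⟨Or.inr h2, hwR⟩
    · have := getVert_inj hp (by omega) (by omega) (hvi.symm.trans h2)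
      subst this
      exact ⟨Or.inl (by simpa using h1), hwR⟩
  obtain ⟨ha1, ha2⟩ := key a ha
  obtain ⟨hb1, hb2⟩ := key b hb
  rcases ha1 with rfl | rfl <;> rcases hb1 with rfl | rfl
  · rfl
  · exact absurd (hiff.2 hb2) ha2
  · exact absurd (hiff.2 ha2) hb2
  · rfl

/-- Every vertex of the path outside `R` is connected by kept edges to the start or an entry. -/
theorem K_to_ent {x y : V} (p : G.Walk x y) (R : Set V) (i : ℕ) (hi : i ≤ p.length)
    (hiR : p.getVert i ∉ R) :
    ∃ w, (w = x ∨ IsEnt p R w) ∧ (KG p R).Reachable w (p.getVert i) := by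
  -- strengthen: also for `i` in `R` provided the edge `i, i+1` is kept
  have key : ∀ i ≤ p.length, (p.getVert i ∉ R ∨ (i < p.length ∧ Kept p R i)) →
      ∃ w, (w = x ∨ IsEnt p R w) ∧ (KG p R).Reachable w (p.getVert i) := by
    intro i
    induction i with
    | zero =>
      intro _ _
      exact ⟨x, Or.inl rfl, by rw [p.getVert_zero]⟩
    | succ i ih =>
      intro hi hor
      by_cases hk : Kept p R i
      · obtain ⟨w, hw, hr⟩ := ih (by omega) (Or.inr ⟨by omega, hk⟩)
        exact ⟨w, hw, hr.trans (KG_succ p R (by omega) hk).reachable⟩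
      · have hk' : p.getVert i ∈ R ∧ p.getVert (i + 1) ∈ R := by
          by_contra hc
          exact hk hc
        rcases hor with h | ⟨h1, h2⟩
        · exact absurd hk'.2 h
        · refine ⟨p.getVert (i + 1), Or.inr ⟨i + 1, by omega, h1, rfl, hk'.2, ?_⟩, ?_⟩
          · simp only [Nat.add_sub_cancel]
            constructor
            · intro _ h3
              exact h2 ⟨hk'.2, h3⟩
            · intro _
              exact hk'.1
          · rfl
  exact key i hi (Or.inl hiR)

/-- If some edge is not kept then the start is connected by kept edges to an entry. -/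
theorem start_to_ent {x y : V} (p : G.Walk x y) (R : Set V) (hx : x ∉ R)
    (h : ∃ i < p.length, ¬ Kept p R i) : ∃ w, IsEnt p R w ∧ (KG p R).Reachable x w := by
  classical
  have h' : ∃ i, i < p.length ∧ ¬ Kept p R i := h
  set i := Nat.find h' with hi
  obtain ⟨h1, h2⟩ := Nat.find_spec h'
  rw [← hi] at h1 h2
  have hmin : ∀ j < i, Kept p R j := by
    intro j hj
    by_contra hc
    exact Nat.find_min h' hj ⟨by omega, hc⟩
  have h2' : p.getVert i ∈ R ∧ p.getVert (i + 1) ∈ R := by
    by_contra hc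
    exact h2 hc
  have hreach : ∀ j ≤ i, (KG p R).Reachable x (p.getVert j) := by
    intro j
    induction j with
    | zero => intro _; rw [p.getVert_zero]
    | succ j ih =>
      intro hj
      exact (ih (by omega)).trans (KG_succ p R (by omega) (hmin j (by omega))).reachable
  have hi0 : i ≠ 0 := by
    intro h3
    rw [h3, p.getVert_zero] at h2'
    exact hx h2'.1
  refine ⟨p.getVert i, ⟨i, by omega, h1, rfl, h2'.1, ?_⟩, hreach i le_rfl⟩
  have h3 : i - 1 + 1 = i := by omega
  have h4 := hmin (i - 1) (by omega)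
  constructor
  · intro h5
    exact absurd ⟨h5, by rw [h3]; exact h2'.1⟩ h4
  · intro h5
    exact absurd h2'.2 h5

end Comp

open Pool.Agent.Helper82.GP.Comp in
theorem component_surgery {β : Type*} (GB : SimpleGraph β) (r : Region β) (hr : r.Good GB)
    {x₀ x₁ : ℤ × β} (p : (LG GB).Walk x₀ x₁) (hp : p.IsPath)
    (h0 : x₀ ∉ r.car) (h1 : x₁ ∉ r.car)
    (hrow : ∀ u v, s(u, v) ∈ p.edges → u ∈ r.car → v ∉ r.car →
      ∃ i < r.m, u.2 = r.z i ∧ (u.1 = r.a i ∨ u.1 = r.b i))
    (hclean : ∀ i, r.m ≤ i + 3 → i < r.m → ∀ v ∈ p.support, v ∈ r.car → v.2 ≠ r.z i) :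
    ∃ p' : (LG GB).Walk x₀ x₁, p'.IsPath ∧
      (∀ v, v ∉ r.car → (v ∈ p'.support ↔ v ∈ p.support)) ∧
      (∀ v ∈ p'.support, v ∈ r.car → v ∈ r.coll) ∧
      (∀ u v, s(u, v) ∈ p'.edges → ¬ (u ∈ r.car ∧ v ∈ r.car) → s(u, v) ∈ p.edges) := by
  classical
  by_cases hall : ∀ i < p.length, Kept p r.car i
  · -- nothing to do
    refine ⟨p, hp, fun v _ => Iff.rfl, ?_, fun u v h _ => h⟩
    intro v hv hvR
    obtain ⟨i, hiv, hi⟩ := SimpleGraph.Walk.mem_support_iff_exists_getVert.1 hv
    have hi0 : i ≠ 0 := by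
      rintro rfl
      rw [p.getVert_zero] at hiv
      exact h0 (hiv ▸ hvR)
    have hk := hall (i - 1) (by omega)
    have h2 : i - 1 + 1 = i := by omega
    have hout : p.getVert (i - 1) ∉ r.car := fun h => hk ⟨h, by rw [h2, hiv]; exact hvR⟩
    have he : s(v, p.getVert (i - 1)) ∈ p.edges := by
      have := getVert_edge p (i := i - 1) (by omega)
      rwa [h2, hiv, Sym2.eq_swap] at this
    obtain ⟨c, hc, hvc, _⟩ := exists_site hrow hclean he hvR hout
    rw [hvc]
    exact site_mem_coll hr hc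
  push Not at hall
  have hne : x₀ ≠ x₁ := by
    intro h
    obtain ⟨i, hi, _⟩ := hall
    have := getVert_inj hp (Nat.zero_le _) le_rfl
      (p.getVert_zero.trans (h.trans p.getVert_length.symm))
    omega
  set R := r.car with hR
  set K := KG p R with hK
  set PosF : Finset ℕ := (Finset.range (2 * r.m)).filter (fun c => IsEnt p R (r.site c)) with hPosF
  set EF : Finset (ℤ × β) := insert x₀ (insert x₁ (PosF.image r.site)) with hEF
  have hPos : ∀ c ∈ PosF, c < 2 * r.m ∧ IsEnt p R (r.site c) ∧ r.col c + 3 < r.m := by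
    intro c hc
    rw [hPosF, Finset.mem_filter, Finset.mem_range] at hc
    obtain ⟨d, hd, hcd, hd3⟩ := ent_site hrow hclean hc.2
    have := site_inj hr hc.1 hd hcd
    subst this
    exact ⟨hc.1, hc.2, hd3⟩
  have hmemEF : ∀ v, v ∈ EF ↔ (v = x₀ ∨ v = x₁ ∨ IsEnt p R v) := by
    intro v
    simp only [hEF, Finset.mem_insert, Finset.mem_image]
    constructor
    · rintro (h | h | ⟨c, hc, rfl⟩)
      · exact Or.inl h
      · exact Or.inr (Or.inl h)
      · exact Or.inr (Or.inr (hPos c hc).2.1)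
    · rintro (h | h | h)
      · exact Or.inl h
      · exact Or.inr (Or.inl h)
      · obtain ⟨c, hc, rfl, _⟩ := ent_site hrow hclean h
        refine Or.inr (Or.inr ⟨c, ?_, rfl⟩)
        rw [hPosF, Finset.mem_filter, Finset.mem_range]
        exact ⟨hc, h⟩
  have hentR : ∀ v, IsEnt p R v → v ∈ R := by
    rintro v ⟨i, _, _, _, h, _⟩
    exact h
  have hEcard : EF.card = PosF.card + 2 := by
    have hx1 : x₁ ∉ PosF.image r.site := by
      intro h
      rw [Finset.mem_image] at h
      obtain ⟨c, hc, h⟩ := h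
      exact h1 (h ▸ hentR _ (hPos c hc).2.1)
    have hx0 : x₀ ∉ insert x₁ (PosF.image r.site) := by
      intro h
      rw [Finset.mem_insert, Finset.mem_image] at h
      rcases h with h | ⟨c, hc, h⟩
      · exact hne h
      · exact h0 (h ▸ hentR _ (hPos c hc).2.1)
    rw [hEF, Finset.card_insert_of_notMem hx0, Finset.card_insert_of_notMem hx1,
      Finset.card_image_of_injOn]
    intro c hc d hd h
    exact site_inj hr (hPos c hc).1 (hPos d hd).1 h
  have hEven : Even EF.card :=
    K_even p hp R h0 h1 hne EF (fun v hv => (hmemEF v).1 hv) (fun v _ w hw _ => (hmemEF w).2 hw)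
  obtain ⟨q, hq⟩ : ∃ q, PosF.card = 2 * q := by
    rw [hEcard] at hEven
    obtain ⟨t, ht⟩ := hEven
    exact ⟨t - 1, by omega⟩
  -- sorted enumeration of the positions
  set c : ℕ → ℕ := fun i => if h : i < 2 * q then PosF.orderEmbOfFin hq ⟨i, h⟩ else 0 with hc
  have hcmem : ∀ i < 2 * q, c i ∈ PosF := by
    intro i hi
    simp only [hc, hi, dif_pos]
    exact Finset.orderEmbOfFin_mem _ _ _
  have hcmono : ∀ i j, i < j → j < 2 * q → c i < c j := by
    intro i j hij hj
    have hi : i < 2 * q := by omega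
    simp only [hc, hi, hj, dif_pos]
    exact (PosF.orderEmbOfFin hq).strictMono (by simpa using hij)
  have hcsurj : ∀ x ∈ PosF, ∃ i < 2 * q, c i = x := by
    intro x hx
    have : x ∈ Set.range (PosF.orderEmbOfFin hq) := by
      rw [Finset.range_orderEmbOfFin]
      exact hx
    obtain ⟨⟨i, hi⟩, hix⟩ := this
    exact ⟨i, hi, by simp only [hc, hi, dif_pos]; exact hix⟩
  have hx0E : x₀ ∈ EF := (hmemEF x₀).2 (Or.inl rfl)
  have hx1E : x₁ ∈ EF := (hmemEF x₁).2 (Or.inr (Or.inl rfl))
  have hsE : ∀ i < 2 * q, r.site (c i) ∈ EF := fun i hi =>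
    (hmemEF _).2 (Or.inr (Or.inr (hPos _ (hcmem i hi)).2.1))
  set e : ℕ → {v // v ∈ EF} := fun i => if h : r.site (c i) ∈ EF then ⟨_, h⟩ else ⟨x₀, hx0E⟩
    with he
  have he1 : ∀ i < 2 * q, (e i).1 = r.site (c i) := by
    intro i hi
    simp only [he, hsE i hi, dif_pos]
  obtain ⟨op, hop0, hconn⟩ := merge q e ⟨x₀, hx0E⟩ ⟨x₁, hx1E⟩
    (by
      intro i hi j hj hij
      have h2 : (e i).1 = (e j).1 := by rw [hij]
      rw [he1 i hi, he1 j hj] at h2
      have h3 := site_inj hr (hPos _ (hcmem i hi)).1 (hPos _ (hcmem j hj)).1 h2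
      rcases lt_trichotomy i j with h | h | h
      · have := hcmono i j h hj
        omega
      · exact h
      · have := hcmono j i h hi
        omega)
    (by
      intro h
      exact hne (congrArg Subtype.val h))
    (by
      intro i hi h
      have h2 : (e i).1 = x₀ := by rw [h]
      rw [he1 i hi] at h2
      exact h0 (h2 ▸ hentR _ (hPos _ (hcmem i hi)).2.1))
    (by
      intro i hi h
      have h2 : (e i).1 = x₁ := by rw [h]
      rw [he1 i hi] at h2
      exact h1 (h2 ▸ hentR _ (hPos _ (hcmem i hi)).2.1))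
    (by
      rintro ⟨x, hx⟩
      rcases (hmemEF x).1 hx with rfl | rfl | h
      · exact Or.inl rfl
      · exact Or.inr (Or.inl rfl)
      · right; right
        obtain ⟨d, hd, hxd, _⟩ := ent_site hrow hclean h
        have hdP : d ∈ PosF := by
          rw [hPosF, Finset.mem_filter, Finset.mem_range]
          exact ⟨hd, hxd ▸ h⟩
        obtain ⟨i, hi, hid⟩ := hcsurj d hdP
        exact ⟨i, hi, Subtype.ext (by rw [he1 i hi, hid]; exact hxd)⟩)
    (fun x y => K.Reachable x.1 y.1) (fun x y h => h.symm)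
    (by
      intro C hC
      rw [← Finset.card_map (Function.Embedding.subtype _)]
      refine K_even p hp R h0 h1 hne _ ?_ ?_
      · intro v hv
        rw [Finset.mem_map] at hv
        obtain ⟨w, _, rfl⟩ := hv
        exact (hmemEF _).1 w.2
      · intro v hv w hw hvw
        rw [Finset.mem_map] at hv ⊢
        obtain ⟨v', hv', rfl⟩ := hv
        exact ⟨⟨w, (hmemEF w).2 hw⟩, hC v' hv' _ hvw, rfl⟩)
    (by
      obtain ⟨w, hw, hr2⟩ := start_to_ent p R h0 hall
      obtain ⟨d, hd, hwd, _⟩ := ent_site hrow hclean hw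
      have hdP : d ∈ PosF := by
        rw [hPosF, Finset.mem_filter, Finset.mem_range]
        exact ⟨hd, hwd ▸ hw⟩
      obtain ⟨i, hi, hid⟩ := hcsurj d hdP
      refine ⟨i, hi, ?_⟩
      show K.Reachable x₀ (e i).1
      rw [he1 i hi, hid, ← hwd]
      exact hr2)
  -- the strands
  obtain ⟨Reg, hg1, hg2, hg3, hg4⟩ := geo GB r hr
  have hstr : ∀ l i j, Arc q op l i j → ∃ w : (LG GB).Walk (r.site (c i)) (r.site (c j)),
      w.IsPath ∧ ∀ v ∈ w.support, v ∈ Reg l (c i) (c j) := by
    intro l i j ha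
    obtain ⟨hl1, hl3, hij, hj⟩ := arc_lt ha
    have hi : i < 2 * q := by omega
    obtain ⟨w, hw⟩ := hg1 l (c i) (c j) hl1 hl3 (hcmono i j hij hj) (hPos _ (hcmem j hj)).1
      (hPos _ (hcmem i hi)).2.2 (hPos _ (hcmem j hj)).2.2
    exact ⟨w.bypass, w.bypass_isPath, fun v hv => hw v (w.support_bypass_subset_support hv)⟩
  choose S hSp hSR using hstr
  have hdisj : ∀ l i j l' i' j', Arc q op l i j → Arc q op l' i' j' →
      ¬ (l = l' ∧ i = i' ∧ j = j') → Disjoint (Reg l (c i) (c j)) (Reg l' (c i') (c j')) := by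
    intro l i j l' i' j' ha ha' hn
    obtain ⟨hl1, hl3, hij, hj⟩ := arc_lt ha
    obtain ⟨hl1', hl3', hij', hj'⟩ := arc_lt ha'
    have hi : i < 2 * q := by omega
    have hi' : i' < 2 * q := by omega
    have A1 := hPos _ (hcmem i hi)
    have A2 := hPos _ (hcmem j hj)
    have A3 := hPos _ (hcmem i' hi')
    have A4 := hPos _ (hcmem j' hj')
    have B1 := hcmono i j hij hj
    have B2 := hcmono i' j' hij' hj'
    rcases arc_tri hop0 ha ha' with h | h | h | ⟨h2, h3, h4⟩ | ⟨h2, h3, h4⟩
    · exact absurd h hn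
    · exact hg4 _ _ _ _ _ _ hl1 hl3 hl1' hl3' B1 A2.1 A1.2.2 A2.2.2 B2 A4.1 A3.2.2 A4.2.2
        (Or.inl (hcmono j i' h hi'))
    · exact (hg4 _ _ _ _ _ _ hl1' hl3' hl1 hl3 B2 A4.1 A3.2.2 A4.2.2 B1 A2.1 A1.2.2 A2.2.2
        (Or.inl (hcmono j' i h hi))).symm
    · exact hg4 _ _ _ _ _ _ hl1 hl3 hl1' hl3' B1 A2.1 A1.2.2 A2.2.2 B2 A4.1 A3.2.2 A4.2.2
        (Or.inr ⟨h2, hcmono i' i h3 hi, hcmono j j' h4 hj'⟩)
    · exact (hg4 _ _ _ _ _ _ hl1' hl3' hl1 hl3 B2 A4.1 A3.2.2 A4.2.2 B1 A2.1 A1.2.2 A2.2.2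
        (Or.inr ⟨h2, hcmono i i' h3 hi', hcmono j' j h4 hj⟩)).symm
  have hRegcoll : ∀ l i j, Arc q op l i j → ∀ v ∈ Reg l (c i) (c j), v ∈ r.coll := by
    intro l i j ha
    obtain ⟨hl1, hl3, hij, hj⟩ := arc_lt ha
    have hi : i < 2 * q := by omega
    exact hg2 l (c i) (c j) hl1 hl3 (hcmono i j hij hj) (hPos _ (hcmem j hj)).1
      (hPos _ (hcmem i hi)).2.2 (hPos _ (hcmem j hj)).2.2
  have hRegsite : ∀ l i j, Arc q op l i j → ∀ d < 2 * r.m, r.site d ∈ Reg l (c i) (c j) →
      d = c i ∨ d = c j := by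
    intro l i j ha
    obtain ⟨hl1, hl3, hij, hj⟩ := arc_lt ha
    have hi : i < 2 * q := by omega
    exact hg3 l (c i) (c j) hl1 hl3 (hcmono i j hij hj) (hPos _ (hcmem j hj)).1
      (hPos _ (hcmem i hi)).2.2 (hPos _ (hcmem j hj)).2.2
  -- the new graph
  let H : SimpleGraph (ℤ × β) :=
    { Adj := fun u v => K.Adj u v ∨ ∃ l i j, ∃ h : Arc q op l i j, s(u, v) ∈ (S l i j h).edges
      symm := ⟨by
        rintro u v (h | ⟨l, i, j, h, h2⟩)
        · exact Or.inl h.symm
        · exact Or.inr ⟨l, i, j, h, by rwa [Sym2.eq_swap]⟩⟩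
      loopless := ⟨by
        rintro u (h | ⟨l, i, j, h, h2⟩)
        · exact K.loopless.irrefl _ h
        · exact (LG GB).loopless.irrefl _ ((S l i j h).adj_of_mem_edges h2)⟩ }
  have hHle : H ≤ LG GB := by
    rintro u v (h | ⟨l, i, j, h, h2⟩)
    · exact p.adj_of_mem_edges h.1
    · exact (S l i j h).adj_of_mem_edges h2
  have hKH : K ≤ H := fun u v h => Or.inl h
  have hSH : ∀ l i j (h : Arc q op l i j), H.Reachable (r.site (c i)) (r.site (c j)) := by
    intro l i j h
    have hle : ∀ e ∈ (S l i j h).edges, e ∈ H.edgeSet := by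
      intro e
      refine Sym2.ind (fun u v he => ?_) e
      exact Or.inr ⟨l, i, j, h, he⟩
    exact ⟨(S l i j h).transfer H hle⟩
  have hreachE : ∀ x : {v // v ∈ EF}, H.Reachable x₀ x.1 := by
    intro x
    have h := hconn x
    induction h with
    | refl => exact SimpleGraph.Reachable.refl _
    | tail _ h2 ih =>
      refine ih.trans ?_
      rcases h2 with h2 | ⟨l, i, j, ha, (⟨rfl, rfl⟩ | ⟨rfl, rfl⟩)⟩
      · exact h2.mono hKH
      · obtain ⟨hl1, hl3, hij, hj⟩ := arc_lt ha
        rw [he1 i (by omega), he1 j hj]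
        exact hSH l i j ha
      · obtain ⟨hl1, hl3, hij, hj⟩ := arc_lt ha
        rw [he1 i (by omega), he1 j hj]
        exact (hSH l i j ha).symm
  -- degrees
  have hKsite : ∀ v w, K.Adj v w → v ∈ R → ∃ d < 2 * r.m, v = r.site d := by
    intro v w hvw hv
    have hw : w ∉ R := fun h => hvw.2 ⟨hv, h⟩
    obtain ⟨d, hd, hvd, _⟩ := exists_site hrow hclean hvw.1 hv hw
    exact ⟨d, hd, hvd⟩
  have hSsub : ∀ l i j (h : Arc q op l i j) u v, s(u, v) ∈ (S l i j h).edges →
      u ∈ Reg l (c i) (c j) ∧ v ∈ Reg l (c i) (c j) := by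
    intro l i j h u v huv
    exact ⟨hSR l i j h u ((S l i j h).fst_mem_support_of_mem_edges huv),
      hSR l i j h v ((S l i j h).snd_mem_support_of_mem_edges huv)⟩
  have hsame : ∀ l i j l' i' j' (_ : Arc q op l i j) (_ : Arc q op l' i' j') v,
      v ∈ Reg l (c i) (c j) → v ∈ Reg l' (c i') (c j') → l = l' ∧ i = i' ∧ j = j' := by
    intro l i j l' i' j' ha ha' v hv hv'
    by_contra hn
    exact Set.disjoint_left.1 (hdisj l i j l' i' j' ha ha' hn) hv hv'
  have hdeg : ∀ v a b d, H.Adj v a → H.Adj v b → H.Adj v d → a = b ∨ b = d ∨ a = d := by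
    intro v a b d ha hb hd
    by_cases hvS : ∃ l i j, ∃ _ : Arc q op l i j, v ∈ Reg l (c i) (c j)
    · obtain ⟨l, i, j, harc, hvReg⟩ := hvS
      obtain ⟨hl1, hl3, hij, hj⟩ := arc_lt harc
      have hi : i < 2 * q := by omega
      have hvR : v ∈ R := coll_sub_car (hRegcoll l i j harc v hvReg)
      -- classification of neighbours
      have hcl : ∀ w, H.Adj v w → K.Adj v w ∨ s(v, w) ∈ (S l i j harc).edges := by
        rintro w (h | ⟨l', i', j', h, h2⟩)
        · exact Or.inl h
        · obtain ⟨e1, e2, e3⟩ := hsame l i j l' i' j' harc h v hvReg (hSsub l' i' j' h v w h2).1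
          subst e1 e2 e3
          exact Or.inr h2
      by_cases hend : v = r.site (c i) ∨ v = r.site (c j)
      · have hvE : IsEnt p R v := by
          rcases hend with h | h
          · rw [h]; exact (hPos _ (hcmem i hi)).2.1
          · rw [h]; exact (hPos _ (hcmem j hj)).2.1
        have hK1 : ∀ w w', K.Adj v w → K.Adj v w' → w = w' := fun w w' h h' =>
          ent_K_unique hp hvE h h'
        have hS1 : ∀ w w', s(v, w) ∈ (S l i j harc).edges → s(v, w') ∈ (S l i j harc).edges →
            w = w' := by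
          intro w w' h h'
          rcases hend with h5 | h5
          · subst h5
            exact path_deg_start _ (hSp l i j harc) _ _ h h'
          · subst h5
            exact path_deg_end _ (hSp l i j harc) _ _ h h'
        rcases hcl a ha with h1a | h1a <;> rcases hcl b hb with h1b | h1b <;>
          rcases hcl d hd with h1d | h1d
        · exact Or.inl (hK1 _ _ h1a h1b)
        · exact Or.inl (hK1 _ _ h1a h1b)
        · exact Or.inr (Or.inr (hK1 _ _ h1a h1d))
        · exact Or.inr (Or.inl (hS1 _ _ h1b h1d))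
        · exact Or.inr (Or.inl (hK1 _ _ h1b h1d))
        · exact Or.inr (Or.inr (hS1 _ _ h1a h1d))
        · exact Or.inl (hS1 _ _ h1a h1b)
        · exact Or.inl (hS1 _ _ h1a h1b)
      · have hnoK : ∀ w, ¬ K.Adj v w := by
          intro w hw
          obtain ⟨d', hd', hvd⟩ := hKsite v w hw hvR
          rcases hRegsite l i j harc d' hd' (hvd ▸ hvReg) with h | h
          · exact hend (Or.inl (by rw [hvd, h]))
          · exact hend (Or.inr (by rw [hvd, h]))
        have h1a := (hcl a ha).resolve_left (hnoK a)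
        have h1b := (hcl b hb).resolve_left (hnoK b)
        have h1d := (hcl d hd).resolve_left (hnoK d)
        exact path_deg _ (hSp l i j harc) v a b d h1a h1b h1d
    · have hcl : ∀ w, H.Adj v w → K.Adj v w := by
        rintro w (h | ⟨l', i', j', h, h2⟩)
        · exact h
        · exact absurd ⟨l', i', j', h, (hSsub l' i' j' h v w h2).1⟩ hvS
      exact path_deg p hp v a b d (hcl a ha).1 (hcl b hb).1 (hcl d hd).1
  have hout : ∀ v w, H.Adj v w → v ∉ R → K.Adj v w := by
    rintro v w (h | ⟨l', i', j', h, h2⟩) hv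
    · exact h
    · exact absurd (coll_sub_car (hRegcoll l' i' j' h v (hSsub l' i' j' h v w h2).1)) hv
  obtain ⟨w, hwp, hwall⟩ := extract H x₀ x₁ hne hdeg
    (fun a b ha hb => path_deg_start p hp a b (hout _ _ ha h0).1 (hout _ _ hb h0).1)
    (fun a b ha hb => path_deg_end p hp a b (hout _ _ ha h1).1 (hout _ _ hb h1).1)
    (hreachE ⟨x₁, hx1E⟩)
  have hwlen : 0 < w.length := by
    rcases Nat.eq_zero_or_pos w.length with h | h
    · exact absurd (SimpleGraph.Walk.eq_of_length_eq_zero h) hne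
    · exact h
  -- every vertex of `w` has an edge
  have hwadj : ∀ v ∈ w.support, ∃ u, H.Adj v u := by
    intro v hv
    obtain ⟨i, hiv, hi⟩ := SimpleGraph.Walk.mem_support_iff_exists_getVert.1 hv
    rcases Nat.lt_or_ge i w.length with h | h
    · exact ⟨w.getVert (i + 1), hiv ▸ w.adj_getVert_succ h⟩
    · have h2 : i - 1 + 1 = i := by omega
      have := w.adj_getVert_succ (i := i - 1) (by omega)
      rw [h2, hiv] at this
      exact ⟨_, this.symm⟩
  refine ⟨w.mapLe hHle, ?_, ?_, ?_, ?_⟩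
  · exact (SimpleGraph.Walk.isPath_mapLe hHle).2 hwp
  · intro v hv
    rw [SimpleGraph.Walk.support_mapLe_eq_support]
    constructor
    · intro hvw
      obtain ⟨u, hu⟩ := hwadj v hvw
      exact p.fst_mem_support_of_mem_edges (hout v u hu hv).1
    · intro hvp
      obtain ⟨i, hiv, hi⟩ := SimpleGraph.Walk.mem_support_iff_exists_getVert.1 hvp
      obtain ⟨u, hu, hr2⟩ := K_to_ent p R i hi (by rw [hiv]; exact hv)
      apply hwall
      have hur : H.Reachable x₀ u := by
        rcases hu with rfl | hu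
        · exact SimpleGraph.Reachable.refl _
        · exact hreachE ⟨u, (hmemEF u).2 (Or.inr (Or.inr hu))⟩
      rw [← hiv]
      exact hur.trans (hr2.mono hKH)
  · intro v hvw hvR
    rw [SimpleGraph.Walk.support_mapLe_eq_support] at hvw
    obtain ⟨u, (hu | ⟨l', i', j', h, h2⟩)⟩ := hwadj v hvw
    · obtain ⟨d, hd, hvd⟩ := hKsite v u hu hvR
      rw [hvd]
      exact site_mem_coll hr hd
    · exact hRegcoll l' i' j' h v (hSsub l' i' j' h v u h2).1
  · intro u v huv hn
    rw [SimpleGraph.Walk.edges_mapLe_eq_edges] at huv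
    rcases (w.adj_of_mem_edges huv : H.Adj u v) with h | ⟨l', i', j', h, h2⟩
    · exact h.1
    · exact absurd ⟨coll_sub_car (hRegcoll l' i' j' h u (hSsub l' i' j' h u v h2).1),
        coll_sub_car (hRegcoll l' i' j' h v (hSsub l' i' j' h u v h2).2)⟩ hn

end Pool.Agent.Helper82.GP
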