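import Mathlib

/-!
Module Conc: concentration for the maximum of sums of few bounded independent variables
(the infimum-convolution argument, carried out for maxima of affine functions).
-/

namespace Pool.Agent.Helper82.GP

open MeasureTheory ProbabilityTheory Filter

namespace Conc

theorem scalar_nonneg {v : ℝ} (h0 : 0 ≤ v) (h1 : v < 1) :
    0 ≤ Real.log (1 + v) - v ^ 2 + (1 - 2 * v) * Real.log (1 - v) := by
  have hd : ∀ x ∈ Set.Ico (0 : ℝ) 1,
      HasDerivAt (fun v : ℝ => Real.log (1 + v) - v ^ 2 + (1 - 2 * v) * Real.log (1 - v))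
        (1 / (1 + x) - 2 * x + (-2 * Real.log (1 - x) + (1 - 2 * x) * (-1 / (1 - x)))) x := by
    intro x hx
    have h1x : (1 : ℝ) + x ≠ 0 := by linarith [hx.1]
    have h2x : (1 : ℝ) - x ≠ 0 := by linarith [hx.2]
    have a1 : HasDerivAt (fun v : ℝ => Real.log (1 + v)) (1 / (1 + x)) x :=
      ((hasDerivAt_id x).const_add 1).log h1x
    have a2 : HasDerivAt (fun v : ℝ => v ^ 2) (2 * x) x := by
      simpa using hasDerivAt_pow 2 x
    have a3 : HasDerivAt (fun v : ℝ => Real.log (1 - v)) (-1 / (1 - x)) x :=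
      ((hasDerivAt_id x).const_sub 1).log h2x
    have a4 : HasDerivAt (fun v : ℝ => 1 - 2 * v) (-2) x := by
      simpa using ((hasDerivAt_id x).const_mul 2).const_sub 1
    exact (a1.sub a2).add (a4.mul a3)
  have hmono : MonotoneOn
      (fun v : ℝ => Real.log (1 + v) - v ^ 2 + (1 - 2 * v) * Real.log (1 - v))
      (Set.Ico 0 1) := by
    apply monotoneOn_of_deriv_nonneg (convex_Ico 0 1)
    · intro x hx
      exact (hd x hx).continuousAt.continuousWithinAt
    · intro x hx
      exact (hd x (interior_subset hx)).differentiableAt.differentiableWithinAt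
    · intro x hx
      have hx' := interior_subset hx
      rw [(hd x hx').deriv]
      have hl : Real.log (1 - x) ≤ (1 - x) - 1 :=
        Real.log_le_sub_one_of_pos (by linarith [hx'.2])
      have p1 : 0 < 1 + x := by linarith [hx'.1]
      have p2 : 0 < 1 - x := by linarith [hx'.2]
      have e1 : 1 / (1 + x) + (1 - 2 * x) * (-1 / (1 - x)) =
          (2 * x ^ 2) / ((1 + x) * (1 - x)) := by
        field_simp
        ring
      have e2 : 0 ≤ (2 * x ^ 2) / ((1 + x) * (1 - x)) := by positivity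
      linarith
  have h := hmono (Set.mem_Ico.2 ⟨le_refl 0, one_pos⟩) (Set.mem_Ico.2 ⟨h0, h1⟩) h0
  simpa using h

theorem exists_weight {r : ℝ} (h0 : 0 < r) (h1 : r ≤ 1) :
    ∃ w : ℝ, 0 ≤ w ∧ w ≤ 1 ∧ Real.exp ((1 - w) ^ 2 / 4) * r ^ (-w) ≤ 2 - r := by
  rcases le_or_gt (1 / 2) r with h | h
  · refine ⟨2 * r - 1, by linarith, by linarith, ?_⟩
    have hs := scalar_nonneg (v := 1 - r) (by linarith) (by linarith)
    have e1 : (1 : ℝ) - (1 - r) = r := by ring
    have e2 : (1 : ℝ) + (1 - r) = 2 - r := by ring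
    rw [e1, e2] at hs
    rw [Real.rpow_def_of_pos h0, ← Real.exp_add, ← Real.le_log_iff_exp_le (by linarith)]
    nlinarith
  · refine ⟨0, le_refl _, zero_le_one, ?_⟩
    have h4 : Real.exp (1 / 4) ≤ 3 / 2 := by
      have h := Real.add_one_le_exp (-(1 / 4) : ℝ)
      have h' : (3 : ℝ) / 4 ≤ Real.exp (-(1 / 4)) := by linarith
      have h'' : Real.exp (1 / 4) * Real.exp (-(1 / 4)) = 1 := by
        rw [← Real.exp_add]; simp
      nlinarith [Real.exp_pos (1 / 4)]
    have e : ((1 : ℝ) - 0) ^ 2 / 4 = 1 / 4 := by norm_num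
    rw [e, neg_zero, Real.rpow_zero, mul_one]
    linarith

/-- maximum of a finite family -/
noncomputable def mx {κ : Type*} [Fintype κ] [Nonempty κ] (a : κ → ℝ) : ℝ :=
  Finset.univ.sup' Finset.univ_nonempty a

section
variable {κ : Type*} [Fintype κ] [Nonempty κ]

theorem le_mx (a : κ → ℝ) (k : κ) : a k ≤ mx a := Finset.le_sup' a (Finset.mem_univ k)

theorem mx_le {a : κ → ℝ} {c : ℝ} (h : ∀ k, a k ≤ c) : mx a ≤ c :=
  Finset.sup'_le _ _ fun k _ => h k

theorem mx_mono {a b : κ → ℝ} (h : ∀ k, a k ≤ b k) : mx a ≤ mx b :=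
  mx_le fun k => (h k).trans (le_mx b k)

theorem abs_mx_le {a : κ → ℝ} {B : ℝ} (h : ∀ k, |a k| ≤ B) : |mx a| ≤ B := by
  obtain ⟨k⟩ := ‹Nonempty κ›
  rw [abs_le]
  exact ⟨(abs_le.1 (h k)).1.trans (le_mx a k), mx_le fun k => (abs_le.1 (h k)).2⟩

theorem measurable_mx {α : Type*} [MeasurableSpace α] {a : κ → α → ℝ}
    (h : ∀ k, Measurable (a k)) : Measurable fun x => mx fun k => a k x := by
  have e : (fun x => mx fun k => a k x) = Finset.univ.sup' Finset.univ_nonempty a := by
    funext x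
    rw [mx, Finset.sup'_apply]
  rw [e]
  exact Finset.measurable_sup' _ fun k _ => h k

variable (T : ℝ → ℝ)

/-- maximum of affine functions with coefficients zero or one -/
noncomputable def fn (δ : ℝ) {n : ℕ} (c : κ → ℝ) (ε : κ → Fin n → Bool) (x : Fin n → ℝ) : ℝ :=
  mx fun k => c k + ∑ i, if ε k i then T (x i) - δ else 0

theorem measurable_fn (hT : Measurable T) (δ : ℝ) {n : ℕ} (c : κ → ℝ) (ε : κ → Fin n → Bool) :
    Measurable (fn T δ c ε) := by
  refine measurable_mx fun k => ?_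
  refine measurable_const.add (Finset.measurable_sum _ fun i _ => ?_)
  by_cases h : ε k i
  · simp only [h, if_true]
    exact (hT.comp (measurable_pi_apply i)).sub_const δ
  · simp only [h]
    exact measurable_const

theorem abs_fn_le {s : ℝ} (hT0 : ∀ x, 0 ≤ T x) (hTs : ∀ x, T x ≤ s) (δ : ℝ) {n : ℕ} (c : κ → ℝ)
    (ε : κ → Fin n → Bool) (x : Fin n → ℝ) :
    |fn T δ c ε x| ≤ ∑ k, |c k| + n * (s + |δ|) := by
  refine abs_mx_le fun k => ?_
  have h1 : |c k| ≤ ∑ k, |c k| :=
    Finset.single_le_sum (f := fun k => |c k|) (fun _ _ => abs_nonneg _) (Finset.mem_univ k)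
  have h2 : |∑ i, if ε k i then T (x i) - δ else 0| ≤ n * (s + |δ|) := by
    refine (Finset.abs_sum_le_sum_abs _ _).trans ?_
    calc ∑ i, |if ε k i then T (x i) - δ else 0| ≤ ∑ _i : Fin n, (s + |δ|) := by
          refine Finset.sum_le_sum fun i _ => ?_
          split_ifs
          · have := abs_sub (T (x i)) δ
            rw [abs_of_nonneg (hT0 _)] at this
            linarith [hTs (x i)]
          · rw [abs_zero]
            linarith [hT0 0, hTs 0, abs_nonneg δ]
      _ = n * (s + |δ|) := by simp [mul_add]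
  exact (abs_add_le _ _).trans (add_le_add h1 h2)

theorem integrable_exp_fn {s : ℝ} (hT : Measurable T) (hT0 : ∀ x, 0 ≤ T x) (hTs : ∀ x, T x ≤ s)
    (δ : ℝ) {n : ℕ} (c : κ → ℝ) (ε : κ → Fin n → Bool) (σ : ℝ)
    (μ : Measure (Fin n → ℝ)) [IsFiniteMeasure μ] :
    Integrable (fun x => Real.exp (σ * fn T δ c ε x)) μ := by
  refine Integrable.of_bound (C := Real.exp (|σ| * (∑ k, |c k| + n * (s + |δ|)))) ?_ ?_
  · exact ((measurable_fn T hT δ c ε).const_mul σ).exp.aestronglyMeasurable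
  · refine Eventually.of_forall fun x => ?_
    rw [Real.norm_eq_abs, Real.abs_exp]
    apply Real.exp_le_exp.2
    calc σ * fn T δ c ε x ≤ |σ * fn T δ c ε x| := le_abs_self _
      _ = |σ| * |fn T δ c ε x| := abs_mul _ _
      _ ≤ _ := mul_le_mul_of_nonneg_left (abs_fn_le T hT0 hTs δ c ε x) (abs_nonneg _)

/-- splitting off the first coordinate in an integral over a finite product -/
theorem integral_split {n : ℕ} (μ : Fin (n + 1) → Measure ℝ) [∀ i, IsProbabilityMeasure (μ i)]
    (F : (Fin (n + 1) → ℝ) → ℝ) (hF : Integrable F (Measure.pi μ)) :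
    (∫ x, F x ∂(Measure.pi μ)) =
      ∫ t, ∫ y, F (Fin.cons t y) ∂(Measure.pi fun j : Fin n => μ j.succ) ∂(μ 0) ∧
    Integrable (fun t => ∫ y, F (Fin.cons t y) ∂(Measure.pi fun j : Fin n => μ j.succ)) (μ 0) := by
  have hmp := measurePreserving_piFinSuccAbove μ 0
  have hmp' := hmp.symm
  have e0 : ∀ z : ℝ × (Fin n → ℝ),
      (MeasurableEquiv.piFinSuccAbove (fun _ : Fin (n + 1) => ℝ) 0).symm z =
        Fin.cons z.1 z.2 := by
    intro z
    funext i
    refine Fin.cases ?_ (fun j => ?_) i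
    · rfl
    · rfl
  have h1 : ∫ z, F ((MeasurableEquiv.piFinSuccAbove (fun _ : Fin (n + 1) => ℝ) 0).symm z)
      ∂((μ 0).prod (Measure.pi fun j : Fin n => μ (Fin.succAbove 0 j))) =
      ∫ x, F x ∂(Measure.pi μ) := hmp'.integral_comp' F
  have h2 : Integrable (fun z : ℝ × (Fin n → ℝ) => F (Fin.cons z.1 z.2))
      ((μ 0).prod (Measure.pi fun j : Fin n => μ (Fin.succAbove 0 j))) := by
    have := (hmp'.integrable_comp_emb (MeasurableEquiv.measurableEmbedding _)).2 hF
    refine this.congr (Eventually.of_forall fun z => ?_)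
    simp only [Function.comp]
    rw [e0]
  have h3 : (fun j : Fin n => μ (Fin.succAbove 0 j)) = fun j : Fin n => μ j.succ := by
    funext j
    rw [Fin.succAbove_zero]
  simp only [e0] at h1
  rw [h3] at h1 h2
  refine ⟨?_, ?_⟩
  · rw [← h1, integral_prod _ h2]
  · exact h2.integral_prod_left


theorem comb (ν : Measure ℝ) [IsProbabilityMeasure ν] (I H : ℝ → ℝ) (I0 : ℝ) (h0 : 0 < I0)
    (hI : Integrable I ν) (hH : Integrable H ν) (hIpos : ∀ t, 0 ≤ I t)
    (h : ∀ t, H t ≤ (2 - I t / I0) / I0) : (∫ t, H t ∂ν) * (∫ t, I t ∂ν) ≤ 1 := by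
  set a : ℝ := (∫ t, I t ∂ν) / I0 with ha
  have ha0 : 0 ≤ a := div_nonneg (integral_nonneg hIpos) h0.le
  have e1 : ∫ t, I t ∂ν = a * I0 := by
    rw [ha]
    field_simp
  have e2 : ∫ t, (2 - I t / I0) / I0 ∂ν = (2 - a) / I0 := by
    rw [integral_div, integral_sub (integrable_const _) (hI.div_const _), integral_div]
    simp [ha]
  have e3 : ∫ t, H t ∂ν ≤ (2 - a) / I0 := by
    rw [← e2]
    exact integral_mono hH (((integrable_const _).sub (hI.div_const _)).div_const _) h
  calc (∫ t, H t ∂ν) * (∫ t, I t ∂ν) ≤ (2 - a) / I0 * (a * I0) := by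
        rw [e1]
        exact mul_le_mul_of_nonneg_right e3 (mul_nonneg ha0 h0.le)
    _ = (2 - a) * a := by field_simp
    _ ≤ 1 := by nlinarith [sq_nonneg (a - 1)]

/-- pointwise comparison between the family at value `t`, at value `0` and the shifted one -/
theorem fn_cons_le {s : ℝ} (c : κ → ℝ) (b : κ → Bool) (r : κ → ℝ) {t w : ℝ}
    (hts : t ≤ s) (hw0 : 0 ≤ w) (hw1 : w ≤ 1) :
    mx (fun k => (c k + if b k then t - s ^ 2 else 0) + r k) ≤
      (1 - w) ^ 2 / 4 + (w * mx (fun k => (c k + if b k then t else 0) + r k) +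
        (1 - w) * mx (fun k => c k + r k)) := by
  refine mx_le fun k => ?_
  have h1 : (c k + if b k then t else 0) + r k ≤
      mx (fun k => (c k + if b k then t else 0) + r k) :=
    le_mx (fun k => (c k + if b k then t else 0) + r k) k
  have h2 : c k + r k ≤ mx (fun k => c k + r k) := le_mx (fun k => c k + r k) k
  have h1' := mul_le_mul_of_nonneg_left h1 hw0
  have h2' := mul_le_mul_of_nonneg_left h2 (show 0 ≤ 1 - w by linarith)
  by_cases hb : b k
  · simp only [hb, if_true] at h1' ⊢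
    nlinarith [sq_nonneg ((1 - w) / 2 - s), mul_nonneg (show 0 ≤ 1 - w by linarith)
      (show 0 ≤ s - t by linarith)]
  · simp only [hb] at h1' ⊢
    simp only [Bool.false_eq_true, if_false] at h1' ⊢
    nlinarith [sq_nonneg (1 - w)]

theorem fn_succ (δ : ℝ) {n : ℕ} (c : κ → ℝ) (ε : κ → Fin (n + 1) → Bool) (t : ℝ)
    (y : Fin n → ℝ) : fn T δ c ε (Fin.cons t y) =
      mx (fun k => (c k + if ε k 0 then T t - δ else 0) +
        ∑ i : Fin n, if ε k i.succ then T (y i) - δ else 0) := by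
  unfold fn
  congr 1
  funext k
  rw [Fin.sum_univ_succ, ← add_assoc]
  rfl

/-- the infimum-convolution inequality for maxima of affine functions -/
theorem key {s : ℝ} (hT : Measurable T) (hT0 : ∀ x, 0 ≤ T x) (hTs : ∀ x, T x ≤ s) (n : ℕ) :
    ∀ (μ : Fin n → Measure ℝ) [∀ i, IsProbabilityMeasure (μ i)] (c : κ → ℝ)
      (ε : κ → Fin n → Bool),
      (∫ x, Real.exp (fn T (s ^ 2) c ε x) ∂(Measure.pi μ)) *
        (∫ x, Real.exp (-(fn T 0 c ε x)) ∂(Measure.pi μ)) ≤ 1 := by
  induction n with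
  | zero =>
    intro μ _ c ε
    rw [Measure.pi_of_empty, integral_dirac, integral_dirac, ← Real.exp_add]
    simp [fn]
  | succ n ih =>
    intro μ _ c ε
    have i1 : Integrable (fun x => Real.exp (fn T (s ^ 2) c ε x)) (Measure.pi μ) := by
      simpa using integrable_exp_fn T hT hT0 hTs (s ^ 2) c ε 1 (Measure.pi μ)
    have i2 : Integrable (fun x => Real.exp (-(fn T 0 c ε x))) (Measure.pi μ) := by
      simpa using integrable_exp_fn T hT hT0 hTs 0 c ε (-1) (Measure.pi μ)
    obtain ⟨s1, j1⟩ := integral_split μ _ i1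
    obtain ⟨s2, j2⟩ := integral_split μ _ i2
    rw [s1, s2]
    set ν : Measure (Fin n → ℝ) := Measure.pi fun j : Fin n => μ j.succ with hν
    set ε' : κ → Fin n → Bool := fun k i => ε k i.succ with hε'
    set I0 : ℝ := ∫ y, Real.exp (-(fn T 0 c ε' y)) ∂ν with hI0
    have iI : ∀ c' : κ → ℝ, Integrable (fun y => Real.exp (-(fn T 0 c' ε' y))) ν := by
      intro c'
      simpa using integrable_exp_fn T hT hT0 hTs 0 c' ε' (-1) ν
    have iJ : ∀ c' : κ → ℝ, Integrable (fun y => Real.exp (fn T (s ^ 2) c' ε' y)) ν := by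
      intro c'
      simpa using integrable_exp_fn T hT hT0 hTs (s ^ 2) c' ε' 1 ν
    have pI : ∀ c' : κ → ℝ, 0 < ∫ y, Real.exp (-(fn T 0 c' ε' y)) ∂ν := by
      intro c'
      exact integral_exp_pos (iI c')
    have pJ : ∀ c' : κ → ℝ, 0 < ∫ y, Real.exp (fn T (s ^ 2) c' ε' y) ∂ν := by
      intro c'
      exact integral_exp_pos (iJ c')
    refine comb (μ 0) _ _ I0 (pI c) j2 j1 (fun t => integral_nonneg fun y => (Real.exp_pos _).le) ?_
    intro t
    -- the family with constants shifted by the first coordinate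
    set ct : κ → ℝ := fun k => c k + if ε k 0 then T t else 0 with hct
    have eI : (∫ y, Real.exp (-(fn T 0 c ε (Fin.cons t y))) ∂ν) =
        ∫ y, Real.exp (-(fn T 0 ct ε' y)) ∂ν := by
      refine integral_congr_ae (Eventually.of_forall fun y => ?_)
      simp only [fn_succ]
      simp [fn, hct, hε']
    rw [eI]
    set It : ℝ := ∫ y, Real.exp (-(fn T 0 ct ε' y)) ∂ν with hIt
    set Jt : ℝ := ∫ y, Real.exp (fn T (s ^ 2) ct ε' y) ∂ν with hJt
    set J0 : ℝ := ∫ y, Real.exp (fn T (s ^ 2) c ε' y) ∂ν with hJ0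
    have hIt_pos : 0 < It := pI ct
    have hI0_pos : 0 < I0 := pI c
    have hJt_pos : 0 < Jt := pJ ct
    have hJ0_pos : 0 < J0 := pJ c
    have hJI : Jt * It ≤ 1 := ih (fun j => μ j.succ) ct ε'
    have hJI0 : J0 * I0 ≤ 1 := ih (fun j => μ j.succ) c ε'
    have hle : It ≤ I0 := by
      refine integral_mono (iI ct) (iI c) fun y => ?_
      apply Real.exp_le_exp.2
      apply neg_le_neg
      refine mx_mono fun k => ?_
      simp only [hct]
      have : 0 ≤ (if ε k 0 then T t else 0) := by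
        split_ifs
        · exact hT0 t
        · exact le_refl _
      linarith
    obtain ⟨w, hw0, hw1, hw⟩ := exists_weight (r := It / I0) (div_pos hIt_pos hI0_pos)
      ((div_le_one hI0_pos).2 hle)
    -- pointwise bound
    have hpt : ∀ y, Real.exp (fn T (s ^ 2) c ε (Fin.cons t y)) ≤
        Real.exp ((1 - w) ^ 2 / 4) * (Jt ^ w * J0 ^ (1 - w)) *
          (w * (Real.exp (fn T (s ^ 2) ct ε' y) / Jt) +
            (1 - w) * (Real.exp (fn T (s ^ 2) c ε' y) / J0)) := by
      intro y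
      have h1 := fn_cons_le (s := s) c (fun k => ε k 0)
        (fun k => ∑ i : Fin n, if ε k i.succ then T (y i) - s ^ 2 else 0) (hTs t) hw0 hw1
      rw [fn_succ]
      refine (Real.exp_le_exp.2 h1).trans ?_
      rw [Real.exp_add, mul_assoc]
      refine mul_le_mul_of_nonneg_left ?_ (Real.exp_pos _).le
      have h2 : Real.exp (w * fn T (s ^ 2) ct ε' y + (1 - w) * fn T (s ^ 2) c ε' y) =
          (Jt ^ w * J0 ^ (1 - w)) * ((Real.exp (fn T (s ^ 2) ct ε' y) / Jt) ^ w *
            (Real.exp (fn T (s ^ 2) c ε' y) / J0) ^ (1 - w)) := by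
        rw [Real.div_rpow (Real.exp_pos _).le hJt_pos.le,
          Real.div_rpow (Real.exp_pos _).le hJ0_pos.le, ← Real.exp_mul, ← Real.exp_mul,
          Real.exp_add]
        have q1 : Jt ^ w ≠ 0 := (Real.rpow_pos_of_pos hJt_pos _).ne'
        have q2 : J0 ^ (1 - w) ≠ 0 := (Real.rpow_pos_of_pos hJ0_pos _).ne'
        field_simp
      have h3 := Real.geom_mean_le_arith_mean2_weighted hw0 (show 0 ≤ 1 - w by linarith)
        (show 0 ≤ Real.exp (fn T (s ^ 2) ct ε' y) / Jt by positivity)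
        (show 0 ≤ Real.exp (fn T (s ^ 2) c ε' y) / J0 by positivity) (by ring)
      calc _ = Real.exp (w * fn T (s ^ 2) ct ε' y + (1 - w) * fn T (s ^ 2) c ε' y) := rfl
        _ = _ := h2
        _ ≤ _ := mul_le_mul_of_nonneg_left h3
          (mul_nonneg (Real.rpow_nonneg hJt_pos.le _) (Real.rpow_nonneg hJ0_pos.le _))
    have hint : ∫ y, Real.exp (fn T (s ^ 2) c ε (Fin.cons t y)) ∂ν ≤
        Real.exp ((1 - w) ^ 2 / 4) * (Jt ^ w * J0 ^ (1 - w)) := by
      have hb : Integrable (fun y => Real.exp ((1 - w) ^ 2 / 4) * (Jt ^ w * J0 ^ (1 - w)) *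
          (w * (Real.exp (fn T (s ^ 2) ct ε' y) / Jt) +
            (1 - w) * (Real.exp (fn T (s ^ 2) c ε' y) / J0))) ν :=
        ((((iJ ct).div_const _).const_mul w).add (((iJ c).div_const _).const_mul (1 - w))).const_mul _
      have hm : AEStronglyMeasurable
          (fun y : Fin n → ℝ => Real.exp (fn T (s ^ 2) c ε (Fin.cons t y))) ν := by
        have : Measurable (fun y : Fin n → ℝ => (Fin.cons t y : Fin (n + 1) → ℝ)) := by
          refine measurable_pi_lambda _ fun i => ?_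
          refine Fin.cases ?_ (fun j => ?_) i
          · exact measurable_const
          · exact measurable_pi_apply j
        exact ((measurable_fn T hT _ c ε).comp this).exp.aestronglyMeasurable
      have ha : Integrable (fun y : Fin n → ℝ => Real.exp (fn T (s ^ 2) c ε (Fin.cons t y))) ν := by
        refine hb.mono hm (Eventually.of_forall fun y => ?_)
        rw [Real.norm_eq_abs, Real.abs_exp]
        exact (hpt y).trans (le_abs_self _)
      refine (integral_mono ha hb hpt).trans ?_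
      rw [integral_const_mul, integral_add (((iJ ct).div_const _).const_mul w)
        (((iJ c).div_const _).const_mul (1 - w)), integral_const_mul, integral_const_mul,
        integral_div, integral_div, ← hJt, ← hJ0, div_self hJt_pos.ne', div_self hJ0_pos.ne']
      apply le_of_eq
      ring
    refine hint.trans ?_
    -- now use `J ≤ 1 / I`
    have k1 : Jt ^ w ≤ (It⁻¹) ^ w := by
      refine Real.rpow_le_rpow hJt_pos.le ?_ hw0
      rw [← one_div, le_div_iff₀ hIt_pos]
      exact hJI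
    have k2 : J0 ^ (1 - w) ≤ (I0⁻¹) ^ (1 - w) := by
      refine Real.rpow_le_rpow hJ0_pos.le ?_ (by linarith)
      rw [← one_div, le_div_iff₀ hI0_pos]
      exact hJI0
    have k3 : (It⁻¹) ^ w * (I0⁻¹) ^ (1 - w) = (It / I0) ^ (-w) / I0 := by
      rw [Real.inv_rpow hIt_pos.le, Real.inv_rpow hI0_pos.le, Real.rpow_sub hI0_pos,
        Real.rpow_one, Real.rpow_neg (div_pos hIt_pos hI0_pos).le,
        Real.div_rpow hIt_pos.le hI0_pos.le]
      have q1 : It ^ w ≠ 0 := (Real.rpow_pos_of_pos hIt_pos _).ne'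
      have q2 : I0 ^ w ≠ 0 := (Real.rpow_pos_of_pos hI0_pos _).ne'
      have q3 : I0 ≠ 0 := hI0_pos.ne'
      field_simp
    calc Real.exp ((1 - w) ^ 2 / 4) * (Jt ^ w * J0 ^ (1 - w))
        ≤ Real.exp ((1 - w) ^ 2 / 4) * ((It⁻¹) ^ w * (I0⁻¹) ^ (1 - w)) := by
          refine mul_le_mul_of_nonneg_left ?_ (Real.exp_pos _).le
          exact mul_le_mul k1 k2 (Real.rpow_nonneg hJ0_pos.le _)
            (Real.rpow_nonneg (inv_nonneg.2 hIt_pos.le) _)
      _ = (Real.exp ((1 - w) ^ 2 / 4) * (It / I0) ^ (-w)) / I0 := by rw [k3]; ring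
      _ ≤ (2 - It / I0) / I0 := div_le_div_of_nonneg_right hw hI0_pos.le

end

end Conc

open Conc in
theorem mgf_max {Ω : Type*} [MeasurableSpace Ω] (P : Measure Ω) [IsProbabilityMeasure P]
    {ι : Type*} [Fintype ι] [DecidableEq ι] (X : ι → Ω → ℝ) (hX : ∀ i, Measurable (X i))
    (hind : iIndepFun X P) (lo hi : ℝ) (hlh : lo ≤ hi) (hb : ∀ i ω, lo ≤ X i ω ∧ X i ω ≤ hi)
    (𝒜 : Finset (Finset ι)) (hne : 𝒜.Nonempty) (m : ℕ) (hm : ∀ A ∈ 𝒜, A.card ≤ m) (lam : ℝ) :
    ∫ ω, Real.exp (lam * (𝒜.sup' hne (fun A => ∑ i ∈ A, X i ω) -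
      ∫ ω', 𝒜.sup' hne (fun A => ∑ i ∈ A, X i ω') ∂P)) ∂P ≤
      Real.exp (lam ^ 2 * (hi - lo) ^ 2 * m) := by
  classical
  -- the maximum
  set F : Ω → ℝ := fun ω => 𝒜.sup' hne (fun A => ∑ i ∈ A, X i ω) with hF
  set a : ℝ := |lam| with ha
  have ha0 : 0 ≤ a := abs_nonneg _
  set s : ℝ := a * (hi - lo) with hs
  have hs0 : 0 ≤ s := mul_nonneg ha0 (by linarith)
  set T : ℝ → ℝ := fun x => max 0 (min x s) with hT
  have hTm : Measurable T := measurable_const.max (measurable_id.min measurable_const)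
  have hT0 : ∀ x, 0 ≤ T x := fun x => le_max_left _ _
  have hTs : ∀ x, T x ≤ s := fun x => max_le hs0 (min_le_right _ _)
  have hTid : ∀ x, 0 ≤ x → x ≤ s → T x = x := by
    intro x h0 h1
    simp [hT, min_eq_left h1, max_eq_right h0]
  set e := Fintype.equivFin ι with he
  set n := Fintype.card ι with hn
  set Y : Fin n → Ω → ℝ := fun j ω => a * (X (e.symm j) ω - lo) with hY
  have hYm : ∀ j, Measurable (Y j) := fun j => ((hX _).sub_const _).const_mul _
  have hY0 : ∀ j ω, 0 ≤ Y j ω := fun j ω => mul_nonneg ha0 (by linarith [(hb (e.symm j) ω).1])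
  have hYs : ∀ j ω, Y j ω ≤ s := fun j ω =>
    mul_le_mul_of_nonneg_left (by linarith [(hb (e.symm j) ω).2]) ha0
  have hYind : iIndepFun Y P := by
    have h1 : iIndepFun (fun j => X (e.symm j)) P := hind.precomp e.symm.injective
    exact h1.comp (fun _ x => a * (x - lo)) fun _ => (measurable_id.sub_const _).const_mul _
  have hmap : P.map (fun ω j => Y j ω) = Measure.pi fun j => P.map (Y j) :=
    hYind.map_fun_eq_pi_map fun j => (hYm j).aemeasurable
  have hprob : ∀ j, IsProbabilityMeasure (P.map (Y j)) := fun j =>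
    Measure.isProbabilityMeasure_map (hYm j).aemeasurable
  have : Nonempty {A // A ∈ 𝒜} := by
    obtain ⟨A, hA⟩ := hne
    exact ⟨⟨A, hA⟩⟩
  set c : {A // A ∈ 𝒜} → ℝ := fun A => a * lo * (A.1.card : ℝ) with hc
  set ε : {A // A ∈ 𝒜} → Fin n → Bool := fun A j => decide (e.symm j ∈ A.1) with hε
  have hkey := key T hTm hT0 hTs n (fun j => P.map (Y j)) c ε
  have hYmeas : Measurable fun ω (j : Fin n) => Y j ω := measurable_pi_lambda _ hYm
  have hm1 : Measurable (fun x => Real.exp (fn T (s ^ 2) c ε x)) :=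
    (measurable_fn T hTm _ c ε).exp
  have hm2 : Measurable (fun x => Real.exp (-(fn T 0 c ε x))) :=
    (measurable_fn T hTm 0 c ε).neg.exp
  rw [← hmap, integral_map hYmeas.aemeasurable hm1.aestronglyMeasurable,
    integral_map hYmeas.aemeasurable hm2.aestronglyMeasurable] at hkey
  -- sums over subsets
  have hsum : ∀ (A : Finset ι) (f : ι → ℝ),
      (∑ j : Fin n, if e.symm j ∈ A then f (e.symm j) else 0) = ∑ i ∈ A, f i := by
    intro A f
    rw [Equiv.sum_comp e.symm (fun i => if i ∈ A then f i else 0), Finset.sum_ite_mem,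
      Finset.univ_inter]
  have hval : ∀ (δ : ℝ) (A : {A // A ∈ 𝒜}) (ω : Ω),
      (c A + ∑ j, if ε A j then T (Y j ω) - δ else 0) =
        a * (∑ i ∈ A.1, X i ω) - δ * A.1.card := by
    intro δ A ω
    have h1 : (∑ j, if ε A j then T (Y j ω) - δ else 0) =
        ∑ j : Fin n, if e.symm j ∈ A.1 then (a * (X (e.symm j) ω - lo) - δ) else 0 := by
      refine Finset.sum_congr rfl fun j _ => ?_
      rw [hTid _ (hY0 j ω) (hYs j ω)]
      simp [hε, hY]
    rw [h1, hsum A.1 (fun i => a * (X i ω - lo) - δ), Finset.sum_sub_distrib, ← Finset.mul_sum,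
      Finset.sum_sub_distrib]
    simp only [Finset.sum_const, nsmul_eq_mul, hc]
    ring
  have hf : ∀ ω, fn T 0 c ε (fun j => Y j ω) = a * F ω := by
    intro ω
    apply le_antisymm
    · refine mx_le fun A => ?_
      rw [hval]
      have : ∑ i ∈ A.1, X i ω ≤ F ω := Finset.le_sup' (fun A => ∑ i ∈ A, X i ω) A.2
      have := mul_le_mul_of_nonneg_left this ha0
      linarith
    · obtain ⟨A, hA, hFA⟩ := Finset.exists_mem_eq_sup' hne (fun A => ∑ i ∈ A, X i ω)
      have h2 := le_mx (fun k : {A // A ∈ 𝒜} => c k + ∑ i, if ε k i then T (Y i ω) - 0 else 0)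
        ⟨A, hA⟩
      simp only [hval] at h2
      have h3 : F ω = ∑ i ∈ A, X i ω := hFA
      rw [h3]
      have h4 : fn T 0 c ε (fun j => Y j ω) =
          mx (fun k : {A // A ∈ 𝒜} => a * (∑ i ∈ k.1, X i ω) - 0 * (k.1.card : ℝ)) := by
        unfold fn
        simp only [hval]
      rw [h4]
      simpa using h2
  have hg : ∀ ω, a * F ω - s ^ 2 * m ≤ fn T (s ^ 2) c ε (fun j => Y j ω) := by
    intro ω
    obtain ⟨A, hA, hFA⟩ := Finset.exists_mem_eq_sup' hne (fun A => ∑ i ∈ A, X i ω)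
    have h3 : F ω = ∑ i ∈ A, X i ω := hFA
    have h4 : fn T (s ^ 2) c ε (fun j => Y j ω) =
        mx (fun k : {A // A ∈ 𝒜} => a * (∑ i ∈ k.1, X i ω) - s ^ 2 * (k.1.card : ℝ)) := by
      unfold fn
      simp only [hval]
    rw [h4]
    have h2 := le_mx (fun k : {A // A ∈ 𝒜} => a * (∑ i ∈ k.1, X i ω) - s ^ 2 * (k.1.card : ℝ))
        ⟨A, hA⟩
    have h5 : (A.card : ℝ) ≤ m := by exact_mod_cast hm A hA
    have h6 := mul_le_mul_of_nonneg_left h5 (sq_nonneg s)
    rw [h3]
    refine le_trans ?_ h2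
    simp only
    linarith
  -- integrability
  have hFm : Measurable F := by
    have h1 : F = 𝒜.sup' hne (fun A ω => ∑ i ∈ A, X i ω) := by
      funext ω
      rw [hF, Finset.sup'_apply]
    rw [h1]
    exact Finset.measurable_sup' _ fun A _ => Finset.measurable_sum _ fun i _ => hX i
  have hFb : ∃ B : ℝ, ∀ ω, |F ω| ≤ B := by
    refine ⟨m * (|lo| + |hi|), fun ω => ?_⟩
    obtain ⟨A, hA, hFA⟩ := Finset.exists_mem_eq_sup' hne (fun A => ∑ i ∈ A, X i ω)
    have h3 : F ω = ∑ i ∈ A, X i ω := hFA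
    rw [h3]
    refine (Finset.abs_sum_le_sum_abs _ _).trans ?_
    calc ∑ i ∈ A, |X i ω| ≤ ∑ _i ∈ A, (|lo| + |hi|) := by
          refine Finset.sum_le_sum fun i _ => ?_
          have h1 := abs_le_max_abs_abs (hb i ω).1 (hb i ω).2
          exact h1.trans (max_le (by linarith [abs_nonneg hi]) (by linarith [abs_nonneg lo]))
      _ = A.card * (|lo| + |hi|) := by simp [mul_add]
      _ ≤ m * (|lo| + |hi|) := by
          refine mul_le_mul_of_nonneg_right ?_ (by positivity)
          exact_mod_cast hm A hA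
  obtain ⟨B, hB⟩ := hFb
  have hFi : Integrable F P :=
    Integrable.of_bound hFm.aestronglyMeasurable B (Eventually.of_forall fun ω => by
      rw [Real.norm_eq_abs]; exact hB ω)
  have hei : ∀ σ : ℝ, Integrable (fun ω => Real.exp (σ * F ω)) P := by
    intro σ
    refine Integrable.of_bound (C := Real.exp (|σ| * B))
      (hFm.const_mul σ).exp.aestronglyMeasurable (Eventually.of_forall fun ω => ?_)
    rw [Real.norm_eq_abs, Real.abs_exp]
    apply Real.exp_le_exp.2
    calc σ * F ω ≤ |σ * F ω| := le_abs_self _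
      _ = |σ| * |F ω| := abs_mul _ _
      _ ≤ _ := mul_le_mul_of_nonneg_left (hB ω) (abs_nonneg _)
  set E : ℝ := ∫ ω, F ω ∂P with hE
  -- the two sided inequality
  have hprod : (∫ ω, Real.exp (a * F ω) ∂P) * (∫ ω, Real.exp (-a * F ω) ∂P) ≤
      Real.exp (s ^ 2 * m) := by
    have h1 : Real.exp (-(s ^ 2 * m)) * ∫ ω, Real.exp (a * F ω) ∂P ≤
        ∫ ω, Real.exp (fn T (s ^ 2) c ε (fun j => Y j ω)) ∂P := by
      rw [← integral_const_mul]
      refine integral_mono ((hei a).const_mul _) ?_ fun ω => ?_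
      · have h0 : Integrable (fun x => Real.exp (fn T (s ^ 2) c ε x))
            (P.map fun ω j => Y j ω) := by
          have : IsProbabilityMeasure (P.map fun ω j => Y j ω) :=
            Measure.isProbabilityMeasure_map hYmeas.aemeasurable
          simpa using integrable_exp_fn T hTm hT0 hTs (s ^ 2) c ε 1 (P.map fun ω j => Y j ω)
        exact h0.comp_measurable hYmeas
      · simp only
        rw [← Real.exp_add]
        apply Real.exp_le_exp.2
        linarith [hg ω]
    have h2 : (∫ ω, Real.exp (-(fn T 0 c ε (fun j => Y j ω))) ∂P) =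
        ∫ ω, Real.exp (-a * F ω) ∂P := by
      refine integral_congr_ae (Eventually.of_forall fun ω => ?_)
      simp only [hf]
      congr 1
      ring
    rw [h2] at hkey
    have h3 : 0 ≤ ∫ ω, Real.exp (-a * F ω) ∂P := integral_nonneg fun ω => (Real.exp_pos _).le
    have h4 := (mul_le_mul_of_nonneg_right h1 h3).trans hkey
    have h5 : Real.exp (s ^ 2 * m) * Real.exp (-(s ^ 2 * m)) = 1 := by
      rw [← Real.exp_add]; simp
    have h6 := mul_le_mul_of_nonneg_left h4 (Real.exp_pos (s ^ 2 * m)).le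
    calc (∫ ω, Real.exp (a * F ω) ∂P) * (∫ ω, Real.exp (-a * F ω) ∂P)
        = (Real.exp (s ^ 2 * m) * Real.exp (-(s ^ 2 * m))) *
          ((∫ ω, Real.exp (a * F ω) ∂P) * (∫ ω, Real.exp (-a * F ω) ∂P)) := by rw [h5, one_mul]
      _ = Real.exp (s ^ 2 * m) * (Real.exp (-(s ^ 2 * m)) * (∫ ω, Real.exp (a * F ω) ∂P) *
          ∫ ω, Real.exp (-a * F ω) ∂P) := by ring
      _ ≤ Real.exp (s ^ 2 * m) * 1 := h6
      _ = _ := mul_one _
  -- Jensen
  have hjen : ∀ σ : ℝ, Real.exp (σ * E) ≤ ∫ ω, Real.exp (σ * F ω) ∂P := by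
    intro σ
    have h1 : ∀ ω, Real.exp (σ * E) * (1 + (σ * F ω - σ * E)) ≤ Real.exp (σ * F ω) := by
      intro ω
      have h2 := Real.add_one_le_exp (σ * F ω - σ * E)
      have h3 : Real.exp (σ * F ω) = Real.exp (σ * E) * Real.exp (σ * F ω - σ * E) := by
        rw [← Real.exp_add]; congr 1; ring
      rw [h3]
      exact mul_le_mul_of_nonneg_left (by linarith) (Real.exp_pos _).le
    have hi1 : Integrable (fun ω => σ * F ω - σ * E) P :=
      (hFi.const_mul σ).sub (integrable_const _)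
    have hi2 : Integrable (fun ω => (1 : ℝ) + (σ * F ω - σ * E)) P :=
      (integrable_const _).add hi1
    have h4 := integral_mono (μ := P) (hi2.const_mul (Real.exp (σ * E))) (hei σ) h1
    refine le_trans (le_of_eq ?_) h4
    rw [integral_const_mul]
    have h5 : ∫ ω, ((1 : ℝ) + (σ * F ω - σ * E)) ∂P = 1 := by
      rw [integral_add (integrable_const _) hi1,
        integral_sub (hFi.const_mul σ) (integrable_const _), integral_const_mul]
      simp [hE]
    rw [h5, mul_one]
  have hpos : ∀ σ : ℝ, 0 < ∫ ω, Real.exp (σ * F ω) ∂P := fun σ =>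
    (Real.exp_pos _).trans_le (hjen σ)
  have hsq : s ^ 2 * m = lam ^ 2 * (hi - lo) ^ 2 * m := by
    rw [hs, mul_pow, ha, sq_abs]
  have hsplit : ∀ σ : ℝ, ∫ ω, Real.exp (σ * (F ω - E)) ∂P =
      Real.exp (-(σ * E)) * ∫ ω, Real.exp (σ * F ω) ∂P := by
    intro σ
    rw [← integral_const_mul]
    refine integral_congr_ae (Eventually.of_forall fun ω => ?_)
    simp only
    rw [← Real.exp_add]
    congr 1
    ring
  have hfin : ∀ σ : ℝ, (∫ ω, Real.exp (σ * F ω) ∂P) * (∫ ω, Real.exp (-σ * F ω) ∂P) ≤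
      Real.exp (s ^ 2 * m) → ∫ ω, Real.exp (σ * (F ω - E)) ∂P ≤ Real.exp (s ^ 2 * m) := by
    intro σ h
    rw [hsplit, mul_comm]
    have h1 := hjen (-σ)
    have h2 : -σ * E = -(σ * E) := by ring
    rw [h2] at h1
    exact (mul_le_mul_of_nonneg_left h1 (hpos σ).le).trans h
  rw [← hsq]
  rcases le_or_gt 0 lam with h | h
  · have h1 : lam = a := (abs_of_nonneg h).symm
    rw [h1]
    exact hfin a hprod
  · have h1 : lam = -a := by rw [ha, abs_of_neg h]; ring
    rw [h1]
    apply hfin (-a)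
    rw [neg_neg, mul_comm]
    exact hprod

end Pool.Agent.Helper82.GP
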