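import Pool.Agent.Helper82.GP.Defs
import Pool.Agent.Helper82.GreedyDefs
import Pool.Agent.Helper82.GP.Basic

/-!
Module Conv: conversions between self-avoiding paths as functions and walks in `LG (BG k)`.
-/

namespace Pool.Agent.Helper82.GP

open MeasureTheory ProbabilityTheory Filter
open scoped ENNReal Topology
open Pool.Agent.Helper82.Greedy

namespace Conv

theorem cns_inj {k : ℕ} : Function.Injective (cns (k := k)) := by
  intro u v h
  unfold cns at h
  have h1 := congrFun h 0
  simp only [Fin.cons_zero] at h1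
  have h2 : u.2 = v.2 := by
    funext j
    have := congrFun h j.succ
    simpa using this
  exact Prod.ext h1 h2

/-- the inverse of `cns` -/
def unc {k : ℕ} (v : Fin (k + 1) → ℤ) : ℤ × (Fin k → ℤ) := (v 0, fun j => v j.succ)

theorem cns_unc {k : ℕ} (v : Fin (k + 1) → ℤ) : cns (unc v) = v := by
  unfold cns unc
  funext j
  refine Fin.cases ?_ (fun i => ?_) j
  · simp
  · simp

theorem cns_zero {k : ℕ} : cns (0 : ℤ × (Fin k → ℤ)) = 0 := by
  unfold cns
  funext j
  refine Fin.cases ?_ (fun i => ?_) j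
  · simp
  · simp

theorem unc_zero {k : ℕ} : unc (0 : Fin (k + 1) → ℤ) = 0 := by
  apply cns_inj
  rw [cns_unc, cns_zero]

theorem sum_abs_cns {k : ℕ} (u v : ℤ × (Fin k → ℤ)) :
    ∑ j, |cns u j - cns v j| = |u.1 - v.1| + (l1 u.2 v.2 : ℤ) := by
  unfold cns l1
  rw [Fin.sum_univ_succ]
  simp only [Fin.cons_zero, Fin.cons_succ]
  push_cast
  rfl

theorem l1_eq_zero {k : ℕ} {z w : Fin k → ℤ} (h : l1 z w = 0) : z = w := by
  unfold l1 at h
  rw [Finset.sum_eq_zero_iff] at h
  funext j
  have := h j (Finset.mem_univ j)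
  omega

theorem l1_self {k : ℕ} (z : Fin k → ℤ) : l1 z z = 0 := by
  simp [l1]

theorem adj_iff {k : ℕ} (u v : ℤ × (Fin k → ℤ)) :
    (LG (BG k)).Adj u v ↔ ∑ j, |cns u j - cns v j| = 1 := by
  rw [sum_abs_cns]
  constructor
  · rintro (⟨h1, h2⟩ | ⟨h1, h2⟩)
    · rw [h1, l1_self, h2]; rfl
    · rw [h1, sub_self, abs_zero, zero_add]
      have : l1 u.2 v.2 = 1 := h2
      rw [this]; rfl
  · intro h
    have h0 := abs_nonneg (u.1 - v.1)
    rcases Nat.eq_zero_or_pos (l1 u.2 v.2) with hz | hz
    · left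
      refine ⟨l1_eq_zero hz, ?_⟩
      rw [hz] at h
      simpa using h
    · right
      have h1 : (1 : ℤ) ≤ (l1 u.2 v.2 : ℤ) := by exact_mod_cast hz
      have h2 : |u.1 - v.1| = 0 := by linarith
      have h3 : (l1 u.2 v.2 : ℤ) = 1 := by linarith
      refine ⟨by have := abs_eq_zero.mp h2; linarith, ?_⟩
      change l1 u.2 v.2 = 1
      exact_mod_cast h3

theorem walk_of_fun {V : Type*} (H : SimpleGraph V) (w : ℕ → V) (n : ℕ)
    (h : ∀ i < n, H.Adj (w i) (w (i + 1))) :
    ∃ p : H.Walk (w 0) (w n), p.length = n ∧ p.support = (List.range (n + 1)).map w := by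
  induction n with
  | zero => exact ⟨SimpleGraph.Walk.nil, rfl, by simp⟩
  | succ n ih =>
    obtain ⟨p, hp1, hp2⟩ := ih (fun i hi => h i (by omega))
    refine ⟨p.concat (h n (by omega)), by rw [SimpleGraph.Walk.length_concat, hp1], ?_⟩
    rw [SimpleGraph.Walk.support_concat, hp2, List.range_succ (n := n + 1), List.map_append]
    simp

end Conv

open Conv in
theorem exists_opt_path (k : ℕ) (x : (Fin (k + 1) → ℤ) → ℝ) (n : ℕ) :
    ∃ (x₁ : ℤ × (Fin k → ℤ)) (p : (LG (BG k)).Walk 0 x₁), p.IsPath ∧ p.length = n ∧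
      greedy (k + 1) x n = ∑ v ∈ p.support.toFinset.erase 0, x (cns v) := by
  classical
  obtain ⟨γ, hγ, hg⟩ := exists_greedy (k + 1) (Nat.le_add_left 1 k) x n
  -- extend γ to ℕ
  let g : ℕ → (Fin (k + 1) → ℤ) := fun i => γ ⟨min i n, by omega⟩
  have hgi : ∀ (i : ℕ) (hi : i < n + 1), g i = γ ⟨i, hi⟩ := by
    intro i hi
    change γ ⟨min i n, _⟩ = γ ⟨i, hi⟩
    congr 1
    apply Fin.ext
    change min i n = i
    omega
  let w : ℕ → ℤ × (Fin k → ℤ) := fun i => unc (g i)
  have hw : ∀ i, cns (w i) = g i := fun i => cns_unc (g i)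
  have hw0 : w 0 = 0 := by
    change unc (g 0) = 0
    rw [hgi 0 (by omega)]
    have : γ ⟨0, by omega⟩ = 0 := hγ.1
    rw [this, unc_zero]
  have hadj : ∀ i < n, (LG (BG k)).Adj (w i) (w (i + 1)) := by
    intro i hi
    rw [adj_iff, hw, hw, hgi i (by omega), hgi (i + 1) (by omega)]
    have := hγ.2.2 ⟨i, hi⟩
    rw [← this]
    apply Finset.sum_congr rfl
    intro j _
    rw [abs_sub_comm]
    rfl
  obtain ⟨p, hp1, hp2⟩ := walk_of_fun (LG (BG k)) w n hadj
  have hinj : ∀ i < n + 1, ∀ j < n + 1, w i = w j → i = j := by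
    intro i hi j hj hij
    have h1 : g i = g j := by rw [← hw, ← hw, hij]
    rw [hgi i hi, hgi j hj] at h1
    have h2 := hγ.2.1 h1
    exact Fin.mk.inj_iff.mp h2
  have hnodup : p.support.Nodup := by
    rw [hp2]
    apply List.Nodup.map_on _ List.nodup_range
    intro i hi j hj hij
    exact hinj i (List.mem_range.mp hi) j (List.mem_range.mp hj) hij
  have hsum : ∑ v ∈ p.support.toFinset.erase 0, x (cns v) = ∑ v ∈ vset γ, x v := by
    rw [← Finset.sum_image (f := x) (g := cns) (s := p.support.toFinset.erase 0)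
      (fun a _ b _ hab => cns_inj hab)]
    congr 1
    ext v
    simp only [Finset.mem_image, Finset.mem_erase, List.mem_toFinset, hp2, List.mem_map,
      List.mem_range, vset, Finset.mem_univ, true_and]
    constructor
    · rintro ⟨u, ⟨hu0, i, hi, rfl⟩, rfl⟩
      have hi0 : i ≠ 0 := by
        rintro rfl
        exact hu0 hw0
      refine ⟨⟨i - 1, by omega⟩, ?_⟩
      rw [hw, hgi i hi]
      congr 1
      apply Fin.ext
      simp
      omega
    · rintro ⟨i, rfl⟩
      refine ⟨w (i + 1), ⟨?_, i + 1, by omega, rfl⟩, ?_⟩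
      · intro h
        have := hinj (i + 1) (by omega) 0 (by omega) (h.trans hw0.symm)
        omega
      · rw [hw, hgi _ (by omega)]
        rfl
  have hcast : ∃ (p' : (LG (BG k)).Walk 0 (w n)), p'.support = p.support ∧ p'.length = p.length := by
    refine ⟨p.copy hw0 rfl, ?_, ?_⟩
    · rw [SimpleGraph.Walk.support_copy]
    · rw [SimpleGraph.Walk.length_copy]
  obtain ⟨p', hp'1, hp'2⟩ := hcast
  refine ⟨w n, p', ?_, by rw [hp'2, hp1], ?_⟩
  · rw [SimpleGraph.Walk.isPath_def, hp'1]
    exact hnodup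
  · rw [hp'1, hsum, sum_vset hγ, hg]

open Conv in
theorem greedy_ge_of_path (k : ℕ) (x : (Fin (k + 1) → ℤ) → ℝ) (n : ℕ) (B : ℝ)
    (hB : ∀ v, x v ≤ B) (x₁ : ℤ × (Fin k → ℤ)) (p : (LG (BG k)).Walk 0 x₁) (hp : p.IsPath)
    (hn : n ≤ p.length) :
    ∑ v ∈ p.support.toFinset.erase 0, x (cns v) - B * (p.length - n) ≤
      greedy (k + 1) x n := by
  classical
  have hinj : ∀ i ≤ p.length, ∀ j ≤ p.length, p.getVert i = p.getVert j → i = j := by
    intro i hi j hj hij
    exact hp.getVert_injOn hi hj hij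
  -- the SAW
  let γ : Fin (n + 1) → (Fin (k + 1) → ℤ) := fun i => cns (p.getVert i)
  have hγ : IsSAW (k + 1) n γ := by
    refine ⟨?_, ?_, ?_⟩
    · change cns (p.getVert 0) = 0
      rw [SimpleGraph.Walk.getVert_zero, cns_zero]
    · intro i j hij
      apply Fin.ext
      exact hinj i (by omega) j (by omega) (cns_inj hij)
    · intro i
      have hadj := p.adj_getVert_succ (i := (i : ℕ)) (by omega)
      have h := (adj_iff _ _).mp hadj.symm
      exact h
  have hle := le_greedy x hγ
  have hsupp : p.support.toFinset.erase 0 = (Finset.range p.length).image (fun i => p.getVert (i + 1)) := by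
    ext v
    simp only [Finset.mem_erase, List.mem_toFinset, Finset.mem_image, Finset.mem_range]
    constructor
    · rintro ⟨hv0, hv⟩
      obtain ⟨i, hi, hil⟩ := SimpleGraph.Walk.mem_support_iff_exists_getVert.mp hv
      have hi0 : i ≠ 0 := by
        rintro rfl
        rw [SimpleGraph.Walk.getVert_zero] at hi
        exact hv0 hi.symm
      exact ⟨i - 1, by omega, by rw [Nat.sub_add_cancel (by omega)]; exact hi⟩
    · rintro ⟨i, hi, rfl⟩
      refine ⟨?_, p.getVert_mem_support _⟩
      intro h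
      have h0 : p.getVert (i + 1) = p.getVert 0 := by rw [h, SimpleGraph.Walk.getVert_zero]
      have := hinj (i + 1) (by omega) 0 (by omega) h0
      omega
  have hsum : ∑ v ∈ p.support.toFinset.erase 0, x (cns v)
      = ∑ i ∈ Finset.range p.length, x (cns (p.getVert (i + 1))) := by
    rw [hsupp, Finset.sum_image]
    intro i hi j hj hij
    have hi' := Finset.mem_range.mp hi
    have hj' := Finset.mem_range.mp hj
    have := hinj (i + 1) (by omega) (j + 1) (by omega) hij
    omega
  have hsplit : ∑ i ∈ Finset.range p.length, x (cns (p.getVert (i + 1)))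
      ≤ ∑ i ∈ Finset.range n, x (cns (p.getVert (i + 1))) + B * (p.length - n) := by
    obtain ⟨m, hm⟩ := Nat.exists_eq_add_of_le hn
    rw [hm, Finset.sum_range_add]
    have h1 : ∑ i ∈ Finset.range m, x (cns (p.getVert (n + i + 1))) ≤ ∑ i ∈ Finset.range m, B :=
      Finset.sum_le_sum (fun i _ => hB _)
    rw [Finset.sum_const, Finset.card_range, nsmul_eq_mul] at h1
    push_cast
    have h2 : (m : ℝ) * B = B * (n + m - n) := by ring
    linarith
  have hfin : ∑ i ∈ Finset.range n, x (cns (p.getVert (i + 1))) = ∑ i : Fin n, x (γ i.succ) := by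
    rw [← Fin.sum_univ_eq_sum_range (fun i => x (cns (p.getVert (i + 1)))) n]
    apply Finset.sum_congr rfl
    intro i _
    simp only [γ, Fin.val_succ]
  rw [hsum]
  linarith

open Conv in
theorem support_subset_box (k : ℕ) (x₁ : ℤ × (Fin k → ℤ)) (p : (LG (BG k)).Walk 0 x₁) :
    p.support.toFinset ⊆ box k p.length := by
  classical
  have hbound : ∀ i ≤ p.length, ∑ j, |cns (p.getVert i) j| ≤ (i : ℤ) := by
    intro i
    induction i with
    | zero =>
      intro _
      rw [SimpleGraph.Walk.getVert_zero, cns_zero]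
      simp
    | succ i ih =>
      intro hi
      have h1 := ih (by omega)
      have h2 := (adj_iff _ _).mp (p.adj_getVert_succ (i := i) (by omega)).symm
      have h3 : ∑ j, |cns (p.getVert (i + 1)) j| ≤
          ∑ j, |cns (p.getVert (i + 1)) j - cns (p.getVert i) j| + ∑ j, |cns (p.getVert i) j| := by
        rw [← Finset.sum_add_distrib]
        refine Finset.sum_le_sum fun j _ => ?_
        have := abs_add_le (cns (p.getVert (i + 1)) j - cns (p.getVert i) j) (cns (p.getVert i) j)
        simpa using this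
      push_cast
      linarith
  intro v hv
  rw [List.mem_toFinset] at hv
  obtain ⟨i, hi, hil⟩ := SimpleGraph.Walk.mem_support_iff_exists_getVert.mp hv
  have hb := hbound i hil
  rw [hi] at hb
  have hj : ∀ j, |cns v j| ≤ (p.length : ℤ) := by
    intro j
    have h2 : |cns v j| ≤ ∑ j, |cns v j| :=
      Finset.single_le_sum (f := fun j => |cns v j|) (fun j _ => abs_nonneg _) (Finset.mem_univ j)
    have h3 : (i : ℤ) ≤ p.length := by exact_mod_cast hil
    linarith
  unfold box
  rw [Finset.mem_product, Fintype.mem_piFinset]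
  constructor
  · have h0 := abs_le.mp (hj 0)
    have hc : cns v 0 = v.1 := by simp [cns]
    rw [hc] at h0
    exact Finset.mem_Icc.mpr h0
  · intro j
    have h0 := abs_le.mp (hj j.succ)
    have hc : cns v j.succ = v.2 j := by simp [cns]
    rw [hc] at h0
    exact Finset.mem_Icc.mpr h0

end Pool.Agent.Helper82.GP
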