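import Pool.Agent.Helper82.GP.Defs

namespace Pool.Agent.Helper82.GP.Cover

/-! #### Lists and consecutive elements -/

/-- `a`, `b` are consecutive in `L`, in one of the two orders. -/
def Con {V : Type*} (L : List V) (a b : V) : Prop :=
  (∃ X Y, L = X ++ a :: b :: Y) ∨ (∃ X Y, L = X ++ b :: a :: Y)

theorem Con.symm {V : Type*} {L : List V} {a b : V} (h : Con L a b) : Con L b a := Or.symm h

theorem con_reverse_aux {V : Type*} {L : List V} {a b : V} (h : ∃ X Y, L = X ++ a :: b :: Y) :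
    ∃ X Y, L.reverse = X ++ b :: a :: Y := by
  obtain ⟨X, Y, rfl⟩ := h
  exact ⟨Y.reverse, X.reverse, by simp⟩

theorem Con.reverse {V : Type*} {L : List V} {a b : V} (h : Con L a b) : Con L.reverse a b := by
  rcases h with h | h
  · exact Or.inr (con_reverse_aux h)
  · exact Or.inl (con_reverse_aux h)

theorem con_range_map {V : Type*} (f : ℕ → V) (l t : ℕ) (h : t + 1 < l) :
    ∃ X Y, (List.range l).map f = X ++ f t :: f (t + 1) :: Y := by
  obtain ⟨r, rfl⟩ : ∃ r, l = t + (2 + r) := ⟨l - t - 2, by omega⟩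
  refine ⟨(List.range t).map f, (List.range r).map (fun x => f (t + (2 + x))), ?_⟩
  rw [List.range_add, List.map_append]
  congr 1
  rw [List.range_add]
  simp [List.range_succ, Function.comp_def]

theorem chain_range_map {V : Type*} (R : V → V → Prop) (f : ℕ → V) (l : ℕ)
    (h : ∀ t, t + 1 < l → R (f t) (f (t + 1))) : ((List.range l).map f).IsChain R := by
  rw [List.isChain_iff_getElem]
  intro i hi
  simp only [List.length_map, List.length_range] at hi
  simpa using h i hi

/-- Insertion of a segment `P` between consecutive elements keeps the other consecutive pairs. -/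
theorem insert_keep {V : Type*} (X Y P : List V) (u v a b : V) (hne : ¬ (a = u ∧ b = v))
    (h : ∃ X' Y', X ++ u :: v :: Y = X' ++ a :: b :: Y') :
    ∃ X' Y', X ++ u :: (P ++ v :: Y) = X' ++ a :: b :: Y' := by
  obtain ⟨X', Y', h⟩ := h
  rw [List.append_eq_append_iff] at h
  rcases h with ⟨as, rfl, h2⟩ | ⟨bs, rfl, h2⟩
  · cases as with
    | nil =>
      simp only [List.nil_append, List.cons.injEq] at h2
      exact absurd ⟨h2.1.symm, h2.2.1.symm⟩ hne
    | cons x as =>
      simp only [List.cons_append, List.cons.injEq] at h2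
      refine ⟨X ++ u :: (P ++ as), Y', ?_⟩
      rw [h2.2]
      simp
  · cases bs with
    | nil =>
      simp only [List.nil_append, List.cons.injEq] at h2
      exact absurd ⟨h2.1, h2.2.1⟩ hne
    | cons x bs =>
      simp only [List.cons_append, List.cons.injEq] at h2
      obtain ⟨rfl, h2⟩ := h2
      cases bs with
      | nil =>
        simp only [List.nil_append, List.cons.injEq] at h2
        obtain ⟨rfl, h2⟩ := h2
        exact ⟨X', P ++ v :: Y, by simp⟩
      | cons y bs =>
        simp only [List.cons_append, List.cons.injEq] at h2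
        obtain ⟨rfl, h2⟩ := h2
        exact ⟨X', bs ++ u :: (P ++ v :: Y), by simp⟩

theorem step_core {V : Type*} (R : V → V → Prop) (X Y P0 P1 P : List V) (a b a' b' : V)
    (hM : (X ++ a :: b :: Y).Nodup) (hMc : (X ++ a :: b :: Y).IsChain R)
    (hP : P.Nodup) (hPc : P.IsChain R) (hPa : P = a' :: P0) (hPb : P = P1 ++ [b'])
    (hdis : ∀ z ∈ X ++ a :: b :: Y, z ∉ P) (haa : R a a') (hbb : R b' b) :
    ∃ M' : List V, M'.Nodup ∧ M'.IsChain R ∧
      (∀ z, z ∈ M' ↔ z ∈ X ++ a :: b :: Y ∨ z ∈ P) ∧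
      (∀ z1, (∃ M0, X ++ a :: b :: Y = M0 ++ [z1]) → ∃ M0, M' = M0 ++ [z1]) ∧
      (∀ x y, Con (X ++ a :: b :: Y) x y → s(x, y) ≠ s(a, b) → Con M' x y) ∧
      (∀ x y, Con P x y → Con M' x y) := by
  refine ⟨X ++ a :: (P ++ b :: Y), ?_, ?_, ?_, ?_, ?_, ?_⟩
  · have h1 : (X ++ a :: (P ++ b :: Y)).Perm ((X ++ a :: b :: Y) ++ P) := by
      have : (X ++ a :: (P ++ b :: Y)) = (X ++ [a]) ++ (P ++ b :: Y) := by simp
      rw [this]
      have h2 : (X ++ a :: b :: Y) ++ P = (X ++ [a]) ++ (b :: Y ++ P) := by simp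
      rw [h2]
      exact List.Perm.append_left _ List.perm_append_comm
    rw [h1.nodup_iff, List.nodup_append]
    refine ⟨hM, hP, ?_⟩
    intro x hx y hy hxy
    subst hxy
    exact hdis x hx hy
  · have e : X ++ a :: (P ++ b :: Y) = (X ++ [a]) ++ (P ++ (b :: Y)) := by simp
    have e2 : X ++ a :: b :: Y = (X ++ [a]) ++ (b :: Y) := by simp
    rw [e2, List.isChain_append] at hMc
    rw [e, List.isChain_append]
    refine ⟨hMc.1, ?_, ?_⟩
    · rw [List.isChain_append]
      refine ⟨hPc, hMc.2.1, ?_⟩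
      intro x hx y hy
      rw [hPb] at hx
      simp at hx hy
      subst hx hy
      exact hbb
    · intro x hx y hy
      rw [hPa] at hy
      simp at hx hy
      subst hx hy
      exact haa
  · intro z
    simp only [List.mem_append, List.mem_cons]
    tauto
  · rintro z1 ⟨M0, h⟩
    have h3 : (X ++ a :: b :: Y).getLast? = some z1 := by rw [h]; simp
    have h4 : (X ++ a :: (P ++ b :: Y)).getLast? = some z1 := by
      rw [← h3]
      have e : X ++ a :: (P ++ b :: Y) = (X ++ a :: P) ++ (b :: Y) := by simp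
      have e2 : X ++ a :: b :: Y = (X ++ [a]) ++ (b :: Y) := by simp
      rw [e, e2, List.getLast?_append_of_ne_nil _ (by simp), List.getLast?_append_of_ne_nil _ (by simp)]
    exact ⟨_, (List.dropLast_append_getLast? z1 h4).symm⟩
  · intro x y hxy hne
    rcases hxy with h | h
    · left
      refine insert_keep X Y P a b x y ?_ h
      rintro ⟨rfl, rfl⟩
      exact hne rfl
    · right
      refine insert_keep X Y P a b y x ?_ h
      rintro ⟨rfl, rfl⟩
      exact hne Sym2.eq_swap
  · intro x y hxy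
    rcases hxy with ⟨U, W, h⟩ | ⟨U, W, h⟩
    · left
      exact ⟨X ++ a :: U, W ++ b :: Y, by rw [h]; simp⟩
    · right
      exact ⟨X ++ a :: U, W ++ b :: Y, by rw [h]; simp⟩

theorem step_any {V : Type*} (G : SimpleGraph V) (M P0 P1 P : List V) (u v a' b' : V)
    (hM : M.Nodup) (hMc : M.IsChain G.Adj) (hcon : Con M u v)
    (hP : P.Nodup) (hPc : P.IsChain G.Adj) (hPa : P = a' :: P0) (hPb : P = P1 ++ [b'])
    (hdis : ∀ z ∈ M, z ∉ P) (hadj : (G.Adj u a' ∧ G.Adj v b') ∨ (G.Adj u b' ∧ G.Adj v a')) :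
    ∃ M' : List V, M'.Nodup ∧ M'.IsChain G.Adj ∧
      (∀ z, z ∈ M' ↔ z ∈ M ∨ z ∈ P) ∧
      (∀ z1, (∃ M0, M = M0 ++ [z1]) → ∃ M0, M' = M0 ++ [z1]) ∧
      (∀ x y, Con M x y → s(x, y) ≠ s(u, v) → Con M' x y) ∧
      (∀ x y, Con P x y → Con M' x y) := by
  have hPr : P.reverse.Nodup := List.nodup_reverse.mpr hP
  have hPrc : P.reverse.IsChain G.Adj := by
    rw [List.isChain_reverse]
    exact hPc.imp fun _ _ h => h.symm
  have hPra : P.reverse = b' :: P1.reverse := by rw [hPb]; simp
  have hPrb : P.reverse = P0.reverse ++ [a'] := by rw [hPa]; simp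
  rcases hcon with ⟨X, Y, rfl⟩ | ⟨X, Y, rfl⟩
  · rcases hadj with ⟨h1, h2⟩ | ⟨h1, h2⟩
    · exact step_core G.Adj X Y P0 P1 P u v a' b' hM hMc hP hPc hPa hPb hdis h1 h2.symm
    · obtain ⟨M', q1, q2, q3, q4, q5, q6⟩ := step_core G.Adj X Y _ _ P.reverse u v b' a' hM hMc
        hPr hPrc hPra hPrb (by simpa using hdis) h1 h2.symm
      refine ⟨M', q1, q2, by simpa using q3, q4, q5, fun x y h => q6 x y h.reverse⟩
  · rcases hadj with ⟨h1, h2⟩ | ⟨h1, h2⟩
    · obtain ⟨M', q1, q2, q3, q4, q5, q6⟩ := step_core G.Adj X Y _ _ P.reverse v u b' a' hM hMc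
        hPr hPrc hPra hPrb (by simpa using hdis) h2 h1.symm
      refine ⟨M', q1, q2, by simpa using q3, q4, ?_, fun x y h => q6 x y h.reverse⟩
      intro x y hxy hne
      exact q5 x y hxy (by rwa [Sym2.eq_swap (a := v)])
    · obtain ⟨M', q1, q2, q3, q4, q5, q6⟩ := step_core G.Adj X Y P0 P1 P v u a' b' hM hMc hP hPc
        hPa hPb hdis h2 h1.symm
      refine ⟨M', q1, q2, q3, q4, ?_, q6⟩
      intro x y hxy hne
      exact q5 x y hxy (by rwa [Sym2.eq_swap (a := v)])


/-! #### Systems of blocks, each carrying a Hamiltonian cycle -/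

/-- A system of blocks: `c J` is a cyclic enumeration (period `n`) of the block `J`, `nb I d` is the
neighbour of the block `I` in direction `d`, and `pos I d` is the position, in the cycle of `I`, of
the edge reserved for direction `d`. -/
structure Sys (V B D : Type*) where
  /-- the graph on the sites -/
  G : SimpleGraph V
  /-- the block of a site -/
  β : V → B
  /-- the number of sites of a block -/
  n : ℕ
  /-- the cyclic enumeration of a block -/
  c : B → ℕ → V
  /-- neighbouring block -/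
  nb : B → D → B
  /-- opposite direction -/
  op : D → D
  /-- position of the reserved edge -/
  pos : B → D → ℕ
  hn : 4 ≤ n
  per : ∀ J t, c J (t + n) = c J t
  inj : ∀ J, Set.InjOn (c J) (Set.Iio n)
  adj : ∀ J t, G.Adj (c J t) (c J (t + 1))
  mem : ∀ J z, β z = J ↔ ∃ t < n, z = c J t
  nbop : ∀ I d, nb (nb I d) (op d) = I
  pos_lt : ∀ I d, pos I d < n
  pos_inj : ∀ I d d', pos I d = pos I d' → d = d'
  par : ∀ I d, (G.Adj (c I (pos I d)) (c (nb I d) (pos (nb I d) (op d))) ∧
      G.Adj (c I (pos I d + 1)) (c (nb I d) (pos (nb I d) (op d) + 1))) ∨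
    (G.Adj (c I (pos I d)) (c (nb I d) (pos (nb I d) (op d) + 1)) ∧
      G.Adj (c I (pos I d + 1)) (c (nb I d) (pos (nb I d) (op d))))

namespace Sys

variable {V B D : Type*} (S : Sys V B D)

theorem beta_c (J : B) (t : ℕ) : S.β (S.c J t) = J := by
  have hn := S.hn
  have h : ∀ q r, S.c J (r + q * S.n) = S.c J r := by
    intro q
    induction q with
    | zero => intro r; simp
    | succ q ih =>
      intro r
      rw [Nat.succ_mul, ← add_assoc, S.per, ih]
  rw [S.mem]
  refine ⟨t % S.n, Nat.mod_lt _ (by omega), ?_⟩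
  conv_lhs => rw [← Nat.mod_add_div t S.n, mul_comm, h]

theorem c_eq_iff (J : B) {t t' : ℕ} (ht : t < 2 * S.n) (ht' : t' < 2 * S.n)
    (h : S.c J t = S.c J t') : t = t' ∨ t = t' + S.n ∨ t' = t + S.n := by
  have key : ∀ s, s < 2 * S.n → ∃ s0 < S.n, S.c J s = S.c J s0 ∧ (s = s0 ∨ s = s0 + S.n) := by
    intro s hs
    rcases lt_or_ge s S.n with h1 | h1
    · exact ⟨s, h1, rfl, Or.inl rfl⟩
    · refine ⟨s - S.n, by omega, ?_, Or.inr (by omega)⟩
      conv_lhs => rw [show s = (s - S.n) + S.n by omega, S.per]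
  obtain ⟨a, ha, ha1, ha2⟩ := key t ht
  obtain ⟨b, hb, hb1, hb2⟩ := key t' ht'
  have : a = b := S.inj J ha hb (by rw [← ha1, ← hb1, h])
  omega

/-- Equality of two cycle edges of the same block. -/
theorem edge_inj (J : B) {p q : ℕ} (hp : p < S.n) (hq : q < S.n)
    (h : s(S.c J p, S.c J (p + 1)) = s(S.c J q, S.c J (q + 1))) : p = q := by
  have hn := S.hn
  rw [Sym2.eq_iff] at h
  rcases h with ⟨h1, _⟩ | ⟨h1, h2⟩
  · exact S.inj J hp hq h1
  · have e1 := S.c_eq_iff J (by omega) (by omega) h1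
    have e2 := S.c_eq_iff J (by omega) (by omega) h2
    omega

/-- The cycle of the block `J` cut open before position `p + 1`, first `l` sites. -/
def rot (J : B) (p l : ℕ) : List V := (List.range l).map (fun t => S.c J (p + 1 + t))

theorem rot_nodup (J : B) (p l : ℕ) (hp : p < S.n) (hl : l ≤ S.n) : (S.rot J p l).Nodup := by
  unfold rot
  refine List.Nodup.map_on ?_ List.nodup_range
  intro x hx y hy h
  rw [List.mem_range] at hx hy
  have := S.c_eq_iff J (by omega) (by omega) h
  omega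

theorem rot_chain (J : B) (p l : ℕ) : (S.rot J p l).IsChain S.G.Adj :=
  chain_range_map _ _ _ fun _ _ => S.adj J _

theorem mem_rot (J : B) (p : ℕ) (hp : p < S.n) (z : V) : z ∈ S.rot J p S.n ↔ S.β z = J := by
  constructor
  · intro h
    unfold rot at h
    rw [List.mem_map] at h
    obtain ⟨t, _, rfl⟩ := h
    exact S.beta_c _ _
  · intro h
    obtain ⟨t, ht, rfl⟩ := (S.mem J z).mp h
    unfold rot
    rw [List.mem_map]
    rcases lt_or_ge p t with h1 | h1
    · exact ⟨t - (p + 1), by rw [List.mem_range]; omega, by congr 1; omega⟩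
    · refine ⟨t + S.n - (p + 1), by rw [List.mem_range]; omega, ?_⟩
      rw [← S.per J t]
      congr 1
      omega

theorem rot_cons (J : B) (p l : ℕ) : S.rot J p (l + 1) = S.c J (p + 1) :: S.rot J (p + 1) l := by
  unfold rot
  rw [List.range_succ_eq_map]
  simp [Function.comp_def]
  intro a _
  congr 1
  omega

theorem rot_concat (J : B) (p l : ℕ) :
    S.rot J p (l + 1) = S.rot J p l ++ [S.c J (p + 1 + l)] := by
  unfold rot
  rw [List.range_succ]
  simp

theorem rot_con (J : B) (p q l : ℕ) (hp : p < S.n) (_hq : q < S.n)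
    (h : (p < q ∧ q < p + l) ∨ (q + S.n < p + l ∧ q ≤ p)) :
    Con (S.rot J p l) (S.c J q) (S.c J (q + 1)) := by
  left
  rcases h with ⟨h1, h2⟩ | ⟨h1, h2⟩
  · have := con_range_map (fun t => S.c J (p + 1 + t)) l (q - (p + 1)) (by omega)
    rw [show p + 1 + (q - (p + 1)) = q by omega, show p + 1 + (q - (p + 1) + 1) = q + 1 by omega]
      at this
    exact this
  · have := con_range_map (fun t => S.c J (p + 1 + t)) l (q + S.n - (p + 1)) (by omega)
    rw [show p + 1 + (q + S.n - (p + 1)) = q + S.n by omega,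
      show p + 1 + (q + S.n - (p + 1) + 1) = (q + 1) + S.n by omega, S.per, S.per]
      at this
    exact this

/-- The induction invariant: `M` is a path covering the blocks in `Q` except the two sites `z2`,
`z3`, it ends at `z1` and contains all edges reserved for directions leaving `Q`. -/
def Inv (z1 z2 z3 : V) (Q : Finset B) (M : List V) : Prop :=
  M.Nodup ∧ M.IsChain S.G.Adj ∧ (∃ M0, M = M0 ++ [z1]) ∧
    (∀ z, z ∈ M ↔ S.β z ∈ Q ∧ z ≠ z2 ∧ z ≠ z3) ∧
    (∀ I ∈ Q, ∀ d, S.nb I d ∉ Q → Con M (S.c I (S.pos I d)) (S.c I (S.pos I d + 1)))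

theorem inv_step [DecidableEq B] (z1 z2 z3 : V) (Q : Finset B) (h2 : S.β z2 ∈ Q) (h3 : S.β z3 ∈ Q)
    (M : List V) (hM : S.Inv z1 z2 z3 Q M) (I : B) (hI : I ∈ Q) (d : D) (hJ : S.nb I d ∉ Q) :
    ∃ M', S.Inv z1 z2 z3 (insert (S.nb I d) Q) M' := by
  obtain ⟨m1, m2, m3, m4, m5⟩ := hM
  have hn := S.hn
  set J := S.nb I d with hJdef
  set p := S.pos J (S.op d) with hp
  have hpn : p < S.n := S.pos_lt _ _
  obtain ⟨n', hn'⟩ : ∃ n', S.n = n' + 1 := ⟨S.n - 1, by omega⟩
  have hdis : ∀ z ∈ M, z ∉ S.rot J p S.n := by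
    intro z hz hz'
    rw [S.mem_rot J p hpn] at hz'
    rw [m4, hz'] at hz
    exact hJ hz.1
  have hPa : S.rot J p S.n = S.c J (p + 1) :: S.rot J (p + 1) n' := by
    rw [hn']; exact S.rot_cons _ _ _
  have hPb : S.rot J p S.n = S.rot J p n' ++ [S.c J p] := by
    rw [hn', S.rot_concat, show p + 1 + n' = p + S.n by omega, S.per]
  obtain ⟨M', q1, q2, q3, q4, q5, q6⟩ := step_any S.G M (S.rot J (p + 1) n') (S.rot J p n')
    (S.rot J p S.n) (S.c I (S.pos I d)) (S.c I (S.pos I d + 1)) (S.c J (p + 1)) (S.c J p)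
    m1 m2 (m5 I hI d hJ) (S.rot_nodup J p S.n hpn le_rfl) (S.rot_chain J p S.n) hPa hPb hdis
    (by
      rcases S.par I d with h | h
      · exact Or.inr h
      · exact Or.inl h)
  refine ⟨M', q1, q2, q4 z1 m3, ?_, ?_⟩
  · intro z
    rw [q3, m4, S.mem_rot J p hpn, Finset.mem_insert]
    constructor
    · rintro (h | h)
      · exact ⟨Or.inr h.1, h.2⟩
      · refine ⟨Or.inl h, ?_, ?_⟩
        · rintro rfl
          rw [h] at h2
          exact hJ h2
        · rintro rfl
          rw [h] at h3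
          exact hJ h3
    · rintro ⟨h | h, h'⟩
      · exact Or.inr h
      · exact Or.inl ⟨h, h'⟩
  · intro I1 hI1 d1 hd1
    rw [Finset.mem_insert, not_or] at hd1
    rw [Finset.mem_insert] at hI1
    rcases hI1 with rfl | hI1
    · refine q6 _ _ (S.rot_con J p _ _ hpn (S.pos_lt _ _) ?_)
      have hne : S.pos J d1 ≠ p := by
        intro h
        have := S.pos_inj J _ _ h
        subst this
        apply hd1.2
        rw [hJdef, S.nbop]
        exact hI
      have := S.pos_lt J d1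
      omega
    · refine q5 _ _ (m5 I1 hI1 d1 hd1.2) ?_
      intro h
      have hI : I1 = I := by
        have := congrArg (Sym2.map S.β) h
        simp only [Sym2.map_mk, S.beta_c] at this
        rw [Sym2.eq_iff] at this
        tauto
      subst hI
      have := S.edge_inj I1 (S.pos_lt _ _) (S.pos_lt _ _) h
      have := S.pos_inj I1 _ _ this
      subst this
      exact hd1.1 rfl

theorem inv_root (root : B) (t0 : ℕ) (ht0 : t0 + 2 < S.n)
    (hfree : ∀ d, S.pos root d ≠ t0 ∧ S.pos root d ≠ t0 + 1 ∧ S.pos root d ≠ t0 + 2) :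
    S.Inv (S.c root t0) (S.c root (t0 + 1)) (S.c root (t0 + 2)) {root}
      (S.rot root (t0 + 2) (S.n - 2)) := by
  have hn := S.hn
  obtain ⟨n', hn'⟩ : ∃ n', S.n = n' + 3 := ⟨S.n - 3, by omega⟩
  have e : S.rot root (t0 + 2) S.n =
      S.rot root (t0 + 2) (S.n - 2) ++ [S.c root (t0 + 1)] ++ [S.c root (t0 + 2)] := by
    have h1 : t0 + 2 + 1 + (n' + 2) = (t0 + 2) + S.n := by omega
    have h2 : t0 + 2 + 1 + (n' + 1) = (t0 + 1) + S.n := by omega
    have h3 : S.n - 2 = n' + 1 := by omega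
    have h4 : S.rot root (t0 + 2) S.n = S.rot root (t0 + 2) (n' + 3) := by rw [hn']
    rw [h4, S.rot_concat, S.rot_concat, h1, h2, S.per, S.per, h3]
  have hnd := S.rot_nodup root (t0 + 2) S.n (by omega) le_rfl
  refine ⟨S.rot_nodup _ _ _ (by omega) (by omega), S.rot_chain _ _ _, ?_, ?_, ?_⟩
  · refine ⟨S.rot root (t0 + 2) n', ?_⟩
    rw [show S.n - 2 = n' + 1 by omega, S.rot_concat,
      show t0 + 2 + 1 + n' = t0 + S.n by omega, S.per]
  · intro z
    rw [Finset.mem_singleton, ← S.mem_rot root (t0 + 2) (by omega)]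
    rw [e] at hnd ⊢
    simp only [List.append_assoc, List.cons_append, List.nil_append, List.nodup_append,
      List.mem_append, List.mem_cons, List.not_mem_nil, or_false] at hnd ⊢
    constructor
    · intro h
      refine ⟨Or.inl h, hnd.2.2 z h _ (Or.inl rfl), hnd.2.2 z h _ (Or.inr rfl)⟩
    · rintro ⟨h | h | h, h2, h3⟩
      · exact h
      · exact absurd h h2
      · exact absurd h h3
  · intro I hI d _
    rw [Finset.mem_singleton] at hI
    subst hI
    have h1 := S.pos_lt I d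
    have h2 := hfree d
    refine S.rot_con I _ _ _ (by omega) h1 ?_
    omega

end Sys

/-! #### Growing connected sets -/

/-- Reachability inside `Q'`. -/
def Reach {B : Type*} (H : SimpleGraph B) (Q' : Finset B) : B → B → Prop :=
  Relation.ReflTransGen (fun x y => x ∈ Q' ∧ y ∈ Q' ∧ H.Adj x y)

theorem Reach.symm {B : Type*} {H : SimpleGraph B} {Q' : Finset B} {x y : B}
    (h : Reach H Q' x y) : Reach H Q' y x := by
  induction h with
  | refl => exact Relation.ReflTransGen.refl
  | tail _ hbc ih => exact Relation.ReflTransGen.head ⟨hbc.2.1, hbc.1, hbc.2.2.symm⟩ ih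

theorem Reach.mem {B : Type*} {H : SimpleGraph B} {Q' : Finset B} {x y : B}
    (h : Reach H Q' x y) (hx : x ∈ Q') : y ∈ Q' := by
  induction h with
  | refl => exact hx
  | tail _ hbc _ => exact hbc.2.1

theorem growth {B : Type*} [DecidableEq B] (H : SimpleGraph B) (Q' : Finset B) (root : B)
    (hroot : root ∈ Q') (Φ : Finset B → Prop) (h0 : Φ {root})
    (hstep : ∀ Q : Finset B, root ∈ Q → (∀ J ∈ Q, Reach H Q' root J) → Φ Q →
      ∀ I ∈ Q, ∀ J ∉ Q, J ∈ Q' → H.Adj I J → Φ (insert J Q)) :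
    ∃ Q, Φ Q ∧ ∀ J, J ∈ Q ↔ Reach H Q' root J := by
  classical
  let Fam := Q'.powerset.filter (fun Q => root ∈ Q ∧ (∀ J ∈ Q, Reach H Q' root J) ∧ Φ Q)
  have hne : Fam.Nonempty := by
    refine ⟨{root}, ?_⟩
    simp only [Fam, Finset.mem_filter, Finset.mem_powerset, Finset.singleton_subset_iff,
      Finset.mem_singleton]
    refine ⟨hroot, trivial, ?_, h0⟩
    rintro J rfl
    exact Relation.ReflTransGen.refl
  obtain ⟨Q, hQ, hmax⟩ := Finset.exists_max_image Fam Finset.card hne
  simp only [Fam, Finset.mem_filter, Finset.mem_powerset] at hQ hmax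
  obtain ⟨hQs, hQr, hQR, hQΦ⟩ := hQ
  refine ⟨Q, hQΦ, fun J => ⟨hQR J, fun hJ => ?_⟩⟩
  induction hJ with
  | refl => exact hQr
  | @tail b c hb hbc ih =>
    by_contra hc
    have h1 := hmax (insert c Q) ⟨?_, ?_, ?_, ?_⟩
    · rw [Finset.card_insert_of_notMem hc] at h1
      omega
    · exact Finset.insert_subset hbc.2.1 hQs
    · exact Finset.mem_insert_of_mem hQr
    · intro J hJ
      rw [Finset.mem_insert] at hJ
      rcases hJ with rfl | hJ
      · exact Relation.ReflTransGen.tail hb hbc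
      · exact hQR J hJ
    · exact hstep Q hQr hQR hQΦ b ih c hc hbc.2.1 hbc.2.2

/-- A window of three consecutive positions avoiding a small set. -/
theorem exists_window (W a : ℕ) (Bad : Finset ℕ) (h : Bad.card < W) :
    ∃ t0, a ≤ t0 ∧ t0 + 3 ≤ a + 3 * W ∧ t0 ∉ Bad ∧ t0 + 1 ∉ Bad ∧ t0 + 2 ∉ Bad := by
  classical
  have : ∃ i ∈ Finset.range W, i ∉ Bad.image (fun t => (t - a) / 3) := by
    by_contra hcon
    push Not at hcon
    have h1 : (Finset.range W).card ≤ (Bad.image (fun t => (t - a) / 3)).card :=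
      Finset.card_le_card hcon
    rw [Finset.card_range] at h1
    have := Finset.card_image_le (s := Bad) (f := fun t => (t - a) / 3)
    omega
  obtain ⟨i, hi, hi2⟩ := this
  rw [Finset.mem_range] at hi
  rw [Finset.mem_image] at hi2
  push Not at hi2
  refine ⟨a + 3 * i, by omega, by omega, ?_, ?_, ?_⟩
  · intro hb
    exact hi2 _ hb (by omega)
  · intro hb
    exact hi2 _ hb (by omega)
  · intro hb
    exact hi2 _ hb (by omega)


/-! #### A path in every component -/

/-- For every finite set `Q'` of blocks and every `root` of maximal height in its component there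
is a path through the component ending with three good sites of the block `root`. -/
def Claim {V B : Type*} (G : SimpleGraph V) (H : SimpleGraph B) (β : V → B) (ht : B → ℤ)
    (m : ℕ) : Prop :=
  ∀ (Q' : Finset B) (root : B), root ∈ Q' → (∀ J, Reach H Q' root J → ht J ≤ ht root) →
    ∀ Bad : Finset V, Bad.card ≤ m → ∃ (Q0 : List V) (z1 z2 z3 : V),
      (Q0 ++ [z1, z2, z3]).Nodup ∧ (Q0 ++ [z1, z2, z3]).IsChain G.Adj ∧
      (∀ z ∈ Q0 ++ [z1, z2, z3], Reach H Q' root (β z)) ∧
      (∀ z, Reach H Q' root (β z) → β z ≠ root → z ∈ Q0 ++ [z1, z2, z3]) ∧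
      ∀ z ∈ [z1, z2, z3], z ∉ Bad ∧ β z = root

theorem Sys.claim {V B D : Type*} (S : Sys V B D) (H : SimpleGraph B)
    (ht : B → ℤ) (m a W : ℕ) (hH : ∀ I J, H.Adj I J → ∃ d, J = S.nb I d) (hW : m < W)
    (haW : a + 3 * W ≤ S.n) (hfree : ∀ I d, S.pos I d < a ∨ a + 3 * W ≤ S.pos I d) :
    Claim S.G H S.β ht m := by
  classical
  intro Q' root hroot _ Bad hBad
  have hn := S.hn
  obtain ⟨t0, ha, hb, h1, h2, h3⟩ := exists_window W a
    ((Finset.range S.n).filter (fun t => S.c root t ∈ Bad)) (by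
      refine lt_of_le_of_lt (le_trans (Finset.card_le_card_of_injOn (S.c root) ?_ ?_) hBad) hW
      · intro t htt
        simp only [Finset.coe_filter, Finset.mem_range, Set.mem_ofPred_eq] at htt
        exact htt.2
      · intro t htt t' htt' h
        simp only [Finset.coe_filter, Finset.mem_range, Set.mem_ofPred_eq] at htt htt'
        exact S.inj root htt.1 htt'.1 h)
  simp only [Finset.mem_filter, Finset.mem_range, not_and] at h1 h2 h3
  have g1 := h1 (by omega)
  have g2 := h2 (by omega)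
  have g3 := h3 (by omega)
  have hinv0 := S.inv_root root t0 (by omega) (fun d => by have := hfree root d; omega)
  set z1 := S.c root t0
  set z2 := S.c root (t0 + 1)
  set z3 := S.c root (t0 + 2)
  have b1 : S.β z1 = root := S.beta_c _ _
  have b2 : S.β z2 = root := S.beta_c _ _
  have b3 : S.β z3 = root := S.beta_c _ _
  obtain ⟨Q, ⟨M, hM⟩, hQ⟩ := growth H Q' root hroot (fun Q => ∃ M, S.Inv z1 z2 z3 Q M)
    ⟨_, hinv0⟩ (by
      rintro Q hQ _ ⟨M, hM⟩ I hI J hJ _ hadj
      obtain ⟨d, rfl⟩ := hH I J hadj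
      exact S.inv_step z1 z2 z3 Q (by rwa [b2]) (by rwa [b3]) M hM I hI d hJ)
  obtain ⟨m1, m2, ⟨M0, rfl⟩, m4, -⟩ := hM
  have e : M0 ++ [z1, z2, z3] = (M0 ++ [z1]) ++ [z2, z3] := by simp
  refine ⟨M0, z1, z2, z3, ?_, ?_, ?_, ?_, ?_⟩
  · rw [e, List.nodup_append]
    refine ⟨m1, ?_, ?_⟩
    · have h23 : z2 ≠ z3 := (S.adj root (t0 + 1)).ne
      simp [h23]
    · intro x hx y hy hxy
      rw [m4] at hx
      simp only [List.mem_cons, List.not_mem_nil, or_false] at hy
      rcases hy with rfl | rfl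
      · exact hx.2.1 hxy
      · exact hx.2.2 hxy
  · rw [e, List.isChain_append]
    refine ⟨m2, ?_, ?_⟩
    · have h23 : S.G.Adj z2 z3 := S.adj root (t0 + 1)
      simp [h23]
    · intro x hx y hy
      simp at hx hy
      subst hx hy
      exact S.adj root t0
  · intro z hz
    rw [e, List.mem_append, m4] at hz
    rw [← hQ]
    rcases hz with hz | hz
    · exact hz.1
    · simp only [List.mem_cons, List.not_mem_nil, or_false] at hz
      rcases hz with rfl | rfl
      · rw [b2, hQ]; exact Relation.ReflTransGen.refl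
      · rw [b3, hQ]; exact Relation.ReflTransGen.refl
  · intro z hz hzr
    rw [e, List.mem_append, m4]
    left
    refine ⟨(hQ _).mpr hz, ?_, ?_⟩
    · rintro rfl; exact hzr b2
    · rintro rfl; exact hzr b3
  · intro z hz
    simp only [List.mem_cons, List.not_mem_nil, or_false] at hz
    rcases hz with rfl | rfl | rfl
    · exact ⟨g1, b1⟩
    · exact ⟨g2, b2⟩
    · exact ⟨g3, b3⟩

theorem assemble {V B : Type*} (G : SimpleGraph V) (H : SimpleGraph B) (β : V → B)
    (hβ : ∀ z w, G.Adj z w → β z = β w ∨ H.Adj (β z) (β w)) (sites : B → Finset V)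
    (hsites : ∀ I z, z ∈ sites I ↔ β z = I) (N : ℕ) (hN : ∀ I, (sites I).card ≤ N)
    (ht : B → ℤ) (up : B → B) (hup : ∀ I, H.Adj I (up I)) (hup' : ∀ I, ht I < ht (up I)) (m : ℕ)
    (claim : Claim G H β ht m) (A T : Finset V) (Dirty : Set V)
    (hD : ∀ I, ∀ E : Finset V, (∀ z ∈ E, z ∈ Dirty ∧ z ∉ T ∧ β z = I) → E.card ≤ m) :
    ∃ L : List (List V),
      (∀ Q ∈ L, Q.Nodup ∧ Q.IsChain G.Adj ∧ ∃ Q' z1 z2 z3, Q = Q' ++ [z1, z2, z3] ∧
        ∀ z ∈ [z1, z2, z3], z ∉ A ∧ z ∉ T ∧ z ∉ Dirty) ∧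
      L.Pairwise List.Disjoint ∧
      (∀ z ∈ A, ∃ Q ∈ L, z ∈ Q) ∧
      (∀ z ∈ A, ∀ w ∈ A, G.Adj z w → ∀ Q ∈ L, z ∈ Q → w ∈ Q) ∧
      (L.map List.length).sum ≤ 2 * N * (A.card + T.card) := by
  classical
  set Q0 : Finset B := (A ∪ T).image β with hQ0
  set Q' : Finset B := Q0 ∪ Q0.image up with hQ'
  have hQ0Q' : ∀ I ∈ Q0, I ∈ Q' := fun I hI => Finset.mem_union_left _ hI
  by_cases hemp : Q' = ∅
  · have hA : A = ∅ := by
      rw [Finset.eq_empty_iff_forall_notMem]
      intro z hz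
      have : β z ∈ Q' := hQ0Q' _ (Finset.mem_image_of_mem _ (Finset.mem_union_left _ hz))
      rw [hemp] at this
      simp at this
    exact ⟨[], by simp, by simp, by simp [hA], by simp, by simp⟩
  obtain ⟨I0, hI0⟩ := Finset.nonempty_iff_ne_empty.mpr hemp
  have : Nonempty B := ⟨I0⟩
  set rep : B → B := fun I => Classical.epsilon
    (fun J => Reach H Q' I J ∧ ∀ K, Reach H Q' I K → ht K ≤ ht J) with hrep
  have rep_spec : ∀ I ∈ Q', Reach H Q' I (rep I) ∧ ∀ K, Reach H Q' I K → ht K ≤ ht (rep I) := by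
    intro I hI
    refine Classical.epsilon_spec (p := fun J => Reach H Q' I J ∧
      ∀ K, Reach H Q' I K → ht K ≤ ht J) ?_
    obtain ⟨J, hJ, hmax⟩ := Finset.exists_max_image (Q'.filter (Reach H Q' I ·)) ht
      ⟨I, Finset.mem_filter.mpr ⟨hI, Relation.ReflTransGen.refl⟩⟩
    simp only [Finset.mem_filter] at hJ hmax
    exact ⟨J, hJ.2, fun K hK => hmax K ⟨hK.mem hI, hK⟩⟩
  have rep_eq : ∀ I J, Reach H Q' I J → rep I = rep J := by
    intro I J h
    have : (fun K => Reach H Q' I K ∧ ∀ K', Reach H Q' I K' → ht K' ≤ ht K) =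
        (fun K => Reach H Q' J K ∧ ∀ K', Reach H Q' J K' → ht K' ≤ ht K) := by
      have e : ∀ K, Reach H Q' I K ↔ Reach H Q' J K := fun K =>
        ⟨fun hK => h.symm.trans hK, fun hK => h.trans hK⟩
      funext K
      simp only [e]
    simp only [hrep, this]
  set Rt : Finset B := Q'.image rep with hRt
  have rt_spec : ∀ r ∈ Rt, r ∈ Q' ∧ rep r = r ∧ r ∉ Q0 ∧ ∀ K, Reach H Q' r K → ht K ≤ ht r := by
    intro r hr
    rw [hRt, Finset.mem_image] at hr
    obtain ⟨I, hI, rfl⟩ := hr
    obtain ⟨h1, h2⟩ := rep_spec I hI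
    have h3 : rep I ∈ Q' := h1.mem hI
    refine ⟨h3, (rep_eq I _ h1).symm, ?_, fun K hK => h2 K (h1.trans hK)⟩
    intro h4
    have h5 : up (rep I) ∈ Q' :=
      Finset.mem_union_right _ (Finset.mem_image_of_mem _ h4)
    have h6 : Reach H Q' I (up (rep I)) := h1.tail ⟨h3, h5, hup _⟩
    have := h2 _ h6
    have := hup' (rep I)
    omega
  have key : ∀ r, ∃ Q : List V, r ∈ Rt → (Q.Nodup ∧ Q.IsChain G.Adj ∧
      ∃ Q' z1 z2 z3, Q = Q' ++ [z1, z2, z3] ∧
        ∀ z ∈ [z1, z2, z3], z ∉ A ∧ z ∉ T ∧ z ∉ Dirty) ∧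
      (∀ z ∈ Q, Reach H Q' r (β z)) ∧ (∀ z, Reach H Q' r (β z) → β z ≠ r → z ∈ Q) := by
    intro r
    by_cases hr : r ∈ Rt
    · obtain ⟨h1, h2, h3, h4⟩ := rt_spec r hr
      obtain ⟨P, z1, z2, z3, c1, c2, c3, c4, c5⟩ := claim Q' r h1 h4
        ((sites r).filter (fun z => z ∈ Dirty ∧ z ∉ T)) (by
          refine hD r _ ?_
          intro z hz
          rw [Finset.mem_filter, hsites] at hz
          exact ⟨hz.2.1, hz.2.2, hz.1⟩)
      refine ⟨P ++ [z1, z2, z3], fun _ => ⟨⟨c1, c2, P, z1, z2, z3, rfl, ?_⟩, c3, c4⟩⟩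
      intro z hz
      obtain ⟨d1, d2⟩ := c5 z hz
      have hzA : z ∉ A := by
        intro h
        apply h3
        rw [← d2]
        exact Finset.mem_image_of_mem _ (Finset.mem_union_left _ h)
      have hzT : z ∉ T := by
        intro h
        apply h3
        rw [← d2]
        exact Finset.mem_image_of_mem _ (Finset.mem_union_right _ h)
      refine ⟨hzA, hzT, fun hd => d1 ?_⟩
      rw [Finset.mem_filter, hsites]
      exact ⟨d2, hd, hzT⟩
    · exact ⟨[], fun h => absurd h hr⟩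
  choose P hP using key
  have hdisj : (Rt.toList.map P).Pairwise List.Disjoint := by
    rw [List.pairwise_map]
    refine List.Pairwise.imp_of_mem ?_ Rt.nodup_toList
    intro r r' hr hr' hne
    rw [Finset.mem_toList] at hr hr'
    intro z hz hz'
    have h1 := (hP r hr).2.1 z hz
    have h2 := (hP r' hr').2.1 z hz'
    apply hne
    rw [← (rt_spec r hr).2.1, ← (rt_spec r' hr').2.1]
    exact rep_eq _ _ (h1.trans h2.symm)
  refine ⟨Rt.toList.map P, ?_, hdisj, ?_, ?_, ?_⟩
  · intro Q hQ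
    rw [List.mem_map] at hQ
    obtain ⟨r, hr, rfl⟩ := hQ
    rw [Finset.mem_toList] at hr
    exact (hP r hr).1
  · intro z hz
    have h1 : β z ∈ Q0 := Finset.mem_image_of_mem _ (Finset.mem_union_left _ hz)
    have h2 := hQ0Q' _ h1
    have h3 : rep (β z) ∈ Rt := Finset.mem_image_of_mem _ h2
    refine ⟨P (rep (β z)), List.mem_map_of_mem (Finset.mem_toList.mpr h3), ?_⟩
    refine (hP _ h3).2.2 z (rep_spec _ h2).1.symm ?_
    intro h
    exact (rt_spec _ h3).2.2.1 (h ▸ h1)
  · intro z hz w hw hadj Q hQ hzQ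
    rw [List.mem_map] at hQ
    obtain ⟨r, hr, rfl⟩ := hQ
    rw [Finset.mem_toList] at hr
    have h1 := (hP r hr).2.1 z hzQ
    have hz0 : β z ∈ Q0 := Finset.mem_image_of_mem _ (Finset.mem_union_left _ hz)
    have hw0 : β w ∈ Q0 := Finset.mem_image_of_mem _ (Finset.mem_union_left _ hw)
    refine (hP r hr).2.2 w ?_ ?_
    · rcases hβ z w hadj with h | h
      · rwa [← h]
      · exact h1.tail ⟨hQ0Q' _ hz0, hQ0Q' _ hw0, h⟩
    · intro h
      exact (rt_spec _ hr).2.2.1 (h ▸ hw0)
  · rw [← List.length_flatten]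
    have hnd : (Rt.toList.map P).flatten.Nodup := by
      rw [List.nodup_flatten]
      refine ⟨?_, hdisj⟩
      intro Q hQ
      rw [List.mem_map] at hQ
      obtain ⟨r, hr, rfl⟩ := hQ
      rw [Finset.mem_toList] at hr
      exact (hP r hr).1.1
    rw [← List.toFinset_card_of_nodup hnd]
    have hsub : (Rt.toList.map P).flatten.toFinset ⊆ Q'.biUnion sites := by
      intro z hz
      rw [List.mem_toFinset, List.mem_flatten] at hz
      obtain ⟨Q, hQ, hzQ⟩ := hz
      rw [List.mem_map] at hQ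
      obtain ⟨r, hr, rfl⟩ := hQ
      rw [Finset.mem_toList] at hr
      rw [Finset.mem_biUnion]
      exact ⟨β z, ((hP r hr).2.1 z hzQ).mem (rt_spec r hr).1, (hsites _ _).mpr rfl⟩
    calc (Rt.toList.map P).flatten.toFinset.card ≤ (Q'.biUnion sites).card :=
          Finset.card_le_card hsub
      _ ≤ Q'.card * N := Finset.card_biUnion_le_card_mul _ _ _ (fun I _ => hN I)
      _ ≤ (2 * (A.card + T.card)) * N := by
          refine Nat.mul_le_mul_right _ ?_
          have h1 : Q0.card ≤ A.card + T.card :=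
            (Finset.card_image_le).trans (Finset.card_union_le _ _)
          have h2 : Q'.card ≤ Q0.card + Q0.card :=
            (Finset.card_union_le _ _).trans (Nat.add_le_add_left Finset.card_image_le _)
          omega
      _ = 2 * N * (A.card + T.card) := by ring


/-! #### The lattice -/

theorem adj_iff {k : ℕ} (z w : Fin k → ℤ) :
    (BG k).Adj z w ↔ ∃ j, (∀ i, i ≠ j → z i = w i) ∧ (w j = z j + 1 ∨ w j = z j - 1) := by
  classical
  change l1 z w = 1 ↔ _
  unfold l1
  constructor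
  · intro h
    have h1 : ∃ j ∈ Finset.univ, (z j - w j).natAbs ≠ 0 := by
      by_contra hcon
      push Not at hcon
      rw [Finset.sum_eq_zero hcon] at h
      omega
    obtain ⟨j, _, hj⟩ := h1
    rw [← Finset.add_sum_erase _ _ (Finset.mem_univ j)] at h
    have h2 : ∑ x ∈ Finset.univ.erase j, (z x - w x).natAbs = 0 := by omega
    rw [Finset.sum_eq_zero_iff] at h2
    refine ⟨j, ?_, by omega⟩
    intro i hi
    have := h2 i (Finset.mem_erase.mpr ⟨hi, Finset.mem_univ _⟩)
    omega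
  · rintro ⟨j, h1, h2⟩
    rw [Finset.sum_eq_single j]
    · omega
    · intro i _ hi
      rw [h1 i hi]
      simp
    · simp

/-- Neighbour of a lattice point. -/
def nb {k : ℕ} (I : Fin k → ℤ) (d : Fin k × Bool) : Fin k → ℤ :=
  Function.update I d.1 (I d.1 + if d.2 then 1 else -1)

theorem adj_nb {k : ℕ} (I J : Fin k → ℤ) (h : (BG k).Adj I J) : ∃ d, J = nb I d := by
  rw [adj_iff] at h
  obtain ⟨j, h1, h2⟩ := h
  rcases h2 with h2 | h2
  · refine ⟨(j, true), ?_⟩
    funext i
    by_cases hi : i = j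
    · subst hi; simp [nb, h2]
    · simp [nb, hi, h1 i hi]
  · refine ⟨(j, false), ?_⟩
    funext i
    by_cases hi : i = j
    · subst hi; simp [nb, h2]; ring
    · simp [nb, hi, h1 i hi]

theorem adj_div {k : ℕ} (s : Fin k → ℤ) (hs : ∀ j, 1 ≤ s j) (z w : Fin k → ℤ)
    (h : (BG k).Adj z w) :
    (fun j => z j / s j) = (fun j => w j / s j) ∨
      (BG k).Adj (fun j => z j / s j) (fun j => w j / s j) := by
  rw [adj_iff] at h
  obtain ⟨j, h1, h2⟩ := h
  have hsj := hs j
  have key : ∀ x : ℤ, (x + 1) / s j = x / s j ∨ (x + 1) / s j = x / s j + 1 := by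
    intro x
    have e1 : x / s j ≤ (x + 1) / s j := Int.ediv_le_ediv (by omega) (by omega)
    have e2 : (x + 1) / s j ≤ (x + s j) / s j := Int.ediv_le_ediv (by omega) (by omega)
    rw [Int.add_ediv_of_dvd_right (dvd_refl _), Int.ediv_self (by omega)] at e2
    omega
  by_cases heq : z j / s j = w j / s j
  · left
    funext i
    by_cases hi : i = j
    · subst hi; exact heq
    · rw [h1 i hi]
  · right
    rw [adj_iff]
    refine ⟨j, fun i hi => by simp only [h1 i hi], ?_⟩
    rcases h2 with h2 | h2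
    · have := key (z j)
      rw [← h2] at this
      omega
    · have := key (w j)
      rw [h2, sub_add_cancel, ← h2] at this
      omega

/-- The cyclic enumeration of a block of size `2 × s × 1 × ⋯ × 1`. -/
def cyc {k : ℕ} (s : ℕ) (I : Fin (k + 2) → ℤ) (t : ℕ) : Fin (k + 2) → ℤ := fun j =>
  if j = 0 then 2 * I 0 + (if t % (2 * s) < s then 0 else 1)
  else if j = 1 then s * I 1 + (if t % (2 * s) < s then ((t % (2 * s) : ℕ) : ℤ)
    else 2 * s - 1 - ((t % (2 * s) : ℕ) : ℤ))
  else I j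

/-- Scales of the blocks. -/
def scale {k : ℕ} (s : ℕ) (j : Fin (k + 2)) : ℤ := if j = 0 then 2 else if j = 1 then s else 1

/-- Positions of the reserved edges. -/
def posn {k : ℕ} (s : ℕ) (I : Fin (k + 2) → ℤ) (d : Fin (k + 2) × Bool) : ℕ :=
  if d.1 = 0 then (if d.2 then 2 * s - 2 else 0)
  else if d.1 = 1 then (if d.2 then s - 1 else 2 * s - 1)
  else 2 * (d.1 : ℕ) + ((if d.2 then I d.1 else I d.1 - 1) % 2).toNat

theorem cyc_adj {k : ℕ} (s : ℕ) (hs : 2 ≤ s) (I : Fin (k + 2) → ℤ) (t : ℕ) :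
    (BG (k + 2)).Adj (cyc s I t) (cyc s I (t + 1)) := by
  have hne : (1 : Fin (k + 2)) ≠ 0 := by simp
  have hr : t % (2 * s) < 2 * s := Nat.mod_lt _ (by omega)
  rw [adj_iff]
  have hsucc : (t + 1) % (2 * s) = t % (2 * s) + 1 ∨
      (t % (2 * s) = 2 * s - 1 ∧ (t + 1) % (2 * s) = 0) := by
    rcases lt_or_ge (t % (2 * s) + 1) (2 * s) with h | h
    · left
      rw [Nat.add_mod, Nat.mod_eq_of_lt (show 1 < 2 * s by omega), Nat.mod_eq_of_lt h]
    · right
      refine ⟨by omega, ?_⟩
      rw [Nat.add_mod, Nat.mod_eq_of_lt (show 1 < 2 * s by omega),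
        show t % (2 * s) + 1 = 2 * s by omega, Nat.mod_self]
  set r := t % (2 * s) with hrdef
  rcases hsucc with h | ⟨h, h'⟩
  · by_cases h1 : r = s - 1
    · refine ⟨0, ?_, ?_⟩
      · intro i hi
        unfold cyc
        rw [← hrdef, h, if_neg hi, if_neg hi]
        split_ifs
        · omega
        · omega
        · omega
        · omega
        · rfl
      · unfold cyc
        rw [← hrdef, h, if_pos rfl, if_pos rfl]
        split_ifs <;> omega
    · refine ⟨1, ?_, ?_⟩
      · intro i hi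
        unfold cyc
        rw [← hrdef, h]
        split_ifs <;> first | rfl | omega
      · unfold cyc
        rw [← hrdef, h, if_neg hne, if_neg hne, if_pos rfl, if_pos rfl]
        split_ifs <;> omega
  · refine ⟨0, ?_, ?_⟩
    · intro i hi
      unfold cyc
      rw [← hrdef, h, h', if_neg hi, if_neg hi]
      split_ifs <;> first | rfl | omega
    · unfold cyc
      rw [← hrdef, h, h', if_pos rfl, if_pos rfl]
      split_ifs <;> omega

theorem cyc_mem {k : ℕ} (s : ℕ) (hs : 2 ≤ s) (J z : Fin (k + 2) → ℤ) :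
    (fun j => z j / scale s j) = J ↔ ∃ t < 2 * s, z = cyc s J t := by
  have hne : (1 : Fin (k + 2)) ≠ 0 := by simp
  constructor
  · intro h
    have h0 : z 0 / 2 = J 0 := by
      have := congrFun h 0
      simpa [scale] using this
    have h1 : z 1 / s = J 1 := by
      have := congrFun h 1
      simpa [scale, hne] using this
    have hj : ∀ j, j ≠ 0 → j ≠ 1 → z j = J j := by
      intro j hj0 hj1
      have := congrFun h j
      simpa [scale, hj0, hj1] using this
    have e1 : z 1 = s * J 1 + z 1 % s := by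
      rw [← h1]; exact (Int.mul_ediv_add_emod _ _).symm
    have e2 : 0 ≤ z 1 % s := Int.emod_nonneg _ (by omega)
    have e3 : z 1 % s < s := Int.emod_lt_of_pos _ (by omega)
    obtain ⟨q, hq⟩ : ∃ q : ℕ, (q : ℤ) = z 1 % s := ⟨(z 1 % s).toNat, by omega⟩
    have hqs : q < s := by omega
    rcases Int.emod_two_eq_zero_or_one (z 0) with h2 | h2
    · refine ⟨q, by omega, ?_⟩
      have hm : q % (2 * s) = q := Nat.mod_eq_of_lt (by omega)
      funext j
      unfold cyc
      rw [hm]
      by_cases hj0 : j = 0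
      · subst hj0
        rw [if_pos rfl, if_pos hqs]
        omega
      · rw [if_neg hj0]
        by_cases hj1 : j = 1
        · subst hj1
          rw [if_pos rfl, if_pos hqs]
          omega
        · rw [if_neg hj1]
          exact hj j hj0 hj1
    · refine ⟨2 * s - 1 - q, by omega, ?_⟩
      have hm : (2 * s - 1 - q) % (2 * s) = 2 * s - 1 - q := Nat.mod_eq_of_lt (by omega)
      funext j
      unfold cyc
      rw [hm]
      by_cases hj0 : j = 0
      · subst hj0
        rw [if_pos rfl, if_neg (by omega)]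
        omega
      · rw [if_neg hj0]
        by_cases hj1 : j = 1
        · subst hj1
          rw [if_pos rfl, if_neg (by omega)]
          omega
        · rw [if_neg hj1]
          exact hj j hj0 hj1
  · rintro ⟨t, ht, rfl⟩
    have hm : t % (2 * s) = t := Nat.mod_eq_of_lt ht
    funext j
    unfold cyc scale
    rw [hm]
    by_cases hj0 : j = 0
    · subst hj0
      rw [if_pos rfl, if_pos rfl]
      split_ifs <;> omega
    · rw [if_neg hj0, if_neg hj0]
      by_cases hj1 : j = 1
      · subst hj1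
        rw [if_pos rfl, if_pos rfl]
        have hs0 : (0 : ℤ) < s := by omega
        rw [Int.add_comm, Int.add_mul_ediv_left _ _ (by omega)]
        rw [Int.ediv_eq_zero_of_lt]
        · simp
        · split_ifs <;> omega
        · split_ifs <;> omega
      · rw [if_neg hj1, if_neg hj1]
        simp

theorem cyc_inj {k : ℕ} (s : ℕ) (J : Fin (k + 2) → ℤ) :
    Set.InjOn (cyc s J) (Set.Iio (2 * s)) := by
  intro t ht t' ht' h
  have hne : (1 : Fin (k + 2)) ≠ 0 := by simp
  rw [Set.mem_Iio] at ht ht'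
  have h0 := congrFun h 0
  have h1 := congrFun h 1
  unfold cyc at h0 h1
  rw [if_pos rfl, if_pos rfl, Nat.mod_eq_of_lt ht, Nat.mod_eq_of_lt ht'] at h0
  rw [if_neg hne, if_neg hne, if_pos rfl, if_pos rfl, Nat.mod_eq_of_lt ht,
    Nat.mod_eq_of_lt ht'] at h1
  split_ifs at h0 h1 <;> omega

theorem nbop {k : ℕ} (I : Fin k → ℤ) (d : Fin k × Bool) : nb (nb I d) (d.1, !d.2) = I := by
  obtain ⟨j, b⟩ := d
  funext i
  by_cases hi : i = j
  · subst hi
    cases b <;> simp [nb]
  · simp [nb, hi]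

theorem posn_lt {k : ℕ} (s : ℕ) (hs : 2 * k + 8 ≤ s) (I : Fin (k + 2) → ℤ)
    (d : Fin (k + 2) × Bool) : posn s I d < 2 * s := by
  obtain ⟨j, b⟩ := d
  have := j.2
  unfold posn
  split_ifs <;> omega

theorem posn_free {k : ℕ} (s : ℕ) (hs : 2 * k + 8 ≤ s) (I : Fin (k + 2) → ℤ)
    (d : Fin (k + 2) × Bool) : posn s I d < s ∨ 2 * s - 2 ≤ posn s I d := by
  obtain ⟨j, b⟩ := d
  have := j.2
  unfold posn
  split_ifs <;> omega

theorem posn_inj {k : ℕ} (s : ℕ) (hs : 2 * k + 8 ≤ s) (I : Fin (k + 2) → ℤ)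
    (d d' : Fin (k + 2) × Bool) (h : posn s I d = posn s I d') : d = d' := by
  obtain ⟨j, b⟩ := d
  obtain ⟨j', b'⟩ := d'
  have hj := j.2
  have hj' := j'.2
  have e0 : j = 0 ↔ (j : ℕ) = 0 := by rw [Fin.ext_iff]; simp
  have e0' : j' = 0 ↔ (j' : ℕ) = 0 := by rw [Fin.ext_iff]; simp
  have e1 : j = 1 ↔ (j : ℕ) = 1 := by rw [Fin.ext_iff]; simp
  have e1' : j' = 1 ↔ (j' : ℕ) = 1 := by rw [Fin.ext_iff]; simp
  unfold posn at h
  simp only [e0, e0', e1, e1'] at h
  have hjj : j = j' := by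
    rw [Fin.ext_iff]
    split_ifs at h <;> omega
  subst hjj
  simp only [Prod.mk.injEq, true_and]
  cases b <;> cases b' <;> simp at h ⊢
  · split_ifs at h <;> omega
  · split_ifs at h <;> omega


theorem cyc_mod {k : ℕ} (s : ℕ) (I : Fin (k + 2) → ℤ) (t : ℕ) :
    cyc s I (t + 2 * s) = cyc s I t := by
  funext j
  unfold cyc
  rw [Nat.add_mod_right]

/-- Parallel reserved edges, positive directions. -/
theorem par_pos {k : ℕ} (s : ℕ) (hs : 2 * k + 8 ≤ s) (I : Fin (k + 2) → ℤ) (j : Fin (k + 2)) :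
    ((BG (k + 2)).Adj (cyc s I (posn s I (j, true)))
        (cyc s (nb I (j, true)) (posn s (nb I (j, true)) (j, false))) ∧
      (BG (k + 2)).Adj (cyc s I (posn s I (j, true) + 1))
        (cyc s (nb I (j, true)) (posn s (nb I (j, true)) (j, false) + 1))) ∨
    ((BG (k + 2)).Adj (cyc s I (posn s I (j, true)))
        (cyc s (nb I (j, true)) (posn s (nb I (j, true)) (j, false) + 1)) ∧
      (BG (k + 2)).Adj (cyc s I (posn s I (j, true) + 1))
        (cyc s (nb I (j, true)) (posn s (nb I (j, true)) (j, false)))) := by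
  have hne : (1 : Fin (k + 2)) ≠ 0 := by simp
  have hne' : (0 : Fin (k + 2)) ≠ 1 := by simp
  have hj := j.2
  by_cases hj0 : j = 0
  · subst hj0
    right
    have p1 : posn s I (0, true) = 2 * s - 2 := by simp [posn]
    have p2 : posn s (nb I (0, true)) (0, false) = 0 := by simp [posn]
    have n0 : nb I (0, true) 0 = I 0 + 1 := by simp [nb]
    have nj : ∀ i, i ≠ 0 → nb I (0, true) i = I i := by intro i hi; simp [nb, hi]
    rw [p1, p2]
    constructor
    · rw [adj_iff]
      refine ⟨0, ?_, ?_⟩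
      · intro i hi
        unfold cyc
        rw [if_neg hi, if_neg hi, nj 1 hne, nj i hi]
        by_cases hi1 : i = 1
        · rw [if_pos hi1, if_pos hi1, Nat.mod_eq_of_lt (show 2 * s - 2 < 2 * s by omega),
            Nat.mod_eq_of_lt (show 0 + 1 < 2 * s by omega)]
          split_ifs <;> omega
        · rw [if_neg hi1, if_neg hi1]
      · unfold cyc
        rw [if_pos rfl, if_pos rfl, n0, Nat.mod_eq_of_lt (show 2 * s - 2 < 2 * s by omega),
            Nat.mod_eq_of_lt (show 0 + 1 < 2 * s by omega)]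
        split_ifs <;> omega
    · rw [show 2 * s - 2 + 1 = 2 * s - 1 by omega, adj_iff]
      refine ⟨0, ?_, ?_⟩
      · intro i hi
        unfold cyc
        rw [if_neg hi, if_neg hi, nj 1 hne, nj i hi]
        by_cases hi1 : i = 1
        · rw [if_pos hi1, if_pos hi1, Nat.mod_eq_of_lt (show 2 * s - 1 < 2 * s by omega),
            Nat.mod_eq_of_lt (show 0 < 2 * s by omega)]
          split_ifs <;> omega
        · rw [if_neg hi1, if_neg hi1]
      · unfold cyc
        rw [if_pos rfl, if_pos rfl, n0, Nat.mod_eq_of_lt (show 2 * s - 1 < 2 * s by omega),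
            Nat.mod_eq_of_lt (show 0 < 2 * s by omega)]
        split_ifs <;> omega
  by_cases hj1 : j = 1
  · subst hj1
    right
    have p1 : posn s I (1, true) = s - 1 := by simp [posn]
    have p2 : posn s (nb I (1, true)) (1, false) = 2 * s - 1 := by simp [posn]
    have n1 : nb I (1, true) 1 = I 1 + 1 := by simp [nb]
    have nj : ∀ i, i ≠ 1 → nb I (1, true) i = I i := by intro i hi; simp [nb, hi]
    have e2 : 2 * s - 1 + 1 = 0 + 2 * s := by omega
    rw [p1, p2, e2, cyc_mod]
    constructor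
    · rw [adj_iff]
      refine ⟨1, ?_, ?_⟩
      · intro i hi
        unfold cyc
        rw [Nat.mod_eq_of_lt (show s - 1 < 2 * s by omega),
            Nat.mod_eq_of_lt (show 0 < 2 * s by omega), if_neg hi, if_neg hi, nj 0 hne', nj i hi]
        split_ifs <;> omega
      · unfold cyc
        rw [Nat.mod_eq_of_lt (show s - 1 < 2 * s by omega),
            Nat.mod_eq_of_lt (show 0 < 2 * s by omega), if_neg hne, if_neg hne, if_pos rfl,
            if_pos rfl, n1, mul_add, if_pos (by omega), if_pos (by omega)]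
        left
        push_cast
        omega
    · rw [show s - 1 + 1 = s by omega, adj_iff]
      refine ⟨1, ?_, ?_⟩
      · intro i hi
        unfold cyc
        rw [Nat.mod_eq_of_lt (show s < 2 * s by omega),
            Nat.mod_eq_of_lt (show 2 * s - 1 < 2 * s by omega), if_neg hi, if_neg hi, nj 0 hne',
            nj i hi]
        split_ifs <;> omega
      · unfold cyc
        rw [Nat.mod_eq_of_lt (show s < 2 * s by omega),
            Nat.mod_eq_of_lt (show 2 * s - 1 < 2 * s by omega), if_neg hne, if_neg hne,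
            if_pos rfl, if_pos rfl, n1, mul_add, if_neg (by omega), if_neg (by omega)]
        left
        omega
  · left
    have nj : nb I (j, true) j = I j + 1 := by simp [nb]
    have ni : ∀ i, i ≠ j → nb I (j, true) i = I i := by intro i hi; simp [nb, hi]
    have p1 : posn s (nb I (j, true)) (j, false) = posn s I (j, true) := by
      simp [posn, hj0, hj1, nj]
    rw [p1]
    have key : ∀ t, (BG (k + 2)).Adj (cyc s I t) (cyc s (nb I (j, true)) t) := by
      intro t
      rw [adj_iff]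
      refine ⟨j, ?_, ?_⟩
      · intro i hi
        unfold cyc
        rw [ni 0 (fun h => hj0 h.symm), ni 1 (fun h => hj1 h.symm), ni i hi]
      · unfold cyc
        rw [if_neg hj0, if_neg hj0, if_neg hj1, if_neg hj1, nj]
        left; rfl
    exact ⟨key _, key _⟩

theorem par_all {k : ℕ} (s : ℕ) (hs : 2 * k + 8 ≤ s) (I : Fin (k + 2) → ℤ)
    (d : Fin (k + 2) × Bool) :
    ((BG (k + 2)).Adj (cyc s I (posn s I d))
        (cyc s (nb I d) (posn s (nb I d) (d.1, !d.2))) ∧
      (BG (k + 2)).Adj (cyc s I (posn s I d + 1))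
        (cyc s (nb I d) (posn s (nb I d) (d.1, !d.2) + 1))) ∨
    ((BG (k + 2)).Adj (cyc s I (posn s I d))
        (cyc s (nb I d) (posn s (nb I d) (d.1, !d.2) + 1)) ∧
      (BG (k + 2)).Adj (cyc s I (posn s I d + 1))
        (cyc s (nb I d) (posn s (nb I d) (d.1, !d.2)))) := by
  obtain ⟨j, b⟩ := d
  cases b with
  | true => exact par_pos s hs I j
  | false =>
    have h := par_pos s hs (nb I (j, false)) j
    have e : nb (nb I (j, false)) (j, true) = I := nbop I (j, false)
    rw [e] at h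
    simp only [Bool.not_false]
    rcases h with ⟨h1, h2⟩ | ⟨h1, h2⟩
    · exact Or.inl ⟨h1.symm, h2.symm⟩
    · exact Or.inr ⟨h2.symm, h1.symm⟩

/-- The block system of the lattice of dimension at least two. -/
def latSys (k s : ℕ) (hs : 2 * k + 8 ≤ s) :
    Sys (Fin (k + 2) → ℤ) (Fin (k + 2) → ℤ) (Fin (k + 2) × Bool) where
  G := BG (k + 2)
  β z := fun j => z j / scale s j
  n := 2 * s
  c := cyc s
  nb := nb
  op d := (d.1, !d.2)
  pos := posn s
  hn := by omega
  per := cyc_mod s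
  inj := cyc_inj s
  adj := cyc_adj s (by omega)
  mem := cyc_mem s (by omega)
  nbop := nbop
  pos_lt := posn_lt s hs
  pos_inj := posn_inj s hs
  par := par_all s hs

theorem cover_two (k m : ℕ) : ∃ s C : ℕ, ∀ (A T : Finset (Fin (k + 2) → ℤ))
    (Dirty : Set (Fin (k + 2) → ℤ)),
    (∀ (c : Fin (k + 2) → ℤ) (E : Finset (Fin (k + 2) → ℤ)),
      (∀ z ∈ E, z ∈ Dirty ∧ z ∉ T ∧ l1 z c ≤ s) → E.card ≤ m) →
    ∃ L : List (List (Fin (k + 2) → ℤ)),
      (∀ Q ∈ L, Q.Nodup ∧ Q.IsChain (BG (k + 2)).Adj ∧ ∃ Q' z1 z2 z3, Q = Q' ++ [z1, z2, z3] ∧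
        ∀ z ∈ [z1, z2, z3], z ∉ A ∧ z ∉ T ∧ z ∉ Dirty) ∧
      L.Pairwise List.Disjoint ∧
      (∀ z ∈ A, ∃ Q ∈ L, z ∈ Q) ∧
      (∀ z ∈ A, ∀ w ∈ A, (BG (k + 2)).Adj z w → ∀ Q ∈ L, z ∈ Q → w ∈ Q) ∧
      (L.map List.length).sum ≤ C * (A.card + T.card) := by
  classical
  have hne : (1 : Fin (k + 2)) ≠ 0 := by simp
  obtain ⟨s, hs1, hs2⟩ : ∃ s, 2 * k + 8 ≤ s ∧ 3 * (m + 1) + 2 ≤ s :=
    ⟨2 * k + 8 + (3 * (m + 1) + 2), by omega, by omega⟩
  set S := latSys k s hs1 with hS
  refine ⟨s + 1, 2 * (2 * s), fun A T Dirty hD => ?_⟩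
  refine assemble (BG (k + 2)) (BG (k + 2)) (fun z j => z j / scale s j) ?_
    (fun I => (Finset.range (2 * s)).image (cyc s I)) ?_ (2 * s) ?_ (fun I => I 0)
    (fun I => nb I (0, true)) ?_ ?_ m ?_ A T Dirty ?_
  · intro z w h
    exact adj_div (scale s) (fun j => by unfold scale; split_ifs <;> omega) z w h
  · intro I z
    rw [cyc_mem s (by omega)]
    simp only [Finset.mem_image, Finset.mem_range]
    constructor
    · rintro ⟨t, h, rfl⟩; exact ⟨t, h, rfl⟩
    · rintro ⟨t, h, rfl⟩; exact ⟨t, h, rfl⟩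
  · intro I
    exact Finset.card_image_le.trans (by simp)
  · intro I
    rw [adj_iff]
    refine ⟨0, fun i hi => by simp [nb, hi], Or.inl (by simp [nb])⟩
  · intro I
    simp [nb]
  · exact S.claim (BG (k + 2)) (fun I => I 0) m s (m + 1) (fun I J h => adj_nb I J h)
      (by omega) (by change _ ≤ 2 * s; omega) (fun I d => by
        have := posn_free s hs1 I d
        change posn s I d < s ∨ _ ≤ posn s I d
        omega)
  · intro I E hE
    refine hD (cyc s I 0) E ?_
    intro z hz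
    obtain ⟨h1, h2, h3⟩ := hE z hz
    refine ⟨h1, h2, ?_⟩
    rw [cyc_mem s (by omega)] at h3
    obtain ⟨t, ht, rfl⟩ := h3
    unfold l1
    rw [Fin.sum_univ_succ, Fin.sum_univ_succ]
    have hrest : ∑ i : Fin k, (cyc s I t i.succ.succ - cyc s I 0 i.succ.succ).natAbs = 0 := by
      refine Finset.sum_eq_zero fun i _ => ?_
      have h0 : (i.succ.succ : Fin (k + 2)) ≠ 0 := Fin.succ_ne_zero _
      have h1 : (i.succ.succ : Fin (k + 2)) ≠ 1 := by
        intro h
        rw [Fin.ext_iff] at h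
        simp at h
      unfold cyc
      rw [if_neg h0, if_neg h0, if_neg h1, if_neg h1]
      simp
    rw [hrest]
    have hs1' : (Fin.succ 0 : Fin (k + 2)) = 1 := rfl
    rw [hs1']
    unfold cyc
    rw [if_pos rfl, if_pos rfl, if_neg hne, if_neg hne, if_pos rfl, if_pos rfl,
      Nat.mod_eq_of_lt ht, Nat.mod_eq_of_lt (show 0 < 2 * s by omega)]
    split_ifs <;> omega


theorem claim_one (m s : ℕ) (hs : 3 * (m + 1) ≤ s) :
    Claim (BG 1) (BG 1) (fun z j => z j / (s : ℤ)) (fun I => I 0) m := by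
  classical
  intro Q' root hroot hmax Bad hBad
  have hs0 : (0 : ℤ) < s := by omega
  obtain ⟨t0, -, hb, h1, h2, h3⟩ := exists_window (m + 1) 0
    ((Finset.range s).filter (fun t : ℕ => (fun _ => s * root 0 + t : Fin 1 → ℤ) ∈ Bad)) (by
      refine Nat.lt_succ_of_le (le_trans (Finset.card_le_card_of_injOn
        (fun t : ℕ => (fun _ => s * root 0 + t : Fin 1 → ℤ)) ?_ ?_) hBad)
      · intro t htt
        simp only [Finset.coe_filter, Finset.mem_range, Set.mem_ofPred_eq] at htt
        exact htt.2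
      · intro t _ t' _ h
        have := congrFun h 0
        simpa using this)
  simp only [Finset.mem_filter, Finset.mem_range, not_and] at h1 h2 h3
  have g1 := h1 (by omega)
  have g2 := h2 (by omega)
  have g3 := h3 (by omega)
  obtain ⟨Q, ⟨a, ha, hQa⟩, hQ⟩ := growth (BG 1) Q' root hroot
    (fun Q => ∃ a : ℤ, a ≤ root 0 ∧ ∀ J, J ∈ Q ↔ a ≤ J 0 ∧ J 0 ≤ root 0)
    ⟨root 0, le_rfl, by
      intro J
      rw [Finset.mem_singleton]
      constructor
      · rintro rfl; exact ⟨le_rfl, le_rfl⟩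
      · intro h
        funext i
        rw [Subsingleton.elim i 0]
        omega⟩ (by
      rintro Q hrQ hR ⟨a, ha, hQa⟩ I hI J hJ hJQ' hadj
      have hReach : Reach (BG 1) Q' root J := (hR I hI).tail ⟨(hR I hI).mem hroot, hJQ', hadj⟩
      have h1 := hmax J hReach
      have h2 := (hQa I).mp hI
      have h3 : ¬ (a ≤ J 0 ∧ J 0 ≤ root 0) := fun h => hJ ((hQa J).mpr h)
      rw [adj_iff] at hadj
      obtain ⟨j, -, hj⟩ := hadj
      rw [Subsingleton.elim j 0] at hj
      simp only at h1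
      have h4 : J 0 = a - 1 := by omega
      refine ⟨a - 1, by omega, ?_⟩
      intro K
      rw [Finset.mem_insert, hQa K]
      constructor
      · rintro (rfl | h) <;> omega
      · intro h
        by_cases h5 : K 0 = a - 1
        · left
          funext i
          rw [Subsingleton.elim i 0]
          omega
        · right; omega)
  obtain ⟨p, hp⟩ : ∃ p : ℕ, root 0 = a + p := ⟨(root 0 - a).toNat, by omega⟩
  set f : ℕ → Fin 1 → ℤ := fun t => fun _ => s * a + t with hf
  have hfinj : Function.Injective f := by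
    intro t t' h
    have := congrFun h 0
    simpa [hf] using this
  have hfβ : ∀ t, (fun j => f t j / (s : ℤ)) = fun _ : Fin 1 => a + (t / s : ℕ) := by
    intro t
    funext j
    simp only [hf]
    rw [add_comm, Int.add_mul_ediv_left _ _ (by omega)]
    push_cast
    ring
  have hff : ∀ q : ℕ, f (s * p + q) = fun _ => s * root 0 + q := by
    intro q
    funext j
    simp only [hf, hp]
    push_cast
    ring
  have e : (List.range (s * p + t0)).map f ++
      [f (s * p + t0), f (s * p + t0 + 1), f (s * p + t0 + 2)] =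
      (List.range (s * p + t0 + 3)).map f := by
    rw [List.range_succ, List.range_succ, List.range_succ]
    simp
  have hβr : ∀ q, q < s → (fun j => f (s * p + q) j / (s : ℤ)) = root := by
    intro q hq
    rw [hfβ]
    funext j
    rw [Subsingleton.elim j 0, hp, Nat.mul_add_div (by omega), Nat.div_eq_of_lt hq]
    simp
  refine ⟨(List.range (s * p + t0)).map f, f (s * p + t0), f (s * p + t0 + 1),
    f (s * p + t0 + 2), ?_, ?_, ?_, ?_, ?_⟩
  · rw [e]
    exact List.nodup_range.map hfinj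
  · rw [e]
    refine chain_range_map _ _ _ fun t _ => ?_
    rw [adj_iff]
    refine ⟨0, fun i hi => absurd (Subsingleton.elim i 0) hi, Or.inl ?_⟩
    simp only [hf]
    push_cast
    ring
  · intro z hz
    rw [e, List.mem_map] at hz
    obtain ⟨t, ht, rfl⟩ := hz
    rw [List.mem_range] at ht
    have hq : (fun z j => z j / (s : ℤ) : (Fin 1 → ℤ) → Fin 1 → ℤ) (f t) 0 = a + (t / s : ℕ) :=
      congrFun (hfβ t) 0
    rw [← hQ, hQa, hq]
    have : t / s ≤ p := by
      rw [← Nat.lt_succ_iff, Nat.div_lt_iff_lt_mul (by omega), Nat.succ_mul, mul_comm p s]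
      omega
    have h8 : ((t / s : ℕ) : ℤ) ≤ p := by exact_mod_cast this
    have h9 : (0 : ℤ) ≤ ((t / s : ℕ) : ℤ) := Int.natCast_nonneg _
    constructor
    · linarith
    · rw [hp]
      linarith
  · intro z hz hzr
    rw [← hQ, hQa] at hz
    simp only at hz
    have h6 : z 0 / (s : ℤ) < root 0 := by
      rcases lt_or_eq_of_le hz.2 with h | h
      · exact h
      · exfalso
        apply hzr
        funext j
        rw [Subsingleton.elim j 0]
        exact h
    have h7 : s * a ≤ z 0 := by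
      have := (Int.le_ediv_iff_mul_le hs0).mp hz.1
      linarith
    have h8 : z 0 < s * root 0 := by
      have := (Int.ediv_lt_iff_lt_mul hs0).mp h6
      linarith
    rw [e, List.mem_map]
    refine ⟨(z 0 - s * a).toNat, ?_, ?_⟩
    · rw [List.mem_range]
      rw [hp] at h8
      have h9 : z 0 - s * a < s * p := by linarith
      have h10 : ((s * p : ℕ) : ℤ) = s * p := by push_cast; ring
      omega
    · funext j
      rw [Subsingleton.elim j 0]
      simp only [hf]
      omega
  · intro z hz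
    simp only [List.mem_cons, List.not_mem_nil, or_false] at hz
    rcases hz with rfl | rfl | rfl
    · exact ⟨by rw [hff]; exact g1, hβr _ (by omega)⟩
    · exact ⟨by rw [add_assoc, hff]; exact g2, by rw [add_assoc]; exact hβr _ (by omega)⟩
    · exact ⟨by rw [add_assoc, hff]; exact g3, by rw [add_assoc]; exact hβr _ (by omega)⟩

theorem cover_one (m : ℕ) : ∃ s C : ℕ, ∀ (A T : Finset (Fin 1 → ℤ))
    (Dirty : Set (Fin 1 → ℤ)),
    (∀ (c : Fin 1 → ℤ) (E : Finset (Fin 1 → ℤ)),
      (∀ z ∈ E, z ∈ Dirty ∧ z ∉ T ∧ l1 z c ≤ s) → E.card ≤ m) →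
    ∃ L : List (List (Fin 1 → ℤ)),
      (∀ Q ∈ L, Q.Nodup ∧ Q.IsChain (BG 1).Adj ∧ ∃ Q' z1 z2 z3, Q = Q' ++ [z1, z2, z3] ∧
        ∀ z ∈ [z1, z2, z3], z ∉ A ∧ z ∉ T ∧ z ∉ Dirty) ∧
      L.Pairwise List.Disjoint ∧
      (∀ z ∈ A, ∃ Q ∈ L, z ∈ Q) ∧
      (∀ z ∈ A, ∀ w ∈ A, (BG 1).Adj z w → ∀ Q ∈ L, z ∈ Q → w ∈ Q) ∧
      (L.map List.length).sum ≤ C * (A.card + T.card) := by
  classical
  obtain ⟨s, hs⟩ : ∃ s, s = 3 * (m + 1) := ⟨_, rfl⟩
  have hs0 : (0 : ℤ) < s := by omega
  have hmem : ∀ (I z : Fin 1 → ℤ), z ∈ (Finset.range s).image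
      (fun t : ℕ => (fun _ => s * I 0 + t : Fin 1 → ℤ)) ↔ (fun j => z j / (s : ℤ)) = I := by
    intro I z
    simp only [Finset.mem_image, Finset.mem_range]
    constructor
    · rintro ⟨t, h, rfl⟩
      funext j
      rw [Subsingleton.elim j 0, add_comm, Int.add_mul_ediv_left _ _ (by omega),
        Int.ediv_eq_zero_of_lt (by omega) (by omega), zero_add]
    · intro h
      have h0 : z 0 / (s : ℤ) = I 0 := congrFun h 0
      have e1 : z 0 = s * I 0 + z 0 % s := by
        rw [← h0]; exact (Int.mul_ediv_add_emod _ _).symm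
      have e2 : 0 ≤ z 0 % s := Int.emod_nonneg _ (by omega)
      have e3 : z 0 % s < s := Int.emod_lt_of_pos _ (by omega)
      refine ⟨(z 0 % s).toNat, by omega, ?_⟩
      funext j
      rw [Subsingleton.elim j 0]
      omega
  refine ⟨s, 2 * s, fun A T Dirty hD => ?_⟩
  refine assemble (BG 1) (BG 1) (fun z j => z j / (s : ℤ)) ?_
    (fun I => (Finset.range s).image (fun t : ℕ => (fun _ => s * I 0 + t : Fin 1 → ℤ))) hmem s ?_
    (fun I => I 0) (fun I => nb I (0, true)) ?_ ?_ m (claim_one m s (by omega)) A T Dirty ?_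
  · intro z w h
    exact adj_div (fun _ => (s : ℤ)) (fun j => by omega) z w h
  · intro I
    exact Finset.card_image_le.trans (by simp)
  · intro I
    rw [adj_iff]
    refine ⟨0, fun i hi => by simp [nb, hi], Or.inl (by simp [nb])⟩
  · intro I
    simp [nb]
  · intro I E hE
    refine hD (fun _ => s * I 0) E ?_
    intro z hz
    obtain ⟨h1, h2, h3⟩ := hE z hz
    refine ⟨h1, h2, ?_⟩
    rw [← hmem] at h3
    simp only [Finset.mem_image, Finset.mem_range] at h3
    obtain ⟨t, ht, rfl⟩ := h3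
    unfold l1
    simp
    omega

end Pool.Agent.Helper82.GP.Cover

namespace Pool.Agent.Helper82.GP

/-- Covering a finite set of base points by disjoint paths ending with three clean points. -/
theorem path_cover (k m : ℕ) (hk : 1 ≤ k) : ∃ s C : ℕ, ∀ (A T : Finset (Fin k → ℤ))
    (Dirty : Set (Fin k → ℤ)),
    (∀ (c : Fin k → ℤ) (E : Finset (Fin k → ℤ)),
      (∀ z ∈ E, z ∈ Dirty ∧ z ∉ T ∧ l1 z c ≤ s) → E.card ≤ m) →
    ∃ L : List (List (Fin k → ℤ)),
      (∀ Q ∈ L, Q.Nodup ∧ Q.IsChain (BG k).Adj ∧ ∃ Q' z1 z2 z3, Q = Q' ++ [z1, z2, z3] ∧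
        ∀ z ∈ [z1, z2, z3], z ∉ A ∧ z ∉ T ∧ z ∉ Dirty) ∧
      L.Pairwise List.Disjoint ∧
      (∀ z ∈ A, ∃ Q ∈ L, z ∈ Q) ∧
      (∀ z ∈ A, ∀ w ∈ A, (BG k).Adj z w → ∀ Q ∈ L, z ∈ Q → w ∈ Q) ∧
      (L.map List.length).sum ≤ C * (A.card + T.card) := by
  obtain _ | _ | k := k
  · omega
  · exact Cover.cover_one m
  · exact Cover.cover_two k m

end Pool.Agent.Helper82.GP
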