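import Mathlib

/-!
Shared definitions for the deterministic part (path surgery) of the greedy path theorem.
The lattice is `ℤ × β`, where `β` is the base (for us `Fin k → ℤ`).
-/

namespace Pool.Agent.Helper82.GP

/-- Product of the line `ℤ` with a base graph. -/
def LG {β : Type*} (GB : SimpleGraph β) : SimpleGraph (ℤ × β) where
  Adj u v := (u.2 = v.2 ∧ |u.1 - v.1| = 1) ∨ (u.1 = v.1 ∧ GB.Adj u.2 v.2)
  symm := ⟨by
    rintro u v (⟨h1, h2⟩ | ⟨h1, h2⟩)
    · exact Or.inl ⟨h1.symm, by rwa [abs_sub_comm]⟩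
    · exact Or.inr ⟨h1.symm, h2.symm⟩⟩
  loopless := ⟨by
    rintro u (⟨h1, h2⟩ | ⟨h1, h2⟩)
    · simp at h2
    · exact GB.loopless.irrefl _ h2⟩

/-- The `ℓ¹` distance on `Fin k → ℤ`. -/
def l1 {k : ℕ} (z w : Fin k → ℤ) : ℕ := ∑ j, (z j - w j).natAbs

/-- The nearest neighbour graph on `Fin k → ℤ`. -/
def BG (k : ℕ) : SimpleGraph (Fin k → ℤ) where
  Adj z w := l1 z w = 1
  symm := ⟨by
    intro z w h
    rw [← h]
    exact Finset.sum_congr rfl fun j _ => by omega⟩
  loopless := ⟨by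
    intro z h
    simp [l1] at h⟩

/-- At most `m` points of `F` in every ball of radius `D`. -/
def Sparse {k : ℕ} (m D : ℕ) (F : Finset (ℤ × (Fin k → ℤ))) : Prop :=
  ∀ (c : ℤ × (Fin k → ℤ)) (E : Finset (ℤ × (Fin k → ℤ))), E ⊆ F →
    (∀ o ∈ E, |o.1 - c.1| ≤ D ∧ l1 o.2 c.2 ≤ D) → E.card ≤ m

/-- A piece of wall over a path `z 0, ..., z (m-1)` of the base. -/
structure Region (β : Type*) where
  /-- number of columns -/
  m : ℕ
  /-- the columns -/
  z : ℕ → β
  /-- lower side -/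
  a : ℕ → ℤ
  /-- upper side -/
  b : ℕ → ℤ

/-- The vertices of a region. -/
def Region.car {β : Type*} (r : Region β) : Set (ℤ × β) :=
  {v | ∃ i < r.m, v.2 = r.z i ∧ r.a i ≤ v.1 ∧ v.1 ≤ r.b i}

/-- The collar of a region: the six first and last rows, and the last three columns. -/
def Region.coll {β : Type*} (r : Region β) : Set (ℤ × β) :=
  {v | ∃ i < r.m, v.2 = r.z i ∧ r.a i ≤ v.1 ∧ v.1 ≤ r.b i ∧
    (v.1 ≤ r.a i + 6 ∨ r.b i - 6 ≤ v.1 ∨ r.m ≤ i + 3)}

/-- Row-zero site of a region in the unfolded order: positions `0, ..., m-1` are the bottom sites,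
positions `m, ..., 2m-1` are the top sites in reverse order. -/
def Region.site {β : Type*} (r : Region β) (c : ℕ) : ℤ × β :=
  if c < r.m then (r.a c, r.z c) else (r.b (2 * r.m - 1 - c), r.z (2 * r.m - 1 - c))

/-- Column of an unfolded position. -/
def Region.col {β : Type*} (r : Region β) (c : ℕ) : ℕ :=
  if c < r.m then c else 2 * r.m - 1 - c

/-- A region is good: its columns form a path of the base, both sides are Lipschitz, and it is
thick. -/
structure Region.Good {β : Type*} (GB : SimpleGraph β) (r : Region β) : Prop where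
  inj : Set.InjOn r.z (Set.Iio r.m)
  adj : ∀ i, i + 1 < r.m → GB.Adj (r.z i) (r.z (i + 1))
  lip_a : ∀ i, i + 1 < r.m → |r.a i - r.a (i + 1)| ≤ 1
  lip_b : ∀ i, i + 1 < r.m → |r.b i - r.b (i + 1)| ≤ 1
  thick : ∀ i < r.m, r.a i + 14 ≤ r.b i

/-- The arcs of the linking attached to the set `op` of opened pairs: level, left end, right end
(indices of entries `0, ..., 2q-1`). -/
inductive Arc (q : ℕ) (op : ℕ → Prop) : ℕ → ℕ → ℕ → Prop
  | low (t : ℕ) (ht : t < q) (h : ¬ op t) : Arc q op 1 (2 * t) (2 * t + 1)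
  | mid (t s : ℕ) (hts : t < s) (hs : s < q) (h1 : op t) (h2 : op s)
      (h : ∀ u, t < u → u < s → ¬ op u) : Arc q op 2 (2 * t + 1) (2 * s)
  | outer (t : ℕ) (ht : t < q) (h1 : op t) (h : ∀ u, t < u → u < q → ¬ op u) :
      Arc q op 3 0 (2 * t + 1)

/-- The linking relation attached to `op` on entries enumerated by `e`. -/
def Lk {E : Type*} (q : ℕ) (e : ℕ → E) (op : ℕ → Prop) (u v : E) : Prop :=
  ∃ l i j, Arc q op l i j ∧ ((u = e i ∧ v = e j) ∨ (u = e j ∧ v = e i))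

/-- Vertices of `ℤ × (Fin k → ℤ)` as vertices of `Fin (k + 1) → ℤ`. -/
def cns {k : ℕ} (v : ℤ × (Fin k → ℤ)) : Fin (k + 1) → ℤ := Fin.cons v.1 v.2

/-- The box of radius `n`. -/
noncomputable def box (k n : ℕ) : Finset (ℤ × (Fin k → ℤ)) :=
  (Finset.Icc (-(n : ℤ)) n) ×ˢ Fintype.piFinset (fun _ => Finset.Icc (-(n : ℤ)) n)

end Pool.Agent.Helper82.GP
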