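import Pool.Agent.Helper82.GP.Defs

/-!
Edges of paths, and extraction of a spanning path from a connected graph of degree at most two.
-/

namespace Pool.Agent.Helper82.GP

variable {V : Type*} {G : SimpleGraph V}

theorem edge_iff {x y : V} (p : G.Walk x y) (u v : V) :
    s(u, v) ∈ p.edges ↔ ∃ i < p.length, (u = p.getVert i ∧ v = p.getVert (i + 1)) ∨
      (v = p.getVert i ∧ u = p.getVert (i + 1)) := by
  induction p with
  | nil => simp
  | @cons a b c h p ih =>
    rw [SimpleGraph.Walk.edges_cons, List.mem_cons, ih]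
    constructor
    · rintro (h1 | ⟨i, hi, h1⟩)
      · refine ⟨0, by simp, ?_⟩
        rw [Sym2.eq_iff] at h1
        rcases h1 with ⟨rfl, rfl⟩ | ⟨rfl, rfl⟩
        · left; simp
        · right; simp
      · refine ⟨i + 1, by simpa using hi, ?_⟩
        simpa using h1
    · rintro ⟨i, hi, h1⟩
      rcases i with _ | i
      · left
        simp only [SimpleGraph.Walk.getVert_zero, zero_add,
          SimpleGraph.Walk.getVert_cons_succ] at h1
        rcases h1 with ⟨rfl, rfl⟩ | ⟨rfl, rfl⟩
        · rfl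
        · exact Sym2.eq_swap
      · right
        refine ⟨i, by simpa using hi, ?_⟩
        simpa using h1

theorem getVert_edge {x y : V} (p : G.Walk x y) {i : ℕ} (hi : i < p.length) :
    s(p.getVert i, p.getVert (i + 1)) ∈ p.edges :=
  (edge_iff p _ _).2 ⟨i, hi, Or.inl ⟨rfl, rfl⟩⟩

theorem getVert_inj {x y : V} {p : G.Walk x y} (hp : p.IsPath) {i j : ℕ} (hi : i ≤ p.length)
    (hj : j ≤ p.length) (h : p.getVert i = p.getVert j) : i = j :=
  hp.getVert_injOn hi hj h

/-- Neighbours along a path of the vertex with index `i`. -/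
theorem nb_of_edge {x y : V} {p : G.Walk x y} (hp : p.IsPath) {i : ℕ} (hi : i ≤ p.length) {a : V}
    (ha : s(p.getVert i, a) ∈ p.edges) :
    (i < p.length ∧ a = p.getVert (i + 1)) ∨ (0 < i ∧ a = p.getVert (i - 1)) := by
  rw [edge_iff] at ha
  obtain ⟨j, hj, (⟨h1, h2⟩ | ⟨h1, h2⟩)⟩ := ha
  · have := getVert_inj hp hi (by omega) h1
    subst this
    exact Or.inl ⟨hj, h2⟩
  · have := getVert_inj hp hi (by omega) h2
    subst this
    exact Or.inr ⟨by omega, by simpa using h1⟩

theorem path_deg {x y : V} (p : G.Walk x y) (hp : p.IsPath)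
    (v a b c : V) (ha : s(v, a) ∈ p.edges) (hb : s(v, b) ∈ p.edges) (hc : s(v, c) ∈ p.edges) :
    a = b ∨ b = c ∨ a = c := by
  obtain ⟨i, hiv, hi⟩ := SimpleGraph.Walk.mem_support_iff_exists_getVert.1
    (p.fst_mem_support_of_mem_edges ha)
  subst hiv
  rcases nb_of_edge hp hi ha with ⟨_, h1⟩ | ⟨_, h1⟩ <;>
    rcases nb_of_edge hp hi hb with ⟨_, h2⟩ | ⟨_, h2⟩ <;>
    rcases nb_of_edge hp hi hc with ⟨_, h3⟩ | ⟨_, h3⟩ <;> simp [h1, h2, h3]

theorem path_deg_start {x y : V} (p : G.Walk x y) (hp : p.IsPath)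
    (a b : V) (ha : s(x, a) ∈ p.edges) (hb : s(x, b) ∈ p.edges) : a = b := by
  have h0 : p.getVert 0 = x := p.getVert_zero
  have ha' : s(p.getVert 0, a) ∈ p.edges := by simpa only [h0] using ha
  have hb' : s(p.getVert 0, b) ∈ p.edges := by simpa only [h0] using hb
  rcases nb_of_edge hp (Nat.zero_le _) ha' with ⟨_, h1⟩ | ⟨h1, _⟩
  · rcases nb_of_edge hp (Nat.zero_le _) hb' with ⟨_, h2⟩ | ⟨h2, _⟩
    · rw [h1, h2]
    · omega
  · omega

theorem path_deg_end {x y : V} (p : G.Walk x y) (hp : p.IsPath)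
    (a b : V) (ha : s(y, a) ∈ p.edges) (hb : s(y, b) ∈ p.edges) : a = b := by
  have h0 : p.getVert p.length = y := p.getVert_length
  have ha' : s(p.getVert p.length, a) ∈ p.edges := by simpa only [h0] using ha
  have hb' : s(p.getVert p.length, b) ∈ p.edges := by simpa only [h0] using hb
  rcases nb_of_edge hp le_rfl ha' with ⟨h1, _⟩ | ⟨_, h1⟩
  · omega
  · rcases nb_of_edge hp le_rfl hb' with ⟨h2, _⟩ | ⟨_, h2⟩
    · omega
    · rw [h1, h2]

theorem extract {V : Type*} (H : SimpleGraph V) (x₀ x₁ : V) (hne : x₀ ≠ x₁)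
    (hdeg : ∀ v a b c, H.Adj v a → H.Adj v b → H.Adj v c → a = b ∨ b = c ∨ a = c)
    (h0 : ∀ a b, H.Adj x₀ a → H.Adj x₀ b → a = b)
    (h1 : ∀ a b, H.Adj x₁ a → H.Adj x₁ b → a = b) (hr : H.Reachable x₀ x₁) :
    ∃ p : H.Walk x₀ x₁, p.IsPath ∧ ∀ v, H.Reachable x₀ v → v ∈ p.support := by
  classical
  obtain ⟨p, hp⟩ := hr.exists_isPath
  have hlen : 0 < p.length := by
    rcases Nat.eq_zero_or_pos p.length with h | h
    · exact absurd (SimpleGraph.Walk.eq_of_length_eq_zero h) hne
    · exact h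
  have hcl : ∀ v ∈ p.support, ∀ w, H.Adj v w → w ∈ p.support := by
    intro v hv w hw
    obtain ⟨i, hiv, hi⟩ := SimpleGraph.Walk.mem_support_iff_exists_getVert.1 hv
    subst hiv
    rcases Nat.eq_zero_or_pos i with h2 | h2
    · subst h2
      have h3 := p.adj_getVert_succ (i := 0) hlen
      rw [p.getVert_zero] at h3 hw
      rw [h0 w _ hw h3]
      exact p.getVert_mem_support _
    · rcases eq_or_lt_of_le hi with h4 | h4
      · have h3 := (p.adj_getVert_succ (i := i - 1) (by omega)).symm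
        have h5 : i - 1 + 1 = i := by omega
        rw [h5] at h3
        rw [h4, p.getVert_length] at h3 hw
        rw [h1 w _ hw h3]
        exact p.getVert_mem_support _
      · have h3 := (p.adj_getVert_succ (i := i - 1) (by omega)).symm
        have h5 : i - 1 + 1 = i := by omega
        rw [h5] at h3
        have h6 := p.adj_getVert_succ h4
        rcases hdeg _ _ _ _ hw h3 h6 with h7 | h7 | h7
        · rw [h7]; exact p.getVert_mem_support _
        · have := getVert_inj hp (by omega) (by omega) h7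
          omega
        · rw [h7]; exact p.getVert_mem_support _
  refine ⟨p, hp, fun v hv => ?_⟩
  obtain ⟨w⟩ := hv
  have : ∀ (u v : V) (w : H.Walk u v), u ∈ p.support → v ∈ p.support := by
    intro u v w
    induction w with
    | nil => exact id
    | cons h _ ih => exact fun hu => ih (hcl _ hu _ h)
  exact this _ _ w p.start_mem_support

end Pool.Agent.Helper82.GP
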