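import Pool.Agent.Helper82.GP.Basic

/-!
Module Fallback: a random variable with finite expectation that bounds the negative part of the
greedy path weight (up to a linear term).
-/

namespace Pool.Agent.Helper82.GP

open MeasureTheory ProbabilityTheory Filter
open scoped ENNReal Topology
open Pool.Agent.Helper82.Greedy

namespace Fallback

/-! ### Chains of obstacles and the Lipschitz function -/

/-- `c` is a chain of obstacles that blocks the site `(x, y)`. -/
def IsCh : List (ℤ × ℤ) → ℤ → ℤ → Prop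
  | [], _, y => y ≤ 0
  | o :: c, x, y => y + |x - o.1| ≤ o.2 ∧ IsCh c o.1 (o.2 - 2)

/-- Blocked sites for the obstacle set `cl`. -/
def Bl (cl : ℤ × ℤ → Prop) (x y : ℤ) : Prop := ∃ c, IsCh c x y ∧ ∀ o ∈ c, cl o

theorem Bl.lip {cl : ℤ × ℤ → Prop} {x y x' y' : ℤ} (h : Bl cl x y) (hle : y' + |x' - x| ≤ y) :
    Bl cl x' y' := by
  obtain ⟨c, hc, hcl⟩ := h
  cases c with
  | nil =>
    refine ⟨[], ?_, by simp⟩
    have h1 : y ≤ 0 := hc
    have h2 := abs_nonneg (x' - x)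
    show y' ≤ 0
    linarith
  | cons o c =>
    refine ⟨o :: c, ⟨?_, hc.2⟩, hcl⟩
    have h1 := hc.1
    have h2 := abs_sub_le x' x o.1
    linarith

theorem Bl.base {cl : ℤ × ℤ → Prop} {x y : ℤ} (h : y ≤ 0) : Bl cl x y :=
  ⟨[], h, by simp⟩

theorem Bl.step {cl : ℤ × ℤ → Prop} {x y : ℤ} (h : Bl cl x (y - 2)) (ho : cl (x, y)) :
    Bl cl x y := by
  obtain ⟨c, hc, hcl⟩ := h
  refine ⟨(x, y) :: c, ⟨by simp, hc⟩, ?_⟩
  intro o hmem
  rcases List.mem_cons.1 hmem with rfl | hmem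
  · exact ho
  · exact hcl o hmem

theorem IsCh.le_length {c : List (ℤ × ℤ)} {x y : ℤ} (h : IsCh c x y) : y ≤ 2 * c.length := by
  induction c generalizing x y with
  | nil =>
    have h1 : y ≤ 0 := h
    simpa using h1
  | cons o c ih =>
    have h1 := h.1
    have h2 := ih h.2
    have h3 := abs_nonneg (x - o.1)
    simp only [List.length_cons]
    push_cast
    linarith

theorem IsCh.column {c : List (ℤ × ℤ)} {x y : ℤ} (h : IsCh c x y) :
    ∀ o ∈ c, |o.1 - x| ≤ 2 * c.length - y := by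
  induction c generalizing x y with
  | nil => simp
  | cons o c ih =>
    intro o' ho'
    have h1 := h.1
    have h2 := h.2.le_length
    simp only [List.length_cons]
    push_cast
    rcases List.mem_cons.1 ho' with rfl | hmem
    · rw [abs_sub_comm] at h1
      linarith
    · have h3 := ih h.2 o' hmem
      have h4 := abs_sub_le o'.1 o.1 x
      rw [abs_sub_comm x o.1] at h1
      linarith

theorem IsCh.suffix {a b : List (ℤ × ℤ)} {o : ℤ × ℤ} {x y : ℤ} (h : IsCh (a ++ o :: b) x y) :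
    IsCh b o.1 (o.2 - 2) := by
  induction a generalizing x y with
  | nil => exact h.2
  | cons o' a ih => exact ih h.2

theorem IsCh.nodup {c : List (ℤ × ℤ)} {x y : ℤ} (h : IsCh c x y) :
    ∃ c', IsCh c' x y ∧ c'.Nodup ∧ ∀ o ∈ c', o ∈ c := by
  induction c generalizing x y with
  | nil => exact ⟨[], h, List.nodup_nil, by simp⟩
  | cons o c ih =>
    obtain ⟨c', h1, h2, h3⟩ := ih h.2
    by_cases ho : o ∈ c'
    · obtain ⟨a, b, rfl⟩ := List.append_of_mem ho
      refine ⟨o :: b, ⟨h.1, h1.suffix⟩, ?_, ?_⟩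
      · exact (List.nodup_append.1 h2).2.1
      · intro o' ho'
        rcases List.mem_cons.1 ho' with rfl | hmem
        · simp
        · exact List.mem_cons_of_mem _ (h3 o' (by simp [hmem]))
    · refine ⟨o :: c', ⟨h.1, h1⟩, List.nodup_cons.2 ⟨ho, h2⟩, ?_⟩
      intro o' ho'
      rcases List.mem_cons.1 ho' with rfl | hmem
      · simp
      · exact List.mem_cons_of_mem _ (h3 o' hmem)

/-- The Lipschitz function above the obstacles. -/
theorem exists_height {cl : ℤ × ℤ → Prop} {R : ℤ} (hR : ¬ Bl cl R 1) :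
    ∃ h : ℤ → ℤ, h R = 1 ∧ ∀ x, 1 ≤ h x ∧ |h x - h (x + 1)| ≤ 1 ∧ ¬ cl (x, h x) ∧
      ¬ cl (x, h x + 1) := by
  have hex : ∀ x, ∃ n : ℕ, ¬ Bl cl x ((n : ℤ) + 1) := by
    intro x
    refine ⟨(R - x).natAbs, fun hB => hR (hB.lip ?_)⟩
    rw [Int.natCast_natAbs]
    linarith
  classical
  let hN : ℤ → ℕ := fun x => Nat.find (hex x)
  have hspec : ∀ x, ¬ Bl cl x ((hN x : ℤ) + 1) := fun x => Nat.find_spec (hex x)
  have hmin : ∀ x, Bl cl x (hN x : ℤ) := by
    intro x
    rcases Nat.eq_zero_or_pos (hN x) with h0 | h0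
    · exact Bl.base (by simp [h0])
    · obtain ⟨m, hm⟩ : ∃ m, hN x = m + 1 := ⟨hN x - 1, by omega⟩
      have h1 : ¬ ¬ Bl cl x ((m : ℤ) + 1) := Nat.find_min (hex x) (by
        show m < hN x
        omega)
      rw [hm]
      push_cast
      exact not_not.1 h1
  have hlip : ∀ x x', (hN x : ℤ) ≤ hN x' + |x' - x| := by
    intro x x'
    by_contra hcon
    push Not at hcon
    exact hspec x' ((hmin x).lip (by linarith))
  refine ⟨fun x => hN x + 1, ?_, fun x => ⟨?_, ?_, ?_, ?_⟩⟩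
  · have : hN R = 0 := (Nat.find_eq_zero (hex R)).2 (by simpa using hR)
    simp [this]
  · simp
  · have h1 := hlip x (x + 1)
    have h2 := hlip (x + 1) x
    simp only [add_sub_cancel_left, abs_one, sub_add_cancel_left, abs_neg] at h1 h2
    rw [abs_le]
    constructor <;> linarith
  · intro ho
    refine hspec x (Bl.step ((hmin x).lip ?_) ho)
    simp only [sub_self, abs_zero]
    linarith
  · intro ho
    refine hspec x ((Bl.step (y := (hN x : ℤ) + 1 + 1) ((hmin x).lip ?_) ho).lip ?_)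
    · simp only [sub_self, abs_zero]
      linarith
    · simp only [sub_self, abs_zero]
      linarith

/-- One step of the staircase. -/
def nxt (g : ℤ → ℤ) (p : ℤ × ℤ) : ℤ × ℤ := if p.2 = g p.1 then (p.1 + 1, p.2) else (p.1, g p.1)

theorem exists_stair {cl : ℤ × ℤ → Prop} {R : ℤ} (hR : ¬ Bl cl R 1) :
    ∃ q : ℕ → ℤ × ℤ, q 0 = (R, 1) ∧ Function.Injective q ∧
      ∀ k, ¬ cl (q k) ∧ R ≤ (q k).1 ∧ 1 ≤ (q k).2 ∧
        |(q (k + 1)).1 - (q k).1| + |(q (k + 1)).2 - (q k).2| = 1 := by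
  obtain ⟨h, h1, h2⟩ := exists_height hR
  set g : ℤ → ℤ := fun x => max (h x) (h (x + 1)) with hg
  have hgx : ∀ x, (g x = h x ∨ g x = h x + 1) ∧ (g x = h (x + 1) ∨ g x = h (x + 1) + 1) := by
    intro x
    have h3 := (h2 x).2.1
    rw [abs_le] at h3
    simp only [hg]
    rcases le_total (h x) (h (x + 1)) with h4 | h4
    · rw [max_eq_right h4]
      constructor <;> omega
    · rw [max_eq_left h4]
      constructor <;> omega
  set q : ℕ → ℤ × ℤ := fun k => (nxt g)^[k] (R, 1) with hq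
  have hsucc : ∀ k, q (k + 1) = nxt g (q k) := fun k => Function.iterate_succ_apply' _ _ _
  have hinv : ∀ k, (q k).2 = h (q k).1 ∨ (q k).2 = h (q k).1 + 1 := by
    intro k
    induction k with
    | zero => left; simp [hq, h1]
    | succ k ih =>
      rw [hsucc, nxt]
      split_ifs with h5
      · show (q k).2 = h ((q k).1 + 1) ∨ (q k).2 = h ((q k).1 + 1) + 1
        rw [h5]
        exact (hgx _).2
      · exact (hgx _).1
  have hmeas : ∀ k, 2 * (q k).1 + (if (q k).2 = g (q k).1 then 1 else 0) <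
      2 * (q (k + 1)).1 + (if (q (k + 1)).2 = g (q (k + 1)).1 then 1 else 0) := by
    intro k
    rw [hsucc]
    by_cases h5 : (q k).2 = g (q k).1
    · have h6 : nxt g (q k) = ((q k).1 + 1, (q k).2) := by rw [nxt, if_pos h5]
      rw [h6, if_pos h5]
      split_ifs <;> simp only <;> omega
    · have h6 : nxt g (q k) = ((q k).1, g (q k).1) := by rw [nxt, if_neg h5]
      rw [h6, if_neg h5]
      simp
  have hmono : StrictMono fun k => 2 * (q k).1 + (if (q k).2 = g (q k).1 then (1 : ℤ) else 0) :=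
    strictMono_nat_of_lt_succ hmeas
  refine ⟨q, rfl, ?_, fun k => ⟨?_, ?_, ?_, ?_⟩⟩
  · intro a b hab
    exact hmono.injective (by simp only [hab])
  · rcases hinv k with h5 | h5
    · have := (h2 (q k).1).2.2.1
      rwa [← h5] at this
    · have := (h2 (q k).1).2.2.2
      rwa [← h5] at this
  · induction k with
    | zero => simp [hq]
    | succ k ih =>
      rw [hsucc, nxt]
      split_ifs
      · simp only; omega
      · exact ih
  · have := (h2 (q k).1).1
    rcases hinv k with h5 | h5 <;> omega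
  · rw [hsucc]
    by_cases h5 : (q k).2 = g (q k).1
    · rw [nxt, if_pos h5]
      simp
    · rw [nxt, if_neg h5]
      have h6 := (hgx (q k).1).1
      have h7 := hinv k
      simp only [sub_self, abs_zero, zero_add]
      rw [abs_eq (by norm_num)]
      omega

/-! ### Embedding in the lattice -/

/-- The quadrant spanned by the directions `i` (with sign `s`) and `j`. -/
def emb {d : ℕ} (i j : Fin d) (s : ℤ) (o : ℤ × ℤ) : Fin d → ℤ :=
  fun m => if m = i then s * o.1 else if m = j then o.2 else 0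

theorem emb_dist {d : ℕ} {i j : Fin d} (hij : i ≠ j) {s : ℤ} (hs : |s| = 1) (o o' : ℤ × ℤ) :
    ∑ m, |emb i j s o m - emb i j s o' m| = |o.1 - o'.1| + |o.2 - o'.2| := by
  have h1 : ∀ m, |emb i j s o m - emb i j s o' m| =
      (if m = i then |o.1 - o'.1| else 0) + (if m = j then |o.2 - o'.2| else 0) := by
    intro m
    unfold emb
    by_cases hi : m = i
    · subst hi
      simp only [if_true, if_neg hij, add_zero]
      rw [← mul_sub, abs_mul, hs, one_mul]
    · by_cases hj : m = j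
      · simp [hj, hij.symm]
      · simp [hi, hj]
  rw [Finset.sum_congr rfl fun m _ => h1 m, Finset.sum_add_distrib]
  simp

theorem emb_injective {d : ℕ} {i j : Fin d} (hij : i ≠ j) {s : ℤ} (hs : |s| = 1) :
    Function.Injective (emb i j s) := by
  intro o o' h
  have h1 := emb_dist hij hs o o'
  rw [h] at h1
  simp only [sub_self, abs_zero, Finset.sum_const_zero] at h1
  have h2 := abs_nonneg (o.1 - o'.1)
  have h3 := abs_nonneg (o.2 - o'.2)
  have h4 : |o.1 - o'.1| = 0 := by linarith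
  have h5 : |o.2 - o'.2| = 0 := by linarith
  exact Prod.ext (by rw [abs_eq_zero] at h4; linarith) (by rw [abs_eq_zero] at h5; linarith)

theorem greedy_ge {d : ℕ} (x : (Fin d → ℤ) → ℝ) {i j : Fin d} (hij : i ≠ j) {s : ℤ}
    (hs : |s| = 1) {K : ℝ} (hK : 0 ≤ K) {R : ℕ} (q : ℕ → ℤ × ℤ) (hq0 : q 0 = ((R : ℤ), 1))
    (hqi : Function.Injective q)
    (hq : ∀ k, -K ≤ x (emb i j s (q k)) ∧ 1 ≤ (q k).2 ∧
      |(q (k + 1)).1 - (q k).1| + |(q (k + 1)).2 - (q k).2| = 1)
    (n ρ : ℕ) (hρ : R ≤ ρ) :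
    -greedy d x n ≤ K * n +
      ∑ r ∈ Finset.range ρ, max (-x (emb i j s (((r : ℤ) + 1), 0))) 0 := by
  set q' : ℕ → ℤ × ℤ := fun k => if k ≤ R then ((k : ℤ), 0) else q (k - (R + 1)) with hq'
  have hinj : Function.Injective q' := by
    intro a b hab
    simp only [hq'] at hab
    split_ifs at hab with ha hb hb
    · have := (Prod.ext_iff.1 hab).1
      simp only at this
      exact_mod_cast this
    · have h1 := (hq (b - (R + 1))).2.1
      have h2 := (Prod.ext_iff.1 hab).2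
      simp only at h2
      omega
    · have h1 := (hq (a - (R + 1))).2.1
      have h2 := (Prod.ext_iff.1 hab).2
      simp only at h2
      omega
    · have := hqi hab
      omega
  have hstep : ∀ k, |(q' (k + 1)).1 - (q' k).1| + |(q' (k + 1)).2 - (q' k).2| = 1 := by
    intro k
    simp only [hq']
    rcases lt_trichotomy k R with h1 | h1 | h1
    · rw [if_pos (by omega : k + 1 ≤ R), if_pos (by omega : k ≤ R)]
      simp
    · subst h1
      rw [if_neg (by omega : ¬ k + 1 ≤ k), if_pos le_rfl, Nat.sub_self, hq0]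
      simp
    · rw [if_neg (by omega : ¬ k + 1 ≤ R), if_neg (by omega : ¬ k ≤ R)]
      have h2 : k + 1 - (R + 1) = (k - (R + 1)) + 1 := by omega
      rw [h2]
      exact (hq _).2.2
  set γ : Fin (n + 1) → (Fin d → ℤ) := fun k => emb i j s (q' k) with hγ
  have hsaw : IsSAW d n γ := by
    refine ⟨?_, ?_, ?_⟩
    · funext m
      simp [hγ, hq', emb]
    · intro a b hab
      exact Fin.ext (hinj (emb_injective hij hs hab))
    · intro k
      simp only [hγ]
      rw [emb_dist hij hs]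
      exact hstep k
  have h1 := le_greedy x hsaw
  have h2 : ∀ k : ℕ, -x (emb i j s (q' (k + 1))) ≤
      K + (if k < R then max (-x (emb i j s (((k : ℤ) + 1), 0))) 0 else 0) := by
    intro k
    by_cases hk : k < R
    · rw [if_pos hk]
      simp only [hq']
      rw [if_pos (by omega : k + 1 ≤ R)]
      push_cast
      have := le_max_left (-x (emb i j s (((k : ℤ) + 1), 0))) 0
      linarith
    · rw [if_neg hk]
      simp only [hq']
      rw [if_neg (by omega : ¬ k + 1 ≤ R)]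
      have := (hq (k + 1 - (R + 1))).1
      linarith
  calc -greedy d x n ≤ -∑ k : Fin n, x (γ k.succ) := by linarith
    _ = ∑ k : Fin n, -x (emb i j s (q' ((k : ℕ) + 1))) := by
        rw [← Finset.sum_neg_distrib]
        refine Finset.sum_congr rfl fun k _ => ?_
        simp [hγ]
    _ = ∑ k ∈ Finset.range n, -x (emb i j s (q' (k + 1))) :=
        (Finset.sum_range fun k => -x (emb i j s (q' (k + 1)))).symm
    _ ≤ ∑ k ∈ Finset.range n,
        (K + (if k < R then max (-x (emb i j s (((k : ℤ) + 1), 0))) 0 else 0)) :=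
        Finset.sum_le_sum fun k _ => h2 k
    _ = K * n + ∑ k ∈ Finset.range n,
        (if k < R then max (-x (emb i j s (((k : ℤ) + 1), 0))) 0 else 0) := by
        rw [Finset.sum_add_distrib]
        simp [mul_comm]
    _ ≤ K * n + ∑ r ∈ Finset.range ρ, max (-x (emb i j s (((r : ℤ) + 1), 0))) 0 := by
        have h3 : ∑ k ∈ Finset.range n,
            (if k < R then max (-x (emb i j s (((k : ℤ) + 1), 0))) 0 else 0) =
            ∑ k ∈ (Finset.range n).filter (· < R),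
              max (-x (emb i j s (((k : ℤ) + 1), 0))) 0 := (Finset.sum_filter _ _).symm
        rw [h3]
        have h4 : ∑ k ∈ (Finset.range n).filter (· < R),
              max (-x (emb i j s (((k : ℤ) + 1), 0))) 0 ≤
            ∑ r ∈ Finset.range ρ, max (-x (emb i j s (((r : ℤ) + 1), 0))) 0 := by
          refine Finset.sum_le_sum_of_subset_of_nonneg ?_ fun _ _ _ => le_max_right _ _
          intro k hk
          rw [Finset.mem_filter] at hk
          exact Finset.mem_range.2 (by omega)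
        linarith

/-! ### First moment bounds -/

section Moment

variable {Ω : Type*} [MeasurableSpace Ω] {P : Measure Ω}

/-- The event that there is a chain with `l` new obstacles, followed by `Ψ`. -/
def ChEv (Ψ : Finset (ℤ × ℤ) → Set Ω) (l : ℕ) (x y : ℤ) (S : Finset (ℤ × ℤ)) : Set Ω :=
  {ω | ∃ c : List (ℤ × ℤ), c.length = l ∧ IsCh c x y ∧ c.Nodup ∧ (∀ o ∈ c, o ∉ S) ∧
    ω ∈ Ψ (S ∪ c.toFinset)}

theorem geom_half : ∑' s : ℕ, (2⁻¹ : ℝ≥0∞) ^ s = 2 := by
  rw [ENNReal.tsum_geometric, ENNReal.one_sub_inv_two, inv_inv]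

theorem chain_bound {Ψ : Finset (ℤ × ℤ) → Set Ω} {p B : ℝ≥0∞}
    (hΨ : ∀ S, P (Ψ S) ≤ p ^ S.card * B) (l : ℕ) :
    ∀ (x y : ℤ) (S : Finset (ℤ × ℤ)),
      P (ChEv Ψ l x y S) ≤ p ^ S.card * B * (32 * p) ^ l * (2 : ℝ≥0∞) ^ (-y) := by
  induction l with
  | zero =>
    intro x y S
    by_cases hy : y ≤ 0
    · have h1 : ChEv Ψ 0 x y S ⊆ Ψ S := by
        rintro ω ⟨c, hc, -, -, -, h⟩
        rw [List.length_eq_zero_iff] at hc
        subst hc
        simpa using h
      refine (measure_mono h1).trans ((hΨ S).trans ?_)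
      rw [pow_zero, mul_one]
      have h2 : (1 : ℝ≥0∞) ≤ 2 ^ (-y) := by
        obtain ⟨m, hm⟩ : ∃ m : ℕ, -y = m := ⟨(-y).toNat, by omega⟩
        rw [hm, zpow_natCast]
        exact one_le_pow₀ (by norm_num)
      exact le_mul_of_one_le_right zero_le h2
    · have h1 : ChEv Ψ 0 x y S = ∅ := by
        rw [Set.eq_empty_iff_forall_notMem]
        rintro ω ⟨c, hc, h, -⟩
        rw [List.length_eq_zero_iff] at hc
        subst hc
        exact hy h
      rw [h1]
      simp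
  | succ l ih =>
    intro x y S
    have h1 : ChEv Ψ (l + 1) x y S ⊆ ⋃ (t : Bool × ℕ × ℕ),
        {ω | ((x + (if t.1 then (t.2.1 : ℤ) else -t.2.1), y + t.2.1 + t.2.2) : ℤ × ℤ) ∉ S ∧
          ω ∈ ChEv Ψ l (x + (if t.1 then (t.2.1 : ℤ) else -t.2.1)) (y + t.2.1 + t.2.2 - 2)
            (insert (x + (if t.1 then (t.2.1 : ℤ) else -t.2.1), y + t.2.1 + t.2.2) S)} := by
      rintro ω ⟨c, hc, hch, hnd, hS, hω⟩
      cases c with
      | nil => simp at hc
      | cons o c =>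
        rw [Set.mem_iUnion]
        obtain ⟨b, a, ha, ha'⟩ : ∃ (b : Bool) (a : ℕ),
            x + (if b then (a : ℤ) else -a) = o.1 ∧ |x - o.1| = a := by
          rcases le_total x o.1 with h | h
          · refine ⟨true, (o.1 - x).toNat, ?_, ?_⟩
            · simp only [if_true]; omega
            · rw [abs_sub_comm, abs_of_nonneg (by omega)]; omega
          · refine ⟨false, (x - o.1).toNat, ?_, ?_⟩
            · simp only [Bool.false_eq_true, if_false]; omega
            · rw [abs_of_nonneg (by omega)]; omega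
        obtain ⟨s, hs⟩ : ∃ s : ℕ, y + a + s = o.2 := by
          have h2 := hch.1
          rw [ha'] at h2
          exact ⟨(o.2 - (y + a)).toNat, by omega⟩
        refine ⟨(b, a, s), ?_⟩
        simp only [Set.mem_ofPred_eq]
        rw [ha, hs]
        refine ⟨hS o (by simp), c, by simpa using hc, hch.2, (List.nodup_cons.1 hnd).2, ?_, ?_⟩
        · intro o' ho'
          rw [Finset.mem_insert, not_or]
          refine ⟨?_, hS o' (by simp [ho'])⟩
          rintro rfl
          exact (List.nodup_cons.1 hnd).1 ho'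
        · have h3 : insert o S ∪ c.toFinset = S ∪ (o :: c).toFinset := by
            ext z; simp only [Finset.mem_union, Finset.mem_insert, List.toFinset_cons]
            tauto
          rw [h3]
          exact hω
    refine (measure_mono h1).trans ((measure_iUnion_le _).trans ?_)
    have h2 : ∀ t : Bool × ℕ × ℕ,
        P {ω | ((x + (if t.1 then (t.2.1 : ℤ) else -t.2.1), y + t.2.1 + t.2.2) : ℤ × ℤ) ∉ S ∧
          ω ∈ ChEv Ψ l (x + (if t.1 then (t.2.1 : ℤ) else -t.2.1)) (y + t.2.1 + t.2.2 - 2)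
            (insert (x + (if t.1 then (t.2.1 : ℤ) else -t.2.1), y + t.2.1 + t.2.2) S)} ≤
        (p ^ S.card * B * (32 * p) ^ l * (2 : ℝ≥0∞) ^ (-y) * p * 4) *
          (2⁻¹ ^ t.2.1 * 2⁻¹ ^ t.2.2) := by
      intro t
      by_cases ht : ((x + (if t.1 then (t.2.1 : ℤ) else -t.2.1), y + t.2.1 + t.2.2) : ℤ × ℤ) ∉ S
      · refine (measure_mono (fun ω hω => hω.2)).trans ((ih _ _ _).trans (le_of_eq ?_))
        rw [Finset.card_insert_of_notMem ht, pow_succ]
        have h3 : (2 : ℝ≥0∞) ^ (-(y + (t.2.1 : ℤ) + (t.2.2 : ℤ) - 2)) =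
            2 ^ (-y) * 4 * (2⁻¹ ^ t.2.1 * 2⁻¹ ^ t.2.2) := by
          have e1 : -(y + (t.2.1 : ℤ) + (t.2.2 : ℤ) - 2) =
            -y + 2 + (-(t.2.1 : ℤ) + -(t.2.2 : ℤ)) := by ring
          rw [e1, ENNReal.zpow_add (by norm_num) (by norm_num),
            ENNReal.zpow_add (by norm_num) (by norm_num),
            ENNReal.zpow_add (by norm_num) (by norm_num)]
          have e2 : (2 : ℝ≥0∞) ^ (2 : ℤ) = 4 := by
            rw [show (2 : ℤ) = ((2 : ℕ) : ℤ) by rfl, zpow_natCast]; norm_num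
          have e3 : ∀ a : ℕ, (2 : ℝ≥0∞) ^ (-(a : ℤ)) = 2⁻¹ ^ a := by
            intro a
            rw [ENNReal.zpow_neg, zpow_natCast, ENNReal.inv_pow]
          rw [e2, e3, e3]
        rw [h3]
        ring
      · have h4 : {ω | ((x + (if t.1 then (t.2.1 : ℤ) else -t.2.1),
            y + t.2.1 + t.2.2) : ℤ × ℤ) ∉ S ∧
          ω ∈ ChEv Ψ l (x + (if t.1 then (t.2.1 : ℤ) else -t.2.1)) (y + t.2.1 + t.2.2 - 2)
            (insert (x + (if t.1 then (t.2.1 : ℤ) else -t.2.1), y + t.2.1 + t.2.2) S)} = ∅ := by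
          rw [Set.eq_empty_iff_forall_notMem]
          rintro ω hω
          exact ht hω.1
        rw [h4]
        simp
    refine (ENNReal.tsum_le_tsum h2).trans (le_of_eq ?_)
    rw [ENNReal.tsum_mul_left, ENNReal.tsum_prod', tsum_bool, ENNReal.tsum_prod']
    simp only [ENNReal.tsum_mul_left, geom_half, ENNReal.tsum_mul_right]
    rw [pow_succ]
    ring

theorem half_pow_sum (a : ℝ≥0∞) (k : ℕ) : ∑' l : ℕ, a * 2⁻¹ ^ (k + l) = a * (2⁻¹ ^ k * 2) := by
  simp_rw [pow_add]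
  rw [ENNReal.tsum_mul_left, ENNReal.tsum_mul_left, geom_half]

theorem two_mul_half_pow (k : ℕ) : (2⁻¹ : ℝ≥0∞) ^ (k + 1) * 2 = 2⁻¹ ^ k := by
  rw [pow_succ, mul_assoc, ENNReal.inv_mul_cancel (by norm_num) (by norm_num), mul_one]

theorem chain_bound_one {Ψ : Finset (ℤ × ℤ) → Set Ω} {p B : ℝ≥0∞} (hp : 32 * p ≤ 2⁻¹)
    (hΨ : ∀ S, P (Ψ S) ≤ p ^ S.card * B) (l : ℕ) (x : ℤ) (S : Finset (ℤ × ℤ)) :
    P (ChEv Ψ l x 1 S) ≤ p ^ S.card * B * 2⁻¹ ^ (l + 1) := by
  refine (chain_bound hΨ l x 1 S).trans ?_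
  have h1 : (2 : ℝ≥0∞) ^ (-1 : ℤ) = 2⁻¹ := by
    rw [ENNReal.zpow_neg]; simp
  rw [h1, mul_assoc, pow_succ]
  gcongr

/-- Long chains. -/
theorem long_bound {Ψ : Finset (ℤ × ℤ) → Set Ω} {p B : ℝ≥0∞} (hp : 32 * p ≤ 2⁻¹)
    (hΨ : ∀ S, P (Ψ S) ≤ p ^ S.card * B) (k : ℕ) (x : ℤ) (S : Finset (ℤ × ℤ)) :
    P {ω | ∃ l, k ≤ l ∧ ω ∈ ChEv Ψ l x 1 S} ≤ p ^ S.card * B * 2⁻¹ ^ k := by
  have h1 : {ω | ∃ l, k ≤ l ∧ ω ∈ ChEv Ψ l x 1 S} ⊆ ⋃ l : ℕ, ChEv Ψ (k + l) x 1 S := by
    rintro ω ⟨l, hl, h⟩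
    rw [Set.mem_iUnion]
    exact ⟨l - k, by rwa [Nat.add_sub_cancel' hl]⟩
  refine (measure_mono h1).trans ((measure_iUnion_le _).trans ?_)
  refine (ENNReal.tsum_le_tsum fun l => chain_bound_one hp hΨ (k + l) x S).trans ?_
  have h2 : ∀ l : ℕ, p ^ S.card * B * 2⁻¹ ^ (k + l + 1) =
      p ^ S.card * B * 2⁻¹ ^ (k + 1 + l) := by
    intro l
    rw [show k + l + 1 = k + 1 + l by ring]
  simp_rw [h2]
  rw [half_pow_sum, two_mul_half_pow]

/-- Short chains in consecutive windows. -/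
def WinEv (Ψ : Finset (ℤ × ℤ) → Set Ω) (k : ℕ) : List ℤ → Finset (ℤ × ℤ) → Set Ω
  | [] => Ψ
  | x :: xs => fun S => {ω | ∃ l, 1 ≤ l ∧ l ≤ k ∧ ω ∈ ChEv (WinEv Ψ k xs) l x 1 S}

theorem win_bound {Ψ : Finset (ℤ × ℤ) → Set Ω} {p B : ℝ≥0∞} (hp : 32 * p ≤ 2⁻¹)
    (hΨ : ∀ S, P (Ψ S) ≤ p ^ S.card * B) (k : ℕ) (xs : List ℤ) :
    ∀ S, P (WinEv Ψ k xs S) ≤ p ^ S.card * (B * 2⁻¹ ^ xs.length) := by
  induction xs with
  | nil => simpa [WinEv] using hΨ
  | cons x xs ih =>
    intro S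
    have h1 : WinEv Ψ k (x :: xs) S ⊆ {ω | ∃ l, 1 ≤ l ∧ ω ∈ ChEv (WinEv Ψ k xs) l x 1 S} := by
      rintro ω ⟨l, hl, -, h⟩
      exact ⟨l, hl, h⟩
    refine (measure_mono h1).trans ((long_bound hp ih 1 x S).trans (le_of_eq ?_))
    rw [List.length_cons, pow_one, pow_succ]
    ring

omit [MeasurableSpace Ω] in
/-- The deterministic inclusion. -/
theorem mem_winEv {Ψ : Finset (ℤ × ℤ) → Set Ω} {k : ℕ} {ω : Ω} {cl : ℤ × ℤ → Prop}
    (hΨ : ∀ S : Finset (ℤ × ℤ), (∀ o ∈ S, cl o) → ω ∈ Ψ S) (xs : List ℤ)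
    (hsep : xs.Pairwise fun a b => 4 * (k : ℤ) ≤ |a - b|)
    (hch : ∀ x ∈ xs, ∃ c : List (ℤ × ℤ), c.length ≤ k ∧ IsCh c x 1 ∧ c.Nodup ∧ ∀ o ∈ c, cl o) :
    ∀ S : Finset (ℤ × ℤ), (∀ o ∈ S, cl o) → (∀ o ∈ S, ∀ x ∈ xs, 2 * (k : ℤ) ≤ |o.1 - x|) →
      ω ∈ WinEv Ψ k xs S := by
  induction xs with
  | nil =>
    intro S hS _
    exact hΨ S hS
  | cons x xs ih =>
    intro S hS hfar
    obtain ⟨c, hc1, hc2, hc3, hc4⟩ := hch x (by simp)
    have hcol := hc2.column
    have hlen := hc2.le_length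
    refine ⟨c.length, by omega, hc1, c, rfl, hc2, hc3, ?_, ?_⟩
    · intro o ho hoS
      have h1 := hfar o hoS x (by simp)
      have h2 := hcol o ho
      omega
    · refine ih (List.pairwise_cons.1 hsep).2 (fun x' hx' => hch x' (by simp [hx'])) _ ?_ ?_
      · intro o ho
        rcases Finset.mem_union.1 ho with h | h
        · exact hS o h
        · exact hc4 o (List.mem_toFinset.1 h)
      · intro o ho x' hx'
        rcases Finset.mem_union.1 ho with h | h
        · exact hfar o h x' (by simp [hx'])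
        · have h1 := hcol o (List.mem_toFinset.1 h)
          have h2 := (List.pairwise_cons.1 hsep).1 x' hx'
          have h3 := abs_sub_le x o.1 x'
          rw [abs_sub_comm x o.1] at h3
          omega

/-- The main first moment bound for one quadrant. -/
theorem blocked_bound {cl : Ω → ℤ × ℤ → Prop} {G : Set Ω} {p B : ℝ≥0∞} (hp : 32 * p ≤ 2⁻¹)
    (hbase : ∀ S : Finset (ℤ × ℤ), P {ω | (∀ o ∈ S, cl ω o) ∧ ω ∈ G} ≤ p ^ S.card * B) (k : ℕ) :
    P {ω | (∀ x : ℤ, 1 ≤ x → x ≤ 4 * (k : ℤ) ^ 2 → Bl (cl ω) x 1) ∧ ω ∈ G} ≤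
      B * ((k + 1) * 2⁻¹ ^ k) := by
  set Ψ : Finset (ℤ × ℤ) → Set Ω := fun S => {ω | (∀ o ∈ S, cl ω o) ∧ ω ∈ G} with hΨd
  have hsub : {ω | (∀ x : ℤ, 1 ≤ x → x ≤ 4 * (k : ℤ) ^ 2 → Bl (cl ω) x 1) ∧ ω ∈ G} ⊆
      (⋃ j ∈ Finset.range k, {ω | ∃ l, k ≤ l ∧ ω ∈ ChEv Ψ l (1 + 4 * (k : ℤ) * j) 1 ∅}) ∪
        WinEv Ψ k ((List.range k).map fun j : ℕ => 1 + 4 * (k : ℤ) * j) ∅ := by
    rintro ω ⟨hb, hG⟩
    have hx : ∀ j < k, Bl (cl ω) (1 + 4 * (k : ℤ) * j) 1 := by
      intro j hj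
      have h1 : (j : ℤ) + 1 ≤ k := by exact_mod_cast hj
      have h0 : (0 : ℤ) ≤ j := by positivity
      refine hb _ (by nlinarith) (by nlinarith)
    have hx' : ∀ j < k, ∃ c : List (ℤ × ℤ), IsCh c (1 + 4 * (k : ℤ) * j) 1 ∧ c.Nodup ∧
        ∀ o ∈ c, cl ω o := by
      intro j hj
      obtain ⟨c, h1, h2⟩ := hx j hj
      obtain ⟨c', h3, h4, h5⟩ := h1.nodup
      exact ⟨c', h3, h4, fun o ho => h2 o (h5 o ho)⟩
    by_cases hlong : ∃ j < k, ∃ c : List (ℤ × ℤ), IsCh c (1 + 4 * (k : ℤ) * j) 1 ∧ c.Nodup ∧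
        (∀ o ∈ c, cl ω o) ∧ k ≤ c.length
    · left
      obtain ⟨j, hj, c, h1, h2, h3, h4⟩ := hlong
      rw [Set.mem_iUnion₂]
      refine ⟨j, Finset.mem_range.2 hj, c.length, h4, c, rfl, h1, h2, by simp, ?_, hG⟩
      intro o ho
      simp only [Finset.empty_union, List.mem_toFinset] at ho
      exact h3 o ho
    · right
      push Not at hlong
      refine mem_winEv (Ψ := Ψ) (cl := cl ω) (fun S hS => ⟨hS, hG⟩) _ ?_ ?_ ∅ (by simp)
        (by simp)
      · rw [List.pairwise_map]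
        refine List.Pairwise.imp ?_ List.pairwise_lt_range
        intro a b hab
        have h1 : (a : ℤ) + 1 ≤ b := by exact_mod_cast hab
        have h2 : (0 : ℤ) ≤ k := by positivity
        rw [abs_sub_comm, abs_of_nonneg (by nlinarith)]
        nlinarith
      · intro x hx0
        rw [List.mem_map] at hx0
        obtain ⟨j, hj, rfl⟩ := hx0
        obtain ⟨c, h1, h2, h3⟩ := hx' j (List.mem_range.1 hj)
        exact ⟨c, (hlong j (List.mem_range.1 hj) c h1 h2 h3).le, h1, h2, h3⟩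
  refine (measure_mono hsub).trans ((measure_union_le _ _).trans ?_)
  have h1 : P (⋃ j ∈ Finset.range k, {ω | ∃ l, k ≤ l ∧ ω ∈ ChEv Ψ l (1 + 4 * (k : ℤ) * j) 1 ∅}) ≤
      k * (B * 2⁻¹ ^ k) := by
    refine (measure_biUnion_finset_le _ _).trans ?_
    refine (Finset.sum_le_sum fun j _ => long_bound hp hbase k _ ∅).trans (le_of_eq ?_)
    simp
  have h2 := win_bound hp hbase k ((List.range k).map fun j : ℕ => 1 + 4 * (k : ℤ) * j) ∅
  rw [Finset.card_empty, pow_zero, one_mul, List.length_map, List.length_range] at h2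
  refine (add_le_add h1 h2).trans (le_of_eq ?_)
  ring

end Moment

/-! ### Independence input -/

section Indep

variable {Ω : Type*} [MeasurableSpace Ω] {P : Measure Ω} {d : ℕ}
  {X : (Fin d → ℤ) → Ω → ℝ}

theorem prob_lt_eq (hiid : IsIID P d X) (v : Fin d → ℤ) (a : ℝ) :
    P {ω | X v ω < a} = P {ω | X 0 ω < a} := by
  have h := (hiid.2.2 v).measure_mem_eq (s := Set.Iio a) measurableSet_Iio
  exact h

/-- Closed sites of a quadrant. -/
def Cl (X : (Fin d → ℤ) → Ω → ℝ) (i j : Fin d) (s : ℤ) (K : ℝ) (ω : Ω) (o : ℤ × ℤ) : Prop :=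
  1 ≤ o.1 ∧ 1 ≤ o.2 ∧ X (emb i j s o) ω < -K

theorem base_bound (hiid : IsIID P d X) {i j : Fin d} (hij : i ≠ j) {s : ℤ} (hs : |s| = 1)
    (K u : ℝ) (Q : Finset (Fin d → ℤ)) (hQ : ∀ v ∈ Q, ∀ o : ℤ × ℤ, 1 ≤ o.1 → 1 ≤ o.2 →
      emb i j s o ≠ v) (S : Finset (ℤ × ℤ)) :
    P {ω | (∀ o ∈ S, Cl X i j s K ω o) ∧ ω ∈ {ω | ∀ v ∈ Q, X v ω < -u}} ≤
      (P {ω | X 0 ω < -K}) ^ S.card * (P {ω | X 0 ω < -u}) ^ Q.card := by
  classical
  by_cases hS : ∀ o ∈ S, 1 ≤ o.1 ∧ 1 ≤ o.2
  · set T : Finset (Fin d → ℤ) := S.image (emb i j s) with hT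
    have hdisj : Disjoint T Q := by
      rw [Finset.disjoint_left]
      intro v hv hv'
      obtain ⟨o, ho, rfl⟩ := Finset.mem_image.1 hv
      exact hQ _ hv' o (hS o ho).1 (hS o ho).2 rfl
    have hcard : T.card = S.card := Finset.card_image_of_injective _ (emb_injective hij hs)
    set sets : (Fin d → ℤ) → Set ℝ := fun v => if v ∈ T then Set.Iio (-K) else Set.Iio (-u)
      with hsets
    have h1 := hiid.2.1.measure_inter_preimage_eq_mul (T ∪ Q) (sets := sets) (by
      intro v _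
      simp only [hsets]
      split_ifs <;> exact measurableSet_Iio)
    have h2 : {ω | (∀ o ∈ S, Cl X i j s K ω o) ∧ ω ∈ {ω | ∀ v ∈ Q, X v ω < -u}} ⊆
        ⋂ v ∈ T ∪ Q, X v ⁻¹' sets v := by
      rintro ω ⟨h3, h4⟩
      rw [Set.mem_iInter₂]
      intro v hv
      by_cases hvT : v ∈ T
      · simp only [hsets, if_pos hvT]
        obtain ⟨o, ho, rfl⟩ := Finset.mem_image.1 hvT
        exact (h3 o ho).2.2
      · simp only [hsets, if_neg hvT]
        exact h4 v ((Finset.mem_union.1 hv).resolve_left hvT)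
    refine (measure_mono h2).trans (le_of_eq ?_)
    rw [h1, Finset.prod_union hdisj]
    have h5 : ∏ v ∈ T, P (X v ⁻¹' sets v) = (P {ω | X 0 ω < -K}) ^ S.card := by
      rw [← hcard]
      refine Finset.prod_eq_pow_card fun v hv => ?_
      simp only [hsets, if_pos hv]
      exact prob_lt_eq hiid v _
    have h6 : ∏ v ∈ Q, P (X v ⁻¹' sets v) = (P {ω | X 0 ω < -u}) ^ Q.card := by
      refine Finset.prod_eq_pow_card fun v hv => ?_
      have : v ∉ T := fun h => (Finset.disjoint_left.1 hdisj) h hv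
      simp only [hsets, if_neg this]
      exact prob_lt_eq hiid v _
    rw [h5, h6]
  · have h1 : {ω | (∀ o ∈ S, Cl X i j s K ω o) ∧ ω ∈ {ω | ∀ v ∈ Q, X v ω < -u}} = ∅ := by
      rw [Set.eq_empty_iff_forall_notMem]
      rintro ω ⟨h3, -⟩
      exact hS fun o ho => ⟨(h3 o ho).1, (h3 o ho).2.1⟩
    rw [h1]
    simp

end Indep

/-! ### Assembly -/

theorem lintegral_scale (f : ℝ → ℝ≥0∞) (hf : Measurable f) {c : ℝ} (hc : 0 < c) :
    ∫⁻ t in Set.Ioi (0 : ℝ), f (t / c) = ENNReal.ofReal c * ∫⁻ t in Set.Ioi (0 : ℝ), f t := by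
  have h1 : ∫⁻ t in Set.Ioi (0 : ℝ), f (t / c) =
      ∫⁻ t, (Set.Ioi (0 : ℝ)).indicator f (c⁻¹ * t) := by
    rw [← lintegral_indicator measurableSet_Ioi]
    refine lintegral_congr fun t => ?_
    by_cases ht : 0 < t
    · rw [Set.indicator_of_mem (show t ∈ Set.Ioi (0 : ℝ) from ht),
        Set.indicator_of_mem (show c⁻¹ * t ∈ Set.Ioi (0 : ℝ) from mul_pos (inv_pos.2 hc) ht)]
      congr 1
      rw [div_eq_inv_mul]
    · rw [Set.indicator_of_notMem (show t ∉ Set.Ioi (0 : ℝ) from ht),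
        Set.indicator_of_notMem]
      intro h
      exact ht ((mul_pos_iff_of_pos_left (inv_pos.2 hc)).1 h)
  rw [h1, ← lintegral_map (hf.indicator measurableSet_Ioi) (measurable_const_mul c⁻¹),
    Real.map_volume_mul_left (inv_ne_zero hc.ne'), inv_inv, lintegral_smul_measure,
    lintegral_indicator measurableSet_Ioi, abs_of_pos hc, smul_eq_mul]

theorem exists_small {Ω : Type*} [MeasurableSpace Ω] {P : Measure Ω} [IsProbabilityMeasure P]
    {Y : Ω → ℝ} (hY : Measurable Y) : ∃ K : ℝ, 0 ≤ K ∧ 32 * P {ω | Y ω < -K} ≤ 2⁻¹ := by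
  have hpr : IsProbabilityMeasure (P.map Y) := Measure.isProbabilityMeasure_map hY.aemeasurable
  have h1 := tendsto_cdf_atBot (P.map Y)
  have h2 : ∀ᶠ x in atBot, cdf (P.map Y) x < 1 / 64 := h1.eventually_lt_const (by norm_num)
  obtain ⟨x, hx, hx0⟩ := (h2.and (eventually_le_atBot 0)).exists
  refine ⟨-x, by linarith, ?_⟩
  have h3 : P {ω | Y ω < - -x} ≤ ENNReal.ofReal (1 / 64) := by
    have h4 : P {ω | Y ω < - -x} ≤ (P.map Y) (Set.Iic x) := by
      rw [Measure.map_apply hY measurableSet_Iic]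
      refine measure_mono fun ω hω => ?_
      have : Y ω < - -x := hω
      show Y ω ≤ x
      linarith
    refine h4.trans ?_
    rw [← ENNReal.ofReal_toReal (measure_ne_top (P.map Y) (Set.Iic x))]
    refine ENNReal.ofReal_le_ofReal ?_
    rw [cdf_eq_real] at hx
    exact hx.le
  calc 32 * P {ω | Y ω < - -x} ≤ 32 * ENNReal.ofReal (1 / 64) := by gcongr
    _ = 2⁻¹ := by
      rw [show (32 : ℝ≥0∞) = ENNReal.ofReal 32 by simp, ← ENNReal.ofReal_mul (by norm_num),
        show (2⁻¹ : ℝ≥0∞) = ENNReal.ofReal (1/2) by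
          rw [one_div, ENNReal.ofReal_inv_of_pos (by norm_num)]; simp]
      norm_num

section Main

variable {Ω : Type*} [MeasurableSpace Ω] {P : Measure Ω} {d : ℕ}
  {X : (Fin d → ℤ) → Ω → ℝ}

/-- Signs. -/
def sgn (b : Bool) : ℤ := if b then 1 else -1

theorem abs_sgn (b : Bool) : |sgn b| = 1 := by cases b <;> simp [sgn]

/-- Axis sites. -/
def ray (j : Fin d → Fin d) (q : Fin d × Bool) (r : ℕ) : Fin d → ℤ :=
  emb q.1 (j q.1) (sgn q.2) ((r : ℤ) + 1, 0)

theorem ray_apply (j : Fin d → Fin d) (q : Fin d × Bool) (r : ℕ) (m : Fin d) :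
    ray j q r m = if m = q.1 then sgn q.2 * ((r : ℤ) + 1) else 0 := by
  unfold ray emb
  split_ifs <;> rfl

theorem ray_inj {j : Fin d → Fin d} {q q' : Fin d × Bool} {r r' : ℕ}
    (h : ray j q r = ray j q' r') : q = q' := by
  have h1 := congrFun h q.1
  rw [ray_apply, ray_apply, if_pos rfl] at h1
  obtain ⟨a, b⟩ := q
  obtain ⟨a', b'⟩ := q'
  simp only at h1
  split_ifs at h1 with h2
  · subst h2
    cases b <;> cases b' <;> simp [sgn] at h1 ⊢ <;> omega
  · cases b <;> simp [sgn] at h1 <;> omega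

theorem emb_ne_ray {j : Fin d → Fin d} {i i' : Fin d} (hij : i ≠ i') (b : Bool)
    (q : Fin d × Bool) (r : ℕ) (o : ℤ × ℤ) (h1 : 1 ≤ o.1) (h2 : 1 ≤ o.2) :
    emb i i' (sgn b) o ≠ ray j q r := by
  intro h
  have h3 := congrFun h i
  have h4 := congrFun h i'
  rw [ray_apply] at h3 h4
  unfold emb at h3 h4
  rw [if_pos rfl] at h3
  rw [if_neg hij.symm, if_pos rfl] at h4
  have h5 : i = q.1 := by
    by_contra hne
    rw [if_neg hne] at h3
    cases b <;> simp [sgn] at h3 <;> omega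
  have h6 : i' = q.1 := by
    by_contra hne
    rw [if_neg hne] at h4
    omega
  exact hij (h5.trans h6.symm)

/-- The total negative weight of the beginning of an axis. -/
def raySum (X : (Fin d → ℤ) → Ω → ℝ) (j : Fin d → Fin d) (ρ : ℕ) (q : Fin d × Bool) (ω : Ω) : ℝ :=
  ∑ r ∈ Finset.range ρ, max (-X (ray j q r) ω) 0

omit [MeasurableSpace Ω] in
theorem raySum_nonneg (j : Fin d → Fin d) (ρ : ℕ) (q : Fin d × Bool) (ω : Ω) :
    0 ≤ raySum X j ρ q ω := Finset.sum_nonneg fun _ _ => le_max_right _ _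

/-- The blocked event in the quadrant attached to `q`. -/
def Blk (X : (Fin d → ℤ) → Ω → ℝ) (j : Fin d → Fin d) (K : ℝ) (k : ℕ) (q : Fin d × Bool) :
    Set Ω :=
  {ω | ∀ x : ℤ, 1 ≤ x → x ≤ 4 * (k : ℤ) ^ 2 → Bl (Cl X q.1 (j q.1) (sgn q.2) K ω) x 1}

theorem measurableSet_Blk (hX : ∀ v, Measurable (X v)) (j : Fin d → Fin d) (K : ℝ) (k : ℕ)
    (q : Fin d × Bool) : MeasurableSet (Blk X j K k q) := by
  have h : ∀ x : ℤ, Measurable fun ω => Bl (Cl X q.1 (j q.1) (sgn q.2) K ω) x 1 := by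
    intro x
    unfold Bl Cl
    refine Measurable.exists fun c => Measurable.and measurable_const
      (Measurable.forall fun o => Measurable.imp measurable_const ?_)
    refine Measurable.and measurable_const (Measurable.and measurable_const ?_)
    exact measurableSet_setOfPred.1 (measurableSet_lt (hX _) measurable_const)
  exact measurableSet_setOfPred.2 (Measurable.forall fun x =>
    Measurable.imp measurable_const (Measurable.imp measurable_const (h x)))

/-- The bound for the blocked event intersected with an event on the axes. -/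
theorem Blk_bound (hiid : IsIID P d X) {j : Fin d → Fin d} (hj : ∀ i, i ≠ j i) {K : ℝ}
    (hK : 32 * P {ω | X 0 ω < -K} ≤ 2⁻¹) (k : ℕ) (q : Fin d × Bool) (u : ℝ)
    (Q : Finset (Fin d → ℤ)) (hQ : ∀ v ∈ Q, ∃ q' r, v = ray j q' r) :
    P (Blk X j K k q ∩ {ω | ∀ v ∈ Q, X v ω < -u}) ≤
      (P {ω | X 0 ω < -u}) ^ Q.card * ((k + 1) * 2⁻¹ ^ k) := by
  refine blocked_bound (cl := fun ω => Cl X q.1 (j q.1) (sgn q.2) K ω)
    (G := {ω | ∀ v ∈ Q, X v ω < -u}) hK (fun S => ?_) k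
  refine base_bound hiid (hj q.1) (abs_sgn q.2) K u Q ?_ S
  intro v hv o h1 h2
  obtain ⟨q', r, rfl⟩ := hQ v hv
  exact emb_ne_ray (hj q.1) q.2 q' r o h1 h2

/-- The bound with large sums on all axes. -/
theorem Blk_raySum_bound (hiid : IsIID P d X) {j : Fin d → Fin d} (hj : ∀ i, i ≠ j i) {K : ℝ}
    (hK : 32 * P {ω | X 0 ω < -K} ≤ 2⁻¹) (k ρ : ℕ) (hρ : 0 < ρ) (q : Fin d × Bool) {t : ℝ}
    (ht : 0 < t) :
    P (Blk X j K k q ∩ {ω | ∀ q', t < raySum X j ρ q' ω}) ≤
      (ρ : ℝ≥0∞) ^ (2 * d) * ((P {ω | X 0 ω < -(t / ρ)}) ^ (2 * d) * ((k + 1) * 2⁻¹ ^ k)) := by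
  have hsub : Blk X j K k q ∩ {ω | ∀ q', t < raySum X j ρ q' ω} ⊆
      ⋃ r : Fin d × Bool → Fin ρ, (Blk X j K k q ∩
        {ω | ∀ v ∈ Finset.univ.image (fun q' => ray j q' (r q')), X v ω < -(t / ρ)}) := by
    rintro ω ⟨h1, h2⟩
    have h3 : ∀ q', ∃ r : Fin ρ, X (ray j q' r) ω < -(t / ρ) := by
      intro q'
      by_contra hcon
      push Not at hcon
      have h4 : raySum X j ρ q' ω ≤ t := by
        calc raySum X j ρ q' ω ≤ ∑ r ∈ Finset.range ρ, t / ρ := by
              refine Finset.sum_le_sum fun r hr => ?_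
              have := hcon ⟨r, Finset.mem_range.1 hr⟩
              refine max_le ?_ (by positivity)
              simp only at this
              linarith
          _ = t := by
              rw [Finset.sum_const, Finset.card_range, nsmul_eq_mul]
              field_simp
      exact absurd (h2 q') (not_lt.2 h4)
    choose r hr using h3
    rw [Set.mem_iUnion]
    refine ⟨r, h1, ?_⟩
    intro v hv
    obtain ⟨q', -, rfl⟩ := Finset.mem_image.1 hv
    exact hr q'
  refine (measure_mono hsub).trans ((measure_iUnion_fintype_le _ _).trans ?_)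
  have hcard : ∀ r : Fin d × Bool → Fin ρ,
      (Finset.univ.image (fun q' => ray j q' (r q'))).card = 2 * d := by
    intro r
    rw [Finset.card_image_of_injective]
    · simp [mul_comm]
    · intro a b hab
      exact ray_inj hab
  have h5 : ∀ r : Fin d × Bool → Fin ρ, P (Blk X j K k q ∩
        {ω | ∀ v ∈ Finset.univ.image (fun q' => ray j q' (r q')), X v ω < -(t / ρ)}) ≤
        (P {ω | X 0 ω < -(t / ρ)}) ^ (2 * d) * ((k + 1) * 2⁻¹ ^ k) := by
    intro r
    rw [← hcard r]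
    refine Blk_bound hiid hj hK k q (t / ρ) _ ?_
    intro v hv
    obtain ⟨q', -, rfl⟩ := Finset.mem_image.1 hv
    exact ⟨q', r q', rfl⟩
  refine (Finset.sum_le_sum fun r _ => h5 r).trans (le_of_eq ?_)
  rw [Finset.sum_const, Finset.card_univ, nsmul_eq_mul]
  simp [mul_comm]

theorem measurable_raySum (hX : ∀ v, Measurable (X v)) (j : Fin d → Fin d) (ρ : ℕ)
    (q : Fin d × Bool) : Measurable (raySum X j ρ q) := by
  unfold raySum
  exact Finset.measurable_sum _ fun r _ => (hX _).neg.max measurable_const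

/-- The smallest axis sum. -/
noncomputable def minSum [Nonempty (Fin d × Bool)] (X : (Fin d → ℤ) → Ω → ℝ) (j : Fin d → Fin d)
    (ρ : ℕ) : Ω → ℝ :=
  Finset.univ.inf' Finset.univ_nonempty (fun q => raySum X j ρ q)

theorem measurable_minSum [Nonempty (Fin d × Bool)] (hX : ∀ v, Measurable (X v))
    (j : Fin d → Fin d) (ρ : ℕ) : Measurable (minSum X j ρ) := by
  unfold minSum
  exact Finset.inf'_induction Finset.univ_nonempty _ (fun _ hf _ hg => hf.inf hg)
    fun q _ => measurable_raySum hX j ρ q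

theorem minSum_integral [Nonempty (Fin d × Bool)] [IsProbabilityMeasure P] (hiid : IsIID P d X)
    {j : Fin d → Fin d} (hj : ∀ i, i ≠ j i) {K : ℝ}
    (hK : 32 * P {ω | X 0 ω < -K} ≤ 2⁻¹) (k ρ : ℕ) (hρ : 0 < ρ) :
    ∫⁻ ω in ⋃ q, Blk X j K k q, ENNReal.ofReal (minSum X j ρ ω) ∂P ≤
      (2 * d) * ((ρ : ℝ≥0∞) ^ (2 * d + 1) * ((k + 1) * 2⁻¹ ^ k)) *
        ∫⁻ t in Set.Ioi (0 : ℝ), (P {ω | X 0 ω < -t}) ^ (2 * d) := by
  have hmeas : Measurable (minSum X j ρ) := measurable_minSum hiid.1 j ρ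
  have hmin : ∀ ω t, t < minSum X j ρ ω ↔ ∀ q, t < raySum X j ρ q ω := by
    intro ω t
    unfold minSum
    rw [Finset.inf'_apply, Finset.lt_inf'_iff]
    simp
  have hnn : ∀ ω, 0 ≤ minSum X j ρ ω := by
    intro ω
    unfold minSum
    rw [Finset.inf'_apply]
    exact Finset.le_inf' _ _ fun q _ => raySum_nonneg j ρ q ω
  rw [lintegral_eq_lintegral_meas_lt _ (Filter.Eventually.of_forall hnn) hmeas.aemeasurable]
  have h1 : ∀ t ∈ Set.Ioi (0 : ℝ),
      (P.restrict (⋃ q, Blk X j K k q)) {ω | t < minSum X j ρ ω} ≤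
      (2 * d) * ((ρ : ℝ≥0∞) ^ (2 * d) * ((k + 1) * 2⁻¹ ^ k)) *
        (P {ω | X 0 ω < -(t / ρ)}) ^ (2 * d) := by
    intro t ht
    rw [Measure.restrict_apply (measurableSet_lt measurable_const hmeas)]
    have h2 : {ω | t < minSum X j ρ ω} ∩ ⋃ q, Blk X j K k q ⊆
        ⋃ q, (Blk X j K k q ∩ {ω | ∀ q', t < raySum X j ρ q' ω}) := by
      rintro ω ⟨h3, h4⟩
      obtain ⟨q, hq⟩ := Set.mem_iUnion.1 h4
      exact Set.mem_iUnion.2 ⟨q, hq, (hmin ω t).1 h3⟩
    refine (measure_mono h2).trans ((measure_iUnion_fintype_le _ _).trans ?_)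
    refine (Finset.sum_le_sum fun q _ => Blk_raySum_bound hiid hj hK k ρ hρ q ht).trans
      (le_of_eq ?_)
    rw [Finset.sum_const, Finset.card_univ, nsmul_eq_mul]
    simp only [Fintype.card_prod, Fintype.card_fin, Fintype.card_bool, Nat.cast_mul,
      Nat.cast_ofNat]
    ring
  refine (setLIntegral_mono' measurableSet_Ioi h1).trans ?_
  have hF : Measurable fun t : ℝ => (P {ω | X 0 ω < -t}) ^ (2 * d) := by
    refine Measurable.pow_const ?_ _
    refine Antitone.measurable fun a b hab => measure_mono fun ω hω => ?_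
    have : X 0 ω < -b := hω
    show X 0 ω < -a
    linarith
  have hF' : Measurable fun t : ℝ => (P {ω | X 0 ω < -(t / ρ)}) ^ (2 * d) :=
    hF.comp (measurable_id.div_const _)
  rw [lintegral_const_mul _ hF',
    lintegral_scale (fun t : ℝ => (P {ω | X 0 ω < -t}) ^ (2 * d)) hF
      (by exact_mod_cast hρ : (0 : ℝ) < ρ)]
  refine le_of_eq ?_
  rw [ENNReal.ofReal_natCast, pow_succ]
  ring

theorem summable_bound (d : ℕ) (A : ℝ≥0∞) (hA : A < ⊤) :
    ∑' k : ℕ, ((2 * d : ℝ≥0∞) * ((k + 1) * 2⁻¹ ^ k) + (2 * d) *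
      (((4 * (k + 1) ^ 2 : ℕ) : ℝ≥0∞) ^ (2 * d + 1) * ((k + 1) * 2⁻¹ ^ k)) * A) < ⊤ := by
  have h0 : ∀ k : ℕ, ((2 * d : ℝ≥0∞) * ((k + 1) * 2⁻¹ ^ k) + (2 * d) *
      (((4 * (k + 1) ^ 2 : ℕ) : ℝ≥0∞) ^ (2 * d + 1) * ((k + 1) * 2⁻¹ ^ k)) * A) =
      ENNReal.ofReal ((2 * d) * (4 ^ (2 * d + 1) * A.toReal) *
        (((k : ℝ) + 1) ^ (4 * d + 3) * (1 / 2) ^ k) +
        (2 * d) * (((k : ℝ) + 1) ^ 1 * (1 / 2) ^ k)) := by
    intro k
    have e1 : (2⁻¹ : ℝ≥0∞) = ENNReal.ofReal (1 / 2) := by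
      rw [one_div, ENNReal.ofReal_inv_of_pos (by norm_num)]; simp
    have e2 : ((k : ℝ≥0∞) + 1) = ENNReal.ofReal ((k : ℝ) + 1) := by
      rw [ENNReal.ofReal_add (by positivity) (by norm_num)]; simp
    have e3 : (2 * d : ℝ≥0∞) = ENNReal.ofReal (2 * d) := by
      rw [ENNReal.ofReal_mul (by norm_num)]; simp
    have e4 : ((4 * (k + 1) ^ 2 : ℕ) : ℝ≥0∞) = ENNReal.ofReal (4 * ((k : ℝ) + 1) ^ 2) := by
      rw [← ENNReal.ofReal_natCast]; push_cast; rfl
    rw [e1, e2, e3, e4, ← ENNReal.ofReal_toReal hA.ne]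
    rw [← ENNReal.ofReal_pow (by positivity), ← ENNReal.ofReal_pow (by positivity),
      ← ENNReal.ofReal_mul (by positivity), ← ENNReal.ofReal_mul (by positivity),
      ← ENNReal.ofReal_mul (by positivity), ← ENNReal.ofReal_mul (by positivity),
      ← ENNReal.ofReal_mul (by positivity), ← ENNReal.ofReal_add (by positivity) (by positivity)]
    congr 1
    rw [ENNReal.toReal_ofReal (by positivity), mul_pow (4 : ℝ), ← pow_mul,
      show 2 * (2 * d + 1) = 4 * d + 2 by ring, pow_succ ((k : ℝ) + 1) (4 * d + 2)]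
    ring
  simp_rw [h0]
  have hs : ∀ m : ℕ, Summable fun k : ℕ => ((k : ℝ) + 1) ^ m * (1 / 2 : ℝ) ^ k := by
    intro m
    have h1 : Summable fun k : ℕ => ((k : ℝ)) ^ m * (1 / 2 : ℝ) ^ k :=
      summable_pow_mul_geometric_of_norm_lt_one m (by norm_num)
    have h2 := ((summable_nat_add_iff 1).2 h1).mul_left 2
    refine h2.congr fun k => ?_
    push_cast
    rw [pow_succ (1 / 2 : ℝ) k]
    ring
  have h3 : Summable fun k : ℕ => (2 * d) * (4 ^ (2 * d + 1) * A.toReal) *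
        (((k : ℝ) + 1) ^ (4 * d + 3) * (1 / 2) ^ k) +
        (2 * d) * (((k : ℝ) + 1) ^ 1 * (1 / 2) ^ k) :=
    ((hs (4 * d + 3)).mul_left _).add ((hs 1).mul_left _)
  exact h3.tsum_ofReal_lt_top

end Main

end Fallback

open Fallback in
theorem fallback {Ω : Type*} [MeasurableSpace Ω] (P : Measure Ω) [IsProbabilityMeasure P]
    (d : ℕ) (hd : 2 ≤ d) (X : (Fin d → ℤ) → Ω → ℝ) (hiid : IsIID P d X)
    (hA : AMinus P d (X 0)) :
    ∃ (K : ℝ) (Z : Ω → ℝ≥0∞), 0 ≤ K ∧ Measurable Z ∧ ∫⁻ ω, Z ω ∂P < ⊤ ∧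
      ∀ᵐ ω ∂P, ∀ n : ℕ, ENNReal.ofReal (-(greedy d (fun v => X v ω) n)) ≤
        ENNReal.ofReal (K * n) + Z ω := by
  obtain ⟨K, hK0, hK⟩ := exists_small (P := P) (hiid.1 0)
  have hne : Nonempty (Fin d × Bool) := ⟨(⟨0, by omega⟩, true)⟩
  have hj' : ∀ i : Fin d, ∃ i' : Fin d, i ≠ i' := by
    intro i
    have : Nontrivial (Fin d) := Fin.nontrivial_iff_two_le.2 hd
    obtain ⟨i', hi'⟩ := exists_ne i
    exact ⟨i', hi'.symm⟩
  choose j hj using hj'
  set Z : Ω → ℝ≥0∞ := fun ω => ∑' k : ℕ, (⋃ q, Blk X j K k q).indicator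
    (fun ω => 1 + ENNReal.ofReal (minSum X j (4 * (k + 1) ^ 2) ω)) ω with hZ
  have hmB : ∀ k, MeasurableSet (⋃ q, Blk X j K k q) := fun k =>
    MeasurableSet.iUnion fun q => measurableSet_Blk hiid.1 j K k q
  have hmM : ∀ ρ, Measurable (minSum X j ρ) := fun ρ => measurable_minSum hiid.1 j ρ
  have hmI : ∀ k, Measurable ((⋃ q, Blk X j K k q).indicator
    (fun ω => 1 + ENNReal.ofReal (minSum X j (4 * (k + 1) ^ 2) ω))) := fun k =>
    (measurable_const.add (hmM _).ennreal_ofReal).indicator (hmB k)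
  refine ⟨K, Z, hK0, Measurable.tsum hmI, ?_, Filter.Eventually.of_forall ?_⟩
  · rw [hZ, lintegral_tsum fun k => (hmI k).aemeasurable]
    refine lt_of_le_of_lt (ENNReal.tsum_le_tsum fun k => ?_) (summable_bound d _ hA)
    rw [lintegral_indicator (hmB k), lintegral_add_left measurable_const, setLIntegral_one]
    refine add_le_add ?_ (minSum_integral hiid hj hK k _ (by positivity))
    refine (measure_iUnion_fintype_le _ _).trans ?_
    have h1 : ∀ q, P (Blk X j K k q) ≤ ((k + 1) * 2⁻¹ ^ k) := by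
      intro q
      have h2 := Blk_bound hiid hj hK k q 0 ∅ (by simp)
      simpa using h2
    refine (Finset.sum_le_sum fun q _ => h1 q).trans (le_of_eq ?_)
    rw [Finset.sum_const, Finset.card_univ, nsmul_eq_mul]
    simp only [Fintype.card_prod, Fintype.card_fin, Fintype.card_bool, Nat.cast_mul,
      Nat.cast_ofNat]
    ring
  · intro ω n
    by_cases hall : ∀ k, ω ∈ ⋃ q, Blk X j K k q
    · have h1 : Z ω = ⊤ := by
        rw [eq_top_iff]
        calc (⊤ : ℝ≥0∞) = ∑' k : ℕ, (1 : ℝ≥0∞) :=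
              (ENNReal.tsum_const_eq_top_of_ne_zero one_ne_zero).symm
          _ ≤ Z ω := by
              refine ENNReal.tsum_le_tsum fun k => ?_
              rw [Set.indicator_of_mem (hall k)]
              exact le_self_add
      rw [h1, add_top]
      exact le_top
    · push Not at hall
      classical
      have hspec := Nat.find_spec hall
      set k := Nat.find hall with hk
      have hk0 : k ≠ 0 := by
        intro h0
        rw [h0] at hspec
        refine hspec (Set.mem_iUnion.2 ⟨Classical.arbitrary _, ?_⟩)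
        intro x h1 h2
        norm_num at h2
        omega
      obtain ⟨k', hk'⟩ : ∃ k', k = k' + 1 := ⟨k - 1, by omega⟩
      have hmem : ω ∈ ⋃ q, Blk X j K k' q := by
        have := Nat.find_min hall (m := k') (by omega)
        exact not_not.1 this
      have h1 : ENNReal.ofReal (minSum X j (4 * (k' + 1) ^ 2) ω) ≤ Z ω := by
        calc ENNReal.ofReal (minSum X j (4 * (k' + 1) ^ 2) ω) ≤
              1 + ENNReal.ofReal (minSum X j (4 * (k' + 1) ^ 2) ω) := le_add_self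
          _ = (⋃ q, Blk X j K k' q).indicator
              (fun ω => 1 + ENNReal.ofReal (minSum X j (4 * (k' + 1) ^ 2) ω)) ω := by
              rw [Set.indicator_of_mem hmem]
          _ ≤ Z ω := ENNReal.le_tsum (f := fun k : ℕ => (⋃ q, Blk X j K k q).indicator
              (fun ω => 1 + ENNReal.ofReal (minSum X j (4 * (k + 1) ^ 2) ω)) ω) k'
      obtain ⟨q, -, hq⟩ := Finset.exists_mem_eq_inf' (s := (Finset.univ : Finset (Fin d × Bool)))
        Finset.univ_nonempty (fun q => raySum X j (4 * (k' + 1) ^ 2) q ω)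
      have hq' : minSum X j (4 * (k' + 1) ^ 2) ω = raySum X j (4 * (k' + 1) ^ 2) q ω := by
        unfold minSum
        rw [Finset.inf'_apply]
        exact hq
      have hnB : ω ∉ Blk X j K k q := fun h => hspec (Set.mem_iUnion.2 ⟨q, h⟩)
      have hx : ∃ x : ℤ, 1 ≤ x ∧ x ≤ 4 * (k : ℤ) ^ 2 ∧
          ¬ Bl (Cl X q.1 (j q.1) (sgn q.2) K ω) x 1 := by
        by_contra hcon
        push Not at hcon
        exact hnB hcon
      obtain ⟨x, hx1, hx2, hx3⟩ := hx
      obtain ⟨R, hR⟩ : ∃ R : ℕ, x = R := ⟨x.toNat, by omega⟩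
      subst hR
      obtain ⟨p, hp0, hpi, hp⟩ := exists_stair hx3
      have h2 := greedy_ge (fun v => X v ω) (hj q.1) (abs_sgn q.2) hK0 (R := R) p hp0 hpi
        (by
          intro m
          obtain ⟨h3, h4, h5, h6⟩ := hp m
          refine ⟨?_, h5, h6⟩
          by_contra hcon
          push Not at hcon
          exact h3 ⟨by omega, h5, hcon⟩) n (4 * (k' + 1) ^ 2) (by
          rw [hk'] at hx2
          exact_mod_cast hx2)
      calc ENNReal.ofReal (-(greedy d (fun v => X v ω) n)) ≤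
            ENNReal.ofReal (K * n + raySum X j (4 * (k' + 1) ^ 2) q ω) :=
            ENNReal.ofReal_le_ofReal h2
        _ = ENNReal.ofReal (K * n) + ENNReal.ofReal (raySum X j (4 * (k' + 1) ^ 2) q ω) :=
            ENNReal.ofReal_add (by positivity) (raySum_nonneg _ _ _ _)
        _ ≤ ENNReal.ofReal (K * n) + Z ω := by
            rw [← hq']
            gcongr

end Pool.Agent.Helper82.GP
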