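import Pool.Agent.Helper82.GP.Basic
import Pool.Agent.Helper82.GP.Conc

/-!
Module Limit: for bounded weights the mean of the greedy weight is almost subadditive,
so `E M_n / n` converges, with a rate; concentration of `M_n`.
-/

namespace Pool.Agent.Helper82.GP

open MeasureTheory ProbabilityTheory Filter
open scoped ENNReal Topology
open Pool.Agent.Helper82.Greedy

namespace Limit

/-- `mgf_max` for a family of finite subsets of an arbitrary index type. -/
theorem mgf_family {Ω : Type*} [MeasurableSpace Ω] (P : Measure Ω) [IsProbabilityMeasure P]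
    {V : Type*} [DecidableEq V] (X : V → Ω → ℝ) (hX : ∀ i, Measurable (X i))
    (hind : iIndepFun X P) (lo hi : ℝ) (hlh : lo ≤ hi) (hb : ∀ i ω, lo ≤ X i ω ∧ X i ω ≤ hi)
    {κ : Type*} (S : Finset κ) (hne : S.Nonempty) (A : κ → Finset V) (m : ℕ)
    (hm : ∀ k ∈ S, (A k).card ≤ m) (lam : ℝ) :
    ∫ ω, Real.exp (lam * (S.sup' hne (fun k => ∑ i ∈ A k, X i ω) -
      ∫ ω', S.sup' hne (fun k => ∑ i ∈ A k, X i ω') ∂P)) ∂P ≤
      Real.exp (lam ^ 2 * (hi - lo) ^ 2 * m) := by
  classical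
  set U : Finset V := S.biUnion A with hU
  have hsub : ∀ k ∈ S, ∀ v ∈ A k, v ∈ U := fun k hk v hv => Finset.mem_biUnion.2 ⟨k, hk, hv⟩
  set B : κ → Finset {v // v ∈ U} := fun k => (A k).subtype (fun v => v ∈ U) with hB
  have hBsum : ∀ k ∈ S, ∀ ω, ∑ i ∈ B k, X i.1 ω = ∑ i ∈ A k, X i ω := by
    intro k hk ω
    exact Finset.sum_subtype_of_mem (fun v => X v ω) (fun v hv => hsub k hk v hv)
  have hBcard : ∀ k ∈ S, (B k).card ≤ m := by
    intro k hk
    refine le_trans ?_ (hm k hk)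
    rw [hB]
    simp only [Finset.card_subtype]
    exact Finset.card_filter_le _ _
  have hne' : (S.image B).Nonempty := hne.image B
  have hsup : ∀ ω, (S.image B).sup' hne' (fun A => ∑ i ∈ A, X i.1 ω) =
      S.sup' hne (fun k => ∑ i ∈ A k, X i ω) := by
    intro ω
    rw [Finset.sup'_image]
    exact Finset.sup'_congr hne rfl fun k hk => hBsum k hk ω
  have h := mgf_max P (fun i : {v // v ∈ U} => X i.1) (fun i => hX i.1)
    (hind.precomp Subtype.val_injective) lo hi hlh (fun i ω => hb i.1 ω) (S.image B) hne' m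
    (by
      intro C hC
      obtain ⟨k, hk, rfl⟩ := Finset.mem_image.1 hC
      exact hBcard k hk) lam
  simpa only [hsup] using h

theorem integrable_sup {Ω : Type*} [MeasurableSpace Ω] (P : Measure Ω) [IsProbabilityMeasure P]
    {κ : Type*} (S : Finset κ) (hne : S.Nonempty) (f : κ → Ω → ℝ) (hf : ∀ k, Measurable (f k))
    {B : ℝ} (hB : ∀ k ∈ S, ∀ ω, |f k ω| ≤ B) :
    Measurable (fun ω => S.sup' hne (fun k => f k ω)) ∧
    (∀ ω, |S.sup' hne (fun k => f k ω)| ≤ B) := by
  have e : (fun ω => S.sup' hne (fun k => f k ω)) = S.sup' hne f := by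
    funext ω
    rw [Finset.sup'_apply]
  constructor
  · rw [e]
    exact Finset.measurable_sup' _ fun k _ => hf k
  · intro ω
    obtain ⟨k, hk, h⟩ := Finset.exists_mem_eq_sup' hne (fun k => f k ω)
    rw [h]
    exact hB k hk ω

theorem integrable_exp_of_bound {Ω : Type*} [MeasurableSpace Ω] (P : Measure Ω)
    [IsProbabilityMeasure P] {f : Ω → ℝ} (hf : Measurable f) {B : ℝ} (hB : ∀ ω, |f ω| ≤ B)
    (lam : ℝ) : Integrable (fun ω => Real.exp (lam * f ω)) P := by
  refine Integrable.of_bound (C := Real.exp (|lam| * B))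
    (hf.const_mul lam).exp.aestronglyMeasurable (Eventually.of_forall fun ω => ?_)
  rw [Real.norm_eq_abs, Real.abs_exp]
  apply Real.exp_le_exp.2
  calc lam * f ω ≤ |lam * f ω| := le_abs_self _
    _ = |lam| * |f ω| := abs_mul _ _
    _ ≤ _ := mul_le_mul_of_nonneg_left (hB ω) (abs_nonneg _)

theorem integrable_exp_sub_of_bound {Ω : Type*} [MeasurableSpace Ω] (P : Measure Ω)
    [IsProbabilityMeasure P] {f : Ω → ℝ} (hf : Measurable f) {B : ℝ} (hB : ∀ ω, |f ω| ≤ B)
    (lam c : ℝ) : Integrable (fun ω => Real.exp (lam * (f ω - c))) P := by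
  refine integrable_exp_of_bound P (hf.sub_const c) (B := B + |c|) (fun ω => ?_) lam
  have := abs_sub (f ω) c
  linarith [hB ω]

/-- the greedy weight as a maximum over paths of sums over vertex sets -/
theorem greedy_eq_sup_vset (d : ℕ) (hd : 1 ≤ d) (x : (Fin d → ℤ) → ℝ) (n : ℕ) :
    greedy d x n = (saws d n).sup' (saws_nonempty d n hd) (fun γ => ∑ v ∈ vset γ, x v) := by
  rw [greedy_eq_sup' d hd]
  refine Finset.sup'_congr _ rfl fun γ hγ => ?_
  rw [sum_vset (mem_saws.1 hγ)]

theorem mgf_greedy {Ω : Type*} [MeasurableSpace Ω] (P : Measure Ω) [IsProbabilityMeasure P]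
    (d : ℕ) (hd : 1 ≤ d) (X : (Fin d → ℤ) → Ω → ℝ) (hX : ∀ i, Measurable (X i))
    (hind : iIndepFun X P) (lo hi : ℝ)
    (hlh : lo ≤ hi) (hb : ∀ v ω, lo ≤ X v ω ∧ X v ω ≤ hi) (n : ℕ) (lam : ℝ) :
    ∫ ω, Real.exp (lam * (greedy d (fun v => X v ω) n -
      ∫ ω', greedy d (fun v => X v ω') n ∂P)) ∂P ≤
      Real.exp (lam ^ 2 * (hi - lo) ^ 2 * n) := by
  have h := mgf_family P X hX hind lo hi hlh hb (saws d n) (saws_nonempty d n hd) vset n
    (fun γ hγ => (card_vset (mem_saws.1 hγ)).le) lam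
  simpa only [greedy_eq_sup_vset d hd] using h

theorem abs_greedy_le {d : ℕ} (hd : 1 ≤ d) {x : (Fin d → ℤ) → ℝ} {lo hi : ℝ}
    (hb : ∀ v, lo ≤ x v ∧ x v ≤ hi) (n : ℕ) :
    |greedy d x n| ≤ n * (|lo| + |hi|) := by
  have h1 := const_le_greedy hd (fun v => (hb v).1) n
  have h2 := greedy_le_const hd (fun v => (hb v).2) n
  have h3 := abs_le_max_abs_abs h1 h2
  refine h3.trans (max_le ?_ ?_)
  · rw [abs_mul, Nat.abs_cast]
    exact mul_le_mul_of_nonneg_left (by linarith [abs_nonneg hi]) (Nat.cast_nonneg n)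
  · rw [abs_mul, Nat.abs_cast]
    exact mul_le_mul_of_nonneg_left (by linarith [abs_nonneg lo]) (Nat.cast_nonneg n)

end Limit

open Limit in
theorem bounded_conc {Ω : Type*} [MeasurableSpace Ω] (P : Measure Ω) [IsProbabilityMeasure P]
    (d : ℕ) (hd : 1 ≤ d) (X : (Fin d → ℤ) → Ω → ℝ) (hiid : IsIID P d X) (lo hi : ℝ)
    (hlh : lo < hi) (hb : ∀ v ω, lo ≤ X v ω ∧ X v ω ≤ hi) (n : ℕ) (hn : 1 ≤ n) (t : ℝ)
    (ht : 0 ≤ t) :
    P {ω | t ≤ |greedy d (fun v => X v ω) n - ∫ ω', greedy d (fun v => X v ω') n ∂P|} ≤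
      ENNReal.ofReal (2 * Real.exp (-(t ^ 2) / (4 * n * (hi - lo) ^ 2))) := by
  set F : Ω → ℝ := fun ω => greedy d (fun v => X v ω) n with hF
  set E : ℝ := ∫ ω', F ω' ∂P with hE
  have hFm : Measurable F := measurable_greedy hd hiid.1 n
  have hFb : ∀ ω, |F ω| ≤ n * (|lo| + |hi|) := fun ω => abs_greedy_le hd (fun v => hb v ω) n
  have hnpos : (0 : ℝ) < n := by exact_mod_cast hn
  have hσ : 0 < hi - lo := by linarith
  set lam : ℝ := t / (2 * n * (hi - lo) ^ 2) with hlam
  have hlam0 : 0 ≤ lam := by positivity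
  have hGm : ∀ σ : ℝ, Measurable fun ω => σ * (F ω - E) := fun σ =>
    (hFm.sub_const _).const_mul _
  have hGb : ∀ σ : ℝ, ∀ ω, |σ * (F ω - E)| ≤ |σ| * (n * (|lo| + |hi|) + |E|) := by
    intro σ ω
    rw [abs_mul]
    refine mul_le_mul_of_nonneg_left ?_ (abs_nonneg _)
    have := abs_sub (F ω) E
    linarith [hFb ω]
  have hmgf : ∀ σ : ℝ, ∫ ω, Real.exp (σ * (F ω - E)) ∂P ≤
      Real.exp (σ ^ 2 * (hi - lo) ^ 2 * n) := fun σ =>
    mgf_greedy P d hd X hiid.1 hiid.2.1 lo hi hlh.le hb n σ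
  have hexp : Real.exp (-lam * t) * Real.exp (lam ^ 2 * (hi - lo) ^ 2 * n) =
      Real.exp (-(t ^ 2) / (4 * n * (hi - lo) ^ 2)) := by
    rw [← Real.exp_add]
    congr 1
    rw [hlam]
    field_simp
    ring
  have key : ∀ σ : ℝ, σ ^ 2 = 1 → P.real {ω | t ≤ σ * (F ω - E)} ≤
      Real.exp (-(t ^ 2) / (4 * n * (hi - lo) ^ 2)) := by
    intro σ hσ2
    have hint : Integrable (fun ω => Real.exp (lam * (σ * (F ω - E)))) P :=
      integrable_exp_of_bound P (hGm σ) (hGb σ) lam
    refine (measure_ge_le_exp_mul_mgf t hlam0 hint).trans ?_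
    rw [← hexp]
    refine mul_le_mul_of_nonneg_left ?_ (Real.exp_pos _).le
    have h1 := hmgf (lam * σ)
    rw [mul_pow, hσ2, mul_one] at h1
    rw [mgf]
    simpa only [mul_assoc] using h1
  have hsub : {ω | t ≤ |F ω - E|} ⊆ {ω | t ≤ 1 * (F ω - E)} ∪ {ω | t ≤ (-1) * (F ω - E)} := by
    intro ω hω
    rcases abs_cases (F ω - E) with h | h
    · left
      simp only [Set.mem_ofPred_eq] at hω ⊢
      linarith
    · right
      simp only [Set.mem_ofPred_eq] at hω ⊢
      linarith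
  have h1 : P.real {ω | t ≤ |F ω - E|} ≤
      2 * Real.exp (-(t ^ 2) / (4 * n * (hi - lo) ^ 2)) := by
    refine (measureReal_mono hsub).trans ((measureReal_union_le _ _).trans ?_)
    have := key 1 (by norm_num)
    have := key (-1) (by norm_num)
    linarith
  rw [← ofReal_measureReal]
  exact ENNReal.ofReal_le_ofReal h1

namespace Limit

/-- extension of a path to all times -/
def pt {d N : ℕ} (γ : Fin (N + 1) → (Fin d → ℤ)) (i : ℕ) : Fin d → ℤ :=
  if h : i < N + 1 then γ ⟨i, h⟩ else 0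

theorem pt_lt {d N : ℕ} (γ : Fin (N + 1) → (Fin d → ℤ)) {i : ℕ} (h : i < N + 1) :
    pt γ i = γ ⟨i, h⟩ := by
  simp [pt, h]

theorem pt_zero {d N : ℕ} {γ : Fin (N + 1) → (Fin d → ℤ)} (h : IsSAW d N γ) : pt γ 0 = 0 := by
  rw [pt_lt γ (Nat.succ_pos N)]
  exact h.1

theorem pt_inj {d N : ℕ} {γ : Fin (N + 1) → (Fin d → ℤ)} (h : IsSAW d N γ) {i j : ℕ}
    (hi : i ≤ N) (hj : j ≤ N) (hij : pt γ i = pt γ j) : i = j := by
  rw [pt_lt γ (Nat.lt_succ_of_le hi), pt_lt γ (Nat.lt_succ_of_le hj)] at hij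
  have := h.2.1 hij
  simpa using this

theorem pt_step {d N : ℕ} {γ : Fin (N + 1) → (Fin d → ℤ)} (h : IsSAW d N γ) {i : ℕ}
    (hi : i < N) : ∑ j, |pt γ (i + 1) j - pt γ i j| = 1 := by
  have := h.2.2 ⟨i, hi⟩
  rw [pt_lt γ (show i + 1 < N + 1 by omega), pt_lt γ (show i < N + 1 by omega)]
  exact this

theorem pt_dist {d N : ℕ} {γ : Fin (N + 1) → (Fin d → ℤ)} (h : IsSAW d N γ) (i m : ℕ)
    (him : i + m ≤ N) (j : Fin d) : |pt γ (i + m) j - pt γ i j| ≤ m := by
  induction m with
  | zero => simp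
  | succ m ih =>
    have h1 := ih (by omega)
    have h2 := pt_step h (i := i + m) (by omega)
    have h3 : |pt γ (i + m + 1) j - pt γ (i + m) j| ≤ 1 := by
      rw [← h2]
      exact Finset.single_le_sum (f := fun j => |pt γ (i + m + 1) j - pt γ (i + m) j|)
        (fun j _ => abs_nonneg _) (Finset.mem_univ j)
    have h4 := abs_add_le (pt γ (i + m + 1) j - pt γ (i + m) j) (pt γ (i + m) j - pt γ i j)
    have h5 : pt γ (i + m + 1) j - pt γ (i + m) j + (pt γ (i + m) j - pt γ i j) =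
        pt γ (i + (m + 1)) j - pt γ i j := by
      rw [← add_assoc]
      ring
    rw [h5] at h4
    push_cast
    linarith

theorem sum_pt {d N : ℕ} (γ : Fin (N + 1) → (Fin d → ℤ)) (x : (Fin d → ℤ) → ℝ) :
    ∑ i : Fin N, x (γ i.succ) = ∑ i ∈ Finset.range N, x (pt γ (i + 1)) := by
  rw [Finset.sum_range]
  refine Finset.sum_congr rfl fun i _ => ?_
  rw [pt_lt γ (show (i : ℕ) + 1 < N + 1 by omega)]
  rfl

/-- a piece of a path, started at the origin -/
def piece {d N : ℕ} (γ : Fin (N + 1) → (Fin d → ℤ)) (b n : ℕ) : Fin (n + 1) → (Fin d → ℤ) :=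
  fun j => pt γ (b + j) - pt γ b

theorem piece_saw {d N : ℕ} {γ : Fin (N + 1) → (Fin d → ℤ)} (h : IsSAW d N γ) {b n : ℕ}
    (hb : b + n ≤ N) : IsSAW d n (piece γ b n) := by
  refine ⟨?_, ?_, ?_⟩
  · simp [piece]
  · intro i j hij
    have h1 : pt γ (b + i) = pt γ (b + j) := by
      have := congrArg (fun v => v + pt γ b) hij
      simpa [piece] using this
    have := pt_inj h (by omega) (by omega) h1
    exact Fin.ext (by omega)
  · intro i
    have := pt_step h (i := b + i) (by omega)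
    rw [← this]
    refine Finset.sum_congr rfl fun j _ => ?_
    have e1 : ((i.succ : Fin (n + 1)) : ℕ) = i + 1 := by simp
    have e2 : ((i.castSucc : Fin (n + 1)) : ℕ) = i := by simp
    simp only [piece, Pi.sub_apply, e1, e2, ← add_assoc]
    congr 1
    ring

/-- weight of a piece -/
theorem sum_piece_le {d N : ℕ} {γ : Fin (N + 1) → (Fin d → ℤ)} (h : IsSAW d N γ) {b n : ℕ}
    (hb : b + n ≤ N) (x : (Fin d → ℤ) → ℝ) :
    ∑ i ∈ Finset.range n, x (pt γ (b + i + 1)) ≤ greedy d (fun v => x (v + pt γ b)) n := by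
  have h1 := le_greedy (fun v => x (v + pt γ b)) (piece_saw h hb)
  refine le_trans (le_of_eq ?_) h1
  rw [Finset.sum_range]
  refine Finset.sum_congr rfl fun i _ => ?_
  have e1 : ((i.succ : Fin (n + 1)) : ℕ) = i + 1 := by simp
  simp only [piece, e1, sub_add_cancel, ← add_assoc]

theorem sum_range_mul (f : ℕ → ℝ) (n k : ℕ) :
    ∑ i ∈ Finset.range (k * n), f i =
      ∑ b ∈ Finset.range k, ∑ i ∈ Finset.range n, f (b * n + i) := by
  induction k with
  | zero => simp
  | succ k ih => rw [Nat.succ_mul, Finset.sum_range_add, ih, Finset.sum_range_succ]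

/-- increments of the skeleton -/
def inc {d : ℕ} (k n : ℕ) (γ : Fin (k * n + 1) → (Fin d → ℤ)) : Fin k → (Fin d → ℤ) :=
  fun j => pt γ ((j + 1) * n) - pt γ (j * n)

/-- positions of the skeleton -/
def pos {d k : ℕ} (u : Fin k → (Fin d → ℤ)) (b : ℕ) : Fin d → ℤ :=
  ∑ j : Fin k, if (j : ℕ) < b then u j else 0

theorem pos_inc {d k n : ℕ} {γ : Fin (k * n + 1) → (Fin d → ℤ)} (h : IsSAW d (k * n) γ) {b : ℕ}
    (hb : b ≤ k) : pos (inc k n γ) b = pt γ (b * n) := by
  have h1 : pos (inc k n γ) b = ∑ j ∈ Finset.range k,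
      if j < b then pt γ ((j + 1) * n) - pt γ (j * n) else 0 := by
    rw [Finset.sum_range]
    rfl
  rw [h1, ← Finset.sum_filter]
  have h2 : (Finset.range k).filter (fun j => j < b) = Finset.range b := by
    ext j
    simp only [Finset.mem_filter, Finset.mem_range]
    omega
  rw [h2, Finset.sum_range_sub (fun j => pt γ (j * n)), zero_mul, pt_zero h, sub_zero]

theorem inc_mem {d k n : ℕ} {γ : Fin (k * n + 1) → (Fin d → ℤ)} (h : IsSAW d (k * n) γ) :
    inc k n γ ∈ Fintype.piFinset (fun _ : Fin k =>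
      Finset.Icc (fun _ : Fin d => -(n : ℤ)) (fun _ : Fin d => (n : ℤ))) := by
  rw [Fintype.mem_piFinset]
  intro b
  have hb : (b : ℕ) * n + n ≤ k * n := by
    have : (b : ℕ) + 1 ≤ k := b.2
    calc (b : ℕ) * n + n = (b + 1) * n := by ring
      _ ≤ k * n := Nat.mul_le_mul_right n this
  have h1 : ∀ j, |inc k n γ b j| ≤ n := by
    intro j
    have := pt_dist h (b * n) n hb j
    have e : ((b : ℕ) + 1) * n = b * n + n := by ring
    simpa only [inc, e, Pi.sub_apply] using this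
  rw [Finset.mem_Icc]
  exact ⟨fun j => (abs_le.1 (h1 j)).1, fun j => (abs_le.1 (h1 j)).2⟩

theorem card_box (d k n : ℕ) : (Fintype.piFinset (fun _ : Fin k =>
      Finset.Icc (fun _ : Fin d => -(n : ℤ)) (fun _ : Fin d => (n : ℤ)))).card =
        (2 * n + 1) ^ (d * k) := by
  rw [Fintype.card_piFinset_const, Pi.card_Icc]
  simp only [Int.card_Icc, Finset.prod_const, Finset.card_univ, Fintype.card_fin]
  rw [← pow_mul]
  congr 1
  omega

/-- translation invariance of the mean -/
theorem integral_shift {Ω : Type*} [MeasurableSpace Ω] (P : Measure Ω) [IsProbabilityMeasure P]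
    (d : ℕ) (hd : 1 ≤ d) (X : (Fin d → ℤ) → Ω → ℝ) (hiid : IsIID P d X) (n : ℕ)
    (z : Fin d → ℤ) :
    ∫ ω, greedy d (fun v => X (v + z) ω) n ∂P = ∫ ω, greedy d (fun v => X v ω) n ∂P := by
  have hg : Measurable (fun x : (Fin d → ℤ) → ℝ => greedy d x n) :=
    measurable_greedy (Ω := (Fin d → ℤ) → ℝ) (X := fun v x => x v) hd
      (fun v => measurable_pi_apply v) n
  have hm1 : Measurable (fun ω (v : Fin d → ℤ) => X v ω) := measurable_pi_lambda _ hiid.1
  have hm2 : Measurable (fun ω (v : Fin d → ℤ) => X (v + z) ω) :=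
    measurable_pi_lambda _ fun v => hiid.1 _
  have h1 := (iIndepFun_iff_map_fun_eq_infinitePi_map (P := P) hiid.1).1 hiid.2.1
  have h2 := (iIndepFun_iff_map_fun_eq_infinitePi_map (P := P)
    (X := fun v => X (v + z)) (fun v => hiid.1 _)).1
    (hiid.2.1.precomp (g := fun v => v + z) (add_left_injective z))
  have h3 : ∀ v, P.map (X v) = P.map (X 0) := fun v => (hiid.2.2 v).map_eq
  have h4 : P.map (fun ω (v : Fin d → ℤ) => X (v + z) ω) =
      P.map (fun ω (v : Fin d → ℤ) => X v ω) := by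
    rw [h1, h2]
    simp only [h3]
  rw [← integral_map (φ := fun ω (v : Fin d → ℤ) => X (v + z) ω) hm2.aemeasurable
    (f := fun x : (Fin d → ℤ) → ℝ => greedy d x n) hg.aestronglyMeasurable, h4,
    integral_map hm1.aemeasurable hg.aestronglyMeasurable]


/-- Jensen for the exponential -/
theorem exp_integral_le {Ω : Type*} [MeasurableSpace Ω] (P : Measure Ω) [IsProbabilityMeasure P]
    {f : Ω → ℝ} (hf : Integrable f P) (he : Integrable (fun ω => Real.exp (f ω)) P) :
    Real.exp (∫ ω, f ω ∂P) ≤ ∫ ω, Real.exp (f ω) ∂P := by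
  set E : ℝ := ∫ ω, f ω ∂P with hE
  have h1 : ∀ ω, Real.exp E * (1 + (f ω - E)) ≤ Real.exp (f ω) := by
    intro ω
    have h2 := Real.add_one_le_exp (f ω - E)
    have h3 : Real.exp (f ω) = Real.exp E * Real.exp (f ω - E) := by
      rw [← Real.exp_add]; congr 1; ring
    rw [h3]
    exact mul_le_mul_of_nonneg_left (by linarith) (Real.exp_pos _).le
  have hi1 : Integrable (fun ω => f ω - E) P := hf.sub (integrable_const _)
  have hi2 : Integrable (fun ω => (1 : ℝ) + (f ω - E)) P := (integrable_const _).add hi1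
  have h4 := integral_mono (μ := P) (hi2.const_mul (Real.exp E)) he h1
  refine le_trans (le_of_eq ?_) h4
  rw [integral_const_mul]
  have h5 : ∫ ω, ((1 : ℝ) + (f ω - E)) ∂P = 1 := by
    rw [integral_add (integrable_const _) hi1, integral_sub hf (integrable_const _)]
    simp [hE]
  rw [h5, mul_one]

theorem subadd {Ω : Type*} [MeasurableSpace Ω] (P : Measure Ω) [IsProbabilityMeasure P]
    (d : ℕ) (hd : 1 ≤ d) (X : (Fin d → ℤ) → Ω → ℝ) (hiid : IsIID P d X) (lo hi : ℝ)
    (hlh : lo ≤ hi) (hb : ∀ v ω, lo ≤ X v ω ∧ X v ω ≤ hi) (k n : ℕ) (lam : ℝ)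
    (hlam : 0 ≤ lam) :
    lam * (∫ ω, greedy d (fun v => X v ω) (k * n) ∂P -
        k * ∫ ω, greedy d (fun v => X v ω) n ∂P) ≤
      d * k * Real.log (2 * n + 1) + lam ^ 2 * (hi - lo) ^ 2 * (k * n) := by
  classical
  set a : ℝ := ∫ ω, greedy d (fun v => X v ω) n ∂P with ha
  set 𝒳 : Finset (Fin k → (Fin d → ℤ)) := (saws d (k * n)).image (inc k n) with h𝒳
  set S : (Fin k → (Fin d → ℤ)) → Finset (Fin (k * n + 1) → (Fin d → ℤ)) :=
    fun u => (saws d (k * n)).filter (fun γ => inc k n γ = u) with hS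
  have hSne : ∀ u ∈ 𝒳, (S u).Nonempty := by
    intro u hu
    obtain ⟨γ, hγ, rfl⟩ := Finset.mem_image.1 hu
    exact ⟨γ, Finset.mem_filter.2 ⟨hγ, rfl⟩⟩
  have hSsaw : ∀ u, ∀ γ ∈ S u, IsSAW d (k * n) γ ∧ inc k n γ = u := by
    intro u γ hγ
    have := Finset.mem_filter.1 hγ
    exact ⟨mem_saws.1 this.1, this.2⟩
  set f : {u // u ∈ 𝒳} → Ω → ℝ := fun u ω =>
    (S u.1).sup' (hSne u.1 u.2) (fun γ => ∑ v ∈ vset γ, X v ω) with hf
  -- bounds
  set B : ℝ := ((k * n : ℕ) : ℝ) * (|lo| + |hi|) with hB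
  have hwB : ∀ γ, IsSAW d (k * n) γ → ∀ ω, |∑ v ∈ vset γ, X v ω| ≤ B := by
    intro γ hγ ω
    refine (Finset.abs_sum_le_sum_abs _ _).trans ?_
    calc ∑ i ∈ vset γ, |X i ω| ≤ ∑ _i ∈ vset γ, (|lo| + |hi|) := by
          refine Finset.sum_le_sum fun i _ => ?_
          have h1 := abs_le_max_abs_abs (hb i ω).1 (hb i ω).2
          exact h1.trans (max_le (by linarith [abs_nonneg hi]) (by linarith [abs_nonneg lo]))
      _ = B := by
          rw [Finset.sum_const, card_vset hγ, nsmul_eq_mul]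
  have hfm : ∀ u, Measurable (f u) := fun u =>
    (integrable_sup P (S u.1) (hSne u.1 u.2) (fun γ ω => ∑ v ∈ vset γ, X v ω)
      (fun γ => Finset.measurable_sum _ fun v _ => hiid.1 v)
      (fun γ hγ => hwB γ (hSsaw _ γ hγ).1)).1
  have hfB : ∀ u ω, |f u ω| ≤ B := fun u =>
    (integrable_sup P (S u.1) (hSne u.1 u.2) (fun γ ω => ∑ v ∈ vset γ, X v ω)
      (fun γ => Finset.measurable_sum _ fun v _ => hiid.1 v)
      (fun γ hγ => hwB γ (hSsaw _ γ hγ).1)).2
  have hfi : ∀ u, Integrable (f u) P := fun u =>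
    Integrable.of_bound (hfm u).aestronglyMeasurable B (Eventually.of_forall fun ω => by
      rw [Real.norm_eq_abs]; exact hfB u ω)
  -- the mean of each `f u`
  have hmean : ∀ u, ∫ ω, f u ω ∂P ≤ k * a := by
    intro u
    have h1 : ∀ ω, f u ω ≤ ∑ b ∈ Finset.range k,
        greedy d (fun v => X (v + pos u.1 b) ω) n := by
      intro ω
      refine Finset.sup'_le _ _ fun γ hγ => ?_
      obtain ⟨hs, hu⟩ := hSsaw _ γ hγ
      rw [sum_vset hs (fun v => X v ω), sum_pt γ (fun v => X v ω),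
        sum_range_mul (fun i => X (pt γ (i + 1)) ω) n k]
      refine Finset.sum_le_sum fun b hbk => ?_
      have hbk' := Finset.mem_range.1 hbk
      have h2 : pos u.1 b = pt γ (b * n) := by
        rw [← hu]
        exact pos_inc hs hbk'.le
      rw [h2]
      refine sum_piece_le hs ?_ (fun v => X v ω)
      calc b * n + n = (b + 1) * n := by ring
        _ ≤ k * n := Nat.mul_le_mul_right n hbk'
    have h2 : ∀ b, Integrable (fun ω => greedy d (fun v => X (v + pos u.1 b) ω) n) P :=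
      fun b => integrable_greedy P hd (fun v => hiid.1 _) (fun v ω => hb _ ω) n
    calc ∫ ω, f u ω ∂P ≤ ∫ ω, ∑ b ∈ Finset.range k,
          greedy d (fun v => X (v + pos u.1 b) ω) n ∂P :=
          integral_mono (hfi u) (integrable_finsetSum _ fun b _ => h2 b) h1
      _ = ∑ b ∈ Finset.range k, ∫ ω, greedy d (fun v => X (v + pos u.1 b) ω) n ∂P :=
          integral_finsetSum _ fun b _ => h2 b
      _ = ∑ _b ∈ Finset.range k, a :=
          Finset.sum_congr rfl fun b _ => integral_shift P d hd X hiid n _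
      _ = k * a := by simp
  -- exponential moments
  have hexp : ∀ u, ∫ ω, Real.exp (lam * (f u ω - k * a)) ∂P ≤
      Real.exp (lam ^ 2 * (hi - lo) ^ 2 * ((k * n : ℕ) : ℝ)) := by
    intro u
    have h1 := mgf_family P X hiid.1 hiid.2.1 lo hi hlh hb (S u.1) (hSne u.1 u.2) vset (k * n)
      (fun γ hγ => (card_vset (hSsaw _ γ hγ).1).le) lam
    refine le_trans ?_ h1
    have h2 : ∀ c : ℝ, Integrable (fun ω => Real.exp (lam * (f u ω - c))) P :=
      fun c => integrable_exp_sub_of_bound P (hfm u) (hfB u) lam c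
    refine integral_mono (h2 _) (h2 _) fun ω => ?_
    apply Real.exp_le_exp.2
    refine mul_le_mul_of_nonneg_left ?_ hlam
    have := hmean u
    simp only [hf] at this ⊢
    linarith
  -- the maximum
  have hgreedy : ∀ ω, Real.exp (lam * (greedy d (fun v => X v ω) (k * n) - k * a)) ≤
      ∑ u : {u // u ∈ 𝒳}, Real.exp (lam * (f u ω - k * a)) := by
    intro ω
    obtain ⟨γ, hγ, hw⟩ := exists_greedy d hd (fun v => X v ω) (k * n)
    have hu : inc k n γ ∈ 𝒳 := Finset.mem_image.2 ⟨γ, mem_saws.2 hγ, rfl⟩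
    have h1 : greedy d (fun v => X v ω) (k * n) ≤ f ⟨inc k n γ, hu⟩ ω := by
      rw [hw, ← sum_vset hγ (fun v => X v ω)]
      have hmem : γ ∈ S (inc k n γ) := Finset.mem_filter.2 ⟨mem_saws.2 hγ, rfl⟩
      exact Finset.le_sup' (fun γ => ∑ v ∈ vset γ, X v ω) hmem
    refine le_trans ?_ (Finset.single_le_sum
      (f := fun u : {u // u ∈ 𝒳} => Real.exp (lam * (f u ω - k * a)))
      (fun u _ => (Real.exp_pos _).le) (Finset.mem_univ ⟨inc k n γ, hu⟩))
    apply Real.exp_le_exp.2
    exact mul_le_mul_of_nonneg_left (by linarith) hlam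
  have hMi : Integrable (fun ω => greedy d (fun v => X v ω) (k * n)) P :=
    integrable_greedy P hd hiid.1 hb (k * n)
  have hMm : Measurable (fun ω => greedy d (fun v => X v ω) (k * n)) := measurable_greedy hd hiid.1 (k * n)
  have hMB : ∀ ω, |greedy d (fun v => X v ω) (k * n)| ≤ B := fun ω =>
    abs_greedy_le hd (fun v => hb v ω) (k * n)
  have hMe : Integrable (fun ω => Real.exp (lam * (greedy d (fun v => X v ω) (k * n) - k * a))) P :=
    integrable_exp_sub_of_bound P hMm hMB lam _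
  have hfe : ∀ u, Integrable (fun ω => Real.exp (lam * (f u ω - k * a))) P :=
    fun u => integrable_exp_sub_of_bound P (hfm u) (hfB u) lam _
  have h1 : Real.exp (lam * (∫ ω, greedy d (fun v => X v ω) (k * n) ∂P - k * a)) ≤
      (Fintype.card {u // u ∈ 𝒳} : ℝ) * Real.exp (lam ^ 2 * (hi - lo) ^ 2 * ((k * n : ℕ) : ℝ)) := by
    have e1 : lam * (∫ ω, greedy d (fun v => X v ω) (k * n) ∂P - k * a) =
        ∫ ω, lam * (greedy d (fun v => X v ω) (k * n) - k * a) ∂P := by
      rw [integral_const_mul, integral_sub hMi (integrable_const _)]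
      simp
    rw [e1]
    refine (exp_integral_le P ((hMi.sub (integrable_const _)).const_mul _) hMe).trans ?_
    refine (integral_mono hMe (integrable_finsetSum _ fun u _ => hfe u) hgreedy).trans ?_
    rw [integral_finsetSum _ fun u _ => hfe u]
    refine (Finset.sum_le_sum fun u _ => hexp u).trans ?_
    simp
  have hcard : (Fintype.card {u // u ∈ 𝒳} : ℝ) ≤ (2 * n + 1) ^ (d * k) := by
    have h2 : 𝒳 ⊆ Fintype.piFinset (fun _ : Fin k =>
        Finset.Icc (fun _ : Fin d => -(n : ℤ)) (fun _ : Fin d => (n : ℤ))) := by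
      intro u hu
      obtain ⟨γ, hγ, rfl⟩ := Finset.mem_image.1 hu
      exact inc_mem (mem_saws.1 hγ)
    have h3 := Finset.card_le_card h2
    rw [card_box] at h3
    rw [Fintype.card_coe]
    exact_mod_cast h3
  have hpos : (0 : ℝ) < (2 * n + 1) ^ (d * k) := by positivity
  have h2 : Real.exp (lam * (∫ ω, greedy d (fun v => X v ω) (k * n) ∂P - k * a)) ≤
      Real.exp (d * k * Real.log (2 * n + 1) + lam ^ 2 * (hi - lo) ^ 2 * ((k * n : ℕ) : ℝ)) := by
    refine h1.trans ?_
    rw [Real.exp_add]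
    refine mul_le_mul_of_nonneg_right ?_ (Real.exp_pos _).le
    refine hcard.trans (le_of_eq ?_)
    rw [← Real.exp_log hpos, Real.log_pow]
    push_cast
    rfl
  have h3 := Real.exp_le_exp.1 h2
  push_cast at h3
  linarith


theorem greedy_add_steps {d : ℕ} (hd : 1 ≤ d) (x : (Fin d → ℤ) → ℝ) {hi : ℝ}
    (hx : ∀ v, x v ≤ hi) (m r : ℕ) : greedy d x (m + r) ≤ greedy d x m + r * hi := by
  obtain ⟨γ, hγ, hw⟩ := exists_greedy d hd x (m + r)
  rw [hw, sum_pt γ x, Finset.sum_range_add]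
  have h1 := sum_piece_le hγ (b := 0) (n := m) (by omega) x
  have h2 : pt γ 0 = 0 := pt_zero hγ
  simp only [h2, add_zero, zero_add] at h1
  refine add_le_add h1 ?_
  calc ∑ i ∈ Finset.range r, x (pt γ (m + i + 1)) ≤ ∑ _i ∈ Finset.range r, hi :=
        Finset.sum_le_sum fun i _ => hx _
    _ = r * hi := by simp

/-- the error term -/
noncomputable def err (d : ℕ) (σ : ℝ) (n : ℕ) : ℝ :=
  2 * σ * Real.sqrt (d * Real.log (2 * n + 2) / n)

theorem err_nonneg (d : ℕ) {σ : ℝ} (hσ : 0 ≤ σ) (n : ℕ) : 0 ≤ err d σ n := by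
  unfold err
  positivity

theorem tendsto_err (d : ℕ) (σ : ℝ) : Tendsto (err d σ) atTop (𝓝 0) := by
  have h1 : Tendsto (fun x : ℝ => Real.log x / x) atTop (𝓝 0) :=
    Real.isLittleO_log_id_atTop.tendsto_div_nhds_zero
  have h2 : Tendsto (fun n : ℕ => 2 * (n : ℝ) + 2) atTop atTop :=
    Tendsto.atTop_add (tendsto_natCast_atTop_atTop.const_mul_atTop (by norm_num))
      tendsto_const_nhds
  have h3 : Tendsto (fun n : ℕ => 4 * (Real.log (2 * (n : ℝ) + 2) / (2 * (n : ℝ) + 2)))
      atTop (𝓝 0) := by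
    simpa using (h1.comp h2).const_mul 4
  have h4 : Tendsto (fun n : ℕ => Real.log (2 * (n : ℝ) + 2) / n) atTop (𝓝 0) := by
    refine squeeze_zero' (Eventually.of_forall fun n => ?_) ?_ h3
    · have : 0 ≤ Real.log (2 * (n : ℝ) + 2) := Real.log_nonneg (by
        have : (0 : ℝ) ≤ n := Nat.cast_nonneg n
        linarith)
      positivity
    · filter_upwards [eventually_ge_atTop 1] with n hn
      have hn' : (1 : ℝ) ≤ n := by exact_mod_cast hn
      have hl : 0 ≤ Real.log (2 * (n : ℝ) + 2) := Real.log_nonneg (by linarith)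
      rw [← mul_div_assoc, div_le_div_iff₀ (by linarith) (by linarith)]
      nlinarith
  have h5 : Tendsto (fun n : ℕ => (d : ℝ) * Real.log (2 * (n : ℝ) + 2) / n) atTop (𝓝 0) := by
    have := h4.const_mul (d : ℝ)
    simpa [mul_div_assoc] using this
  have h6 := (Real.continuous_sqrt.tendsto 0).comp h5
  rw [Real.sqrt_zero] at h6
  have h7 := h6.const_mul (2 * σ)
  rw [mul_zero] at h7
  exact h7.congr fun n => rfl

end Limit

open Limit in
theorem bounded_limit {Ω : Type*} [MeasurableSpace Ω] (P : Measure Ω) [IsProbabilityMeasure P]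
    (d : ℕ) (hd : 1 ≤ d) (X : (Fin d → ℤ) → Ω → ℝ) (hiid : IsIID P d X) (lo hi : ℝ)
    (hlo : lo ≤ 0) (hhi : 0 ≤ hi) (hb : ∀ v ω, lo ≤ X v ω ∧ X v ω ≤ hi) :
    ∃ f : ℝ, Tendsto (fun n : ℕ => (∫ ω, greedy d (fun v => X v ω) n ∂P) / n) atTop (𝓝 f) ∧
      ∀ n : ℕ, 1 ≤ n → (n : ℝ) * f -
        4 * (hi - lo) * (n * Real.sqrt (d * Real.log (2 * n + 2) / n)) ≤
        ∫ ω, greedy d (fun v => X v ω) n ∂P := by
  set a : ℕ → ℝ := fun n => ∫ ω, greedy d (fun v => X v ω) n ∂P with ha
  set σ : ℝ := hi - lo with hσ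
  have hσ0 : 0 ≤ σ := by rw [hσ]; linarith
  have hint : ∀ n, Integrable (fun ω => greedy d (fun v => X v ω) n) P :=
    fun n => integrable_greedy P hd hiid.1 hb n
  have halo : ∀ n : ℕ, n * lo ≤ a n := by
    intro n
    have h := integral_mono (μ := P) (integrable_const ((n : ℝ) * lo)) (hint n)
      fun ω => const_le_greedy hd (fun v => (hb v ω).1) n
    simpa using h
  have hahi : ∀ n : ℕ, a n ≤ n * hi := by
    intro n
    have h := integral_mono (μ := P) (hint n) (integrable_const ((n : ℝ) * hi))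
      fun ω => greedy_le_const hd (fun v => (hb v ω).2) n
    simpa using h
  have hstep : ∀ m r : ℕ, a (m + r) ≤ a m + r * hi := by
    intro m r
    have h := integral_mono (μ := P) (hint (m + r)) ((hint m).add (integrable_const (r * hi)))
      fun ω => greedy_add_steps hd (fun v => X v ω) (fun v => (hb v ω).2) m r
    simp only [Pi.add_apply] at h
    rw [integral_add (hint m) (integrable_const _)] at h
    simpa using h
  -- almost subadditivity
  have hsub : ∀ k n : ℕ, 1 ≤ n → a (k * n) ≤ k * (a n + n * err d σ n) := by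
    intro k n hn
    have hn' : (1 : ℝ) ≤ n := by exact_mod_cast hn
    have hd' : (1 : ℝ) ≤ d := by exact_mod_cast hd
    rcases hσ0.lt_or_eq with h0 | h0
    · set l : ℝ := Real.sqrt (d * Real.log (2 * n + 2) / n) with hl
      have hlog : 0 < Real.log (2 * (n : ℝ) + 2) := Real.log_pos (by linarith)
      have hl2 : l ^ 2 = d * Real.log (2 * n + 2) / n := Real.sq_sqrt (by positivity)
      have hlpos : 0 < l := Real.sqrt_pos.2 (by positivity)
      have h1 := subadd P d hd X hiid lo hi (by linarith) hb k n (l / σ)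
        (div_nonneg hlpos.le hσ0)
      have h2 : (d : ℝ) * k * Real.log (2 * n + 1) ≤ k * n * l ^ 2 := by
        have h3 : Real.log (2 * (n : ℝ) + 1) ≤ Real.log (2 * n + 2) :=
          Real.log_le_log (by linarith) (by linarith)
        have h4 : (k : ℝ) * n * l ^ 2 = d * k * Real.log (2 * n + 2) := by
          rw [hl2]
          field_simp
        rw [h4]
        exact mul_le_mul_of_nonneg_left h3 (by positivity)
      have h5 : (l / σ) ^ 2 * (hi - lo) ^ 2 * (k * n) = k * n * l ^ 2 := by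
        rw [← hσ, div_pow]
        field_simp
      rw [h5] at h1
      have h6 : l / σ * (a (k * n) - k * a n) ≤ l / σ * (2 * σ * (k * n * l)) := by
        have e : l / σ * (2 * σ * (k * n * l)) = 2 * (k * n * l ^ 2) := by
          field_simp
        rw [e]
        simp only [ha]
        linarith
      have h7 := le_of_mul_le_mul_left h6 (div_pos hlpos h0)
      have h8 : (k : ℝ) * (a n + n * err d σ n) = k * a n + 2 * σ * (k * n * l) := by
        rw [err]
        ring
      rw [h8]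
      linarith
    · have e1 : hi = 0 := by rw [hσ] at h0; linarith
      have e2 : lo = 0 := by rw [hσ] at h0; linarith
      have h1 : ∀ n, a n = 0 := by
        intro n
        have := halo n
        have := hahi n
        rw [e1] at this
        rw [e2] at *
        linarith
      rw [h1, h1, ← h0, err]
      simp
  -- bound for all times
  have hall : ∀ n m : ℕ, 1 ≤ n → 1 ≤ m → a m / m ≤ (a n / n + err d σ n) +
      (|a n + n * err d σ n| + n * hi) / m := by
    intro n m hn hm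
    have hn' : (1 : ℝ) ≤ n := by exact_mod_cast hn
    have hm' : (1 : ℝ) ≤ m := by exact_mod_cast hm
    set c : ℝ := a n + n * err d σ n with hc
    have h1 : a m ≤ (m / n : ℕ) * c + n * hi := by
      have h2 := hstep ((m / n) * n) (m % n)
      have h3 : (m / n) * n + m % n = m := Nat.div_add_mod' m n
      rw [h3] at h2
      have h4 := hsub (m / n) n hn
      have h5 : ((m % n : ℕ) : ℝ) * hi ≤ n * hi :=
        mul_le_mul_of_nonneg_right (by exact_mod_cast (Nat.mod_lt m hn).le) hhi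
      linarith
    have h6 : ((m / n : ℕ) : ℝ) * c ≤ m * (c / n) + |c| := by
      have h3 : (((m / n : ℕ) : ℝ)) * n + ((m % n : ℕ) : ℝ) = m := by
        exact_mod_cast Nat.div_add_mod' m n
      have h7 : ((m % n : ℕ) : ℝ) ≤ n := by exact_mod_cast (Nat.mod_lt m hn).le
      have h8 : (0 : ℝ) ≤ ((m % n : ℕ) : ℝ) := Nat.cast_nonneg _
      have h9 : ((m / n : ℕ) : ℝ) = (m - ((m % n : ℕ) : ℝ)) / n := by
        field_simp
        linarith
      rw [h9]
      have h10 : -(((m % n : ℕ) : ℝ) / n * c) ≤ |c| := by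
        have h11 : ((m % n : ℕ) : ℝ) / n ≤ 1 := (div_le_one (by linarith)).2 h7
        have h12 : 0 ≤ ((m % n : ℕ) : ℝ) / n := by positivity
        calc -(((m % n : ℕ) : ℝ) / n * c) ≤ |-(((m % n : ℕ) : ℝ) / n * c)| := le_abs_self _
          _ = ((m % n : ℕ) : ℝ) / n * |c| := by rw [abs_neg, abs_mul, abs_of_nonneg h12]
          _ ≤ 1 * |c| := mul_le_mul_of_nonneg_right h11 (abs_nonneg c)
          _ = |c| := one_mul _
      have h13 : (m - ((m % n : ℕ) : ℝ)) / n * c = m * (c / n) + -(((m % n : ℕ) : ℝ) / n * c) := by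
        field_simp
        ring
      rw [h13]
      linarith
    have h14 : a n / n + err d σ n = c / n := by
      rw [hc]
      field_simp
    rw [h14, div_le_iff₀ (by linarith)]
    have h15 : (c / n + (|c| + n * hi) / m) * m = m * (c / n) + (|c| + n * hi) := by
      field_simp
    rw [h15]
    linarith
  -- the limit
  set b : ℕ → ℝ := fun n => a (n + 1) / ((n + 1 : ℕ) : ℝ) + err d σ (n + 1) with hbdef
  have hbb : BddBelow (Set.range b) := by
    refine ⟨lo, ?_⟩
    rintro _ ⟨n, rfl⟩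
    have h1 := halo (n + 1)
    have h2 : (0 : ℝ) < ((n + 1 : ℕ) : ℝ) := by positivity
    have h3 : lo ≤ a (n + 1) / ((n + 1 : ℕ) : ℝ) := by
      rw [le_div_iff₀ h2, mul_comm]
      exact h1
    have h4 := err_nonneg d hσ0 (n + 1)
    simp only [hbdef]
    linarith
  set L : ℝ := ⨅ n, b n with hL
  have hLle : ∀ n, 1 ≤ n → L ≤ a n / n + err d σ n := by
    intro n hn
    have h := ciInf_le hbb (n - 1)
    simp only [hbdef, Nat.sub_add_cancel hn] at h
    exact h
  refine ⟨L, ?_, ?_⟩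
  · rw [Metric.tendsto_atTop]
    intro ε hε
    obtain ⟨k, hk⟩ := exists_lt_of_ciInf_lt (show L < L + ε / 2 by linarith)
    have h1 := (tendsto_err d σ).eventually (gt_mem_nhds hε)
    set C : ℝ := |a (k + 1) + ((k + 1 : ℕ) : ℝ) * err d σ (k + 1)| + ((k + 1 : ℕ) : ℝ) * hi with hC
    have h2 : Tendsto (fun m : ℕ => C / (m : ℝ)) atTop (𝓝 0) :=
      tendsto_const_div_atTop_nhds_zero_nat C
    have h3 := h2.eventually (gt_mem_nhds (show (0 : ℝ) < ε / 2 by linarith))
    obtain ⟨N, hN⟩ := eventually_atTop.1 (h1.and (h3.and (eventually_ge_atTop 1)))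
    refine ⟨N, fun m hm => ?_⟩
    obtain ⟨h4, h5, h6⟩ := hN m hm
    have h7 := hall (k + 1) m (by omega) h6
    have h8 := hLle m h6
    simp only [hbdef] at hk
    rw [Real.dist_eq, abs_lt]
    constructor
    · linarith
    · linarith
  · intro n hn
    have hn' : (1 : ℝ) ≤ n := by exact_mod_cast hn
    have h1 := hLle n hn
    have h2 : (n : ℝ) * L ≤ n * (a n / n + err d σ n) :=
      mul_le_mul_of_nonneg_left h1 (by linarith)
    have h3 : (n : ℝ) * (a n / n + err d σ n) = a n +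
        2 * σ * (n * Real.sqrt (d * Real.log (2 * n + 2) / n)) := by
      rw [err]
      field_simp
    have h4 : 0 ≤ σ * (n * Real.sqrt (d * Real.log (2 * n + 2) / n)) := by positivity
    linarith

end Pool.Agent.Helper82.GP
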