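import Pool.Agent.Helper82.GP.Surg
import Pool.Agent.Helper82.GP.Conv
import Pool.Agent.Helper82.GP.Basic

/-!
The deterministic core of the lower bound.
-/

namespace Pool.Agent.Helper82.GP

open Pool.Agent.Helper82.Greedy

theorem card_support {V : Type*} [DecidableEq V] {G : SimpleGraph V} {x y : V} (p : G.Walk x y)
    (hp : p.IsPath) : p.support.toFinset.card = p.length + 1 := by
  rw [List.toFinset_card_of_nodup hp.support_nodup, SimpleGraph.Walk.length_support]

theorem box_mono {k m n : ℕ} (h : m ≤ n) : box k m ⊆ box k n := by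
  intro v hv
  simp only [box, Finset.mem_product, Finset.mem_Icc, Fintype.mem_piFinset] at hv ⊢
  refine ⟨⟨by omega, by omega⟩, fun j => ⟨?_, ?_⟩⟩
  · have := (hv.2 j).1
    omega
  · have := (hv.2 j).2
    omega

open Classical in
theorem det_core (k m : ℕ) (hk : 1 ≤ k) : ∃ D C : ℕ, ∀ (x : (Fin (k + 1) → ℤ) → ℝ)
    (B K K2 g : ℝ) (N n n' c : ℕ), 0 ≤ B → 0 ≤ K2 → K2 ≤ K → C ≤ N →
    g ≤ greedy (k + 1) (fun v => max (min (x v) B) (-K)) n' →
    (∀ F : Finset (ℤ × (Fin k → ℤ)), F ⊆ box k (2 * n') → (∀ v ∈ F, x (cns v) < -K2) →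
      Sparse m D F) →
    (∀ v : ℤ × (Fin k → ℤ), |v.1| ≤ 4 * N → (∀ j, |v.2 j| ≤ 4 * N) → -K ≤ x (cns v)) →
    (∀ w : ℕ, K * w ≤ B * n' - g → C * (n' / N + 1 + w * N ^ (k + 1)) ≤ c) →
    n + c ≤ n' →
    g - (B + K2) * c - B * ((n' : ℝ) + c - n) ≤ greedy (k + 1) (fun v => min (x v) B) n := by
  obtain ⟨D, C, hsurg⟩ := surgery k m hk
  refine ⟨D, C, ?_⟩
  intro x B K K2 g N n n' c hB hK2 hKK hCN hg hsp hfar hcost hnn
  obtain ⟨x₁, p, hp, hlen, hopt⟩ := exists_opt_path k (fun v => max (min (x v) B) (-K)) n'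
  set x' : (Fin (k + 1) → ℤ) → ℝ := fun v => max (min (x v) B) (-K) with hx'
  have hx'B : ∀ v, x' v ≤ B := by
    intro v
    simp only [hx']
    refine max_le (min_le_right _ _) (by linarith)
  set S := p.support.toFinset with hS
  set V := S.filter (fun v => x (cns v) < -K) with hV
  set F := (box k (2 * n')).filter (fun v => x (cns v) < -K2) with hF
  have hSbox : S ⊆ box k (2 * n') := by
    refine (support_subset_box k x₁ p).trans ?_
    rw [hlen]
    exact box_mono (by omega)
  have hVF : V ⊆ F := by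
    intro v hv
    rw [hV, Finset.mem_filter] at hv
    rw [hF, Finset.mem_filter]
    exact ⟨hSbox hv.1, by linarith [hv.2]⟩
  have hVfar : ∀ v ∈ V, (4 * N : ℤ) < |v.1| ∨ ∃ j, (4 * N : ℤ) < |v.2 j| := by
    intro v hv
    by_contra hcon
    push Not at hcon
    have := hfar v hcon.1 hcon.2
    rw [hV, Finset.mem_filter] at hv
    linarith [hv.2]
  have hFs : Sparse m D F := hsp F (Finset.filter_subset _ _) fun v hv => by
    rw [hF, Finset.mem_filter] at hv
    exact hv.2
  obtain ⟨x₁', p', hp', hpV, hpF, hc1, hc2⟩ := hsurg N hCN F hFs V hVF hVfar x₁ p hp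
  set S' := p'.support.toFinset with hS'
  have h0S : (0 : ℤ × (Fin k → ℤ)) ∈ S := by simp [hS]
  have h0S' : (0 : ℤ × (Fin k → ℤ)) ∈ S' := by simp [hS']
  have h0V : (0 : ℤ × (Fin k → ℤ)) ∉ V := by
    intro h
    rcases hVfar _ h with h1 | ⟨j, h1⟩ <;> simp at h1 <;> omega
  have hcardS : S.card = n' + 1 := by rw [hS, card_support p hp, hlen]
  have hcardS' : S'.card = p'.length + 1 := by rw [hS', card_support p' hp']
  -- bound on V
  have hVcard : K * V.card ≤ B * n' - g := by
    have h1 : V ⊆ S.erase 0 := by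
      intro v hv
      rw [Finset.mem_erase]
      refine ⟨fun h => h0V (h ▸ hv), (Finset.filter_subset _ _) hv⟩
    have h2 : ∑ v ∈ S.erase 0, x' (cns v) =
        ∑ v ∈ S.erase 0 \ V, x' (cns v) + ∑ v ∈ V, x' (cns v) :=
      (Finset.sum_sdiff h1).symm
    have h3 : ∑ v ∈ S.erase 0 \ V, x' (cns v) ≤ B * n' := by
      calc ∑ v ∈ S.erase 0 \ V, x' (cns v) ≤ ∑ v ∈ S.erase 0 \ V, B :=
            Finset.sum_le_sum fun v _ => hx'B _
        _ = (S.erase 0 \ V).card * B := by rw [Finset.sum_const, nsmul_eq_mul]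
        _ ≤ n' * B := by
            refine mul_le_mul_of_nonneg_right ?_ hB
            have : (S.erase 0 \ V).card ≤ n' := by
              refine (Finset.card_le_card Finset.sdiff_subset).trans ?_
              rw [Finset.card_erase_of_mem h0S, hcardS]
              simp
            exact_mod_cast this
        _ = B * n' := mul_comm _ _
    have h4 : ∑ v ∈ V, x' (cns v) ≤ -(K * V.card) := by
      calc ∑ v ∈ V, x' (cns v) ≤ ∑ v ∈ V, (-K) := by
            refine Finset.sum_le_sum fun v hv => ?_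
            rw [hV, Finset.mem_filter] at hv
            simp only [hx']
            exact max_le ((min_le_left _ _).trans hv.2.le) le_rfl
        _ = -(K * V.card) := by
            rw [Finset.sum_const, nsmul_eq_mul]
            ring
    rw [hopt] at hg
    linarith
  have hcost' := hcost V.card hVcard
  rw [hlen] at hc1 hc2
  have hc1' : (S \ S').card ≤ c := hc1.trans hcost'
  have hc2' : (S' \ S).card ≤ c := hc2.trans hcost'
  -- lengths
  have hi1 : (S ∩ S').card + (S \ S').card = S.card := by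
    rw [add_comm]; exact Finset.card_sdiff_add_card_inter S S'
  have hi2 : (S' ∩ S).card + (S' \ S).card = S'.card := by
    rw [add_comm]; exact Finset.card_sdiff_add_card_inter S' S
  rw [Finset.inter_comm] at hi2
  have hl1 : p'.length ≤ n' + c := by omega
  have hl2 : n ≤ p'.length := by omega
  -- the weight of the new path
  have hS'box : S' ⊆ box k (2 * n') := (support_subset_box k x₁' p').trans (box_mono (by omega))
  have hI0 : (0 : ℤ × (Fin k → ℤ)) ∈ S ∩ S' := Finset.mem_inter.2 ⟨h0S, h0S'⟩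
  have hsum1 : ∑ v ∈ S.erase 0, x' (cns v) =
      ∑ v ∈ S \ S', x' (cns v) + ∑ v ∈ (S ∩ S').erase 0, x' (cns v) := by
    have h1 : (S ∩ S').erase 0 ⊆ S.erase 0 := Finset.erase_subset_erase _ Finset.inter_subset_left
    rw [← Finset.sum_sdiff h1]
    congr 1
    refine Finset.sum_congr ?_ fun _ _ => rfl
    ext v
    simp only [Finset.mem_sdiff, Finset.mem_erase, Finset.mem_inter]
    constructor
    · rintro ⟨⟨h2, h3⟩, h4⟩
      exact ⟨h3, fun h5 => h4 ⟨h2, h3, h5⟩⟩
    · rintro ⟨h3, h4⟩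
      exact ⟨⟨fun h => h4 (h ▸ h0S'), h3⟩, fun h => h4 h.2.2⟩
  have hsum2 : ∑ v ∈ S'.erase 0, min (x (cns v)) B =
      ∑ v ∈ S' \ S, min (x (cns v)) B + ∑ v ∈ (S ∩ S').erase 0, min (x (cns v)) B := by
    have h1 : (S ∩ S').erase 0 ⊆ S'.erase 0 :=
      Finset.erase_subset_erase _ Finset.inter_subset_right
    rw [← Finset.sum_sdiff h1]
    congr 1
    refine Finset.sum_congr ?_ fun _ _ => rfl
    ext v
    simp only [Finset.mem_sdiff, Finset.mem_erase, Finset.mem_inter]
    constructor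
    · rintro ⟨⟨h2, h3⟩, h4⟩
      exact ⟨h3, fun h5 => h4 ⟨h2, h5, h3⟩⟩
    · rintro ⟨h3, h4⟩
      exact ⟨⟨fun h => h4 (h ▸ h0S), h3⟩, fun h => h4 h.2.1⟩
  have hsum3 : ∑ v ∈ (S ∩ S').erase 0, x' (cns v) ≤
      ∑ v ∈ (S ∩ S').erase 0, min (x (cns v)) B := by
    refine Finset.sum_le_sum fun v hv => ?_
    rw [Finset.mem_erase, Finset.mem_inter] at hv
    have h1 : ¬ (x (cns v) < -K) := by
      intro h2
      refine hpV v ?_ (List.mem_toFinset.1 hv.2.2)
      rw [hV, Finset.mem_filter]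
      exact ⟨hv.2.1, h2⟩
    simp only [hx']
    refine max_le le_rfl (le_min (not_lt.1 h1) (by linarith))
  have hsum4 : ∑ v ∈ S \ S', x' (cns v) ≤ B * c := by
    calc ∑ v ∈ S \ S', x' (cns v) ≤ ∑ v ∈ S \ S', B := Finset.sum_le_sum fun v _ => hx'B _
      _ = (S \ S').card * B := by rw [Finset.sum_const, nsmul_eq_mul]
      _ ≤ c * B := mul_le_mul_of_nonneg_right (by exact_mod_cast hc1') hB
      _ = B * c := mul_comm _ _
  have hsum5 : -(K2 * c) ≤ ∑ v ∈ S' \ S, min (x (cns v)) B := by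
    calc -(K2 * c) ≤ -(K2 * (S' \ S).card) := by
          have : ((S' \ S).card : ℝ) ≤ c := by exact_mod_cast hc2'
          have := mul_le_mul_of_nonneg_left this hK2
          linarith
      _ = ∑ v ∈ S' \ S, (-K2) := by rw [Finset.sum_const, nsmul_eq_mul]; ring
      _ ≤ ∑ v ∈ S' \ S, min (x (cns v)) B := by
          refine Finset.sum_le_sum fun v hv => ?_
          rw [Finset.mem_sdiff] at hv
          have h1 := hpF v (List.mem_toFinset.1 hv.1) (fun h => hv.2 (List.mem_toFinset.2 h))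
          rw [hF, Finset.mem_filter] at h1
          have h2 : ¬ (x (cns v) < -K2) := fun h2 => h1 ⟨hS'box hv.1, h2⟩
          exact le_min (not_lt.1 h2) (by linarith)
  have hfin := greedy_ge_of_path k (fun v => min (x v) B) n B (fun v => min_le_right _ _) x₁' p' hp'
    hl2
  rw [← hS'] at hfin
  rw [hopt] at hg
  have hl1' : (p'.length : ℝ) ≤ n' + c := by exact_mod_cast hl1
  have := mul_le_mul_of_nonneg_left hl1' hB

  have e1 : (B + K2) * c = B * c + K2 * c := by ring
  have e2 : B * ((n' : ℝ) + c - n) = B * (n' + c) - B * n := by ring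
  have e3 : B * ((p'.length : ℝ) - n) = B * p'.length - B * n := by ring
  rw [e1, e2]
  rw [e3] at hfin
  linarith

end Pool.Agent.Helper82.GP
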