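import Mathlib

/-!
Elementary estimates used in the assembly.
-/

namespace Pool.Agent.Helper82.GP

open Filter
open scoped ENNReal Topology

theorem exists_root (L : ℕ) (hL : 1 ≤ L) : ∃ r : ℕ → ℕ, (∀ n, (r n) ^ L ≤ n) ∧
    (∀ n, n < (r n + 1) ^ L) ∧ Tendsto r atTop atTop := by
  refine ⟨fun n => Nat.findGreatest (fun r => r ^ L ≤ n) n, fun n => ?_, fun n => ?_, ?_⟩
  · refine Nat.findGreatest_spec (P := fun r => r ^ L ≤ n) (Nat.zero_le n) ?_
    simp [Nat.pos_iff_ne_zero.1 hL]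
  · by_contra hcon
    push Not at hcon
    set r := Nat.findGreatest (fun r => r ^ L ≤ n) n with hr
    have h1 : r + 1 ≤ n := (Nat.le_self_pow (by omega) _).trans hcon
    exact Nat.findGreatest_is_greatest (P := fun r => r ^ L ≤ n) (k := r + 1) (by omega) h1 hcon
  · refine tendsto_atTop.2 fun b => ?_
    filter_upwards [eventually_ge_atTop (b ^ L), eventually_ge_atTop b] with n h1 h2
    exact Nat.le_findGreatest h2 h1

theorem tendsto_zero_of_mul_le {a : ℕ → ℝ≥0∞} {c : ℝ≥0∞} (hc : c ≠ ⊤) {r : ℕ → ℕ}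
    (hr : Tendsto r atTop atTop) (j : ℕ) (hj : j ≠ 0)
    (h : ∀ᶠ n in atTop, (r n : ℝ≥0∞) * (a n) ^ j ≤ c) : Tendsto a atTop (𝓝 0) := by
  have h1 : Tendsto (fun n => c * ((r n : ℕ) : ℝ≥0∞)⁻¹) atTop (𝓝 0) := by
    have := ENNReal.Tendsto.const_mul (ENNReal.tendsto_inv_nat_nhds_zero.comp hr)
      (Or.inr hc)
    simpa using this
  have h2 : Tendsto (fun n => (a n) ^ j) atTop (𝓝 0) := by
    refine tendsto_of_tendsto_of_tendsto_of_le_of_le' tendsto_const_nhds h1
      (Eventually.of_forall fun _ => zero_le) ?_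
    filter_upwards [h, hr.eventually_ge_atTop 1] with n hn hr1
    have : (r n : ℝ≥0∞) ≠ 0 := by
      have : r n ≠ 0 := by omega
      exact_mod_cast this
    rw [← div_eq_mul_inv, ENNReal.le_div_iff_mul_le (Or.inl this)
      (Or.inl (ENNReal.natCast_ne_top _)), mul_comm]
    exact hn
  rw [ENNReal.tendsto_nhds_zero]
  intro ε hε
  have h3 : (0 : ℝ≥0∞) < ε ^ j := by
    exact ENNReal.pow_pos hε j
  filter_upwards [(ENNReal.tendsto_nhds_zero.1 h2) (ε ^ j) h3] with n hn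
  exact (ENNReal.pow_le_pow_left_iff hj).1 hn

theorem numerics (d : ℕ) (hd : 1 ≤ d) (B G ε0 : ℝ) (hB : 0 ≤ B) (hε0 : 0 < ε0) (C : ℕ) :
    ∃ (δ : ℝ) (R : ℕ), 0 < δ ∧ 1 ≤ R ∧ ∀ r n : ℕ, R ≤ r → r ^ (32 * d ^ 2) ≤ n →
      n < (r + 1) ^ (32 * d ^ 2) →
      ∃ n' c : ℕ, n ≤ n' ∧ n' ≤ 2 * n ∧ C ≤ r ^ 2 ∧
      (∀ w : ℕ, (r : ℝ) ^ (8 * d ^ 2) * w ≤ B * n' - (G - 2 * δ) * n' →
        C * (n' / r ^ 2 + 1 + w * (r ^ 2) ^ d) ≤ c) ∧
      n + c ≤ n' ∧
      (G - ε0) * n ≤ (G - 2 * δ) * n' - (B + r) * c - B * ((n' : ℝ) + c - n) ∧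
      4 * (B + (r : ℝ) ^ (8 * d ^ 2)) *
        (n' * Real.sqrt (d * Real.log (2 * n' + 2) / n')) ≤ δ * n' := by
  set δ : ℝ := ε0 / 12 with hδ
  have hδ0 : 0 < δ := by positivity
  set M0 : ℝ := |G| + B + 1 with hM0
  have hM1 : 1 ≤ M0 := by have := abs_nonneg G; linarith
  set ε : ℝ := min 1 (ε0 / (4 * M0)) with hε
  have hεpos : 0 < ε := lt_min one_pos (by positivity)
  have hε1 : ε ≤ 1 := min_le_left _ _
  have hε2 : ε * (4 * M0) ≤ ε0 := by
    have : ε ≤ ε0 / (4 * M0) := min_le_right _ _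
    rwa [le_div_iff₀ (by positivity)] at this
  set CB : ℝ := B + |G| + 2 * δ with hCB
  have hCB0 : 0 ≤ CB := by positivity
  set A : ℝ := C * (3 + 2 * CB) with hA
  have hA0 : 0 ≤ A := by positivity
  set L : ℕ := 32 * d ^ 2 with hL
  have hd2 : 1 ≤ d ^ 2 := Nat.one_le_pow _ _ hd
  have hdd : d ≤ d ^ 2 := Nat.le_self_pow (by norm_num) d
  have hx1 : 2 * d + 2 ≤ 8 * d ^ 2 := by linarith
  have hx2 : 8 * d ^ 2 * 2 + 2 ≤ L := by rw [hL]; linarith
  have hx3 : 2 ≤ L := by linarith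
  set C2 : ℝ := 6 * 2 ^ L + L with hC2
  have hC20 : 0 ≤ C2 := by positivity
  obtain ⟨R, hR⟩ := exists_nat_ge
    (max (max (max 1 (C : ℝ)) (max (A / ε) (1 / ε)))
      (max ((2 * B + 1) * A / δ) (16 * (B + 1) ^ 2 * d * C2 / δ ^ 2)))
  have hR' : (max (max (max 1 (C : ℝ)) (max (A / ε) (1 / ε)))
      (max ((2 * B + 1) * A / δ) (16 * (B + 1) ^ 2 * d * C2 / δ ^ 2))) ≤ R := hR
  simp only [max_le_iff] at hR'
  obtain ⟨⟨⟨hR1, hR2⟩, hR3, hR4⟩, hR5, hR6⟩ := hR'
  refine ⟨δ, R, hδ0, by exact_mod_cast hR1, ?_⟩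
  intro r n hRr hrn hnr
  have hRr' : (R : ℝ) ≤ r := by exact_mod_cast hRr
  have hr1 : (1 : ℝ) ≤ r := hR1.trans hRr'
  have hr0 : (0 : ℝ) < r := by linarith
  have hr1' : 1 ≤ r := by exact_mod_cast hr1
  have hCr : (C : ℝ) ≤ r := hR2.trans hRr'
  have hAr : A ≤ r * ε := by
    have := hR3.trans hRr'
    rwa [div_le_iff₀ hεpos] at this
  have h1r : 1 ≤ r * ε := by
    have := hR4.trans hRr'
    rwa [div_le_iff₀ hεpos] at this
  have hBr : (2 * B + 1) * A ≤ r * δ := by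
    have := hR5.trans hRr'
    rwa [div_le_iff₀ hδ0] at this
  have hlr : 16 * (B + 1) ^ 2 * d * C2 ≤ r * δ ^ 2 := by
    have := hR6.trans hRr'
    rwa [div_le_iff₀ (by positivity)] at this
  set K : ℝ := (r : ℝ) ^ (8 * d ^ 2) with hK
  have hrnR : (r : ℝ) ^ L ≤ n := by exact_mod_cast hrn
  have hK1 : ((r : ℝ) ^ 2) ^ d * r ^ 2 ≤ K := by
    rw [← pow_mul, ← pow_add, hK]
    exact pow_le_pow_right₀ hr1 hx1
  have hK2 : K ^ 2 * r ^ 2 ≤ n := by
    rw [hK, ← pow_mul, ← pow_add]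
    exact (pow_le_pow_right₀ hr1 hx2).trans hrnR
  have hK3 : 1 ≤ K := one_le_pow₀ hr1
  have hrn2 : (r : ℝ) ^ 2 ≤ n := (pow_le_pow_right₀ hr1 hx3).trans hrnR
  have hrr : (r : ℝ) ≤ r ^ 2 := le_self_pow₀ hr1 (by norm_num)
  have hrn1 : (r : ℝ) ≤ n := hrr.trans hrn2
  have hn0 : (0 : ℝ) < n := by linarith
  have hr20 : (0 : ℝ) < r ^ 2 := by positivity
  set e : ℕ := ⌈ε * n⌉₊ with he
  have hen : e ≤ n := by
    rw [he, Nat.ceil_le]
    exact mul_le_of_le_one_left hn0.le hε1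
  have he1 : ε * n ≤ e := Nat.le_ceil _
  have he2 : (e : ℝ) ≤ 2 * (ε * n) := by
    have h1 : (e : ℝ) < ε * n + 1 := Nat.ceil_lt_add_one (by positivity)
    have h2 : 1 ≤ ε * n := by
      have := mul_le_mul_of_nonneg_right hrn1 hεpos.le
      linarith
    linarith
  set c : ℕ := ⌊A * n / r ^ 2⌋₊ with hc
  have hc1 : (c : ℝ) * r ^ 2 ≤ A * n := by
    have : (c : ℝ) ≤ A * n / r ^ 2 := Nat.floor_le (by positivity)
    rwa [le_div_iff₀ hr20] at this
  have hn'R : ((n + e : ℕ) : ℝ) = n + e := by push_cast; ring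
  have hn'2 : ((n + e : ℕ) : ℝ) ≤ 2 * n := by
    have : (e : ℝ) ≤ n := by exact_mod_cast hen
    rw [hn'R]; linarith
  have hn'1 : (n : ℝ) ≤ ((n + e : ℕ) : ℝ) := by
    rw [hn'R]
    have : (0 : ℝ) ≤ e := by positivity
    linarith
  have hG1 := neg_abs_le G
  have hG2 := le_abs_self G
  refine ⟨n + e, c, by omega, by omega, ?_, ?_, ?_, ?_, ?_⟩
  · have : (C : ℝ) ≤ (r : ℝ) ^ 2 := hCr.trans hrr
    exact_mod_cast this
  · intro w hw
    rw [hc]
    refine Nat.le_floor ?_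
    push_cast
    rw [le_div_iff₀ hr20]
    have h1 : ((((n + e) / r ^ 2 : ℕ)) : ℝ) * r ^ 2 ≤ 2 * n := by
      have h2 : ((((n + e) / r ^ 2 : ℕ)) : ℝ) * ((r ^ 2 : ℕ) : ℝ) ≤ ((n + e : ℕ) : ℝ) := by
        exact_mod_cast Nat.div_mul_le_self _ _
      push_cast at h2
      push_cast at hn'2
      linarith
    have h2 : (1 : ℝ) * r ^ 2 ≤ n := by linarith
    have h3 : (w : ℝ) * (r ^ 2) ^ d * r ^ 2 ≤ 2 * CB * n := by
      have hw0 : (0 : ℝ) ≤ w := by positivity
      calc (w : ℝ) * (r ^ 2) ^ d * r ^ 2 = w * ((r ^ 2) ^ d * r ^ 2) := by ring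
        _ ≤ w * K := mul_le_mul_of_nonneg_left hK1 hw0
        _ = K * w := mul_comm _ _
        _ ≤ B * ((n + e : ℕ) : ℝ) - (G - 2 * δ) * ((n + e : ℕ) : ℝ) := hw
        _ = (B - G + 2 * δ) * ((n + e : ℕ) : ℝ) := by ring
        _ ≤ CB * ((n + e : ℕ) : ℝ) := by
            refine mul_le_mul_of_nonneg_right ?_ (by positivity)
            linarith
        _ ≤ CB * (2 * n) := mul_le_mul_of_nonneg_left hn'2 hCB0
        _ = 2 * CB * n := by ring
    have h4 : (0 : ℝ) ≤ C := by positivity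
    calc (C : ℝ) * ((((n + e) / r ^ 2 : ℕ) : ℝ) + 1 + w * (r ^ 2) ^ d) * r ^ 2
        = C * ((((n + e) / r ^ 2 : ℕ) : ℝ) * r ^ 2 + 1 * r ^ 2 + w * (r ^ 2) ^ d * r ^ 2) := by
          ring
      _ ≤ C * (2 * n + n + 2 * CB * n) := mul_le_mul_of_nonneg_left (by linarith) h4
      _ = A * n := by rw [hA]; ring
  · have : c ≤ e := by
      have h1 : (c : ℝ) ≤ e := by
        have h2 : (c : ℝ) * r ^ 2 ≤ (ε * n) * r ^ 2 := by
          calc (c : ℝ) * r ^ 2 ≤ A * n := hc1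
            _ ≤ (r * ε) * n := mul_le_mul_of_nonneg_right hAr hn0.le
            _ = (ε * n) * r := by ring
            _ ≤ (ε * n) * r ^ 2 := by
                exact mul_le_mul_of_nonneg_left hrr (by positivity)
        have h3 : (c : ℝ) ≤ ε * n := le_of_mul_le_mul_right h2 hr20
        linarith
      exact_mod_cast h1
    omega
  · rw [hn'R]
    have h1 : (2 * B + r) * c ≤ δ * n := by
      have h2 : (2 * B + r) * c * r ^ 2 ≤ (δ * n) * r ^ 2 := by
        calc (2 * B + r) * c * r ^ 2 = (2 * B + r) * (c * r ^ 2) := by ring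
          _ ≤ (2 * B + r) * (A * n) := mul_le_mul_of_nonneg_left hc1 (by positivity)
          _ ≤ ((2 * B + 1) * r) * (A * n) := by
              refine mul_le_mul_of_nonneg_right ?_ (by positivity)
              have := mul_le_mul_of_nonneg_left hr1 hB
              linarith
          _ = ((2 * B + 1) * A) * (r * n) := by ring
          _ ≤ (r * δ) * (r * n) := mul_le_mul_of_nonneg_right hBr (by positivity)
          _ = (δ * n) * r ^ 2 := by ring
      exact le_of_mul_le_mul_right h2 hr20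
    have h2 : (|G| + B) * e ≤ ε0 / 2 * n := by
      calc (|G| + B) * e ≤ M0 * e := by
            refine mul_le_mul_of_nonneg_right ?_ (by positivity)
            linarith
        _ ≤ M0 * (2 * (ε * n)) := mul_le_mul_of_nonneg_left he2 (by linarith)
        _ = (ε * (4 * M0)) * n / 2 := by ring
        _ ≤ ε0 * n / 2 := by
            have := mul_le_mul_of_nonneg_right hε2 hn0.le
            linarith
        _ = ε0 / 2 * n := by ring
    have h3 : -(|G| * e) ≤ G * e := by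
      have h7 : (0 : ℝ) ≤ e := by positivity
      have := mul_le_mul_of_nonneg_right hG1 h7
      linarith
    have h4 : (e : ℝ) ≤ n := by exact_mod_cast hen
    have h5 : δ * e ≤ δ * n := mul_le_mul_of_nonneg_left h4 hδ0.le
    have h6 : 5 * δ * n ≤ ε0 / 2 * n := by
      rw [hδ]
      have := mul_pos hε0 hn0
      linarith
    linarith
  · have hlog : Real.log (2 * ((n + e : ℕ) : ℝ) + 2) ≤ C2 * r := by
      have h1 : (n : ℝ) ≤ (2 * r) ^ L := by
        have h2 : (n : ℝ) < (r + 1) ^ L := by exact_mod_cast hnr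
        refine h2.le.trans (pow_le_pow_left₀ (by positivity) (by linarith) _)
      have h2 : 2 * ((n + e : ℕ) : ℝ) + 2 ≤ 6 * 2 ^ L * r ^ L := by
        rw [mul_pow] at h1
        have : (1 : ℝ) ≤ n := by linarith
        linarith
      calc Real.log (2 * ((n + e : ℕ) : ℝ) + 2) ≤ Real.log (6 * 2 ^ L * r ^ L) :=
            Real.log_le_log (by positivity) h2
        _ = Real.log (6 * 2 ^ L) + L * Real.log r := by
            rw [Real.log_mul (by positivity) (by positivity), Real.log_pow]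
        _ ≤ 6 * 2 ^ L + L * r := by
            have h3 : Real.log (6 * 2 ^ L) ≤ 6 * 2 ^ L := Real.log_le_self (by positivity)
            have h4 : Real.log r ≤ r := Real.log_le_self (by positivity)
            have h5 : (0 : ℝ) ≤ L := by positivity
            have h6 := mul_le_mul_of_nonneg_left h4 h5
            linarith
        _ ≤ 6 * 2 ^ L * r + L * r := by
            have h3 : (0 : ℝ) ≤ 6 * 2 ^ L := by positivity
            have h4 := mul_le_mul_of_nonneg_left hr1 h3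
            linarith
        _ = C2 * r := by rw [hC2]; ring
    set m' : ℝ := ((n + e : ℕ) : ℝ) with hm'
    have hm0 : 0 < m' := by linarith
    have hBK : 0 < B + K := by linarith
    have hsq : Real.sqrt (d * Real.log (2 * m' + 2) / m') ≤ δ / (4 * (B + K)) := by
      rw [Real.sqrt_le_left (by positivity), div_pow, div_le_div_iff₀ hm0 (by positivity)]
      have h1 : (4 * (B + K)) ^ 2 ≤ 16 * (B + 1) ^ 2 * K ^ 2 := by
        have h2 : B + K ≤ (B + 1) * K := by
          have := mul_le_mul_of_nonneg_left hK3 hB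
          linarith
        have h3 : (B + K) ^ 2 ≤ ((B + 1) * K) ^ 2 := pow_le_pow_left₀ hBK.le h2 2
        linarith
      have hlog0 : 0 ≤ Real.log (2 * m' + 2) := Real.log_nonneg (by linarith)
      calc (d : ℝ) * Real.log (2 * m' + 2) * (4 * (B + K)) ^ 2
          ≤ (d * (C2 * r)) * (16 * (B + 1) ^ 2 * K ^ 2) := by
            refine mul_le_mul (mul_le_mul_of_nonneg_left hlog (by positivity)) h1
              (by positivity) (by positivity)
        _ = (16 * (B + 1) ^ 2 * d * C2) * (r * K ^ 2) := by ring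
        _ ≤ (r * δ ^ 2) * (r * K ^ 2) := mul_le_mul_of_nonneg_right hlr (by positivity)
        _ = δ ^ 2 * (K ^ 2 * r ^ 2) := by ring
        _ ≤ δ ^ 2 * m' := mul_le_mul_of_nonneg_left (hK2.trans hn'1) (by positivity)
    calc 4 * (B + K) * (m' * Real.sqrt (d * Real.log (2 * m' + 2) / m'))
        ≤ 4 * (B + K) * (m' * (δ / (4 * (B + K)))) := by
          refine mul_le_mul_of_nonneg_left ?_ (by positivity)
          exact mul_le_mul_of_nonneg_left hsq hm0.le
      _ = δ * m' := by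
          field_simp

end Pool.Agent.Helper82.GP
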