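import Pool.Agent.Helper82.GP.SparseProb
import Pool.Agent.Helper82.GP.Limit
import Pool.Agent.Helper82.GP.MainDet
import Pool.Agent.Helper82.GP.MainNum

/-!
The lower bound in probability.
-/

namespace Pool.Agent.Helper82.GP

open MeasureTheory ProbabilityTheory Filter
open scoped ENNReal Topology
open Pool.Agent.Helper82.Greedy

theorem q_bound {Ω : Type*} [MeasurableSpace Ω] (P : Measure Ω) (d : ℕ) (Y : Ω → ℝ) (t : ℝ) :
    ENNReal.ofReal t * (P {ω | Y ω < -t}) ^ (2 * d) ≤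
      ∫⁻ s in Set.Ioi (0 : ℝ), (P {ω | Y ω < -s}) ^ (2 * d) := by
  calc ENNReal.ofReal t * (P {ω | Y ω < -t}) ^ (2 * d)
      = ∫⁻ s in Set.Ioc (0 : ℝ) t, (P {ω | Y ω < -t}) ^ (2 * d) := by
        rw [setLIntegral_const, Real.volume_Ioc, sub_zero, mul_comm]
    _ ≤ ∫⁻ s in Set.Ioc (0 : ℝ) t, (P {ω | Y ω < -s}) ^ (2 * d) := by
        refine setLIntegral_mono' measurableSet_Ioc fun s hs => ?_
        gcongr
        exact hs.2
    _ ≤ ∫⁻ s in Set.Ioi (0 : ℝ), (P {ω | Y ω < -s}) ^ (2 * d) :=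
        lintegral_mono_set fun s hs => hs.1

theorem card_box (k n : ℕ) : (box k n).card = (2 * n + 1) ^ (k + 1) := by
  have h : ((n : ℤ) + 1 - -(n : ℤ)).toNat = 2 * n + 1 := by omega
  rw [box, Finset.card_product, Fintype.card_piFinset]
  simp only [Int.card_Icc, h, Finset.prod_const, Finset.card_univ, Fintype.card_fin]
  rw [pow_succ, mul_comm]

theorem union_box {Ω : Type*} [MeasurableSpace Ω] (P : Measure Ω)
    (k n : ℕ) (X : (Fin (k + 1) → ℤ) → Ω → ℝ) (hiid : IsIID P (k + 1) X) (t : ℝ) :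
    P {ω | ∃ v ∈ box k n, X (cns v) ω < -t} ≤
      ((2 * n + 1) ^ (k + 1) : ℕ) * P {ω | X 0 ω < -t} := by
  have h : {ω | ∃ v ∈ box k n, X (cns v) ω < -t} = ⋃ v ∈ box k n, {ω | X (cns v) ω < -t} := by
    ext ω
    simp
  rw [h]
  refine (measure_biUnion_finset_le _ _).trans ?_
  have h1 : ∀ v ∈ box k n, P {ω | X (cns v) ω < -t} = P {ω | X 0 ω < -t} := fun v _ =>
    (hiid.2.2 (cns v)).measure_mem_eq measurableSet_Iio
  rw [Finset.sum_congr rfl h1, Finset.sum_const, card_box, nsmul_eq_mul]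

/-- The sparseness event. -/
def E1 {Ω : Type*} (k m D : ℕ) (X : (Fin (k + 1) → ℤ) → Ω → ℝ) (n r : ℕ) : Set Ω :=
  {ω | ∃ F : Finset (ℤ × (Fin k → ℤ)), F ⊆ box k n ∧ (∀ v ∈ F, X (cns v) ω < -(r : ℝ)) ∧
        ¬ Sparse m D F}

/-- The event that there is a very bad vertex near the origin. -/
def E3 {Ω : Type*} (k : ℕ) (X : (Fin (k + 1) → ℤ) → Ω → ℝ) (r : ℕ) : Set Ω :=
  {ω | ∃ v ∈ box k (4 * r ^ 2), X (cns v) ω < -((r : ℝ) ^ (8 * (k + 1) ^ 2))}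

theorem e1_tendsto {Ω : Type*} [MeasurableSpace Ω] (P : Measure Ω) [IsProbabilityMeasure P]
    (k m D L : ℕ) (X : (Fin (k + 1) → ℤ) → Ω → ℝ) (hiid : IsIID P (k + 1) X)
    (hA : AMinus P (k + 1) (X 0)) (r n' : ℕ → ℕ) (hr : Tendsto r atTop atTop)
    (hm : m + 1 = 2 * (k + 1) * (L * (k + 1) + 1))
    (hn' : ∀ᶠ n in atTop, n' n ≤ 2 * (r n + 1) ^ L) :
    Tendsto (fun n => P (E1 k m D X (2 * n' n) (r n))) atTop (𝓝 0) := by
  set I := ∫⁻ t in Set.Ioi (0 : ℝ), (P {ω | X 0 ω < -t}) ^ (2 * (k + 1)) with hI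
  set C1 : ℕ := 8 * 2 ^ L + 2 * D + 1 with hC1
  set C3 : ℕ := C1 ^ (k + 1) * (4 * D + 1) ^ ((k + 1) * (m + 1)) with hC3
  refine tendsto_zero_of_mul_le (c := C3 * I ^ (L * (k + 1) + 1))
    (ENNReal.mul_ne_top (ENNReal.natCast_ne_top _) (ENNReal.pow_ne_top hA.ne)) hr 1 one_ne_zero ?_
  filter_upwards [hn', hr.eventually_ge_atTop 1] with n h1 h2
  rw [pow_one]
  have h3 := sparse_prob P k m D (2 * n' n) X hiid (r n)
  set q := P {ω | X 0 ω < -((r n : ℕ) : ℝ)} with hq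
  have h4 : (2 * (2 * n' n + D) + 1) ≤ C1 * (r n) ^ L := by
    have h5 : (r n + 1) ^ L ≤ (2 * r n) ^ L := Nat.pow_le_pow_left (by omega) _
    rw [mul_pow] at h5
    have h6 : 1 ≤ (r n) ^ L := Nat.one_le_pow _ _ h2
    have h7 : (2 * D + 1) * 1 ≤ (2 * D + 1) * (r n) ^ L := Nat.mul_le_mul_left _ h6
    calc 2 * (2 * n' n + D) + 1 ≤ 8 * (2 ^ L * (r n) ^ L) + (2 * D + 1) * 1 := by omega
      _ ≤ 8 * (2 ^ L * (r n) ^ L) + (2 * D + 1) * (r n) ^ L := by omega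
      _ = C1 * (r n) ^ L := by rw [hC1]; ring
  have h5 : (2 * (2 * n' n + D) + 1) ^ (k + 1) * (4 * D + 1) ^ ((k + 1) * (m + 1)) ≤
      C3 * (r n) ^ (L * (k + 1)) := by
    calc (2 * (2 * n' n + D) + 1) ^ (k + 1) * (4 * D + 1) ^ ((k + 1) * (m + 1))
        ≤ (C1 * (r n) ^ L) ^ (k + 1) * (4 * D + 1) ^ ((k + 1) * (m + 1)) :=
          Nat.mul_le_mul_right _ (Nat.pow_le_pow_left h4 _)
      _ = C3 * (r n) ^ (L * (k + 1)) := by rw [hC3, mul_pow, ← pow_mul]; ring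
  have hqb : (r n : ℝ≥0∞) * q ^ (2 * (k + 1)) ≤ I := by
    have := q_bound P (k + 1) (X 0) (r n)
    rwa [ENNReal.ofReal_natCast] at this
  calc (r n : ℝ≥0∞) * P (E1 k m D X (2 * n' n) (r n))
      ≤ (r n : ℝ≥0∞) * (((2 * (2 * n' n + D) + 1) ^ (k + 1) *
          (4 * D + 1) ^ ((k + 1) * (m + 1)) : ℕ) * q ^ (m + 1)) := by
        gcongr
        exact h3
    _ ≤ (r n : ℝ≥0∞) * (((C3 * (r n) ^ (L * (k + 1)) : ℕ) : ℝ≥0∞) * q ^ (m + 1)) := by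
        gcongr
    _ = C3 * ((r n : ℝ≥0∞) * q ^ (2 * (k + 1))) ^ (L * (k + 1) + 1) := by
        rw [hm, mul_pow, ← pow_mul]
        push_cast
        ring
    _ ≤ C3 * I ^ (L * (k + 1) + 1) := by
        gcongr

theorem e3_tendsto {Ω : Type*} [MeasurableSpace Ω] (P : Measure Ω) [IsProbabilityMeasure P]
    (k : ℕ) (X : (Fin (k + 1) → ℤ) → Ω → ℝ) (hiid : IsIID P (k + 1) X)
    (hA : AMinus P (k + 1) (X 0)) (r : ℕ → ℕ) (hr : Tendsto r atTop atTop) :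
    Tendsto (fun n => P (E3 k X (r n))) atTop (𝓝 0) := by
  set I := ∫⁻ t in Set.Ioi (0 : ℝ), (P {ω | X 0 ω < -t}) ^ (2 * (k + 1)) with hI
  refine tendsto_zero_of_mul_le (c := 9 ^ (2 * (k + 1) ^ 2) * I)
    (ENNReal.mul_ne_top (ENNReal.pow_ne_top (by norm_num)) hA.ne) hr (2 * (k + 1)) (by omega) ?_
  filter_upwards [hr.eventually_ge_atTop 1] with n h2
  have h3 := union_box P k (4 * (r n) ^ 2) X hiid ((r n : ℝ) ^ (8 * (k + 1) ^ 2))
  set q := P {ω | X 0 ω < -((r n : ℝ) ^ (8 * (k + 1) ^ 2))} with hq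
  have hqb : (r n : ℝ≥0∞) ^ (8 * (k + 1) ^ 2) * q ^ (2 * (k + 1)) ≤ I := by
    have := q_bound P (k + 1) (X 0) ((r n : ℝ) ^ (8 * (k + 1) ^ 2))
    rwa [ENNReal.ofReal_pow (by positivity), ENNReal.ofReal_natCast] at this
  have h4 : 2 * (4 * (r n) ^ 2) + 1 ≤ 9 * (r n) ^ 2 := by
    have : 1 ≤ (r n) ^ 2 := Nat.one_le_pow _ _ h2
    omega
  have h5 : (r n) * ((2 * (4 * (r n) ^ 2) + 1) ^ (k + 1)) ^ (2 * (k + 1)) ≤
      9 ^ (2 * (k + 1) ^ 2) * (r n) ^ (8 * (k + 1) ^ 2) := by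
    calc (r n) * ((2 * (4 * (r n) ^ 2) + 1) ^ (k + 1)) ^ (2 * (k + 1))
        ≤ (r n) * ((9 * (r n) ^ 2) ^ (k + 1)) ^ (2 * (k + 1)) := by gcongr
      _ = 9 ^ (2 * (k + 1) ^ 2) * (r n) ^ (4 * (k + 1) ^ 2 + 1) := by
          rw [← pow_mul, mul_pow, ← pow_mul]
          have e1 : (k + 1) * (2 * (k + 1)) = 2 * (k + 1) ^ 2 := by ring
          have e2 : 2 * (2 * (k + 1) ^ 2) = 4 * (k + 1) ^ 2 := by ring
          rw [e1, e2, pow_succ]
          ring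
      _ ≤ 9 ^ (2 * (k + 1) ^ 2) * (r n) ^ (8 * (k + 1) ^ 2) := by
          refine Nat.mul_le_mul_left _ (Nat.pow_le_pow_right h2 ?_)
          have : 1 ≤ (k + 1) ^ 2 := Nat.one_le_pow _ _ (by omega)
          omega
  calc (r n : ℝ≥0∞) * (P (E3 k X (r n))) ^ (2 * (k + 1))
      ≤ (r n : ℝ≥0∞) * ((((2 * (4 * (r n) ^ 2) + 1) ^ (k + 1) : ℕ) : ℝ≥0∞) * q) ^
          (2 * (k + 1)) := by
        gcongr
        exact h3
    _ = (((r n) * ((2 * (4 * (r n) ^ 2) + 1) ^ (k + 1)) ^ (2 * (k + 1)) : ℕ) : ℝ≥0∞) *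
          q ^ (2 * (k + 1)) := by
        rw [mul_pow]
        push_cast
        ring
    _ ≤ ((9 ^ (2 * (k + 1) ^ 2) * (r n) ^ (8 * (k + 1) ^ 2) : ℕ) : ℝ≥0∞) *
          q ^ (2 * (k + 1)) := by
        gcongr
    _ = 9 ^ (2 * (k + 1) ^ 2) * ((r n : ℝ≥0∞) ^ (8 * (k + 1) ^ 2) * q ^ (2 * (k + 1))) := by
        push_cast
        ring
    _ ≤ 9 ^ (2 * (k + 1) ^ 2) * I := by
        gcongr

theorem e2_tendsto {Ω : Type*} [MeasurableSpace Ω] (P : Measure Ω) [IsProbabilityMeasure P]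
    (k : ℕ) (X : (Fin (k + 1) → ℤ) → Ω → ℝ) (hiid : IsIID P (k + 1) X)
    (B δ : ℝ) (hB : 0 ≤ B) (hδ : 0 < δ) (r n' : ℕ → ℕ) (hr : Tendsto r atTop atTop)
    (hn' : ∀ᶠ n in atTop, (r n) ^ (32 * (k + 1) ^ 2) ≤ n' n) :
    Tendsto (fun n => P {ω | δ * n' n ≤
      |greedy (k + 1) (fun v => max (min (X v ω) B) (-((r n : ℝ) ^ (8 * (k + 1) ^ 2)))) (n' n) -
        ∫ ω', greedy (k + 1) (fun v => max (min (X v ω') B)
          (-((r n : ℝ) ^ (8 * (k + 1) ^ 2)))) (n' n) ∂P|}) atTop (𝓝 0) := by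
  set c : ℝ := δ ^ 2 / (4 * (B + 1) ^ 2) with hc
  have hc0 : 0 < c := by positivity
  have hlim : Tendsto (fun n => ENNReal.ofReal (2 * Real.exp (-(c * r n)))) atTop (𝓝 0) := by
    rw [← ENNReal.ofReal_zero]
    refine ENNReal.tendsto_ofReal ?_
    have h1 : Tendsto (fun n => c * (r n : ℝ)) atTop atTop :=
      (tendsto_natCast_atTop_atTop.comp hr).const_mul_atTop hc0
    have h2 := (Real.tendsto_exp_neg_atTop_nhds_zero.comp h1).const_mul 2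
    simpa using h2
  refine tendsto_of_tendsto_of_tendsto_of_le_of_le' tendsto_const_nhds hlim
    (Eventually.of_forall fun _ => zero_le) ?_
  filter_upwards [hn', hr.eventually_ge_atTop 1] with n h1 h2
  set K : ℝ := (r n : ℝ) ^ (8 * (k + 1) ^ 2) with hK
  have hr1 : (1 : ℝ) ≤ r n := by exact_mod_cast h2
  have hK1 : 1 ≤ K := one_le_pow₀ hr1
  have hn1 : 1 ≤ n' n := (Nat.one_le_pow _ _ h2).trans h1
  have hiid' : IsIID P (k + 1) (fun v ω => max (min (X v ω) B) (-K)) :=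
    IsIID.comp hiid (g := fun x => max (min x B) (-K)) (by fun_prop)
  have h3 := bounded_conc P (k + 1) (by omega) (fun v ω => max (min (X v ω) B) (-K)) hiid'
    (-K) B (by linarith)
    (fun v ω => ⟨le_max_right _ _, max_le (min_le_right _ _) (by linarith)⟩) (n' n) hn1
    (δ * n' n) (by positivity)
  refine h3.trans (ENNReal.ofReal_le_ofReal ?_)
  have hn0 : (0 : ℝ) < n' n := by exact_mod_cast hn1
  have hkey : K ^ 2 * r n ≤ n' n := by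
    have h4 : K ^ 2 * r n ≤ (r n : ℝ) ^ (32 * (k + 1) ^ 2) := by
      rw [hK, ← pow_mul, ← pow_succ]
      refine pow_le_pow_right₀ hr1 ?_
      have : 1 ≤ (k + 1) ^ 2 := Nat.one_le_pow _ _ (by omega)
      omega
    have h5 : ((r n : ℝ)) ^ (32 * (k + 1) ^ 2) ≤ n' n := by exact_mod_cast h1
    linarith
  have hexp : c * r n ≤ (δ * n' n) ^ 2 / (4 * n' n * (B - -K) ^ 2) := by
    rw [hc, div_mul_eq_mul_div, div_le_div_iff₀ (by positivity)
      (mul_pos (mul_pos (by norm_num) hn0) (pow_pos (by linarith) 2))]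
    have h6 : (B - -K) ^ 2 ≤ (B + 1) ^ 2 * K ^ 2 := by
      rw [← mul_pow]
      refine pow_le_pow_left₀ (by linarith) ?_ 2
      have := mul_le_mul_of_nonneg_left hK1 hB
      linarith
    calc δ ^ 2 * r n * (4 * n' n * (B - -K) ^ 2)
        ≤ δ ^ 2 * r n * (4 * n' n * ((B + 1) ^ 2 * K ^ 2)) := by gcongr
      _ = (K ^ 2 * r n) * (δ ^ 2 * n' n * (4 * (B + 1) ^ 2)) := by ring
      _ ≤ n' n * (δ ^ 2 * n' n * (4 * (B + 1) ^ 2)) := by gcongr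
      _ = (δ * n' n) ^ 2 * (4 * (B + 1) ^ 2) := by ring
  have : Real.exp (-((δ * n' n) ^ 2) / (4 * n' n * (B - -K) ^ 2)) ≤ Real.exp (-(c * r n)) := by
    apply Real.exp_le_exp.2
    rw [neg_div]
    linarith
  linarith

open Classical in
theorem lower_prob {Ω : Type*} [MeasurableSpace Ω] (P : Measure Ω) [IsProbabilityMeasure P]
    (k : ℕ) (hk : 1 ≤ k) (X : (Fin (k + 1) → ℤ) → Ω → ℝ) (hiid : IsIID P (k + 1) X)
    (hA : AMinus P (k + 1) (X 0)) (B G : ℝ) (hB : 0 ≤ B)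
    (hG : ∀ K n : ℕ, 1 ≤ n → (n : ℝ) * G -
      4 * (B + K) * (n * Real.sqrt ((k + 1 : ℕ) * Real.log (2 * n + 2) / n)) ≤
        ∫ ω, greedy (k + 1) (fun v => max (min (X v ω) B) (-(K : ℝ))) n ∂P)
    (ε0 : ℝ) (hε0 : 0 < ε0) :
    Tendsto (fun n : ℕ => P {ω | greedy (k + 1) (fun v => min (X v ω) B) n < (G - ε0) * n})
      atTop (𝓝 0) := by
  set L := 32 * (k + 1) ^ 2 with hL
  have hd2 : 1 ≤ (k + 1) ^ 2 := Nat.one_le_pow _ _ (by omega)
  obtain ⟨m, hm⟩ : ∃ m : ℕ, m + 1 = 2 * (k + 1) * (L * (k + 1) + 1) :=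
    ⟨2 * (k + 1) * (L * (k + 1) + 1) - 1, Nat.sub_add_cancel (Nat.one_le_iff_ne_zero.2
      (by positivity))⟩
  obtain ⟨D, C, hdet⟩ := det_core k m hk
  obtain ⟨δ, R, hδ, hR1, hnum⟩ := numerics (k + 1) (by omega) B G ε0 hB hε0 C
  obtain ⟨r, hr1, hr2, hr3⟩ := exists_root L (by omega)
  have hch : ∀ n : ℕ, ∃ n' c : ℕ, R ≤ r n → n ≤ n' ∧ n' ≤ 2 * n ∧ C ≤ (r n) ^ 2 ∧
      (∀ w : ℕ, (r n : ℝ) ^ (8 * (k + 1) ^ 2) * w ≤ B * n' - (G - 2 * δ) * n' →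
        C * (n' / (r n) ^ 2 + 1 + w * ((r n) ^ 2) ^ (k + 1)) ≤ c) ∧
      n + c ≤ n' ∧
      (G - ε0) * n ≤ (G - 2 * δ) * n' - (B + r n) * c - B * ((n' : ℝ) + c - n) ∧
      4 * (B + (r n : ℝ) ^ (8 * (k + 1) ^ 2)) *
        (n' * Real.sqrt ((k + 1 : ℕ) * Real.log (2 * n' + 2) / n')) ≤ δ * n' := by
    intro n
    by_cases h : R ≤ r n
    · obtain ⟨n', c, h1⟩ := hnum (r n) n h (hr1 n) (hr2 n)
      exact ⟨n', c, fun _ => h1⟩
    · exact ⟨0, 0, fun h' => absurd h' h⟩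
  choose n' c hnc using hch
  have hRev : ∀ᶠ n in atTop, R ≤ r n := hr3.eventually_ge_atTop R
  have ht1 := e1_tendsto P k m D L X hiid hA r n' hr3 hm (by
    filter_upwards [hRev] with n hn
    have h1 := (hnc n hn).2.1
    have h2 := hr2 n
    omega)
  have ht3 := e3_tendsto P k X hiid hA r hr3
  have ht2 := e2_tendsto P k X hiid B δ hB hδ r n' hr3 (by
    filter_upwards [hRev] with n hn
    exact (hr1 n).trans (hnc n hn).1)
  have hsum := (ht1.add ht2).add ht3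
  simp only [add_zero] at hsum
  refine tendsto_of_tendsto_of_tendsto_of_le_of_le' tendsto_const_nhds hsum
    (Eventually.of_forall fun _ => zero_le) ?_
  filter_upwards [hRev, eventually_ge_atTop 1] with n hn hn1
  obtain ⟨h1, h2, h3, h4, h5, h6, h7⟩ := hnc n hn
  refine (measure_mono ?_).trans ((measure_union_le _ _).trans
    (add_le_add_left (measure_union_le _ _) _))
  intro ω hω
  by_contra hcon
  simp only [Set.mem_union, not_or] at hcon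
  obtain ⟨⟨hc1, hc2⟩, hc3⟩ := hcon
  simp only [Set.mem_ofPred_eq] at hω hc2
  have hrR : 1 ≤ r n := hR1.trans hn
  have hrR' : (1 : ℝ) ≤ r n := by exact_mod_cast hrR
  have hGn := hG ((r n) ^ (8 * (k + 1) ^ 2)) (n' n) (by omega)
  push_cast at hGn
  push_cast at h7
  refine absurd (hdet (fun v => X v ω) B ((r n : ℝ) ^ (8 * (k + 1) ^ 2)) (r n)
    ((G - 2 * δ) * n' n) ((r n) ^ 2) n (n' n) (c n) hB (by positivity)
    (le_self_pow₀ hrR' (by positivity)) h3 ?_ ?_ ?_ h4 h5) ?_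
  · push Not at hc2
    have := (abs_lt.1 hc2).1
    linarith
  · intro F hF hF'
    by_contra hns
    exact hc1 ⟨F, hF, hF', hns⟩
  · intro v hv1 hv2
    by_contra hns
    push Not at hns
    refine hc3 ⟨v, ?_, hns⟩
    simp only [box, Finset.mem_product, Finset.mem_Icc, Fintype.mem_piFinset]
    push_cast at hv1 hv2 ⊢
    exact ⟨abs_le.1 hv1, fun j => abs_le.1 (hv2 j)⟩
  · rw [not_le]
    exact lt_of_lt_of_le hω h6

end Pool.Agent.Helper82.GP
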