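import Pool.Agent.Helper82.GP.Upper
import Pool.Agent.Helper82.GP.Fallback
import Pool.Agent.Helper82.GP.MainLow

/-!
The convergence theorem in dimension at least two.
-/

namespace Pool.Agent.Helper82.GP

open MeasureTheory ProbabilityTheory Filter
open scoped ENNReal Topology
open Pool.Agent.Helper82.Greedy

theorem tendsto_zero_of_real (a : ℕ → ℝ≥0∞)
    (h : ∀ δ : ℝ, 0 < δ → ∀ᶠ n in atTop, a n ≤ ENNReal.ofReal δ) : Tendsto a atTop (𝓝 0) := by
  rw [ENNReal.tendsto_nhds_zero]
  intro ε hε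
  rcases eq_or_ne ε ⊤ with h1 | h1
  · exact Eventually.of_forall fun n => by rw [h1]; exact le_top
  · have := h ε.toReal (ENNReal.toReal_pos hε.ne' h1)
    rwa [ENNReal.ofReal_toReal h1] at this

theorem bounded_L1 {Ω : Type*} [MeasurableSpace Ω] (P : Measure Ω) [IsProbabilityMeasure P]
    (d : ℕ) (hd : 1 ≤ d) (X : (Fin d → ℤ) → Ω → ℝ) (hiid : IsIID P d X) (lo hi : ℝ)
    (hlh : lo < hi) (hb : ∀ v ω, lo ≤ X v ω ∧ X v ω ≤ hi) (f : ℝ)
    (hf : Tendsto (fun n : ℕ => (∫ ω, greedy d (fun v => X v ω) n ∂P) / n) atTop (𝓝 f)) :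
    Tendsto (fun n : ℕ => ∫⁻ ω, ENNReal.ofReal |greedy d (fun v => X v ω) n / n - f| ∂P)
      atTop (𝓝 0) := by
  refine tendsto_zero_of_real _ fun δ hδ => ?_
  set A : ℕ → Set Ω := fun n => {ω | δ / 3 * n ≤ |greedy d (fun v => X v ω) n -
    ∫ ω', greedy d (fun v => X v ω') n ∂P|} with hA
  have hl : 0 < hi - lo := by linarith
  have hPA : ∀ᶠ n in atTop, P (A n) ≤ ENNReal.ofReal (δ / 3 / (hi - lo)) := by
    have h1 : Tendsto (fun n : ℕ => 2 * Real.exp (-((δ / 3) ^ 2 / (4 * (hi - lo) ^ 2) * (n : ℝ))))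
        atTop (𝓝 0) := by
      have h2 : Tendsto (fun n : ℕ => (δ / 3) ^ 2 / (4 * (hi - lo) ^ 2) * (n : ℝ)) atTop atTop :=
        tendsto_natCast_atTop_atTop.const_mul_atTop (by positivity)
      have h3 := (Real.tendsto_exp_neg_atTop_nhds_zero.comp h2).const_mul 2
      simpa using h3
    have h4 : ∀ᶠ n : ℕ in atTop, 2 * Real.exp (-((δ / 3) ^ 2 / (4 * (hi - lo) ^ 2) * (n : ℝ))) <
        δ / 3 / (hi - lo) := h1.eventually_lt_const (by positivity)
    filter_upwards [h4, eventually_ge_atTop 1] with n h5 hn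
    have hn0 : (0 : ℝ) < n := by exact_mod_cast hn
    refine (bounded_conc P d hd X hiid lo hi hlh hb n hn (δ / 3 * n) (by positivity)).trans
      (ENNReal.ofReal_le_ofReal ?_)
    have h6 : -((δ / 3 * n) ^ 2) / (4 * n * (hi - lo) ^ 2) =
        -((δ / 3) ^ 2 / (4 * (hi - lo) ^ 2) * (n : ℝ)) := by
      field_simp
    rw [h6]
    exact h5.le
  have hf2 : ∀ᶠ n : ℕ in atTop, |(∫ ω, greedy d (fun v => X v ω) n ∂P) / n - f| < δ / 3 := by
    have := (Metric.tendsto_nhds.1 hf) (δ / 3) (by positivity)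
    simpa [Real.dist_eq] using this
  filter_upwards [hPA, hf2, eventually_ge_atTop 1] with n h1 h2 hn
  have hn0 : (0 : ℝ) < n := by exact_mod_cast hn
  set E := ∫ ω', greedy d (fun v => X v ω') n ∂P with hE
  have hmeas : MeasurableSet (A n) := by
    refine measurableSet_le measurable_const ?_
    exact (((measurable_greedy hd hiid.1 n).sub_const _)).abs
  have hbd : ∀ ω, n * lo ≤ greedy d (fun v => X v ω) n ∧ greedy d (fun v => X v ω) n ≤ n * hi :=
    fun ω => ⟨const_le_greedy hd (fun v => (hb v ω).1) n, greedy_le_const hd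
      (fun v => (hb v ω).2) n⟩
  have hint := integrable_greedy P hd hiid.1 hb n
  have hE1 : n * lo ≤ E := by
    have := integral_mono (integrable_const (n * lo)) hint fun ω => (hbd ω).1
    simpa using this
  have hE2 : E ≤ n * hi := by
    have := integral_mono hint (integrable_const (n * hi)) fun ω => (hbd ω).2
    simpa using this
  have hpt : ∀ ω, ENNReal.ofReal |greedy d (fun v => X v ω) n / n - f| ≤
      (ENNReal.ofReal (δ / 3) + (A n).indicator (fun _ => ENNReal.ofReal (hi - lo)) ω) +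
        ENNReal.ofReal (δ / 3) := by
    intro ω
    have h3 : |greedy d (fun v => X v ω) n / n - f| ≤
        |greedy d (fun v => X v ω) n - E| / n + |E / n - f| := by
      have h4 : greedy d (fun v => X v ω) n / n - f =
          (greedy d (fun v => X v ω) n - E) / n + (E / n - f) := by ring
      rw [h4]
      refine (abs_add_le _ _).trans (le_of_eq ?_)
      rw [abs_div, abs_of_pos hn0]
    refine (ENNReal.ofReal_le_ofReal h3).trans (ENNReal.ofReal_add_le.trans ?_)
    refine add_le_add ?_ (ENNReal.ofReal_le_ofReal h2.le)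
    by_cases hω : ω ∈ A n
    · rw [Set.indicator_of_mem hω]
      refine le_add_left (ENNReal.ofReal_le_ofReal ?_)
      rw [div_le_iff₀ hn0, abs_le]
      have := hbd ω
      constructor <;> nlinarith
    · rw [Set.indicator_of_notMem hω, add_zero]
      refine ENNReal.ofReal_le_ofReal ?_
      rw [div_le_iff₀ hn0]
      simp only [hA, Set.mem_ofPred_eq, not_le] at hω
      exact hω.le
  calc ∫⁻ ω, ENNReal.ofReal |greedy d (fun v => X v ω) n / n - f| ∂P
      ≤ ∫⁻ ω, ((ENNReal.ofReal (δ / 3) + (A n).indicator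
          (fun _ => ENNReal.ofReal (hi - lo)) ω) + ENNReal.ofReal (δ / 3)) ∂P :=
        lintegral_mono hpt
    _ = ENNReal.ofReal (δ / 3) + ENNReal.ofReal (hi - lo) * P (A n) +
          ENNReal.ofReal (δ / 3) := by
        rw [lintegral_add_right _ measurable_const, lintegral_add_left measurable_const,
          lintegral_indicator_const hmeas]
        simp
    _ ≤ ENNReal.ofReal (δ / 3) + ENNReal.ofReal (hi - lo) * ENNReal.ofReal (δ / 3 / (hi - lo)) +
          ENNReal.ofReal (δ / 3) := by gcongr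
    _ = ENNReal.ofReal δ := by
        rw [← ENNReal.ofReal_mul hl.le, ← ENNReal.ofReal_add (by positivity) (by positivity),
          ← ENNReal.ofReal_add (by positivity) (by positivity)]
        congr 1
        field_simp
        ring

theorem tail_tendsto {Ω : Type*} [MeasurableSpace Ω] (P : Measure Ω) [IsProbabilityMeasure P]
    (d : ℕ) (hd : 1 ≤ d) (Y : Ω → ℝ) (hY : Measurable Y)
    (hfin : ∫⁻ t in Set.Ioi (0 : ℝ), (P {ω | t < Y ω}) ^ (1 / (d : ℝ)) < ⊤) :
    Tendsto (fun B : ℕ => ∫⁻ t in Set.Ioi (0 : ℝ),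
      (P {ω | t < max (Y ω - B) 0}) ^ (1 / (d : ℝ))) atTop (𝓝 0) := by
  have hd0 : (0 : ℝ) < 1 / (d : ℝ) := by
    have : (0 : ℝ) < d := by exact_mod_cast hd
    positivity
  have h := tendsto_lintegral_of_dominated_convergence (μ := volume.restrict (Set.Ioi (0 : ℝ)))
    (F := fun (B : ℕ) t => (P {ω | t < max (Y ω - B) 0}) ^ (1 / (d : ℝ))) (f := fun _ => 0)
    (fun t => (P {ω | t < Y ω}) ^ (1 / (d : ℝ))) ?_ ?_ hfin.ne ?_
  · simpa using h
  · intro B
    refine Antitone.measurable fun s t hst => ?_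
    refine ENNReal.rpow_le_rpow (measure_mono fun ω hω => ?_) hd0.le
    exact lt_of_le_of_lt hst hω
  · intro B
    refine (ae_restrict_iff' measurableSet_Ioi).2 (Eventually.of_forall fun t ht => ?_)
    refine ENNReal.rpow_le_rpow (measure_mono fun ω hω => ?_) hd0.le
    have ht' : (0 : ℝ) < t := ht
    rcases lt_max_iff.1 (show t < max (Y ω - B) 0 from hω) with h1 | h1
    · have : (0 : ℝ) ≤ B := by positivity
      show t < Y ω
      linarith
    · exact absurd h1 (not_lt.2 ht'.le)
  · refine (ae_restrict_iff' measurableSet_Ioi).2 (Eventually.of_forall fun t ht => ?_)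
    have ht' : (0 : ℝ) < t := ht
    have h1 : Tendsto (fun B : ℕ => P {ω | t < max (Y ω - B) 0}) atTop (𝓝 0) := by
      have h2 := tendsto_measure_iInter_atTop (μ := P)
        (s := fun B : ℕ => {ω | t < max (Y ω - B) 0}) (fun B => ?_) (fun B B' hBB ω hω => ?_)
        ⟨0, measure_ne_top _ _⟩
      · have h3 : (⋂ B : ℕ, {ω | t < max (Y ω - B) 0}) = ∅ := by
          rw [Set.eq_empty_iff_forall_notMem]
          intro ω hω
          rw [Set.mem_iInter] at hω
          obtain ⟨B, hB⟩ := exists_nat_ge (Y ω)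
          rcases lt_max_iff.1 (show t < max (Y ω - B) 0 from hω B) with h1 | h1 <;> linarith
        rw [h3, measure_empty] at h2
        exact h2
      · exact (measurableSet_lt measurable_const
          ((hY.sub_const _).max measurable_const)).nullMeasurableSet
      · have hBB' : (B : ℝ) ≤ B' := by exact_mod_cast hBB
        refine lt_of_lt_of_le (show t < max (Y ω - B') 0 from hω) ?_
        exact max_le_max (by linarith) le_rfl
    have h2 := (ENNReal.continuous_rpow_const (y := 1 / (d : ℝ))).tendsto 0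
    rw [ENNReal.zero_rpow_of_pos hd0] at h2
    exact h2.comp h1

theorem int_ge {Ω : Type*} [MeasurableSpace Ω] (P : Measure Ω) (W : Ω → ℝ)
    (hW : Integrable W P) (c : ℝ≥0∞) (hc : c ≠ ⊤)
    (h : ∫⁻ ω, ENNReal.ofReal (-(W ω)) ∂P ≤ c) : -c.toReal ≤ ∫ ω, W ω ∂P := by
  rw [integral_eq_lintegral_pos_part_sub_lintegral_neg_part hW]
  have h1 := ENNReal.toReal_mono hc h
  have h2 : 0 ≤ (∫⁻ ω, ENNReal.ofReal (W ω) ∂P).toReal := ENNReal.toReal_nonneg
  linarith

theorem int_le {Ω : Type*} [MeasurableSpace Ω] (P : Measure Ω) (W : Ω → ℝ)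
    (hW : Integrable W P) (c : ℝ≥0∞) (hc : c ≠ ⊤)
    (h : ∫⁻ ω, ENNReal.ofReal (W ω) ∂P ≤ c) : ∫ ω, W ω ∂P ≤ c.toReal := by
  rw [integral_eq_lintegral_pos_part_sub_lintegral_neg_part hW]
  have h1 := ENNReal.toReal_mono hc h
  have h2 : 0 ≤ (∫⁻ ω, ENNReal.ofReal (-(W ω)) ∂P).toReal := ENNReal.toReal_nonneg
  linarith

theorem main_pos {Ω : Type*} [MeasurableSpace Ω] (P : Measure Ω) [IsProbabilityMeasure P]
    (d : ℕ) (hd : 2 ≤ d) (X : (Fin d → ℤ) → Ω → ℝ) (hiid : IsIID P d X)
    (hp : APlus P d (X 0)) (hm : AMinus P d (X 0)) : ∃ M : ℝ, ConvergesL1 P d X M := by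
  obtain ⟨k, rfl⟩ : ∃ k, d = k + 1 := ⟨d - 1, by omega⟩
  have hk : 1 ≤ k := by omega
  have hd1 : 1 ≤ k + 1 := by omega
  have hX0 : Measurable (X 0) := hiid.1 0
  -- the fallback
  have hiidY : IsIID P (k + 1) (fun v ω => min (X v ω) 0) :=
    IsIID.comp hiid (g := fun x => min x 0) (by fun_prop)
  have hAY : AMinus P (k + 1) (fun ω => min (X 0 ω) 0) := by
    unfold AMinus at hm ⊢
    refine lt_of_le_of_lt ?_ hm
    refine setLIntegral_mono' measurableSet_Ioi fun t ht => ?_
    refine pow_le_pow_left' (measure_mono fun ω hω => ?_) _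
    have ht' : (0 : ℝ) < t := ht
    rcases min_lt_iff.1 (show min (X 0 ω) 0 < -t from hω) with h1 | h1
    · exact h1
    · linarith
  obtain ⟨K0, Z, hK0, hZm, hZ, hfb⟩ := fallback P (k + 1) hd _ hiidY hAY
  -- truncated weights
  have hb : ∀ (B K : ℕ) (v : Fin (k + 1) → ℤ) (ω : Ω),
      -(K : ℝ) ≤ max (min (X v ω) B) (-(K : ℝ)) ∧ max (min (X v ω) B) (-(K : ℝ)) ≤ B := by
    intro B K v ω
    have h1 : (0 : ℝ) ≤ B := by positivity
    have h2 : (0 : ℝ) ≤ K := by positivity
    exact ⟨le_max_right _ _, max_le (min_le_right _ _) (by linarith)⟩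
  have hiidT : ∀ B K : ℕ, IsIID P (k + 1) (fun v ω => max (min (X v ω) B) (-(K : ℝ))) :=
    fun B K => IsIID.comp hiid (g := fun x => max (min x (B : ℝ)) (-(K : ℝ))) (by fun_prop)
  have hlim : ∀ B K : ℕ, ∃ f : ℝ,
      Tendsto (fun n : ℕ => (∫ ω, greedy (k + 1)
        (fun v => max (min (X v ω) B) (-(K : ℝ))) n ∂P) / n) atTop (𝓝 f) ∧
      ∀ n : ℕ, 1 ≤ n → (n : ℝ) * f -
        4 * ((B : ℝ) - -(K : ℝ)) * (n * Real.sqrt ((k + 1 : ℕ) * Real.log (2 * n + 2) / n)) ≤
        ∫ ω, greedy (k + 1) (fun v => max (min (X v ω) B) (-(K : ℝ))) n ∂P := fun B K =>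
    bounded_limit P (k + 1) hd1 (fun v ω => max (min (X v ω) B) (-(K : ℝ))) (hiidT B K)
      (-(K : ℝ)) B (neg_nonpos.2 (Nat.cast_nonneg K)) (Nat.cast_nonneg B) (hb B K)
  choose F hF hFr using hlim
  have hintT : ∀ B K n : ℕ, Integrable (fun ω => greedy (k + 1)
      (fun v => max (min (X v ω) B) (-(K : ℝ))) n) P := fun B K n =>
    integrable_greedy P hd1 (hiidT B K).1 (hb B K) n
  -- lower bound on F
  have hFlow : ∀ B K, -K0 ≤ F B K := by
    intro B K
    have h1 : ∀ n : ℕ, 1 ≤ n → -K0 - (∫⁻ ω, Z ω ∂P).toReal / n ≤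
        (∫ ω, greedy (k + 1) (fun v => max (min (X v ω) B) (-(K : ℝ))) n ∂P) / n := by
      intro n hn
      have hn0 : (0 : ℝ) < n := by exact_mod_cast hn
      rw [le_div_iff₀ hn0]
      have h2 := int_ge P _ (hintT B K n) (ENNReal.ofReal (K0 * n) + ∫⁻ ω, Z ω ∂P)
        (ENNReal.add_ne_top.2 ⟨ENNReal.ofReal_ne_top, hZ.ne⟩) ?_
      · rw [ENNReal.toReal_add ENNReal.ofReal_ne_top hZ.ne,
          ENNReal.toReal_ofReal (by positivity)] at h2
        refine le_trans (le_of_eq ?_) h2
        field_simp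
        ring
      · calc ∫⁻ ω, ENNReal.ofReal (-(greedy (k + 1)
              (fun v => max (min (X v ω) B) (-(K : ℝ))) n)) ∂P
            ≤ ∫⁻ ω, (ENNReal.ofReal (K0 * n) + Z ω) ∂P := by
              refine lintegral_mono_ae ?_
              filter_upwards [hfb] with ω hω
              refine le_trans (ENNReal.ofReal_le_ofReal ?_) (hω n)
              refine neg_le_neg (greedy_mono hd1 (fun v => ?_) n)
              refine le_max_of_le_left (min_le_min le_rfl (by positivity))
          _ = ENNReal.ofReal (K0 * n) + ∫⁻ ω, Z ω ∂P := by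
              rw [lintegral_add_left measurable_const]
              simp
    have h2 : Tendsto (fun n : ℕ => -K0 - (∫⁻ ω, Z ω ∂P).toReal / n) atTop (𝓝 (-K0 - 0)) :=
      tendsto_const_nhds.sub (tendsto_const_div_atTop_nhds_zero_nat _)
    rw [sub_zero] at h2
    refine le_of_tendsto_of_tendsto h2 (hF B K) ?_
    filter_upwards [eventually_ge_atTop 1] with n hn
    exact h1 n hn
  -- upper tails
  obtain ⟨C, hC, hup⟩ := greedy_upper (k + 1) hd1
  have hfin := aplus_integral P (k + 1) hd1 (X 0) hX0 hp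
  set J : ℕ → ℝ≥0∞ := fun B => ∫⁻ t in Set.Ioi (0 : ℝ),
    (P {ω | t < max (X 0 ω - B) 0}) ^ (1 / ((k + 1 : ℕ) : ℝ)) with hJ
  have hJ0 : Tendsto J atTop (𝓝 0) := tail_tendsto P (k + 1) hd1 (X 0) hX0 hfin
  have hupJ : ∀ B n : ℕ, ∫⁻ ω, ENNReal.ofReal (greedy (k + 1)
      (fun v => max (X v ω - B) 0) n) ∂P ≤ C * n * J B := by
    intro B n
    exact hup P (fun v ω => max (X v ω - B) 0)
      (IsIID.comp hiid (g := fun x => max (x - B) 0) (by fun_prop)) (fun v ω => le_max_right _ _) n
  have hJfin : J 0 < ⊤ := by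
    refine lt_of_le_of_lt ?_ hfin
    simp only [hJ]
    refine setLIntegral_mono' measurableSet_Ioi fun t ht => ?_
    have ht' : (0 : ℝ) < t := ht
    refine ENNReal.rpow_le_rpow (measure_mono fun ω hω => ?_) (by positivity)
    rcases lt_max_iff.1 (show t < max (X 0 ω - (0 : ℕ)) 0 from hω) with h1 | h1
    · simpa using h1
    · exact absurd h1 (not_lt.2 ht'.le)
  -- upper bound on F
  have hFup : ∀ B K, F B K ≤ (C * J 0).toReal := by
    intro B K
    refine le_of_tendsto (hF B K) ?_
    filter_upwards [eventually_ge_atTop 1] with n hn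
    have hn0 : (0 : ℝ) < n := by exact_mod_cast hn
    rw [div_le_iff₀ hn0]
    have h2 := int_le P _ (hintT B K n) (C * n * J 0)
      (ENNReal.mul_ne_top (ENNReal.mul_ne_top hC (ENNReal.natCast_ne_top n)) hJfin.ne) ?_
    · refine h2.trans (le_of_eq ?_)
      rw [ENNReal.toReal_mul, ENNReal.toReal_mul, ENNReal.toReal_mul, ENNReal.toReal_natCast]
      ring
    · refine (lintegral_mono fun ω => ENNReal.ofReal_le_ofReal ?_).trans (hupJ 0 n)
      refine greedy_mono hd1 (fun v => ?_) n
      have h3 : (0 : ℝ) ≤ K := by positivity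
      refine max_le ?_ (le_max_of_le_right (by linarith))
      refine (min_le_left _ _).trans (le_max_of_le_left (by simp))
  have hbddK : ∀ B, BddBelow (Set.range (F B)) := fun B => ⟨-K0, by
    rintro _ ⟨K, rfl⟩
    exact hFlow B K⟩
  set G : ℕ → ℝ := fun B => ⨅ K, F B K with hG
  have hGF : ∀ B K, G B ≤ F B K := fun B K => ciInf_le (hbddK B) K
  have hbddG : BddAbove (Set.range G) := ⟨(C * J 0).toReal, by
    rintro _ ⟨B, rfl⟩
    exact (hGF B 0).trans (hFup B 0)⟩
  set M : ℝ := ⨆ B, G B with hM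
  have hGM : ∀ B, G B ≤ M := fun B => le_ciSup hbddG B
  refine ⟨M, ?_⟩
  -- upper half
  have hupper : Tendsto (fun n : ℕ => ∫⁻ ω, ENNReal.ofReal
      (greedy (k + 1) (fun v => X v ω) n / n - M) ∂P) atTop (𝓝 0) := by
    refine tendsto_zero_of_real _ fun δ hδ => ?_
    have hδ3 : 0 < δ / 3 := by positivity
    have hCJ : Tendsto (fun B => C * J B) atTop (𝓝 0) := by
      have := ENNReal.Tendsto.const_mul hJ0 (Or.inr hC)
      simpa using this
    obtain ⟨B, hB, hB1⟩ := (((ENNReal.tendsto_nhds_zero.1 hCJ) (ENNReal.ofReal (δ / 3))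
      (ENNReal.ofReal_pos.2 hδ3)).and (eventually_ge_atTop 1)).exists
    obtain ⟨K, hK⟩ := exists_lt_of_ciInf_lt (show G B < M + δ / 3 by linarith [hGM B])
    have hB0 : (1 : ℝ) ≤ B := by exact_mod_cast hB1
    have hK0' : (0 : ℝ) ≤ K := by positivity
    have hbl := bounded_L1 P (k + 1) hd1 _ (hiidT B K) (-(K : ℝ)) B (by linarith) (hb B K)
      (F B K) (hF B K)
    filter_upwards [(ENNReal.tendsto_nhds_zero.1 hbl) (ENNReal.ofReal (δ / 3))
      (ENNReal.ofReal_pos.2 hδ3), eventually_ge_atTop 1] with n hn hn1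
    have hn0 : (0 : ℝ) < n := by exact_mod_cast hn1
    have hpt : ∀ ω, ENNReal.ofReal (greedy (k + 1) (fun v => X v ω) n / n - M) ≤
        (ENNReal.ofReal |greedy (k + 1) (fun v => max (min (X v ω) B) (-(K : ℝ))) n / n - F B K| +
          ENNReal.ofReal (δ / 3)) +
          ENNReal.ofReal (greedy (k + 1) (fun v => max (X v ω - B) 0) n) * (n : ℝ≥0∞)⁻¹ := by
      intro ω
      have h1 : greedy (k + 1) (fun v => X v ω) n ≤
          greedy (k + 1) (fun v => max (min (X v ω) B) (-(K : ℝ))) n +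
          greedy (k + 1) (fun v => max (X v ω - B) 0) n := by
        refine (greedy_mono hd1 (fun v => ?_) n).trans (greedy_add_le hd1 _ _ n)
        rcases le_total (X v ω) B with h2 | h2
        · rw [min_eq_left h2]
          have := le_max_left (X v ω) (-(K : ℝ))
          have := le_max_right (X v ω - B) 0
          linarith
        · rw [min_eq_right h2]
          have := le_max_left (B : ℝ) (-(K : ℝ))
          have := le_max_left (X v ω - B) 0
          linarith
      have h2 : greedy (k + 1) (fun v => X v ω) n / n - M ≤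
          (|greedy (k + 1) (fun v => max (min (X v ω) B) (-(K : ℝ))) n / n - F B K| + δ / 3) +
            greedy (k + 1) (fun v => max (X v ω - B) 0) n / n := by
        have h3 : greedy (k + 1) (fun v => X v ω) n / n ≤
            greedy (k + 1) (fun v => max (min (X v ω) B) (-(K : ℝ))) n / n +
            greedy (k + 1) (fun v => max (X v ω - B) 0) n / n := by
          rw [← add_div]
          exact div_le_div_of_nonneg_right h1 hn0.le
        have h4 := le_abs_self
          (greedy (k + 1) (fun v => max (min (X v ω) B) (-(K : ℝ))) n / n - F B K)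
        linarith
      refine (ENNReal.ofReal_le_ofReal h2).trans (ENNReal.ofReal_add_le.trans ?_)
      refine add_le_add ENNReal.ofReal_add_le (le_of_eq ?_)
      rw [ENNReal.ofReal_div_of_pos hn0, ENNReal.ofReal_natCast, div_eq_mul_inv]
    have hmB : Measurable (fun ω => greedy (k + 1) (fun v => max (X v ω - B) 0) n) :=
      measurable_greedy hd1 (X := fun v ω => max (X v ω - B) 0)
        (fun v => ((hiid.1 v).sub_const _).max measurable_const) n
    calc ∫⁻ ω, ENNReal.ofReal (greedy (k + 1) (fun v => X v ω) n / n - M) ∂P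
        ≤ ∫⁻ ω, ((ENNReal.ofReal |greedy (k + 1)
            (fun v => max (min (X v ω) B) (-(K : ℝ))) n / n - F B K| +
          ENNReal.ofReal (δ / 3)) +
          ENNReal.ofReal (greedy (k + 1) (fun v => max (X v ω - B) 0) n) * (n : ℝ≥0∞)⁻¹) ∂P :=
          lintegral_mono hpt
      _ = (∫⁻ ω, ENNReal.ofReal |greedy (k + 1)
            (fun v => max (min (X v ω) B) (-(K : ℝ))) n / n - F B K| ∂P +
          ENNReal.ofReal (δ / 3)) +
          (∫⁻ ω, ENNReal.ofReal (greedy (k + 1) (fun v => max (X v ω - B) 0) n) ∂P) *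
            (n : ℝ≥0∞)⁻¹ := by
          rw [lintegral_add_right _ (hmB.ennreal_ofReal.mul_const _),
            lintegral_add_right _ measurable_const, lintegral_mul_const _ hmB.ennreal_ofReal]
          simp
      _ ≤ (ENNReal.ofReal (δ / 3) + ENNReal.ofReal (δ / 3)) + (C * n * J B) * (n : ℝ≥0∞)⁻¹ := by
          gcongr
          exact hupJ B n
      _ = (ENNReal.ofReal (δ / 3) + ENNReal.ofReal (δ / 3)) + C * J B := by
          have h5 : (n : ℝ≥0∞) * (n : ℝ≥0∞)⁻¹ = 1 :=
            ENNReal.mul_inv_cancel (by exact_mod_cast (by omega : n ≠ 0))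
              (ENNReal.natCast_ne_top n)
          have h6 : (C * n * J B) * (n : ℝ≥0∞)⁻¹ = C * J B * ((n : ℝ≥0∞) * (n : ℝ≥0∞)⁻¹) := by
            ring
          rw [h6, h5, mul_one]
      _ ≤ (ENNReal.ofReal (δ / 3) + ENNReal.ofReal (δ / 3)) + ENNReal.ofReal (δ / 3) := by
          gcongr
      _ = ENNReal.ofReal δ := by
          rw [← ENNReal.ofReal_add (by positivity) (by positivity),
            ← ENNReal.ofReal_add (by positivity) (by positivity)]
          congr 1
          ring
  -- lower half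
  have hlower : Tendsto (fun n : ℕ => ∫⁻ ω, ENNReal.ofReal
      (M - greedy (k + 1) (fun v => X v ω) n / n) ∂P) atTop (𝓝 0) := by
    refine tendsto_zero_of_real _ fun δ hδ => ?_
    obtain ⟨B, hB⟩ := exists_lt_of_lt_ciSup (show M - δ / 4 < M by linarith)
    have hB0 : (0 : ℝ) ≤ B := by positivity
    set A : ℕ → Set Ω := fun n => {ω | greedy (k + 1) (fun v => min (X v ω) B) n <
      (G B - δ / 4) * n} with hA
    have hPA := lower_prob P k hk X hiid hm B (G B) hB0 (fun K n hn => by
      refine le_trans ?_ (hFr B K n hn)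
      have h1 : (n : ℝ) * G B ≤ n * F B K := mul_le_mul_of_nonneg_left (hGF B K) (by positivity)
      have h2 : (B : ℝ) - -(K : ℝ) = B + K := by ring
      rw [h2]
      linarith) (δ / 4) (by positivity)
    have hlim2 : Tendsto (fun n : ℕ => ENNReal.ofReal (δ / 2) +
        ENNReal.ofReal (|M| + K0) * P (A n) + (∫⁻ ω, Z ω ∂P) * (n : ℝ≥0∞)⁻¹) atTop
        (𝓝 (ENNReal.ofReal (δ / 2))) := by
      have h1 : Tendsto (fun n : ℕ => ENNReal.ofReal (|M| + K0) * P (A n)) atTop (𝓝 0) := by
        have := ENNReal.Tendsto.const_mul hPA (Or.inr (ENNReal.ofReal_ne_top (r := |M| + K0)))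
        simpa using this
      have h2 : Tendsto (fun n : ℕ => (∫⁻ ω, Z ω ∂P) * (n : ℝ≥0∞)⁻¹) atTop (𝓝 0) := by
        have := ENNReal.Tendsto.const_mul ENNReal.tendsto_inv_nat_nhds_zero
          (Or.inr hZ.ne)
        simpa using this
      have := (tendsto_const_nhds (x := ENNReal.ofReal (δ / 2))).add h1 |>.add h2
      simpa using this
    have hev : ∀ᶠ n : ℕ in atTop, ENNReal.ofReal (δ / 2) +
        ENNReal.ofReal (|M| + K0) * P (A n) + (∫⁻ ω, Z ω ∂P) * (n : ℝ≥0∞)⁻¹ <
        ENNReal.ofReal δ := hlim2.eventually_lt_const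
      ((ENNReal.ofReal_lt_ofReal_iff hδ).2 (by linarith))
    filter_upwards [hev, eventually_ge_atTop 1] with n hn hn1
    have hn0 : (0 : ℝ) < n := by exact_mod_cast hn1
    refine le_trans ?_ hn.le
    have hmA : MeasurableSet (A n) := by
      refine measurableSet_lt ?_ measurable_const
      exact measurable_greedy hd1 (X := fun v ω => min (X v ω) B)
        (fun v => (hiid.1 v).min measurable_const) n
    have hpt : ∀ᵐ ω ∂P, ENNReal.ofReal (M - greedy (k + 1) (fun v => X v ω) n / n) ≤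
        (ENNReal.ofReal (δ / 2) + (A n).indicator (fun _ => ENNReal.ofReal (|M| + K0)) ω) +
          Z ω * (n : ℝ≥0∞)⁻¹ := by
      filter_upwards [hfb] with ω hω
      by_cases hωA : ω ∈ A n
      · rw [Set.indicator_of_mem hωA]
        have h1 : greedy (k + 1) (fun v => min (X v ω) 0) n ≤ greedy (k + 1) (fun v => X v ω) n :=
          greedy_mono hd1 (fun v => min_le_left _ _) n
        have h2 : M - greedy (k + 1) (fun v => X v ω) n / n ≤
            |M| + (-(greedy (k + 1) (fun v => min (X v ω) 0) n)) / n := by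
          have h3 := le_abs_self M
          have h4 : greedy (k + 1) (fun v => min (X v ω) 0) n / n ≤
            greedy (k + 1) (fun v => X v ω) n / n := div_le_div_of_nonneg_right h1 hn0.le
          rw [neg_div]
          linarith
        calc ENNReal.ofReal (M - greedy (k + 1) (fun v => X v ω) n / n)
            ≤ ENNReal.ofReal (|M| + (-(greedy (k + 1) (fun v => min (X v ω) 0) n)) / n) :=
              ENNReal.ofReal_le_ofReal h2
          _ ≤ ENNReal.ofReal |M| +
              ENNReal.ofReal ((-(greedy (k + 1) (fun v => min (X v ω) 0) n)) / n) :=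
              ENNReal.ofReal_add_le
          _ = ENNReal.ofReal |M| +
              ENNReal.ofReal (-(greedy (k + 1) (fun v => min (X v ω) 0) n)) * (n : ℝ≥0∞)⁻¹ := by
              rw [ENNReal.ofReal_div_of_pos hn0, ENNReal.ofReal_natCast, div_eq_mul_inv]
          _ ≤ ENNReal.ofReal |M| + (ENNReal.ofReal (K0 * n) + Z ω) * (n : ℝ≥0∞)⁻¹ := by
              gcongr
              exact hω n
          _ = ENNReal.ofReal |M| + ENNReal.ofReal K0 + Z ω * (n : ℝ≥0∞)⁻¹ := by
              have h5 : (n : ℝ≥0∞) * (n : ℝ≥0∞)⁻¹ = 1 :=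
                ENNReal.mul_inv_cancel (by exact_mod_cast (by omega : n ≠ 0))
                  (ENNReal.natCast_ne_top n)
              rw [ENNReal.ofReal_mul hK0, ENNReal.ofReal_natCast, add_mul, mul_assoc, h5, mul_one,
                ← add_assoc]
          _ = ENNReal.ofReal (|M| + K0) + Z ω * (n : ℝ≥0∞)⁻¹ := by
              rw [ENNReal.ofReal_add (abs_nonneg M) hK0]
          _ ≤ ENNReal.ofReal (δ / 2) + ENNReal.ofReal (|M| + K0) + Z ω * (n : ℝ≥0∞)⁻¹ := by
              gcongr
              exact le_add_self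
      · rw [Set.indicator_of_notMem hωA, add_zero]
        refine le_add_right (ENNReal.ofReal_le_ofReal ?_)
        simp only [hA, Set.mem_ofPred_eq, not_lt] at hωA
        have h1 : greedy (k + 1) (fun v => min (X v ω) B) n ≤ greedy (k + 1) (fun v => X v ω) n :=
          greedy_mono hd1 (fun v => min_le_left _ _) n
        have h2 : G B - δ / 4 ≤ greedy (k + 1) (fun v => X v ω) n / n := by
          rw [le_div_iff₀ hn0]
          linarith
        linarith
    calc ∫⁻ ω, ENNReal.ofReal (M - greedy (k + 1) (fun v => X v ω) n / n) ∂P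
        ≤ ∫⁻ ω, ((ENNReal.ofReal (δ / 2) + (A n).indicator
            (fun _ => ENNReal.ofReal (|M| + K0)) ω) + Z ω * (n : ℝ≥0∞)⁻¹) ∂P :=
          lintegral_mono_ae hpt
      _ = ENNReal.ofReal (δ / 2) + ENNReal.ofReal (|M| + K0) * P (A n) +
          (∫⁻ ω, Z ω ∂P) * (n : ℝ≥0∞)⁻¹ := by
          rw [lintegral_add_right _ (hZm.mul_const _), lintegral_add_left measurable_const,
            lintegral_indicator_const hmA, lintegral_mul_const _ hZm]
          simp
  have hsum := hupper.add hlower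
  rw [add_zero] at hsum
  unfold ConvergesL1
  refine tendsto_of_tendsto_of_tendsto_of_le_of_le tendsto_const_nhds hsum
    (fun _ => zero_le) fun n => ?_
  have hmX : Measurable (fun ω => greedy (k + 1) (fun v => X v ω) n / (n : ℝ) - M) :=
    ((measurable_greedy hd1 hiid.1 n).div_const _).sub_const _
  rw [← lintegral_add_left hmX.ennreal_ofReal]
  refine lintegral_mono fun ω => ?_
  rcases le_total 0 (greedy (k + 1) (fun v => X v ω) n / (n : ℝ) - M) with h | h
  · rw [abs_of_nonneg h]
    exact le_self_add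
  · rw [abs_of_nonpos h, neg_sub]
    exact le_add_self

end Pool.Agent.Helper82.GP
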