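import Pool.Agent.Helper82.GP.Comp

/-!
Simultaneous surgery of a path in a list of disjoint regions.
-/

namespace Pool.Agent.Helper82.GP

theorem multi_surgery {β : Type*} (GB : SimpleGraph β) (L : List (Region β))
    (hgood : ∀ r ∈ L, r.Good GB) (hdisj : L.Pairwise (fun r s => Disjoint r.car s.car))
    {x₀ x₁ : ℤ × β} (p : (LG GB).Walk x₀ x₁) (hp : p.IsPath)
    (h0 : ∀ r ∈ L, x₀ ∉ r.car) (h1 : ∀ r ∈ L, x₁ ∉ r.car)
    (hrow : ∀ r ∈ L, ∀ u v, s(u, v) ∈ p.edges → u ∈ r.car → v ∉ r.car →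
      ∃ i < r.m, u.2 = r.z i ∧ (u.1 = r.a i ∨ u.1 = r.b i))
    (hclean : ∀ r ∈ L, ∀ i, r.m ≤ i + 3 → i < r.m → ∀ v ∈ p.support, v ∈ r.car → v.2 ≠ r.z i) :
    ∃ p' : (LG GB).Walk x₀ x₁, p'.IsPath ∧
      (∀ v, (∀ r ∈ L, v ∉ r.car) → (v ∈ p'.support ↔ v ∈ p.support)) ∧
      (∀ v ∈ p'.support, ∀ r ∈ L, v ∈ r.car → v ∈ r.coll) := by
  induction L generalizing p with
  | nil => exact ⟨p, hp, fun v _ => Iff.rfl, by simp⟩
  | cons r L ih =>
    rw [List.pairwise_cons] at hdisj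
    obtain ⟨hd1, hd2⟩ := hdisj
    have hdis : ∀ s ∈ L, ∀ v, v ∈ s.car → v ∉ r.car := fun s hs v hv hv' =>
      Set.disjoint_left.1 (hd1 s hs) hv' hv
    obtain ⟨p1, hp1, hs1, hc1, he1⟩ := component_surgery GB r (hgood r (by simp)) p hp
      (h0 r (by simp)) (h1 r (by simp)) (hrow r (by simp)) (hclean r (by simp))
    obtain ⟨p', hp', hs', hc'⟩ := ih (fun s hs => hgood s (by simp [hs])) hd2 p1 hp1
      (fun s hs => h0 s (by simp [hs])) (fun s hs => h1 s (by simp [hs]))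
      (fun s hs u v huv hu hv => hrow s (by simp [hs]) u v
        (he1 u v huv fun h => hdis s hs u hu h.1) hu hv)
      (fun s hs i hi1 hi2 v hv hvs => hclean s (by simp [hs]) i hi1 hi2 v
        ((hs1 v (hdis s hs v hvs)).1 hv) hvs)
    refine ⟨p', hp', fun v hv => ?_, fun v hv s hs hvs => ?_⟩
    · rw [hs' v fun s hs => hv s (by simp [hs]), hs1 v (hv r (by simp))]
    · rcases List.mem_cons.1 hs with rfl | hs
      · exact hc1 v ((hs' v fun s' hs' h => hdis s' hs' v h hvs).1 hv) hvs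
      · exact hc' v hv s hs hvs

end Pool.Agent.Helper82.GP
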