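import Pool.Agent.Helper82.GP.Defs
import Pool.Agent.Helper82.GreedyDefs
import Pool.Agent.Helper82.GP.Basic

/-!
Module SparseProb: the set of very bad vertices is locally sparse with high probability.
-/

namespace Pool.Agent.Helper82.GP

open MeasureTheory ProbabilityTheory Filter
open scoped ENNReal Topology
open Pool.Agent.Helper82.Greedy

namespace SparseProb

/-- the cube of radius `D` around `c` -/
noncomputable def cube {k : ℕ} (D : ℕ) (c : ℤ × (Fin k → ℤ)) : Finset (ℤ × (Fin k → ℤ)) :=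
  (Finset.Icc (c.1 - D) (c.1 + D)) ×ˢ Fintype.piFinset (fun j => Finset.Icc (c.2 j - D) (c.2 j + D))

theorem card_cube {k : ℕ} (D : ℕ) (c : ℤ × (Fin k → ℤ)) :
    (cube D c).card = (2 * D + 1) ^ (k + 1) := by
  unfold cube
  rw [Finset.card_product, Fintype.card_piFinset]
  have h : ∀ a : ℤ, (Finset.Icc (a - D) (a + D)).card = 2 * D + 1 := by
    intro a
    rw [Int.card_Icc]
    omega
  simp only [h, Finset.prod_const, Finset.card_univ, Fintype.card_fin]
  rw [pow_succ, mul_comm]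

theorem card_box (k n : ℕ) : (box k n).card = (2 * n + 1) ^ (k + 1) := by
  unfold box
  rw [Finset.card_product, Fintype.card_piFinset]
  have h : (Finset.Icc (-(n : ℤ)) n).card = 2 * n + 1 := by
    rw [Int.card_Icc]
    omega
  simp only [h, Finset.prod_const, Finset.card_univ, Fintype.card_fin]
  rw [pow_succ, mul_comm]

theorem cns_injective {k : ℕ} : Function.Injective (cns (k := k)) := by
  intro u v h
  unfold cns at h
  have h1 := congrFun h 0
  simp only [Fin.cons_zero] at h1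
  have h2 : u.2 = v.2 := by
    funext j
    have := congrFun h j.succ
    simpa using this
  exact Prod.ext h1 h2

theorem abs_le_l1 {k : ℕ} (z w : Fin k → ℤ) (j : Fin k) : |z j - w j| ≤ (l1 z w : ℤ) := by
  have h : (z j - w j).natAbs ≤ l1 z w := by
    unfold l1
    exact Finset.single_le_sum (f := fun j => (z j - w j).natAbs) (fun _ _ => Nat.zero_le _)
      (Finset.mem_univ j)
  have h2 : ((z j - w j).natAbs : ℤ) ≤ (l1 z w : ℤ) := by exact_mod_cast h
  rwa [Int.natCast_natAbs] at h2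

theorem mem_cube {k : ℕ} {D : ℕ} {c o : ℤ × (Fin k → ℤ)} (h1 : |o.1 - c.1| ≤ D)
    (h2 : l1 o.2 c.2 ≤ D) : o ∈ cube D c := by
  unfold cube
  rw [Finset.mem_product, Fintype.mem_piFinset]
  have h1' := abs_le.mp h1
  refine ⟨Finset.mem_Icc.mpr ⟨by linarith, by linarith⟩, fun j => ?_⟩
  have h3 := (abs_le_l1 o.2 c.2 j).trans (by exact_mod_cast h2 : (l1 o.2 c.2 : ℤ) ≤ D)
  have h3' := abs_le.mp h3
  exact Finset.mem_Icc.mpr ⟨by linarith, by linarith⟩

theorem mem_box_of {k : ℕ} {n D : ℕ} {c o : ℤ × (Fin k → ℤ)} (ho : o ∈ box k n)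
    (h1 : |o.1 - c.1| ≤ D) (h2 : l1 o.2 c.2 ≤ D) : c ∈ box k (n + D) := by
  unfold box at ho ⊢
  rw [Finset.mem_product, Fintype.mem_piFinset] at ho ⊢
  have h1' := abs_le.mp h1
  have ho1 := Finset.mem_Icc.mp ho.1
  refine ⟨Finset.mem_Icc.mpr ⟨by push_cast; linarith, by push_cast; linarith⟩, fun j => ?_⟩
  have h3 := (abs_le_l1 o.2 c.2 j).trans (by exact_mod_cast h2 : (l1 o.2 c.2 : ℤ) ≤ D)
  have h3' := abs_le.mp h3
  have ho2 := Finset.mem_Icc.mp (ho.2 j)
  exact Finset.mem_Icc.mpr ⟨by push_cast; linarith, by push_cast; linarith⟩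

theorem measure_all {Ω : Type*} [MeasurableSpace Ω] (P : Measure Ω) (k : ℕ)
    (X : (Fin (k + 1) → ℤ) → Ω → ℝ) (hiid : IsIID P (k + 1) X) (t : ℝ)
    (E : Finset (ℤ × (Fin k → ℤ))) :
    P {ω | ∀ v ∈ E, X (cns v) ω < -t} = (P {ω | X 0 ω < -t}) ^ E.card := by
  classical
  obtain ⟨hmeas, hind, hid⟩ := hiid
  have h := hind.measure_inter_preimage_eq_mul (E.image cns) (sets := fun _ => Set.Iio (-t))
    (fun _ _ => measurableSet_Iio)
  have hset : {ω | ∀ v ∈ E, X (cns v) ω < -t} = ⋂ i ∈ E.image cns, X i ⁻¹' Set.Iio (-t) := by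
    ext ω
    simp only [Set.mem_ofPred_eq, Set.mem_iInter, Finset.mem_image, Set.mem_preimage, Set.mem_Iio]
    constructor
    · rintro h _ ⟨v, hv, rfl⟩
      exact h v hv
    · intro h v hv
      exact h _ ⟨v, hv, rfl⟩
  rw [hset, h]
  have hc : ∀ i ∈ E.image cns, P (X i ⁻¹' Set.Iio (-t)) = P {ω | X 0 ω < -t} := by
    intro i _
    exact (hid i).measure_mem_eq measurableSet_Iio
  rw [Finset.prod_congr rfl hc, Finset.prod_const, Finset.card_image_of_injective _ cns_injective]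

end SparseProb

open SparseProb in
theorem sparse_prob {Ω : Type*} [MeasurableSpace Ω] (P : Measure Ω) [IsProbabilityMeasure P]
    (k m D n : ℕ) (X : (Fin (k + 1) → ℤ) → Ω → ℝ) (hiid : IsIID P (k + 1) X) (t : ℝ) :
    P {ω | ∃ F : Finset (ℤ × (Fin k → ℤ)), F ⊆ box k n ∧ (∀ v ∈ F, X (cns v) ω < -t) ∧
        ¬ Sparse m D F} ≤
      ((2 * (n + D) + 1) ^ (k + 1) * (4 * D + 1) ^ ((k + 1) * (m + 1)) : ℕ) *
        (P {ω | X 0 ω < -t}) ^ (m + 1) := by
  classical
  let S : Finset (Σ _ : ℤ × (Fin k → ℤ), Finset (ℤ × (Fin k → ℤ))) :=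
    (box k (n + D)).sigma (fun c => (cube D c).powersetCard (m + 1))
  have hsub : {ω | ∃ F : Finset (ℤ × (Fin k → ℤ)), F ⊆ box k n ∧ (∀ v ∈ F, X (cns v) ω < -t) ∧
        ¬ Sparse m D F} ⊆ ⋃ s ∈ S, {ω | ∀ v ∈ s.2, X (cns v) ω < -t} := by
    rintro ω ⟨F, hF1, hF2, hF3⟩
    unfold Sparse at hF3
    push Not at hF3
    obtain ⟨c, E, hEF, hE, hcard⟩ := hF3
    obtain ⟨E', hE', hE'card⟩ := Finset.exists_subset_card_eq (Nat.succ_le_of_lt hcard)
    have hne : E'.Nonempty := by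
      rw [← Finset.card_pos, hE'card]
      exact Nat.succ_pos m
    obtain ⟨o, ho⟩ := hne
    have hoE := hE o (hE' ho)
    simp only [Set.mem_iUnion]
    refine ⟨⟨c, E'⟩, ?_, ?_⟩
    · rw [Finset.mem_sigma, Finset.mem_powersetCard]
      refine ⟨mem_box_of (hF1 (hEF (hE' ho))) hoE.1 hoE.2, fun v hv => ?_, hE'card⟩
      exact mem_cube (hE v (hE' hv)).1 (hE v (hE' hv)).2
    · intro v hv
      exact hF2 v (hEF (hE' hv))
  refine (measure_mono hsub).trans ((measure_biUnion_finset_le _ _).trans ?_)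
  have hterm : ∀ s ∈ S, P {ω | ∀ v ∈ s.2, X (cns v) ω < -t} = (P {ω | X 0 ω < -t}) ^ (m + 1) := by
    intro s hs
    rw [Finset.mem_sigma, Finset.mem_powersetCard] at hs
    rw [measure_all P k X hiid t s.2, hs.2.2]
  rw [Finset.sum_congr rfl hterm, Finset.sum_const, nsmul_eq_mul]
  gcongr
  have hS : S.card ≤ (2 * (n + D) + 1) ^ (k + 1) * (4 * D + 1) ^ ((k + 1) * (m + 1)) := by
    rw [Finset.card_sigma]
    have hle : ∀ c ∈ box k (n + D), ((cube D c).powersetCard (m + 1)).card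
        ≤ (4 * D + 1) ^ ((k + 1) * (m + 1)) := by
      intro c _
      rw [Finset.card_powersetCard, card_cube]
      refine (Nat.choose_le_pow _ _).trans ?_
      rw [← pow_mul]
      exact Nat.pow_le_pow_left (by omega) _
    refine (Finset.sum_le_sum hle).trans ?_
    rw [Finset.sum_const, smul_eq_mul, card_box]
  exact hS

end Pool.Agent.Helper82.GP
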