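import Pool.Agent.Helper82.GP.Walls
import Pool.Agent.Helper82.GP.Cover
import Pool.Agent.Helper82.GP.Multi

/-!
Module Surg: the surgery theorem from walls, path covers and multiple surgery.
-/

namespace Pool.Agent.Helper82.GP

namespace Surg

/-- cut at the last vertex outside `W` -/
lemma exists_cut {V : Type*} {G : SimpleGraph V} (W : Set V) {u v : V} (p : G.Walk u v) :
    (∀ x ∈ p.support, x ∈ W) ∨ ∃ (y : V) (p₁ : G.Walk u y), y ∉ W ∧
      (∀ x ∈ p.support, x ∉ p₁.support → x ∈ W) ∧ (∀ x ∈ p₁.support, x ∈ p.support) ∧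
      (∀ e ∈ p₁.edges, e ∈ p.edges) ∧ (p.IsPath → p₁.IsPath) := by
  induction p with
  | @nil u =>
    by_cases hu : u ∈ W
    · left
      intro x hx
      rw [SimpleGraph.Walk.support_nil, List.mem_singleton] at hx
      rwa [hx]
    · right
      exact ⟨u, .nil, hu, fun x hx hx' => absurd hx hx', fun x hx => hx, fun e he => he,
        fun h => h⟩
  | @cons u v w h q ih =>
    rcases ih with ih | ⟨y, q₁, hy, h1, h2, h3, h4⟩
    · by_cases hu : u ∈ W
      · left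
        intro x hx
        rw [SimpleGraph.Walk.support_cons, List.mem_cons] at hx
        rcases hx with rfl | hx
        · exact hu
        · exact ih x hx
      · right
        refine ⟨u, .nil, hu, ?_, ?_, ?_, ?_⟩
        · intro x hx hx'
          rw [SimpleGraph.Walk.support_cons, List.mem_cons] at hx
          rcases hx with rfl | hx
          · exact absurd (by simp) hx'
          · exact ih x hx
        · intro x hx
          rw [SimpleGraph.Walk.support_nil, List.mem_singleton] at hx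
          rw [hx]
          exact SimpleGraph.Walk.start_mem_support _
        · intro e he
          simp at he
        · intro _
          exact SimpleGraph.Walk.IsPath.nil
    · right
      refine ⟨y, .cons h q₁, hy, ?_, ?_, ?_, ?_⟩
      · intro x hx hx'
        rw [SimpleGraph.Walk.support_cons, List.mem_cons] at hx hx'
        rcases hx with rfl | hx
        · exact absurd (Or.inl rfl) hx'
        · exact h1 x hx (fun h => hx' (Or.inr h))
      · intro x hx
        rw [SimpleGraph.Walk.support_cons, List.mem_cons] at hx ⊢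
        rcases hx with rfl | hx
        · exact Or.inl rfl
        · exact Or.inr (h2 x hx)
      · intro e he
        rw [SimpleGraph.Walk.edges_cons, List.mem_cons] at he ⊢
        rcases he with rfl | he
        · exact Or.inl rfl
        · exact Or.inr (h3 e he)
      · intro hp
        rw [SimpleGraph.Walk.cons_isPath_iff] at hp ⊢
        exact ⟨h4 hp.1, fun h => hp.2 (h2 _ h)⟩

/-- region over a list of columns -/
def reg {k : ℕ} (a b : (Fin k → ℤ) → ℤ) (Q : List (Fin k → ℤ)) : Region (Fin k → ℤ) where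
  m := Q.length
  z := fun i => Q.getD i 0
  a := fun i => a (Q.getD i 0)
  b := fun i => b (Q.getD i 0)

lemma getD_mem {α : Type*} (Q : List α) (d : α) {i : ℕ} (hi : i < Q.length) :
    Q.getD i d ∈ Q := by
  rw [List.getD_eq_getElem _ _ hi]
  exact List.getElem_mem hi

lemma exists_getD {α : Type*} (Q : List α) (d : α) {x : α} (hx : x ∈ Q) :
    ∃ i < Q.length, x = Q.getD i d := by
  obtain ⟨i, hi, rfl⟩ := List.getElem_of_mem hx
  exact ⟨i, hi, (List.getD_eq_getElem _ _ hi).symm⟩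

lemma mem_reg_car {k : ℕ} {a b : (Fin k → ℤ) → ℤ} {Q : List (Fin k → ℤ)}
    {v : ℤ × (Fin k → ℤ)} : v ∈ (reg a b Q).car ↔ v.2 ∈ Q ∧ a v.2 ≤ v.1 ∧ v.1 ≤ b v.2 := by
  constructor
  · rintro ⟨i, hi, h1, h2, h3⟩
    simp only [reg] at hi h1 h2 h3
    rw [← h1] at h2 h3
    exact ⟨h1 ▸ getD_mem Q 0 hi, h2, h3⟩
  · rintro ⟨h1, h2, h3⟩
    obtain ⟨i, hi, h4⟩ := exists_getD Q 0 h1
    refine ⟨i, hi, h4, ?_, ?_⟩
    · simp only [reg]
      rw [← h4]
      exact h2
    · simp only [reg]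
      rw [← h4]
      exact h3

lemma reg_good {k : ℕ} {a b : (Fin k → ℤ) → ℤ} {Q : List (Fin k → ℤ)} (hnd : Q.Nodup)
    (hch : Q.IsChain (BG k).Adj) (ha : ∀ z w, |a z - a w| ≤ l1 z w)
    (hb : ∀ z w, |b z - b w| ≤ l1 z w) (hth : ∀ z, a z + 14 ≤ b z) :
    (reg a b Q).Good (BG k) := by
  have hadj : ∀ i, i + 1 < Q.length → (BG k).Adj (Q.getD i 0) (Q.getD (i + 1) 0) := by
    intro i hi
    rw [List.getD_eq_getElem _ _ hi, List.getD_eq_getElem _ _ (by omega : i < Q.length)]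
    exact (List.isChain_iff_getElem.1 hch) i hi
  constructor
  · intro i hi j hj hij
    simp only [reg, Set.mem_Iio] at hi hj hij
    rw [List.getD_eq_getElem _ _ hi, List.getD_eq_getElem _ _ hj] at hij
    exact (List.Nodup.getElem_inj_iff hnd).1 hij
  · exact hadj
  · intro i hi
    have h1 := hadj i hi
    have h2 := ha (Q.getD i 0) (Q.getD (i + 1) 0)
    change l1 _ _ = 1 at h1
    rw [h1] at h2
    exact_mod_cast h2
  · intro i hi
    have h1 := hadj i hi
    have h2 := hb (Q.getD i 0) (Q.getD (i + 1) 0)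
    change l1 _ _ = 1 at h1
    rw [h1] at h2
    exact_mod_cast h2
  · intro i _
    exact hth _

open scoped Classical in
/-- choice of the shift -/
lemma exists_sigma {α : Type*} [DecidableEq α] (S : Finset α) (f : α → ℤ) (N h : ℕ)
    (hN : 4 * (2 * h + 1) ≤ N) : ∃ σ : ℤ, (h : ℤ) + 1 ≤ σ ∧ σ ≤ N - h - 1 ∧
      N * (S.filter (fun v => ∃ j : ℤ, |f v - (j * N + σ)| ≤ h)).card ≤
        2 * (2 * h + 1) * S.card := by
  set I : Finset ℤ := Finset.Icc ((h : ℤ) + 1) (N - h - 1) with hI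
  have hIcard : I.card = N - 2 * h - 1 := by
    rw [hI, Int.card_Icc]
    omega
  have hIne : I.Nonempty := by
    rw [← Finset.card_pos, hIcard]
    omega
  have hv : ∀ v ∈ S, (I.filter (fun σ => ∃ j : ℤ, |f v - (j * N + σ)| ≤ h)).card ≤
      2 * h + 1 := by
    intro v _
    have h1 : I.filter (fun σ => ∃ j : ℤ, |f v - (j * N + σ)| ≤ h) ⊆
        (Finset.Icc (-(h : ℤ)) h).image (fun d => (f v - d) % N) := by
      intro σ hσ
      rw [Finset.mem_filter, hI, Finset.mem_Icc] at hσ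
      obtain ⟨⟨h2, h3⟩, j, h4⟩ := hσ
      rw [Finset.mem_image]
      refine ⟨f v - (j * N + σ), ?_, ?_⟩
      · rw [Finset.mem_Icc]
        rw [abs_le] at h4
        exact h4
      · have h5 : f v - (f v - (j * N + σ)) = σ + N * j := by ring
        rw [h5, Int.add_mul_emod_self_left]
        exact Int.emod_eq_of_lt (by omega) (by omega)
    refine (Finset.card_le_card h1).trans (Finset.card_image_le.trans ?_)
    rw [Int.card_Icc]
    omega
  obtain ⟨σ, hσ, hle⟩ := Finset.exists_le_of_sum_le (s := I)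
    (f := fun σ => N * (S.filter (fun v => ∃ j : ℤ, |f v - (j * N + σ)| ≤ h)).card)
    (g := fun _ => 2 * (2 * h + 1) * S.card) hIne (by
      rw [← Finset.mul_sum]
      have h1 : ∑ σ ∈ I, (S.filter (fun v => ∃ j : ℤ, |f v - (j * N + σ)| ≤ h)).card =
          ∑ v ∈ S, (I.filter (fun σ => ∃ j : ℤ, |f v - (j * N + σ)| ≤ h)).card := by
        simp only [Finset.card_filter]
        rw [Finset.sum_comm]
      rw [h1, Finset.sum_const, hIcard, smul_eq_mul]
      have h2 : ∑ v ∈ S, (I.filter (fun σ => ∃ j : ℤ, |f v - (j * N + σ)| ≤ h)).card ≤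
          S.card * (2 * h + 1) := by
        refine (Finset.sum_le_sum hv).trans ?_
        rw [Finset.sum_const, smul_eq_mul]
      have h3 : N ≤ 2 * (N - 2 * h - 1) := by omega
      calc N * ∑ v ∈ S, (I.filter (fun σ => ∃ j : ℤ, |f v - (j * N + σ)| ≤ h)).card
          ≤ (2 * (N - 2 * h - 1)) * (S.card * (2 * h + 1)) := Nat.mul_le_mul h3 h2
        _ = _ := by ring)
  rw [hI, Finset.mem_Icc] at hσ
  exact ⟨σ, hσ.1, hσ.2, hle⟩

lemma mem_Icc_div {N : ℕ} (hN : 1 ≤ N) {x j : ℤ} (h : |x - j * N| ≤ N) :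
    j ∈ Finset.Icc (x / N - 1) (x / N + 1) := by
  have hN0 : (0 : ℤ) < N := by exact_mod_cast hN
  have h1 := Int.emod_add_mul_ediv x N
  have h2 := Int.emod_nonneg x hN0.ne'
  have h3 := Int.emod_lt_of_pos x hN0
  rw [abs_le] at h
  rw [Finset.mem_Icc]
  constructor
  · by_contra h4
    have h5 : j + 2 ≤ x / N := by omega
    nlinarith
  · by_contra h4
    have h5 : x / N + 2 ≤ j := by omega
    nlinarith

lemma card_Icc_three (x : ℤ) : (Finset.Icc (x - 1) (x + 1)).card = 3 := by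
  rw [Int.card_Icc]
  omega

/-- walls are disjoint -/
lemma walls_disj {k : ℕ} {a b : ℤ → (Fin k → ℤ) → ℤ} (hth : ∀ j z, a j z + 14 ≤ b j z)
    (hsep : ∀ j z w, l1 z w ≤ 1 → b j z + 2 ≤ a (j + 1) w) (z : Fin k → ℤ) (t j j' : ℤ)
    (h : a j z ≤ t ∧ t ≤ b j z) (h' : a j' z ≤ t ∧ t ≤ b j' z) : j = j' := by
  have hl : l1 z z ≤ 1 := by
    unfold l1
    simp
  have key : ∀ (i : ℤ) (n : ℕ), b i z + 2 ≤ a (i + 1 + n) z := by
    intro i n
    induction n with
    | zero =>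
      have := hsep i z z hl
      simpa using this
    | succ n ih =>
      have h1 := hth (i + 1 + n) z
      have h2 := hsep (i + 1 + n) z z hl
      push_cast
      have h3 : i + 1 + (n + 1 : ℤ) = i + 1 + n + 1 := by ring
      rw [h3]
      omega
  rcases lt_trichotomy j j' with h1 | h1 | h1
  · exfalso
    have h2 := key j (j' - j - 1).toNat
    have h3 : j + 1 + ((j' - j - 1).toNat : ℤ) = j' := by omega
    rw [h3] at h2
    omega
  · exact h1
  · exfalso
    have h2 := key j' (j - j' - 1).toNat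
    have h3 : j' + 1 + ((j - j' - 1).toNat : ℤ) = j := by omega
    rw [h3] at h2
    omega

/-- the box of columns around the points of `V` near the level -/
noncomputable def boxT {k : ℕ} (V : Finset (ℤ × (Fin k → ℤ))) (N : ℕ) (σ j : ℤ) :
    Finset (Fin k → ℤ) :=
  (V.filter (fun v => |v.1 - (j * N + σ)| ≤ N)).biUnion
    (fun v => Fintype.piFinset (fun i => Finset.Icc (v.2 i - 2 * N) (v.2 i + 2 * N)))

lemma not_mem_boxT {k : ℕ} {V : Finset (ℤ × (Fin k → ℤ))} {N : ℕ} {σ j : ℤ} {z : Fin k → ℤ}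
    (hz : z ∉ boxT V N σ j) : ∀ v ∈ V, |v.1 - (j * N + σ)| ≤ N → 2 * N < l1 z v.2 := by
  intro v hv h1
  by_contra h2
  apply hz
  unfold boxT
  rw [Finset.mem_biUnion]
  refine ⟨v, Finset.mem_filter.2 ⟨hv, h1⟩, ?_⟩
  rw [Fintype.mem_piFinset]
  intro i
  have h3 : (z i - v.2 i).natAbs ≤ l1 z v.2 := by
    unfold l1
    exact Finset.single_le_sum (f := fun i => (z i - v.2 i).natAbs) (fun _ _ => Nat.zero_le _)
      (Finset.mem_univ i)
  rw [Finset.mem_Icc]
  omega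

lemma sum_card_boxT {k : ℕ} (V : Finset (ℤ × (Fin k → ℤ))) {N : ℕ} (hN : 1 ≤ N) (σ : ℤ)
    (J : Finset ℤ) : ∑ j ∈ J, (boxT V N σ j).card ≤ 3 * V.card * (4 * N + 1) ^ k := by
  classical
  have h1 : ∀ j, (boxT V N σ j).card ≤
      (V.filter (fun v => |v.1 - (j * N + σ)| ≤ N)).card * (4 * N + 1) ^ k := by
    intro j
    unfold boxT
    refine Finset.card_biUnion_le_card_mul _ _ _ ?_
    intro v _
    rw [Fintype.card_piFinset]
    have h2 : ∀ i : Fin k, (Finset.Icc (v.2 i - 2 * N) (v.2 i + 2 * N)).card = 4 * N + 1 := by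
      intro i
      rw [Int.card_Icc]
      omega
    simp only [h2]
    rw [Finset.prod_const, Finset.card_univ, Fintype.card_fin]
  refine (Finset.sum_le_sum (fun j _ => h1 j)).trans ?_
  rw [← Finset.sum_mul]
  apply Nat.mul_le_mul_right
  have h2 : ∑ j ∈ J, (V.filter (fun v => |v.1 - (j * N + σ)| ≤ N)).card =
      ∑ v ∈ V, (J.filter (fun j => |v.1 - (j * N + σ)| ≤ N)).card := by
    simp only [Finset.card_filter]
    rw [Finset.sum_comm]
  rw [h2]
  have h3 : ∀ v ∈ V, (J.filter (fun j => |v.1 - (j * N + σ)| ≤ N)).card ≤ 3 := by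
    intro v _
    rw [← card_Icc_three ((v.1 - σ) / N)]
    apply Finset.card_le_card
    intro j hj
    rw [Finset.mem_filter] at hj
    apply mem_Icc_div hN
    have h4 : v.1 - σ - j * N = v.1 - (j * N + σ) := by ring
    rw [h4]
    exact hj.2
  refine (Finset.sum_le_sum h3).trans ?_
  rw [Finset.sum_const, smul_eq_mul, mul_comm]

lemma getD_last {α : Type*} {Q Q' R : List α} (d : α) (hQ : Q = Q' ++ R) {i : ℕ}
    (hi : i < Q.length) (hi' : Q.length ≤ i + R.length) : Q.getD i d ∈ R := by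
  subst hQ
  rw [List.length_append] at hi hi'
  rw [List.getD_append_right _ _ _ _ (by omega)]
  exact getD_mem _ _ (by omega)

lemma sparse_mono {k m D D' : ℕ} (hD : D' ≤ D) {F : Finset (ℤ × (Fin k → ℤ))}
    (hF : Sparse m D F) : Sparse m D' F := by
  intro c E hE h
  apply hF c E hE
  intro o ho
  obtain ⟨h1, h2⟩ := h o ho
  have h3 : (D' : ℤ) ≤ D := by exact_mod_cast hD
  exact ⟨h1.trans h3, h2.trans hD⟩

/-- surgery from the three other modules -/
theorem surgery_of (k m : ℕ)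
    (hwalls : ∃ D H C : ℕ, ∀ (F : Finset (ℤ × (Fin k → ℤ))), Sparse m D F →
    ∀ V ⊆ F, ∀ N : ℕ, C ≤ N → ∀ σ : ℤ, ∃ a b : ℤ → (Fin k → ℤ) → ℤ,
      (∀ j z w, |a j z - a j w| ≤ l1 z w) ∧ (∀ j z w, |b j z - b j w| ≤ l1 z w) ∧
      (∀ j z, a j z + 14 ≤ b j z) ∧
      (∀ j z w, l1 z w ≤ 1 → b j z + 2 ≤ a (j + 1) w) ∧
      (∀ o ∈ F, ∀ j, ¬ (a j o.2 ≤ o.1 ∧ o.1 ≤ a j o.2 + 6) ∧
        ¬ (b j o.2 - 6 ≤ o.1 ∧ o.1 ≤ b j o.2)) ∧
      (∀ v ∈ V, ∃ j, a j v.2 ≤ v.1 ∧ v.1 ≤ b j v.2) ∧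
      (∀ j z, (∀ v ∈ V, |v.1 - (j * N + σ)| ≤ N → 2 * N < l1 z v.2) →
        j * N + σ - 7 - H ≤ a j z ∧ b j z ≤ j * N + σ + 7 + H) ∧
      (∀ j z, j * N + σ - N ≤ a j z ∧ b j z ≤ j * N + σ + N))
    (hcover : ∃ s C : ℕ, ∀ (A T : Finset (Fin k → ℤ))
    (Dirty : Set (Fin k → ℤ)),
    (∀ (c : Fin k → ℤ) (E : Finset (Fin k → ℤ)),
      (∀ z ∈ E, z ∈ Dirty ∧ z ∉ T ∧ l1 z c ≤ s) → E.card ≤ m) →
    ∃ L : List (List (Fin k → ℤ)),
      (∀ Q ∈ L, Q.Nodup ∧ Q.IsChain (BG k).Adj ∧ ∃ Q' z1 z2 z3, Q = Q' ++ [z1, z2, z3] ∧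
        ∀ z ∈ [z1, z2, z3], z ∉ A ∧ z ∉ T ∧ z ∉ Dirty) ∧
      L.Pairwise List.Disjoint ∧
      (∀ z ∈ A, ∃ Q ∈ L, z ∈ Q) ∧
      (∀ z ∈ A, ∀ w ∈ A, (BG k).Adj z w → ∀ Q ∈ L, z ∈ Q → w ∈ Q) ∧
      (L.map List.length).sum ≤ C * (A.card + T.card))
    (hmulti : ∀ (L : List (Region (Fin k → ℤ)))
    (_ : ∀ r ∈ L, r.Good (BG k)) (_ : L.Pairwise (fun r s => Disjoint r.car s.car))
    {x₀ x₁ : ℤ × (Fin k → ℤ)} (p : (LG (BG k)).Walk x₀ x₁) (_ : p.IsPath)
    (_ : ∀ r ∈ L, x₀ ∉ r.car) (_ : ∀ r ∈ L, x₁ ∉ r.car)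
    (_ : ∀ r ∈ L, ∀ u v, s(u, v) ∈ p.edges → u ∈ r.car → v ∉ r.car →
      ∃ i < r.m, u.2 = r.z i ∧ (u.1 = r.a i ∨ u.1 = r.b i))
    (_ : ∀ r ∈ L, ∀ i, r.m ≤ i + 3 → i < r.m → ∀ v ∈ p.support, v ∈ r.car → v.2 ≠ r.z i),
    ∃ p' : (LG (BG k)).Walk x₀ x₁, p'.IsPath ∧
      (∀ v, (∀ r ∈ L, v ∉ r.car) → (v ∈ p'.support ↔ v ∈ p.support)) ∧
      (∀ v ∈ p'.support, ∀ r ∈ L, v ∈ r.car → v ∈ r.coll)) :
    ∃ D C : ℕ, ∀ N : ℕ, C ≤ N →
    ∀ F : Finset (ℤ × (Fin k → ℤ)), Sparse m D F → ∀ V ⊆ F,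
    (∀ v ∈ V, (4 * N : ℤ) < |v.1| ∨ ∃ j, (4 * N : ℤ) < |v.2 j|) →
    ∀ (x₁ : ℤ × (Fin k → ℤ)) (p : (LG (BG k)).Walk 0 x₁), p.IsPath →
    ∃ (x₁' : ℤ × (Fin k → ℤ)) (p' : (LG (BG k)).Walk 0 x₁'), p'.IsPath ∧
      (∀ v ∈ V, v ∉ p'.support) ∧
      (∀ v ∈ p'.support, v ∉ p.support → v ∉ F) ∧
      (p.support.toFinset \ p'.support.toFinset).card ≤
        C * (p.length / N + 1 + V.card * N ^ (k + 1)) ∧
      (p'.support.toFinset \ p.support.toFinset).card ≤
        C * (p.length / N + 1 + V.card * N ^ (k + 1)) := by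
  classical
  obtain ⟨Dw, H, Cw, hw⟩ := hwalls
  obtain ⟨s, Cp, hc⟩ := hcover
  obtain ⟨h, hh⟩ : ∃ h, h = 7 + H := ⟨_, rfl⟩
  refine ⟨max Dw (max h s), Cw + 4 * (2 * h + 1) + 1 + (9 * 5 ^ k + 2 * (2 * h + 1)) +
    (2 * h + 1) * Cp * (2 * (2 * h + 1) + 12 * 5 ^ k), ?_⟩
  intro N hN F hF V hVF hVfar x₁ p hp
  have hN1 : 1 ≤ N := by omega
  have hNh : 4 * (2 * h + 1) ≤ N := by omega
  have hNCw : Cw ≤ N := by omega
  set S := p.support.toFinset with hS
  obtain ⟨σ, hσ1, hσ2, hσ3⟩ := exists_sigma S Prod.fst N h hNh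
  obtain ⟨a, b, ha, hb, hth, hsep, hFc, hVc, hthin, hwide⟩ :=
    hw F (sparse_mono (le_max_left _ _) hF) V hVF N hNCw σ
  -- walls
  have hthin' : ∀ (j : ℤ) (z : Fin k → ℤ), z ∉ boxT V N σ j →
      j * N + σ - h ≤ a j z ∧ b j z ≤ j * N + σ + h := by
    intro j z hz
    have h1 := hthin j z (fun v hv h1 => by exact_mod_cast not_mem_boxT hz v hv h1)
    rw [hh]
    push_cast
    constructor <;> linarith [h1.1, h1.2]
  have hdisj := walls_disj hth hsep
  have h0W : (0 : ℤ × (Fin k → ℤ)) ∉ {v : ℤ × (Fin k → ℤ) | ∃ j, a j v.2 ≤ v.1 ∧ v.1 ≤ b j v.2} := by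
    rintro ⟨j, hj1, hj2⟩
    have h1 := hwide j 0
    simp only [Prod.fst_zero, Prod.snd_zero] at hj1 hj2
    have h2 := hthin j 0 (by
      intro v hv h3
      rcases hVfar v hv with h4 | ⟨i, h4⟩
      · exfalso
        rw [abs_le] at h3
        rw [lt_abs] at h4
        rcases h4 with h4 | h4 <;> linarith [h1.1, h1.2, h3.1, h3.2]
      · have h5 : ((0 : Fin k → ℤ) i - v.2 i).natAbs ≤ l1 0 v.2 := by
          unfold l1
          exact Finset.single_le_sum (f := fun i => ((0 : Fin k → ℤ) i - v.2 i).natAbs)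
            (fun _ _ => Nat.zero_le _) (Finset.mem_univ i)
        simp only [Pi.zero_apply] at h5
        rw [Int.abs_eq_natAbs] at h4
        omega)
    rcases le_or_gt 0 j with h3 | h3
    · have h4 : 0 ≤ j * N := mul_nonneg h3 (by positivity)
      omega
    · have h4 : j * N ≤ -1 * N := mul_le_mul_of_nonneg_right (by omega) (by positivity)
      omega
  rcases exists_cut {v : ℤ × (Fin k → ℤ) | ∃ j, a j v.2 ≤ v.1 ∧ v.1 ≤ b j v.2} p with
    hall | ⟨y, p₁, hy, hcut, hsub, hedge, hpath⟩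
  · exact absurd (hall _ p.start_mem_support) h0W
  -- the relevant walls
  set J : Finset ℤ := S.biUnion (fun v => Finset.Icc ((v.1 - σ) / N - 1) ((v.1 - σ) / N + 1))
    with hJ
  have hmemJ : ∀ v ∈ S, ∀ j, a j v.2 ≤ v.1 → v.1 ≤ b j v.2 → j ∈ J := by
    intro v hv j h1 h2
    rw [hJ, Finset.mem_biUnion]
    refine ⟨v, hv, mem_Icc_div hN1 ?_⟩
    have h3 := hwide j v.2
    rw [abs_le]
    constructor <;> linarith [h3.1, h3.2]
  set A : ℤ → Finset (Fin k → ℤ) := fun j =>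
    (S.filter (fun v => a j v.2 ≤ v.1 ∧ v.1 ≤ b j v.2)).image Prod.snd with hA
  set Dirty : ℤ → Set (Fin k → ℤ) := fun j => {z | ∃ t, (t, z) ∈ F ∧ a j z ≤ t ∧ t ≤ b j z}
    with hDirty
  have hLj : ∀ j, ∃ L : List (List (Fin k → ℤ)),
      (∀ Q ∈ L, Q.Nodup ∧ Q.IsChain (BG k).Adj ∧ ∃ Q' z1 z2 z3, Q = Q' ++ [z1, z2, z3] ∧
        ∀ z ∈ [z1, z2, z3], z ∉ A j ∧ z ∉ boxT V N σ j ∧ z ∉ Dirty j) ∧
      L.Pairwise List.Disjoint ∧
      (∀ z ∈ A j, ∃ Q ∈ L, z ∈ Q) ∧
      (∀ z ∈ A j, ∀ w ∈ A j, (BG k).Adj z w → ∀ Q ∈ L, z ∈ Q → w ∈ Q) ∧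
      (L.map List.length).sum ≤ Cp * ((A j).card + (boxT V N σ j).card) := by
    intro j
    apply hc
    intro c E hE
    have h1 : ∀ z ∈ E, ∃ t : ℤ, (t, z) ∈ F ∧ |t - (j * N + σ)| ≤ h := by
      intro z hz
      obtain ⟨⟨t, h2, h3, h4⟩, h5, _⟩ := hE z hz
      refine ⟨t, h2, ?_⟩
      have h6 := hthin' j z h5
      rw [abs_le]
      constructor <;> linarith [h6.1, h6.2]
    choose! t ht using h1
    have h2 := hF (j * N + σ, c) (E.image (fun z => (t z, z))) (by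
      intro o ho
      rw [Finset.mem_image] at ho
      obtain ⟨z, hz, rfl⟩ := ho
      exact (ht z hz).1) (by
      intro o ho
      rw [Finset.mem_image] at ho
      obtain ⟨z, hz, rfl⟩ := ho
      constructor
      · refine ((ht z hz).2).trans ?_
        push_cast
        exact le_max_of_le_right (le_max_left _ _)
      · refine ((hE z hz).2.2).trans ?_
        exact le_max_of_le_right (le_max_right _ _))
    rwa [Finset.card_image_of_injective _ (fun z w hzw => (Prod.mk.inj hzw).2)] at h2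
  choose L hLQ hLdisj hLA hLadj hLlen using hLj
  set RL : List (Region (Fin k → ℤ)) := J.toList.flatMap (fun j => (L j).map (reg (a j) (b j)))
    with hRL
  have hmemRL : ∀ r, r ∈ RL ↔ ∃ j ∈ J, ∃ Q ∈ L j, reg (a j) (b j) Q = r := by
    intro r
    rw [hRL, List.mem_flatMap]
    simp only [Finset.mem_toList, List.mem_map]
  have hA_mem : ∀ j, ∀ v ∈ S, a j v.2 ≤ v.1 → v.1 ≤ b j v.2 → v.2 ∈ A j := by
    intro j v hv h1 h2
    exact Finset.mem_image.2 ⟨v, Finset.mem_filter.2 ⟨hv, h1, h2⟩, rfl⟩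
  have hS1 : ∀ v ∈ p₁.support, v ∈ S := fun v hv => List.mem_toFinset.2 (hsub v hv)
  obtain ⟨p', hp', hout, hin⟩ := hmulti RL (by
      intro r hr
      obtain ⟨j, _, Q, hQ, rfl⟩ := (hmemRL r).1 hr
      exact reg_good (hLQ j Q hQ).1 (hLQ j Q hQ).2.1 (ha j) (hb j) (hth j)) (by
      rw [hRL, List.pairwise_flatMap]
      constructor
      · intro j _
        rw [List.pairwise_map]
        refine (hLdisj j).imp ?_
        intro Q Q' hQQ
        rw [Set.disjoint_left]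
        intro v h1 h2
        exact hQQ (mem_reg_car.1 h1).1 (mem_reg_car.1 h2).1
      · refine (J.nodup_toList).imp ?_
        intro j j' hjj r hr r' hr'
        rw [List.mem_map] at hr hr'
        obtain ⟨Q, _, rfl⟩ := hr
        obtain ⟨Q', _, rfl⟩ := hr'
        rw [Set.disjoint_left]
        intro v h1 h2
        exact hjj (hdisj v.2 v.1 j j' (mem_reg_car.1 h1).2 (mem_reg_car.1 h2).2)) p₁ (hpath hp)
    (by
      intro r hr h1
      obtain ⟨j, _, Q, hQ, rfl⟩ := (hmemRL r).1 hr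
      exact h0W ⟨j, (mem_reg_car.1 h1).2⟩)
    (by
      intro r hr h1
      obtain ⟨j, _, Q, hQ, rfl⟩ := (hmemRL r).1 hr
      exact hy ⟨j, (mem_reg_car.1 h1).2⟩)
    (by
      intro r hr u v huv hu hv
      obtain ⟨j, _, Q, hQ, rfl⟩ := (hmemRL r).1 hr
      obtain ⟨hu1, hu2, hu3⟩ := mem_reg_car.1 hu
      obtain ⟨i, hi, h4⟩ := exists_getD Q 0 hu1
      refine ⟨i, hi, h4, ?_⟩
      simp only [reg]
      rw [← h4]
      have hadj : (LG (BG k)).Adj u v := SimpleGraph.Walk.adj_of_mem_edges _ huv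
      have huS : u ∈ S := hS1 u (SimpleGraph.Walk.fst_mem_support_of_mem_edges _ huv)
      have hvS : v ∈ S := hS1 v (SimpleGraph.Walk.snd_mem_support_of_mem_edges _ huv)
      rcases hadj with ⟨h5, h6⟩ | ⟨h5, h6⟩
      · have h7 : ¬ (a j v.2 ≤ v.1 ∧ v.1 ≤ b j v.2) := by
          intro h7
          exact hv (mem_reg_car.2 ⟨h5 ▸ hu1, h7⟩)
        rw [← h5] at h7
        have h8 : u.1 - v.1 = 1 ∨ u.1 - v.1 = -1 := by
          rcases abs_eq (by norm_num : (0 : ℤ) ≤ 1) |>.1 h6 with h8 | h8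
          · exact Or.inl h8
          · exact Or.inr h8
        omega
      · have h7 : ¬ (a j v.2 ≤ v.1 ∧ v.1 ≤ b j v.2) := by
          intro h7
          apply hv
          rw [mem_reg_car]
          refine ⟨?_, h7⟩
          exact hLadj j u.2 (hA_mem j u huS hu2 hu3) v.2 (hA_mem j v hvS h7.1 h7.2) h6 Q hQ hu1
        have h8 : l1 u.2 v.2 = 1 := h6
        have h9 := ha j u.2 v.2
        have h10 := hb j u.2 v.2
        rw [h8, abs_le] at h9 h10
        push_cast at h9 h10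
        omega)
    (by
      intro r hr i hi1 hi2 v hv hvr hvz
      obtain ⟨j, _, Q, hQ, rfl⟩ := (hmemRL r).1 hr
      obtain ⟨_, _, Q', z1, z2, z3, hQ', hz⟩ := hLQ j Q hQ
      have h1 : Q.getD i 0 ∈ [z1, z2, z3] := getD_last 0 hQ' hi2 hi1
      have h2 : v.2 = Q.getD i 0 := hvz
      have h3 := (hz _ h1).1
      rw [← h2] at h3
      exact h3 (hA_mem j v (hS1 v hv) (mem_reg_car.1 hvr).2.1 (mem_reg_car.1 hvr).2.2))
  -- vertices in the regions are clean
  have hclean : ∀ v ∈ p'.support, ∀ r ∈ RL, v ∈ r.car → v ∉ F := by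
    intro v hv r hr hvr hvF
    have h1 := hin v hv r hr hvr
    obtain ⟨j, _, Q, hQ, rfl⟩ := (hmemRL r).1 hr
    obtain ⟨h2, h3, h4⟩ := mem_reg_car.1 hvr
    obtain ⟨i, hi, h5, h6, h7, h8⟩ := h1
    simp only [reg] at hi h5 h6 h7 h8
    rw [← h5] at h6 h7 h8
    have h9 := hFc v hvF j
    rcases h8 with h8 | h8 | h8
    · exact h9.1 ⟨h3, h8⟩
    · exact h9.2 ⟨h8, h4⟩
    · obtain ⟨_, _, Q', z1, z2, z3, hQ', hz⟩ := hLQ j Q hQ
      have h10 : Q.getD i 0 ∈ [z1, z2, z3] := getD_last 0 hQ' hi h8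
      have h11 := (hz _ h10).2.2
      rw [← h5] at h11
      exact h11 ⟨v.1, hvF, h3, h4⟩
  have hcov : ∀ v ∈ p₁.support, ∀ j, a j v.2 ≤ v.1 → v.1 ≤ b j v.2 → ∃ r ∈ RL, v ∈ r.car := by
    intro v hv j h1 h2
    obtain ⟨Q, hQ, h3⟩ := hLA j v.2 (hA_mem j v (hS1 v hv) h1 h2)
    exact ⟨reg (a j) (b j) Q, (hmemRL _).2 ⟨j, hmemJ v (hS1 v hv) j h1 h2, Q, hQ, rfl⟩,
      mem_reg_car.2 ⟨h3, h1, h2⟩⟩
  -- counting
  set τ := ∑ j ∈ J, (boxT V N σ j).card with hτ
  set X := p.length / N + 1 with hX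
  set Y := V.card * N ^ (k + 1) with hY
  have hScard : S.card ≤ N * X := by
    have h1 : S.card ≤ p.length + 1 := by
      rw [hS, ← SimpleGraph.Walk.length_support]
      exact List.toFinset_card_le _
    have h2 : p.length + 1 ≤ N * X := by
      have h3 := Nat.div_add_mod p.length N
      have h4 := Nat.mod_lt p.length (show 0 < N by omega)
      rw [hX, Nat.mul_add, mul_one]
      omega
    omega
  have hcσ : (S.filter (fun v => ∃ j : ℤ, |v.1 - (j * N + σ)| ≤ h)).card ≤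
      2 * (2 * h + 1) * X := by
    apply Nat.le_of_mul_le_mul_left _ (show 0 < N by omega)
    refine hσ3.trans ((Nat.mul_le_mul_left _ hScard).trans (le_of_eq ?_))
    ring
  have hτY : N * τ ≤ 3 * 5 ^ k * Y := by
    have h1 := sum_card_boxT V hN1 σ J
    rw [← hτ] at h1
    have h2 : (4 * N + 1) ^ k ≤ (5 * N) ^ k := Nat.pow_le_pow_left (by omega) k
    calc N * τ ≤ N * (3 * V.card * (5 * N) ^ k) :=
          Nat.mul_le_mul_left _ (h1.trans (Nat.mul_le_mul_left _ h2))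
      _ = 3 * 5 ^ k * Y := by
          rw [hY, mul_pow, pow_succ]
          ring
  set SW := J.biUnion (fun j => S.filter (fun v => a j v.2 ≤ v.1 ∧ v.1 ≤ b j v.2)) with hSW
  have hcardIcc : ∀ (x : ℤ) (n : ℕ), (Finset.Icc (x - n) (x + n)).card = 2 * n + 1 := by
    intro x n
    rw [Int.card_Icc]
    omega
  have hSWcard : SW.card ≤ 2 * (2 * h + 1) * X + 9 * 5 ^ k * Y := by
    have h1 : SW ⊆ (S.filter (fun v => ∃ j : ℤ, |v.1 - (j * N + σ)| ≤ h)) ∪
        J.biUnion (fun j => Finset.Icc (j * N + σ - N) (j * N + σ + N) ×ˢ boxT V N σ j) := by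
      intro v hv
      rw [hSW, Finset.mem_biUnion] at hv
      obtain ⟨j, hj, hv⟩ := hv
      rw [Finset.mem_filter] at hv
      obtain ⟨hvS, h2, h3⟩ := hv
      rw [Finset.mem_union]
      by_cases h4 : v.2 ∈ boxT V N σ j
      · right
        rw [Finset.mem_biUnion]
        refine ⟨j, hj, Finset.mem_product.2 ⟨?_, h4⟩⟩
        have h5 := hwide j v.2
        rw [Finset.mem_Icc]
        constructor <;> linarith [h5.1, h5.2]
      · left
        rw [Finset.mem_filter]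
        refine ⟨hvS, j, ?_⟩
        have h5 := hthin' j v.2 h4
        rw [abs_le]
        constructor <;> linarith [h5.1, h5.2]
    have h2 := (Finset.card_le_card h1).trans (Finset.card_union_le _ _)
    have h3 : (J.biUnion (fun j => Finset.Icc (j * N + σ - N) (j * N + σ + N) ×ˢ
        boxT V N σ j)).card ≤ (2 * N + 1) * τ := by
      refine Finset.card_biUnion_le.trans ?_
      rw [hτ, Finset.mul_sum]
      apply Finset.sum_le_sum
      intro j _
      rw [Finset.card_product, hcardIcc]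
    have h4 : (2 * N + 1) * τ ≤ 3 * (N * τ) := by
      rw [← mul_assoc]
      apply Nat.mul_le_mul_right
      omega
    have h5 : 3 * (N * τ) ≤ 9 * 5 ^ k * Y := by
      calc 3 * (N * τ) ≤ 3 * (3 * 5 ^ k * Y) := Nat.mul_le_mul_left _ hτY
        _ = _ := by ring
    omega
  have hAcard : ∑ j ∈ J, (A j).card ≤ SW.card := by
    rw [hSW, Finset.card_biUnion]
    · apply Finset.sum_le_sum
      intro j _
      exact Finset.card_image_le
    · intro j _ j' _ hjj
      rw [Function.onFun, Finset.disjoint_left]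
      intro v h1 h2
      rw [Finset.mem_filter] at h1 h2
      exact hjj (hdisj v.2 v.1 j j' h1.2 h2.2)
  have hτY' : τ ≤ 3 * 5 ^ k * Y := by
    refine le_trans ?_ hτY
    exact Nat.le_mul_of_pos_left _ (by omega)
  refine ⟨y, p', hp', ?_, ?_, ?_, ?_⟩
  · intro v hv hv'
    have hvF : v ∈ F := hVF hv
    by_cases h1 : ∃ r ∈ RL, v ∈ r.car
    · obtain ⟨r, hr, hvr⟩ := h1
      exact hclean v hv' r hr hvr hvF
    · push Not at h1
      have h2 : v ∈ p₁.support := (hout v h1).1 hv'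
      obtain ⟨j, h3, h4⟩ := hVc v hv
      obtain ⟨r, hr, hvr⟩ := hcov v h2 j h3 h4
      exact h1 r hr hvr
  · intro v hv hv'
    by_cases h1 : ∃ r ∈ RL, v ∈ r.car
    · obtain ⟨r, hr, hvr⟩ := h1
      exact hclean v hv r hr hvr
    · push Not at h1
      exact absurd (hsub v ((hout v h1).1 hv)) hv'
  · have h1 : S \ p'.support.toFinset ⊆ SW := by
      intro v hv
      obtain ⟨hvS, hv'⟩ := Finset.mem_sdiff.1 hv
      rw [List.mem_toFinset] at hv'
      have h2 : ∃ j, a j v.2 ≤ v.1 ∧ v.1 ≤ b j v.2 := by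
        by_contra h2
        have h3 : v ∈ p₁.support := by
          by_contra h3
          exact h2 (hcut v (List.mem_toFinset.1 hvS) h3)
        apply hv'
        rw [hout v _]
        · exact h3
        · intro r hr h4
          obtain ⟨j, _, Q, hQ, rfl⟩ := (hmemRL r).1 hr
          exact h2 ⟨j, (mem_reg_car.1 h4).2⟩
      obtain ⟨j, h3, h4⟩ := h2
      rw [hSW, Finset.mem_biUnion]
      exact ⟨j, hmemJ v hvS j h3 h4, Finset.mem_filter.2 ⟨hvS, h3, h4⟩⟩
    refine (Finset.card_le_card h1).trans (hSWcard.trans ?_)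
    calc 2 * (2 * h + 1) * X + 9 * 5 ^ k * Y
        ≤ (9 * 5 ^ k + 2 * (2 * h + 1)) * X + (9 * 5 ^ k + 2 * (2 * h + 1)) * Y :=
          Nat.add_le_add (Nat.mul_le_mul_right _ (by omega)) (Nat.mul_le_mul_right _ (by omega))
      _ = (9 * 5 ^ k + 2 * (2 * h + 1)) * (X + Y) := by ring
      _ ≤ _ := Nat.mul_le_mul_right _ (by omega)
  · have h1 : p'.support.toFinset \ S ⊆ J.biUnion (fun j =>
        (Finset.Icc (j * N + σ - N) (j * N + σ + N) ×ˢ boxT V N σ j) ∪
        (Finset.Icc (j * N + σ - h) (j * N + σ + h) ×ˢ (L j).flatten.toFinset)) := by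
      intro v hv
      obtain ⟨hv', hvS⟩ := Finset.mem_sdiff.1 hv
      rw [List.mem_toFinset] at hv'
      have h2 : ∃ r ∈ RL, v ∈ r.car := by
        by_contra h2
        push Not at h2
        exact hvS (hS1 v ((hout v h2).1 hv'))
      obtain ⟨r, hr, hvr⟩ := h2
      obtain ⟨j, hj, Q, hQ, rfl⟩ := (hmemRL r).1 hr
      obtain ⟨h3, h4, h5⟩ := mem_reg_car.1 hvr
      rw [Finset.mem_biUnion]
      refine ⟨j, hj, ?_⟩
      rw [Finset.mem_union, Finset.mem_product, Finset.mem_product]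
      by_cases h6 : v.2 ∈ boxT V N σ j
      · left
        refine ⟨?_, h6⟩
        have h7 := hwide j v.2
        rw [Finset.mem_Icc]
        constructor <;> linarith [h7.1, h7.2]
      · right
        refine ⟨?_, List.mem_toFinset.2 (List.mem_flatten.2 ⟨Q, hQ, h3⟩)⟩
        have h7 := hthin' j v.2 h6
        rw [Finset.mem_Icc]
        constructor <;> linarith [h7.1, h7.2]
    have h2 : (p'.support.toFinset \ S).card ≤ ∑ j ∈ J, ((2 * N + 1) * (boxT V N σ j).card +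
        (2 * h + 1) * (Cp * ((A j).card + (boxT V N σ j).card))) := by
      refine (Finset.card_le_card h1).trans (Finset.card_biUnion_le.trans ?_)
      apply Finset.sum_le_sum
      intro j _
      refine (Finset.card_union_le _ _).trans ?_
      rw [Finset.card_product, Finset.card_product, hcardIcc, hcardIcc]
      apply Nat.add_le_add_left
      apply Nat.mul_le_mul_left
      refine (List.toFinset_card_le _).trans ?_
      rw [List.length_flatten]
      exact hLlen j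
    have h3 : ∑ j ∈ J, ((2 * N + 1) * (boxT V N σ j).card +
        (2 * h + 1) * (Cp * ((A j).card + (boxT V N σ j).card))) =
        (2 * N + 1) * τ + (2 * h + 1) * (Cp * (∑ j ∈ J, (A j).card + τ)) := by
      rw [Finset.sum_add_distrib, ← Finset.mul_sum, ← Finset.mul_sum, ← Finset.mul_sum,
        Finset.sum_add_distrib]
    have h4 : (2 * N + 1) * τ ≤ 9 * 5 ^ k * Y := by
      calc (2 * N + 1) * τ ≤ 3 * N * τ := Nat.mul_le_mul_right _ (by omega)
        _ = 3 * (N * τ) := by ring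
        _ ≤ 3 * (3 * 5 ^ k * Y) := Nat.mul_le_mul_left _ hτY
        _ = _ := by ring
    have h5 : ∑ j ∈ J, (A j).card + τ ≤ (2 * (2 * h + 1) + 12 * 5 ^ k) * (X + Y) := by
      have h6 : ∑ j ∈ J, (A j).card + τ ≤ 2 * (2 * h + 1) * X + 9 * 5 ^ k * Y + 3 * 5 ^ k * Y :=
        Nat.add_le_add (hAcard.trans hSWcard) hτY'
      refine h6.trans ?_
      have h7 : (2 * (2 * h + 1) + 12 * 5 ^ k) * (X + Y) =
          2 * (2 * h + 1) * X + 9 * 5 ^ k * Y + 3 * 5 ^ k * Y +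
          (2 * (2 * h + 1) * Y + 12 * 5 ^ k * X) := by ring
      rw [h7]
      exact Nat.le_add_right _ _
    have h6 : (2 * h + 1) * (Cp * (∑ j ∈ J, (A j).card + τ)) ≤
        (2 * h + 1) * Cp * (2 * (2 * h + 1) + 12 * 5 ^ k) * (X + Y) := by
      calc (2 * h + 1) * (Cp * (∑ j ∈ J, (A j).card + τ))
          ≤ (2 * h + 1) * (Cp * ((2 * (2 * h + 1) + 12 * 5 ^ k) * (X + Y))) :=
            Nat.mul_le_mul_left _ (Nat.mul_le_mul_left _ h5)
        _ = _ := by ring
    rw [h3] at h2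
    refine h2.trans ((Nat.add_le_add h4 h6).trans ?_)
    rw [Nat.add_mul (Cw + 4 * (2 * h + 1) + 1 + (9 * 5 ^ k + 2 * (2 * h + 1)))]
    apply Nat.add_le_add_right
    calc 9 * 5 ^ k * Y ≤ 9 * 5 ^ k * (X + Y) := Nat.mul_le_mul_left _ (Nat.le_add_left _ _)
      _ ≤ _ := Nat.mul_le_mul_right _ (by omega)

end Surg

theorem surgery (k m : ℕ) (hk : 1 ≤ k) : ∃ D C : ℕ, ∀ N : ℕ, C ≤ N →
    ∀ F : Finset (ℤ × (Fin k → ℤ)), Sparse m D F → ∀ V ⊆ F,
    (∀ v ∈ V, (4 * N : ℤ) < |v.1| ∨ ∃ j, (4 * N : ℤ) < |v.2 j|) →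
    ∀ (x₁ : ℤ × (Fin k → ℤ)) (p : (LG (BG k)).Walk 0 x₁), p.IsPath →
    ∃ (x₁' : ℤ × (Fin k → ℤ)) (p' : (LG (BG k)).Walk 0 x₁'), p'.IsPath ∧
      (∀ v ∈ V, v ∉ p'.support) ∧
      (∀ v ∈ p'.support, v ∉ p.support → v ∉ F) ∧
      (p.support.toFinset \ p'.support.toFinset).card ≤
        C * (p.length / N + 1 + V.card * N ^ (k + 1)) ∧
      (p'.support.toFinset \ p.support.toFinset).card ≤
        C * (p.length / N + 1 + V.card * N ^ (k + 1)) :=
  Surg.surgery_of k m (walls k m) (path_cover k m hk)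
    (fun L h1 h2 {_} {_} p h3 h4 h5 h6 h7 => multi_surgery (BG k) L h1 h2 p h3 h4 h5 h6 h7)

end Pool.Agent.Helper82.GP
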