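import Pool.Agent.Helper82.GP.Basic

/-!
Module Upper: the greedy lattice path of nonnegative weights has expectation at most
`C n ∫ P(Y > t)^{1/d} dt`, and condition (A+) makes this integral finite.
-/

namespace Pool.Agent.Helper82.GP

open MeasureTheory ProbabilityTheory Filter
open scoped ENNReal Topology
open Pool.Agent.Helper82.Greedy

namespace Upper

/-- Partial sums of a finite sequence of increments. -/
def psum {d m : ℕ} (δ : Fin m → Fin d → ℤ) (j : ℕ) : Fin d → ℤ :=
  ∑ i ∈ Finset.range j, if h : i < m then δ ⟨i, h⟩ else 0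

/-- The union of the boxes visited. -/
noncomputable def tube {d m : ℕ} (l : ℕ) (δ : Fin m → Fin d → ℤ) : Finset (Fin d → ℤ) :=
  (Finset.range (m + 1)).biUnion fun j =>
    Fintype.piFinset fun i =>
      Finset.Icc ((l : ℤ) * psum δ j i - l) ((l : ℤ) * psum δ j i + 2 * l)

theorem card_tube {d m l : ℕ} (hl : 1 ≤ l) (δ : Fin m → Fin d → ℤ) :
    (tube l δ).card ≤ (m + 1) * (4 * l) ^ d := by
  refine Finset.card_biUnion_le.trans ?_
  refine (Finset.sum_le_card_nsmul _ _ ((4 * l) ^ d) fun j _ => ?_).trans ?_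
  · rw [Fintype.card_piFinset]
    refine (Finset.prod_le_prod' fun i _ => ?_ : _ ≤ ∏ _i : Fin d, 4 * l).trans ?_
    · rw [Int.card_Icc]
      omega
    · simp
  · simp

/-- The possible increments of the coarse path. -/
noncomputable def incs (d m : ℕ) : Finset (Fin m → Fin d → ℤ) :=
  Fintype.piFinset fun _ => Fintype.piFinset fun _ => Finset.Icc (-1) 1

theorem card_incs (d m : ℕ) : (incs d m).card = (3 ^ d) ^ m := by
  simp [incs]

theorem exists_tube {d n : ℕ} {γ : Fin (n + 1) → (Fin d → ℤ)} (h : IsSAW d n γ) {l : ℕ}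
    (hl : 1 ≤ l) : ∃ δ ∈ incs d (n / l), ∀ i, γ i ∈ tube l δ := by
  have hl0 : (0 : ℤ) < l := by exact_mod_cast hl
  set g : ℕ → Fin d → ℤ := fun s => γ ⟨min s n, by omega⟩ with hg
  have hstep : ∀ s i, |g (s + 1) i - g s i| ≤ 1 := by
    intro s i
    by_cases hs : s < n
    · have h1 := h.2.2 ⟨s, hs⟩
      have e1 : g (s + 1) = γ (Fin.succ ⟨s, hs⟩) := by
        simp only [hg]
        congr 1
        apply Fin.ext
        simp only [Fin.val_succ]
        omega
      have e2 : g s = γ (Fin.castSucc ⟨s, hs⟩) := by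
        simp only [hg]
        congr 1
        apply Fin.ext
        simp only [Fin.val_castSucc]
        omega
      rw [e1, e2, ← h1]
      exact Finset.single_le_sum
        (f := fun j => |γ (Fin.succ ⟨s, hs⟩) j - γ (Fin.castSucc ⟨s, hs⟩) j|)
        (fun j _ => abs_nonneg _) (Finset.mem_univ i)
    · have e1 : g (s + 1) = g s := by
        simp only [hg]
        congr 1
        apply Fin.ext
        simp only
        omega
      rw [e1]
      simp
  have hlip : ∀ s k i, |g (s + k) i - g s i| ≤ k := by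
    intro s k i
    induction k with
    | zero => simp
    | succ k ih =>
      have h1 := hstep (s + k) i
      have h2 : g (s + (k + 1)) i - g s i
          = (g (s + k + 1) i - g (s + k) i) + (g (s + k) i - g s i) := by
        rw [← add_assoc]; ring
      rw [h2]
      refine (abs_add_le _ _).trans ?_
      push_cast
      linarith
  set c : ℕ → Fin d → ℤ := fun j i => g (l * j) i / l with hc
  have hc0 : c 0 = 0 := by
    funext i
    have : g 0 = 0 := by
      simp only [hg]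
      rw [← h.1]
      congr 1
    simp [hc, this]
  have hcb : ∀ j i, (l : ℤ) * c j i ≤ g (l * j) i ∧ g (l * j) i < l * c j i + l := by
    intro j i
    constructor
    · exact Int.mul_ediv_self_le hl0.ne'
    · exact Int.lt_mul_ediv_self_add hl0
  have hcs : ∀ j i, -1 ≤ c (j + 1) i - c j i ∧ c (j + 1) i - c j i ≤ 1 := by
    intro j i
    have h1 := hlip (l * j) l i
    have h2 : l * j + l = l * (j + 1) := by ring
    rw [h2] at h1
    have h3 := hcb j i
    have h4 := hcb (j + 1) i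
    have h5 := abs_le.1 h1
    constructor
    · by_contra hcon
      have : c (j + 1) i ≤ c j i - 2 := by omega
      nlinarith
    · by_contra hcon
      have : c j i + 2 ≤ c (j + 1) i := by omega
      nlinarith
  refine ⟨fun i x => c (i + 1) x - c i x, ?_, ?_⟩
  · simp only [incs, Fintype.mem_piFinset, Finset.mem_Icc]
    intro i x
    exact hcs i x
  · have hps : ∀ j, j ≤ n / l →
        psum (fun (i : Fin (n / l)) x => c (i + 1) x - c i x) j = c j := by
      intro j hj
      have : psum (fun (i : Fin (n / l)) x => c (i + 1) x - c i x) j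
          = ∑ i ∈ Finset.range j, (c (i + 1) - c i) := by
        refine Finset.sum_congr rfl fun i hi => ?_
        have hi' : i < n / l := (Finset.mem_range.1 hi).trans_le hj
        simp only [hi', dif_pos]
        rfl
      rw [this, Finset.sum_range_sub, hc0, sub_zero]
    intro i
    have hi : (i : ℕ) ≤ n := Nat.lt_succ_iff.1 i.2
    have hgi : γ i = g i := by
      simp only [hg]
      congr 1
      apply Fin.ext
      simp only
      omega
    have hj : (i : ℕ) / l ≤ n / l := Nat.div_le_div_right hi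
    refine Finset.mem_biUnion.2 ⟨(i : ℕ) / l, Finset.mem_range.2 (by omega), ?_⟩
    rw [Fintype.mem_piFinset]
    intro x
    rw [hps _ hj, Finset.mem_Icc, hgi]
    have h1 := hlip (l * ((i : ℕ) / l)) ((i : ℕ) % l) x
    rw [Nat.div_add_mod] at h1
    have h2 := hcb ((i : ℕ) / l) x
    have h3 := abs_le.1 h1
    have h4 : (((i : ℕ) % l : ℕ) : ℤ) < l := by exact_mod_cast Nat.mod_lt _ hl
    constructor <;> linarith [h3.1, h3.2, h2.1, h2.2]

theorem exp_bound {Ω : Type*} [MeasurableSpace Ω] (P : Measure Ω) [IsProbabilityMeasure P]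
    {ι : Type*} (Y : ι → Ω → ℝ) (hYm : ∀ v, Measurable (Y v)) (hind : iIndepFun Y P) (t q : ℝ)
    (hq0 : 0 ≤ q) (hq : ∀ v, P {ω | t < Y v ω} ≤ ENNReal.ofReal q) (U : Finset ι) :
    ∫⁻ ω, ENNReal.ofReal (Real.exp (∑ v ∈ U, if t < Y v ω then (1 : ℝ) else 0)) ∂P ≤
      ENNReal.ofReal (Real.exp (2 * q * U.card)) := by
  set φ : ℝ → ℝ≥0∞ := fun y => ENNReal.ofReal (Real.exp (if t < y then (1 : ℝ) else 0)) with hφ
  have hφm : Measurable φ := by
    refine ENNReal.measurable_ofReal.comp (Real.measurable_exp.comp ?_)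
    exact Measurable.ite measurableSet_Ioi measurable_const measurable_const
  have h1 : ∀ ω, ENNReal.ofReal (Real.exp (∑ v ∈ U, if t < Y v ω then (1 : ℝ) else 0))
      = ∏ v ∈ U, φ (Y v ω) := by
    intro ω
    rw [Real.exp_sum, ENNReal.ofReal_prod_of_nonneg fun i _ => (Real.exp_pos _).le]
  simp_rw [h1]
  rw [lintegral_prod_eq_prod_lintegral_of_indepFun U (fun v ω => φ (Y v ω))
    (hind.comp (fun _ => φ) (fun _ => hφm)) (fun v => hφm.comp (hYm v))]
  have h2 : ∀ v, ∫⁻ ω, φ (Y v ω) ∂P ≤ ENNReal.ofReal (Real.exp (2 * q)) := by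
    intro v
    have hm : MeasurableSet {ω | t < Y v ω} := measurableSet_lt measurable_const (hYm v)
    have h3 : ∀ ω, φ (Y v ω) ≤ 1 + {ω | t < Y v ω}.indicator (fun _ => (2 : ℝ≥0∞)) ω := by
      intro ω
      by_cases hω : t < Y v ω
      · have : {ω | t < Y v ω}.indicator (fun _ => (2 : ℝ≥0∞)) ω = 2 :=
          Set.indicator_of_mem (s := {ω | t < Y v ω}) hω _
        rw [this]
        simp only [hφ, hω, if_true]
        have h4 : Real.exp 1 ≤ 3 := Real.exp_one_lt_three.le
        calc ENNReal.ofReal (Real.exp 1) ≤ ENNReal.ofReal 3 := ENNReal.ofReal_le_ofReal h4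
          _ = 1 + 2 := by norm_num
      · have : {ω | t < Y v ω}.indicator (fun _ => (2 : ℝ≥0∞)) ω = 0 :=
          Set.indicator_of_notMem (s := {ω | t < Y v ω}) hω _
        rw [this]
        simp [hφ, hω]
    calc ∫⁻ ω, φ (Y v ω) ∂P
        ≤ ∫⁻ ω, (1 + {ω | t < Y v ω}.indicator (fun _ => (2 : ℝ≥0∞)) ω) ∂P := lintegral_mono h3
      _ = 1 + 2 * P {ω | t < Y v ω} := by
          rw [lintegral_add_left measurable_const, lintegral_indicator hm]
          simp
      _ ≤ 1 + 2 * ENNReal.ofReal q := by gcongr; exact hq v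
      _ = ENNReal.ofReal (1 + 2 * q) := by
          rw [ENNReal.ofReal_add zero_le_one (by positivity), ENNReal.ofReal_mul zero_le_two]
          simp
      _ ≤ ENNReal.ofReal (Real.exp (2 * q)) := by
          apply ENNReal.ofReal_le_ofReal
          linarith [Real.add_one_le_exp (2 * q)]
  calc ∏ v ∈ U, ∫⁻ ω, φ (Y v ω) ∂P ≤ ∏ _v ∈ U, ENNReal.ofReal (Real.exp (2 * q)) :=
        Finset.prod_le_prod' fun v _ => h2 v
    _ = ENNReal.ofReal (Real.exp (2 * q * U.card)) := by
        rw [Finset.prod_const, ← ENNReal.ofReal_pow (Real.exp_pos _).le, ← Real.exp_nat_mul]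
        congr 2
        ring

/-- The maximal number of marked vertices on a path. -/
noncomputable def cnt {Ω : Type*} (d n : ℕ) (Y : (Fin d → ℤ) → Ω → ℝ) (t : ℝ) (ω : Ω) : ℝ≥0∞ :=
  ⨆ γ ∈ (saws d n : Set (Fin (n + 1) → (Fin d → ℤ))),
    ∑ i : Fin n, if t < Y (γ i.succ) ω then (1 : ℝ≥0∞) else 0

theorem cnt_small {Ω : Type*} [MeasurableSpace Ω] (P : Measure Ω) [IsProbabilityMeasure P]
    (d n : ℕ) (Y : (Fin d → ℤ) → Ω → ℝ) (hYm : ∀ v, Measurable (Y v)) (t q : ℝ)
    (hq : ∀ v, P {ω | t < Y v ω} ≤ ENNReal.ofReal q) :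
    ∫⁻ ω, cnt d n Y t ω ∂P ≤ ((2 * n + 1) ^ d : ℕ) * ENNReal.ofReal q := by
  set B : Finset (Fin d → ℤ) := Fintype.piFinset fun _ => Finset.Icc (-(n : ℤ)) n with hB
  have hcard : B.card = (2 * n + 1) ^ d := by
    rw [hB, Fintype.card_piFinset]
    simp only [Int.card_Icc, Finset.prod_const, Finset.card_univ, Fintype.card_fin]
    congr 1
    omega
  have h1 : ∀ ω, cnt d n Y t ω ≤ ∑ v ∈ B, if t < Y v ω then (1 : ℝ≥0∞) else 0 := by
    intro ω
    refine iSup₂_le fun γ hγ => ?_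
    have hγ' : IsSAW d n γ := mem_saws.1 hγ
    have e1 : ∑ i : Fin n, (if t < Y (γ i.succ) ω then (1 : ℝ≥0∞) else 0)
        = ∑ v ∈ vset γ, if t < Y v ω then (1 : ℝ≥0∞) else 0 := by
      rw [vset, Finset.sum_image]
      intro a _ b _ hab
      exact Fin.succ_injective _ (hγ'.2.1 hab)
    rw [e1]
    refine Finset.sum_le_sum_of_subset ?_
    intro v hv
    obtain ⟨i, _, rfl⟩ := Finset.mem_image.1 hv
    rw [hB, Fintype.mem_piFinset]
    intro j
    exact Finset.mem_Icc.2 (abs_le.1 (saw_coord_bound hγ' i.succ j))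
  have hms : ∀ v, MeasurableSet {ω | t < Y v ω} := fun v =>
    measurableSet_lt measurable_const (hYm v)
  calc ∫⁻ ω, cnt d n Y t ω ∂P
      ≤ ∫⁻ ω, ∑ v ∈ B, (if t < Y v ω then (1 : ℝ≥0∞) else 0) ∂P := lintegral_mono h1
    _ = ∑ v ∈ B, ∫⁻ ω, (if t < Y v ω then (1 : ℝ≥0∞) else 0) ∂P :=
        lintegral_finsetSum _ fun v _ => Measurable.ite (hms v) measurable_const measurable_const
    _ ≤ ∑ v ∈ B, ENNReal.ofReal q := by
        refine Finset.sum_le_sum fun v _ => ?_
        have : ∀ ω, (if t < Y v ω then (1 : ℝ≥0∞) else 0) =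
            {ω | t < Y v ω}.indicator (fun _ => (1 : ℝ≥0∞)) ω := by
          intro ω
          rfl
        simp_rw [this]
        rw [lintegral_indicator (hms v)]
        simpa using hq v
    _ = ((2 * n + 1) ^ d : ℕ) * ENNReal.ofReal q := by
        rw [Finset.sum_const, hcard, nsmul_eq_mul]

theorem cnt_large {Ω : Type*} [MeasurableSpace Ω] (P : Measure Ω) [IsProbabilityMeasure P]
    (d n : ℕ) (Y : (Fin d → ℤ) → Ω → ℝ) (hYm : ∀ v, Measurable (Y v)) (hind : iIndepFun Y P)
    (t q : ℝ) (hq0 : 0 ≤ q) (hq : ∀ v, P {ω | t < Y v ω} ≤ ENNReal.ofReal q) (l : ℕ)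
    (hl : 1 ≤ l) :
    ∫⁻ ω, cnt d n Y t ω ∂P ≤ ENNReal.ofReal
      ((n / l : ℕ) * (d * Real.log 3) + 2 * q * ((((n / l : ℕ) : ℝ) + 1) * (4 * l) ^ d) + 1) := by
  set m : ℕ := n / l with hm
  set L : ℕ := (m + 1) * (4 * l) ^ d with hL
  set a : ℝ := Real.log (((3 : ℝ) ^ d) ^ m) + 2 * q * L with ha
  have ha0 : 0 ≤ a := by
    have : 0 ≤ Real.log (((3 : ℝ) ^ d) ^ m) :=
      Real.log_nonneg (one_le_pow₀ (one_le_pow₀ (by norm_num)))
    positivity
  have haeq : a = m * (d * Real.log 3) + 2 * q * (((m : ℝ) + 1) * (4 * l) ^ d) := by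
    rw [ha, Real.log_pow, Real.log_pow, hL]
    push_cast
    ring
  have h1 : ∀ ω, cnt d n Y t ω ≤ ENNReal.ofReal a + ENNReal.ofReal (Real.exp (-a)) *
      ∑ δ ∈ incs d m,
        ENNReal.ofReal (Real.exp (∑ v ∈ tube l δ, if t < Y v ω then (1 : ℝ) else 0)) := by
    intro ω
    refine iSup₂_le fun γ hγ => ?_
    have hγ' : IsSAW d n γ := mem_saws.1 hγ
    obtain ⟨δ, hδ, hsub⟩ := exists_tube hγ' hl
    have e1 : ∑ i : Fin n, (if t < Y (γ i.succ) ω then (1 : ℝ≥0∞) else 0)
        = ENNReal.ofReal (∑ v ∈ vset γ, if t < Y v ω then (1 : ℝ) else 0) := by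
      rw [vset, Finset.sum_image, ENNReal.ofReal_sum_of_nonneg]
      · refine Finset.sum_congr rfl fun i _ => ?_
        split_ifs <;> simp
      · intro i _
        split_ifs <;> norm_num
      · intro a _ b _ hab
        exact Fin.succ_injective _ (hγ'.2.1 hab)
    have e2 : (∑ v ∈ vset γ, if t < Y v ω then (1 : ℝ) else 0) ≤
        ∑ v ∈ tube l δ, if t < Y v ω then (1 : ℝ) else 0 := by
      refine Finset.sum_le_sum_of_subset_of_nonneg ?_ ?_
      · intro v hv
        obtain ⟨i, _, rfl⟩ := Finset.mem_image.1 hv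
        exact hsub _
      · intro i _ _
        split_ifs <;> norm_num
    rw [e1]
    set x : ℝ := ∑ v ∈ tube l δ, if t < Y v ω then (1 : ℝ) else 0 with hx
    have e3 : x ≤ a + Real.exp (-a) * Real.exp x := by
      rw [← Real.exp_add]
      have := Real.add_one_le_exp (-a + x)
      linarith
    calc ENNReal.ofReal (∑ v ∈ vset γ, if t < Y v ω then (1 : ℝ) else 0)
        ≤ ENNReal.ofReal (a + Real.exp (-a) * Real.exp x) :=
          ENNReal.ofReal_le_ofReal (e2.trans e3)
      _ = ENNReal.ofReal a + ENNReal.ofReal (Real.exp (-a)) * ENNReal.ofReal (Real.exp x) := by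
          rw [ENNReal.ofReal_add ha0 (by positivity), ENNReal.ofReal_mul (Real.exp_pos _).le]
      _ ≤ _ := by
          gcongr
          exact Finset.single_le_sum (f := fun δ => ENNReal.ofReal
            (Real.exp (∑ v ∈ tube l δ, if t < Y v ω then (1 : ℝ) else 0)))
            (fun _ _ => zero_le) hδ
  have hmeas : ∀ δ : Fin m → Fin d → ℤ, Measurable fun ω =>
      ENNReal.ofReal (Real.exp (∑ v ∈ tube l δ, if t < Y v ω then (1 : ℝ) else 0)) := by
    intro δ
    refine ENNReal.measurable_ofReal.comp (Real.measurable_exp.comp ?_)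
    refine Finset.measurable_sum _ fun v _ => ?_
    exact Measurable.ite (measurableSet_lt measurable_const (hYm v)) measurable_const
      measurable_const
  calc ∫⁻ ω, cnt d n Y t ω ∂P
      ≤ ∫⁻ ω, (ENNReal.ofReal a + ENNReal.ofReal (Real.exp (-a)) * ∑ δ ∈ incs d m,
        ENNReal.ofReal (Real.exp (∑ v ∈ tube l δ, if t < Y v ω then (1 : ℝ) else 0))) ∂P :=
        lintegral_mono h1
    _ = ENNReal.ofReal a + ENNReal.ofReal (Real.exp (-a)) * ∑ δ ∈ incs d m, ∫⁻ ω,
        ENNReal.ofReal (Real.exp (∑ v ∈ tube l δ, if t < Y v ω then (1 : ℝ) else 0)) ∂P := by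
        rw [lintegral_add_left measurable_const, lintegral_const_mul _
          (Finset.measurable_sum _ fun δ _ => hmeas δ), lintegral_finsetSum _ fun δ _ => hmeas δ]
        simp
    _ ≤ ENNReal.ofReal a + ENNReal.ofReal (Real.exp (-a)) *
        ∑ _δ ∈ incs d m, ENNReal.ofReal (Real.exp (2 * q * L)) := by
        gcongr with δ hδ
        refine (exp_bound P Y hYm hind t q hq0 hq _).trans ?_
        apply ENNReal.ofReal_le_ofReal
        apply Real.exp_le_exp.2
        have : ((tube l δ).card : ℝ) ≤ L := by exact_mod_cast card_tube hl δ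
        gcongr
    _ = ENNReal.ofReal a + ENNReal.ofReal 1 := by
        congr 1
        rw [Finset.sum_const, card_incs, nsmul_eq_mul, ← ENNReal.ofReal_natCast,
          ← ENNReal.ofReal_mul (by positivity), ← ENNReal.ofReal_mul (Real.exp_pos _).le]
        congr 1
        have h3 : (0 : ℝ) < ((3 : ℝ) ^ d) ^ m := by positivity
        have : Real.exp a = ((3 : ℝ) ^ d) ^ m * Real.exp (2 * q * L) := by
          rw [ha, Real.exp_add, Real.exp_log h3]
        push_cast
        rw [← this, ← Real.exp_add]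
        simp
    _ = _ := by
        rw [← ENNReal.ofReal_add ha0 zero_le_one, haeq]

theorem cnt_bound {Ω : Type*} [MeasurableSpace Ω] (P : Measure Ω) [IsProbabilityMeasure P]
    (d n : ℕ) (hd : 1 ≤ d) (Y : (Fin d → ℤ) → Ω → ℝ) (hYm : ∀ v, Measurable (Y v))
    (hind : iIndepFun Y P) (t r : ℝ) (hr0 : 0 ≤ r) (hr1 : r ≤ 1)
    (hq : ∀ v, P {ω | t < Y v ω} ≤ ENNReal.ofReal (r ^ d)) :
    ∫⁻ ω, cnt d n Y t ω ∂P ≤ ENNReal.ofReal ((3 ^ d + 2 * d + 4 * 8 ^ d + 1) * n * r) := by
  rcases Nat.eq_zero_or_pos n with rfl | hn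
  · simp [cnt]
  have hn1 : (1 : ℝ) ≤ n := by exact_mod_cast hn
  rcases le_or_gt (n * r) 1 with hnr | hnr
  · refine (cnt_small P d n Y hYm t (r ^ d) hq).trans ?_
    rw [← ENNReal.ofReal_natCast, ← ENNReal.ofReal_mul (by positivity)]
    apply ENNReal.ofReal_le_ofReal
    push_cast
    have h1 : ((2 * (n : ℝ) + 1) ^ d) * r ^ d ≤ 3 ^ d * (n * r) ^ d := by
      rw [← mul_pow, ← mul_pow]
      apply pow_le_pow_left₀ (by positivity)
      nlinarith
    have h2 : (n * r) ^ d ≤ n * r := by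
      calc (n * r) ^ d ≤ (n * r) ^ 1 := pow_le_pow_of_le_one (by positivity) hnr hd
        _ = n * r := pow_one _
    calc ((2 * (n : ℝ) + 1) ^ d) * r ^ d ≤ 3 ^ d * (n * r) ^ d := h1
      _ ≤ 3 ^ d * (n * r) := by gcongr
      _ ≤ (3 ^ d + 2 * d + 4 * 8 ^ d + 1) * n * r := by
          have : 0 ≤ (2 * (d : ℝ) + 4 * 8 ^ d + 1) * (n * r) := by positivity
          nlinarith
  · have hrpos : 0 < r := by
      rcases hr0.eq_or_lt with h | h
      · rw [← h] at hnr
        simp at hnr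
        linarith
      · exact h
    set l : ℕ := ⌈1 / r⌉₊ with hl
    have hl1 : 1 / r ≤ l := Nat.le_ceil _
    have hl2 : (l : ℝ) < 1 / r + 1 := Nat.ceil_lt_add_one (by positivity)
    have hlr1 : 1 ≤ l * r := by
      rw [div_le_iff₀ hrpos] at hl1
      exact hl1
    have hlr2 : l * r ≤ 2 := by
      have h1 : (l : ℝ) * r ≤ (1 / r + 1) * r := by gcongr
      have h2 : (1 / r + 1) * r = 1 + r := by
        field_simp
      linarith
    have hlpos : 1 ≤ l := by
      rw [Nat.one_le_iff_ne_zero]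
      intro h0
      rw [h0] at hlr1
      simp at hlr1
      linarith
    have hlpos' : (0 : ℝ) < l := by exact_mod_cast hlpos
    refine (cnt_large P d n Y hYm hind t (r ^ d) (by positivity) hq l hlpos).trans ?_
    apply ENNReal.ofReal_le_ofReal
    have hm : (((n / l : ℕ) : ℕ) : ℝ) ≤ n * r := by
      have h1 : (((n / l : ℕ) : ℕ) : ℝ) ≤ (n : ℝ) / l := Nat.cast_div_le
      have h2 : (n : ℝ) / l ≤ n * r := by
        rw [div_le_iff₀ hlpos']
        have : (n : ℝ) * r * l = n * (l * r) := by ring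
        rw [this]
        nlinarith
      linarith
    have hlog : Real.log 3 ≤ 2 := by
      have := Real.log_le_sub_one_of_pos (show (0 : ℝ) < 3 by norm_num)
      linarith
    have hlog0 : 0 ≤ Real.log 3 := Real.log_nonneg (by norm_num)
    have h4 : r ^ d * (4 * (l : ℝ)) ^ d ≤ 8 ^ d := by
      rw [← mul_pow]
      apply pow_le_pow_left₀ (by positivity)
      nlinarith
    have hm0 : (0 : ℝ) ≤ ((n / l : ℕ) : ℕ) := Nat.cast_nonneg _
    have t1 : (((n / l : ℕ) : ℕ) : ℝ) * (d * Real.log 3) ≤ (n * r) * (d * 2) := by gcongr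
    have t2 : 2 * r ^ d * (((((n / l : ℕ) : ℕ) : ℝ) + 1) * (4 * l) ^ d)
        ≤ 2 * ((2 * (n * r)) * 8 ^ d) := by
      calc 2 * r ^ d * (((((n / l : ℕ) : ℕ) : ℝ) + 1) * (4 * l) ^ d)
          = 2 * (((((n / l : ℕ) : ℕ) : ℝ) + 1) * (r ^ d * (4 * l) ^ d)) := by ring
        _ ≤ 2 * ((2 * (n * r)) * 8 ^ d) := by
            gcongr
            linarith
    have t3 : 0 ≤ (3 : ℝ) ^ d * (n * r) := by positivity
    nlinarith

end Upper

theorem greedy_upper (d : ℕ) (hd : 1 ≤ d) : ∃ C : ℝ≥0∞, C ≠ ⊤ ∧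
    ∀ {Ω : Type*} [MeasurableSpace Ω] (P : Measure Ω) [IsProbabilityMeasure P]
      (Y : (Fin d → ℤ) → Ω → ℝ), IsIID P d Y → (∀ v ω, 0 ≤ Y v ω) → ∀ n : ℕ,
      ∫⁻ ω, ENNReal.ofReal (greedy d (fun v => Y v ω) n) ∂P ≤
        C * n * ∫⁻ t in Set.Ioi (0 : ℝ), (P {ω | t < Y 0 ω}) ^ (1 / (d : ℝ)) := by
  refine ⟨ENNReal.ofReal (3 ^ d + 2 * d + 4 * 8 ^ d + 1), ENNReal.ofReal_ne_top, ?_⟩
  intro Ω _ P _ Y hiid hY0 n
  have hms : ∀ v, MeasurableSet {p : Ω × ℝ | p.2 < Y v p.1} := fun v =>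
    measurableSet_lt measurable_snd ((hiid.1 v).comp measurable_fst)
  have hmeas : Measurable (Function.uncurry fun (ω : Ω) (t : ℝ) => Upper.cnt d n Y t ω) := by
    have : (Function.uncurry fun (ω : Ω) (t : ℝ) => Upper.cnt d n Y t ω) = fun p : Ω × ℝ =>
        ⨆ γ ∈ (saws d n : Set (Fin (n + 1) → (Fin d → ℤ))),
          ∑ i : Fin n, if p.2 < Y (γ i.succ) p.1 then (1 : ℝ≥0∞) else 0 := rfl
    rw [this]
    refine Measurable.biSup _ (saws d n).finite_toSet.countable fun γ _ => ?_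
    exact Finset.measurable_sum _ fun i _ =>
      Measurable.ite (hms _) measurable_const measurable_const
  have h1 : ∀ ω, ENNReal.ofReal (greedy d (fun v => Y v ω) n) ≤
      ∫⁻ t in Set.Ioi (0 : ℝ), Upper.cnt d n Y t ω := by
    intro ω
    obtain ⟨γ, hγ, hval⟩ := exists_greedy d hd (fun v => Y v ω) n
    rw [hval, ENNReal.ofReal_sum_of_nonneg fun i _ => hY0 _ _]
    have h2 : ∀ v, ENNReal.ofReal (Y v ω) =
        ∫⁻ t in Set.Ioi (0 : ℝ), if t < Y v ω then (1 : ℝ≥0∞) else 0 := by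
      intro v
      have : ∀ t : ℝ, (if t < Y v ω then (1 : ℝ≥0∞) else 0) =
          (Set.Iio (Y v ω)).indicator (fun _ => (1 : ℝ≥0∞)) t := fun t => rfl
      simp_rw [this]
      rw [lintegral_indicator measurableSet_Iio, Measure.restrict_restrict measurableSet_Iio,
        Set.inter_comm, Set.Ioi_inter_Iio]
      simp
    simp_rw [h2]
    rw [← lintegral_finsetSum]
    · refine lintegral_mono fun t => ?_
      exact le_iSup₂ (f := fun (γ : Fin (n + 1) → (Fin d → ℤ))
        (_ : γ ∈ (saws d n : Set (Fin (n + 1) → (Fin d → ℤ)))) =>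
          ∑ i : Fin n, if t < Y (γ i.succ) ω then (1 : ℝ≥0∞) else 0) γ (mem_saws.2 hγ)
    · intro i _
      exact Measurable.ite measurableSet_Iio measurable_const measurable_const
  have hid : ∀ (t : ℝ) v, P {ω | t < Y v ω} = P {ω | t < Y 0 ω} := by
    intro t v
    exact (hiid.2.2 v).measure_mem_eq measurableSet_Ioi
  calc ∫⁻ ω, ENNReal.ofReal (greedy d (fun v => Y v ω) n) ∂P
      ≤ ∫⁻ ω, (∫⁻ t in Set.Ioi (0 : ℝ), Upper.cnt d n Y t ω) ∂P := lintegral_mono h1
    _ = ∫⁻ t in Set.Ioi (0 : ℝ), (∫⁻ ω, Upper.cnt d n Y t ω ∂P) :=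
        lintegral_lintegral_swap hmeas.aemeasurable
    _ ≤ ∫⁻ t in Set.Ioi (0 : ℝ), (ENNReal.ofReal (3 ^ d + 2 * d + 4 * 8 ^ d + 1) * n) *
          (P {ω | t < Y 0 ω}) ^ (1 / (d : ℝ)) := by
        refine lintegral_mono fun t => ?_
        set q : ℝ≥0∞ := P {ω | t < Y 0 ω} with hq
        have hq1 : q ≤ 1 := prob_le_one
        have hqt : q ≠ ⊤ := (hq1.trans_lt ENNReal.one_lt_top).ne
        have hd0 : (0 : ℝ) < d := by exact_mod_cast hd
        set r : ℝ := (q ^ (1 / (d : ℝ))).toReal with hr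
        have hqr : q ^ (1 / (d : ℝ)) ≤ 1 := ENNReal.rpow_le_one hq1 (by positivity)
        have hqr' : q ^ (1 / (d : ℝ)) = ENNReal.ofReal r :=
          (ENNReal.ofReal_toReal (hqr.trans_lt ENNReal.one_lt_top).ne).symm
        have hr1 : r ≤ 1 := by
          rw [hr]
          exact ENNReal.toReal_le_of_le_ofReal zero_le_one (by simpa using hqr)
        have hrd : q = ENNReal.ofReal (r ^ d) := by
          rw [ENNReal.ofReal_pow ENNReal.toReal_nonneg, ← hqr', ← ENNReal.rpow_natCast,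
            ← ENNReal.rpow_mul, one_div, inv_mul_cancel₀ hd0.ne', ENNReal.rpow_one]
        refine (Upper.cnt_bound P d n hd Y hiid.1 hiid.2.1 t r ENNReal.toReal_nonneg hr1
          fun v => ?_).trans ?_
        · rw [hid t v, ← hq, hrd]
        · rw [hqr', ENNReal.ofReal_mul (by positivity), ENNReal.ofReal_mul (by positivity)]
          simp
    _ = ENNReal.ofReal (3 ^ d + 2 * d + 4 * 8 ^ d + 1) * n *
          ∫⁻ t in Set.Ioi (0 : ℝ), (P {ω | t < Y 0 ω}) ^ (1 / (d : ℝ)) := by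
        rw [lintegral_const_mul']
        exact ENNReal.mul_ne_top ENNReal.ofReal_ne_top (ENNReal.natCast_ne_top n)

theorem aplus_integral {Ω : Type*} [MeasurableSpace Ω] (P : Measure Ω) [IsProbabilityMeasure P]
    (d : ℕ) (hd : 1 ≤ d) (Y : Ω → ℝ) (hY : Measurable Y) (hA : APlus P d Y) :
    ∫⁻ t in Set.Ioi (0 : ℝ), (P {ω | t < Y ω}) ^ (1 / (d : ℝ)) < ⊤ := by
  obtain ⟨α, hα, hfin⟩ := hA
  set f : Ω → ℝ≥0∞ := fun ω => ENNReal.ofReal ((max (Y ω) 0) ^ d *
      (max (Real.log (max (Y ω) 0)) 0) ^ ((d : ℝ) + α)) with hf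
  set A : ℝ≥0∞ := ∫⁻ ω, f ω ∂P with hAdef
  have hd0 : (0 : ℝ) < d := by exact_mod_cast hd
  set β : ℝ := α / d with hβ
  have hβ0 : 0 < β := by positivity
  set h : ℝ → ℝ := fun t => (Real.log t) ^ (-β - 1) * t⁻¹ with hh
  have hfm : Measurable f := by
    refine ENNReal.measurable_ofReal.comp (Measurable.mul ?_ ?_)
    · exact (hY.max measurable_const).pow_const d
    · exact (((Real.measurable_log.comp (hY.max measurable_const)).max
        measurable_const).pow_const _)
  have e1 : (1 : ℝ) < Real.exp 1 := by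
    have := Real.add_one_lt_exp (show (1 : ℝ) ≠ 0 by norm_num)
    linarith
  have hlog1 : ∀ t : ℝ, Real.exp 1 ≤ t → 1 ≤ Real.log t := by
    intro t ht
    rw [Real.le_log_iff_exp_le ((Real.exp_pos 1).trans_le ht)]
    exact ht
  -- tail bound
  have htail : ∀ t : ℝ, Real.exp 1 < t → P {ω | t < Y ω} ≤ A * ENNReal.ofReal ((h t) ^ d) := by
    intro t ht
    have ht0 : 0 < t := (Real.exp_pos 1).trans ht
    have hl1 : 1 ≤ Real.log t := hlog1 t ht.le
    have hl0 : 0 < Real.log t := lt_of_lt_of_le one_pos hl1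
    set g : ℝ := t ^ d * (Real.log t) ^ ((d : ℝ) + α) with hg
    have hg0 : 0 < g := by positivity
    have hsub : {ω | t < Y ω} ⊆ {ω | ENNReal.ofReal g ≤ f ω} := by
      intro ω hω
      have hω' : t < Y ω := hω
      show ENNReal.ofReal g ≤ f ω
      apply ENNReal.ofReal_le_ofReal
      have hm : max (Y ω) 0 = Y ω := max_eq_left (ht0.trans hω').le
      have hlm : Real.log t ≤ Real.log (Y ω) := Real.log_le_log ht0 hω'.le
      rw [hm, max_eq_left (hl0.le.trans hlm), hg]
      have hY0 : 0 < Y ω := ht0.trans hω'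
      gcongr
    have h1 : P {ω | t < Y ω} ≤ A / ENNReal.ofReal g :=
      (measure_mono hsub).trans (meas_ge_le_lintegral_div hfm.aemeasurable
        (by simpa using hg0) ENNReal.ofReal_ne_top)
    have h2 : (ENNReal.ofReal g)⁻¹ = ENNReal.ofReal ((h t) ^ d) := by
      rw [← ENNReal.ofReal_inv_of_pos hg0]
      congr 1
      rw [hh, hg]
      simp only
      rw [mul_pow, ← Real.rpow_natCast ((Real.log t) ^ (-β - 1)), ← Real.rpow_mul hl0.le, mul_inv,
        ← Real.rpow_neg hl0.le, inv_pow, mul_comm]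
      congr 2
      rw [hβ]
      field_simp
      ring
    rw [div_eq_mul_inv, h2] at h1
    exact h1
  have htail2 : ∀ t : ℝ, Real.exp 1 < t →
      (P {ω | t < Y ω}) ^ (1 / (d : ℝ)) ≤ A ^ (1 / (d : ℝ)) * ENNReal.ofReal (h t) := by
    intro t ht
    have ht0 : 0 < t := (Real.exp_pos 1).trans ht
    have hl0 : 0 < Real.log t := lt_of_lt_of_le one_pos (hlog1 t ht.le)
    have hh0 : 0 ≤ h t := by
      simp only [hh]
      positivity
    calc (P {ω | t < Y ω}) ^ (1 / (d : ℝ))
        ≤ (A * ENNReal.ofReal ((h t) ^ d)) ^ (1 / (d : ℝ)) :=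
          ENNReal.rpow_le_rpow (htail t ht) (by positivity)
      _ = A ^ (1 / (d : ℝ)) * ENNReal.ofReal (h t) := by
          rw [ENNReal.mul_rpow_of_nonneg _ _ (by positivity : (0 : ℝ) ≤ 1 / (d : ℝ)),
            ENNReal.ofReal_rpow_of_nonneg (by positivity) (by positivity)]
          congr 2
          rw [← Real.rpow_natCast, ← Real.rpow_mul hh0, mul_one_div_cancel hd0.ne',
            Real.rpow_one]
  -- integrability
  have hint : IntegrableOn h (Set.Ioi (Real.exp 1)) := by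
    refine integrableOn_Ioi_deriv_of_nonneg'
      (g := fun t => -(1 / β) * (Real.log t) ^ (-β)) (l := -(1 / β) * 0) ?_ ?_ ?_
    · intro t ht
      have ht' : Real.exp 1 ≤ t := ht
      have ht0 : 0 < t := (Real.exp_pos 1).trans_le ht'
      have hl0 : 0 < Real.log t := lt_of_lt_of_le one_pos (hlog1 t ht')
      have h1 := ((Real.hasDerivAt_log ht0.ne').rpow_const (p := -β) (Or.inl hl0.ne')).const_mul
        (-(1 / β))
      have h2 : h t = -(1 / β) * (t⁻¹ * -β * Real.log t ^ (-β - 1)) := by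
        simp only [hh]
        field_simp
      rw [h2]
      exact h1
    · intro t ht
      have ht' : Real.exp 1 < t := ht
      have ht0 : 0 < t := (Real.exp_pos 1).trans ht'
      have hl0 : 0 < Real.log t := lt_of_lt_of_le one_pos (hlog1 t ht'.le)
      simp only [hh]
      positivity
    · exact ((tendsto_rpow_neg_atTop hβ0).comp Real.tendsto_log_atTop).const_mul _
  have hsplit : Set.Ioi (0 : ℝ) = Set.Ioc 0 (Real.exp 1) ∪ Set.Ioi (Real.exp 1) :=
    (Set.Ioc_union_Ioi_eq_Ioi (Real.exp_pos 1).le).symm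
  rw [hsplit]
  refine (lintegral_union_le _ _ _).trans_lt (ENNReal.add_lt_top.2 ⟨?_, ?_⟩)
  · calc ∫⁻ t in Set.Ioc (0 : ℝ) (Real.exp 1), (P {ω | t < Y ω}) ^ (1 / (d : ℝ))
        ≤ ∫⁻ _t in Set.Ioc (0 : ℝ) (Real.exp 1), 1 :=
          lintegral_mono fun t => ENNReal.rpow_le_one prob_le_one (by positivity)
      _ < ⊤ := by simp
  · calc ∫⁻ t in Set.Ioi (Real.exp 1), (P {ω | t < Y ω}) ^ (1 / (d : ℝ))
        ≤ ∫⁻ t in Set.Ioi (Real.exp 1), A ^ (1 / (d : ℝ)) * ENNReal.ofReal (h t) := by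
          refine setLIntegral_mono' measurableSet_Ioi fun t ht => htail2 t ht
      _ = A ^ (1 / (d : ℝ)) * ∫⁻ t in Set.Ioi (Real.exp 1), ENNReal.ofReal (h t) := by
          rw [lintegral_const_mul']
          exact (ENNReal.rpow_lt_top_of_nonneg (by positivity) hfin.ne).ne
      _ < ⊤ := ENNReal.mul_lt_top (ENNReal.rpow_lt_top_of_nonneg (by positivity) hfin.ne)
          hint.lintegral_lt_top

end Pool.Agent.Helper82.GP
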