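import Pool.Agent.Helper82.GP.Avoid

/-!
Walls: pairs of Lipschitz surfaces covering the bad points `V` and whose collars avoid `F`.
-/

namespace Pool.Agent.Helper82.GP

namespace Walls

theorem l1_self {k : ℕ} (z : Fin k → ℤ) : l1 z z = 0 := by simp [l1]

theorem l1_symm {k : ℕ} (z w : Fin k → ℤ) : l1 z w = l1 w z := by
  unfold l1
  exact Finset.sum_congr rfl fun j _ => by omega

theorem l1_tri {k : ℕ} (x y z : Fin k → ℤ) : l1 x z ≤ l1 x y + l1 y z := by
  unfold l1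
  rw [← Finset.sum_add_distrib]
  exact Finset.sum_le_sum fun j _ => by omega

/-- Upper surface: maximum of a constant and downward cones. -/
theorem cone {k : ℕ} (V : Finset (ℤ × (Fin k → ℤ))) (q : ℤ × (Fin k → ℤ) → Prop) (c : ℤ) :
    ∃ U : (Fin k → ℤ) → ℤ,
      (∀ z w, 2 * (U z - U w) ≤ (l1 z w : ℤ) + 1) ∧ (∀ z, c ≤ U z) ∧
      (∀ v ∈ V, q v → ∀ z, v.1 + 7 - ((l1 z v.2 / 2 : ℕ) : ℤ) ≤ U z) ∧
      (∀ z, U z = c ∨ ∃ v ∈ V, q v ∧ U z = v.1 + 7 - ((l1 z v.2 / 2 : ℕ) : ℤ) ∧ c < U z) := by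
  classical
  let f : (Fin k → ℤ) → Option (ℤ × (Fin k → ℤ)) → ℤ := fun z x =>
    x.elim c (fun v => v.1 + 7 - ((l1 z v.2 / 2 : ℕ) : ℤ))
  let S : Finset (Option (ℤ × (Fin k → ℤ))) := insert none ((V.filter q).image some)
  have hS : S.Nonempty := ⟨none, Finset.mem_insert_self _ _⟩
  have hSJ : ∀ x ∈ S, x = none ∨ ∃ v ∈ V, q v ∧ x = some v := by
    intro x hx
    rcases Finset.mem_insert.1 hx with h | h
    · exact Or.inl h
    · obtain ⟨o, ho, rfl⟩ := Finset.mem_image.1 h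
      obtain ⟨h1, h2⟩ := Finset.mem_filter.1 ho
      exact Or.inr ⟨o, h1, h2, rfl⟩
  refine ⟨fun z => S.sup' hS (f z), ?_, ?_, ?_, ?_⟩
  · intro z w
    obtain ⟨x, hx, hxe⟩ := Finset.exists_mem_eq_sup' hS (f z)
    have hw : f w x ≤ S.sup' hS (f w) := Finset.le_sup' (f w) hx
    have hstep : 2 * (f z x - f w x) ≤ (l1 z w : ℤ) + 1 := by
      rcases hSJ x hx with rfl | ⟨v, hv, hq, rfl⟩
      · show 2 * (c - c) ≤ _
        have : (0 : ℤ) ≤ l1 z w := by positivity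
        linarith
      · show 2 * ((v.1 + 7 - ((l1 z v.2 / 2 : ℕ) : ℤ)) -
          (v.1 + 7 - ((l1 w v.2 / 2 : ℕ) : ℤ))) ≤ _
        have h1 := l1_tri w z v.2
        rw [l1_symm w z] at h1
        omega
    show 2 * (S.sup' hS (f z) - S.sup' hS (f w)) ≤ _
    rw [hxe]
    linarith
  · intro z
    exact Finset.le_sup' (f z) (Finset.mem_insert_self none _)
  · intro v hv hq z
    exact Finset.le_sup' (f z) (Finset.mem_insert_of_mem
      (Finset.mem_image_of_mem _ (Finset.mem_filter.2 ⟨hv, hq⟩)))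
  · intro z
    obtain ⟨x, hx, hxe⟩ := Finset.exists_mem_eq_sup' hS (f z)
    show S.sup' hS (f z) = c ∨ ∃ v ∈ V, q v ∧ S.sup' hS (f z) = _ ∧ c < S.sup' hS (f z)
    have hc : c ≤ S.sup' hS (f z) := Finset.le_sup' (f z) (Finset.mem_insert_self none _)
    by_cases hcc : S.sup' hS (f z) = c
    · exact Or.inl hcc
    · right
      rcases hSJ x hx with rfl | ⟨v, hv, hq, rfl⟩
      · exact absurd hxe hcc
      · exact ⟨v, hv, hq, hxe, lt_of_le_of_ne hc (Ne.symm hcc)⟩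

/-- One side of a wall. -/
theorem side (k m : ℕ) (F V : Finset (ℤ × (Fin k → ℤ)))
    (hF : ∀ (c : ℤ × (Fin k → ℤ)) (E : Finset (ℤ × (Fin k → ℤ))), E ⊆ F →
      (∀ o ∈ E, |o.1 - c.1| ≤ 4 * (m + 1) * 9 ∧ (l1 o.2 c.2 : ℤ) ≤ 4 * (m + 1) * 9) →
      E.card ≤ m)
    (q : ℤ × (Fin k → ℤ) → Prop) (c : ℤ) :
    ∃ b : (Fin k → ℤ) → ℤ,
      (∀ z w, b z - b w ≤ (l1 z w : ℤ)) ∧ (∀ z, c ≤ b z) ∧
      (∀ v ∈ V, q v → v.1 + 7 ≤ b v.2) ∧
      (∀ o ∈ F, ¬ (b o.2 - 6 ≤ o.1 ∧ o.1 ≤ b o.2)) ∧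
      (∀ z, b z ≤ c + 9 * (m + 1) ∨ ∃ v ∈ V, q v ∧ c < v.1 + 7 - ((l1 z v.2 / 2 : ℕ) : ℤ) ∧
        b z ≤ v.1 + 7 - ((l1 z v.2 / 2 : ℕ) : ℤ) + 9 * (m + 1)) := by
  obtain ⟨U, hU1, hU2, hU3, hU4⟩ := cone V q c
  obtain ⟨h, hh1, hh2, hh3⟩ := avoid (fun z w => l1 z w) l1_self l1_symm l1_tri 1 6 m le_rfl F U
    (by intro z w; have := hU1 z w; push_cast; linarith)
    (by
      intro c' E hE hE2
      apply hF c' E hE
      intro o ho
      have := hE2 o ho
      push_cast at this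
      constructor
      · linarith [this.1]
      · linarith [this.2])
  refine ⟨h, ?_, ?_, ?_, ?_, ?_⟩
  · intro z w
    have := hh2 z w
    push_cast at this
    linarith
  · intro z
    exact (hU2 z).trans (hh1 z).1
  · intro v hv hq
    have h1 := hU3 v hv hq v.2
    rw [l1_self] at h1
    have h2 := (hh1 v.2).1
    push_cast at h1
    linarith
  · intro o ho hcon
    apply hh3 o ho
    push_cast
    constructor
    · exact hcon.2
    · linarith [hcon.1]
  · intro z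
    have h2 := (hh1 z).2
    push_cast at h2
    rcases hU4 z with h | ⟨v, hv, hq, hv2, hv3⟩
    · left
      rw [h] at h2
      linarith
    · right
      refine ⟨v, hv, hq, ?_, ?_⟩
      · rw [← hv2]; exact hv3
      · rw [← hv2]; linarith

/-- The middle surfaces. -/
theorem mid (k m G : ℕ) (V : Finset (ℤ × (Fin k → ℤ)))
    (hV : ∀ (c : ℤ × (Fin k → ℤ)) (E : Finset (ℤ × (Fin k → ℤ))), E ⊆ V →
      (∀ o ∈ E, |o.1 - c.1| ≤ 16 * (m + 1) * (2 * G + 3) ∧
        (l1 o.2 c.2 : ℤ) ≤ 16 * (m + 1) * (2 * G + 3)) → E.card ≤ m) (c : ℤ) :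
    ∃ b : (Fin k → ℤ) → ℤ,
      (∀ z w, 4 * (b z - b w) ≤ (l1 z w : ℤ) + 3) ∧
      (∀ z, c ≤ b z ∧ b z ≤ c + (m + 1) * (2 * G + 3)) ∧
      (∀ v ∈ V, v.1 < b v.2 - G ∨ b v.2 + G < v.1) := by
  obtain ⟨h, hh1, hh2, hh3⟩ := avoid (fun z w => l1 z w) l1_self l1_symm l1_tri 4 (2 * G) m
    (by norm_num) V (fun _ => c + G)
    (by intro z w; push_cast; have : (0 : ℤ) ≤ l1 z w := by positivity
        linarith)
    (by
      intro c' E hE hE2
      apply hV c' E hE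
      intro o ho
      have := hE2 o ho
      push_cast at this
      constructor
      · linarith [this.1]
      · linarith [this.2])
  refine ⟨fun z => h z - G, ?_, ?_, ?_⟩
  · intro z w
    have := hh2 z w
    push_cast at this
    linarith
  · intro z
    have := hh1 z
    push_cast at this
    constructor
    · linarith [this.1]
    · linarith [this.2]
  · intro v hv
    have := hh3 v hv
    push_cast at this
    by_contra hcon
    push Not at hcon
    apply this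
    constructor
    · linarith [hcon.2]
    · linarith [hcon.1]

end Walls

open Walls in
theorem walls (k m : ℕ) : ∃ D H C : ℕ, ∀ (F : Finset (ℤ × (Fin k → ℤ))), Sparse m D F →
    ∀ V ⊆ F, ∀ N : ℕ, C ≤ N → ∀ σ : ℤ, ∃ a b : ℤ → (Fin k → ℤ) → ℤ,
      (∀ j z w, |a j z - a j w| ≤ l1 z w) ∧ (∀ j z w, |b j z - b j w| ≤ l1 z w) ∧
      (∀ j z, a j z + 14 ≤ b j z) ∧
      (∀ j z w, l1 z w ≤ 1 → b j z + 2 ≤ a (j + 1) w) ∧
      (∀ o ∈ F, ∀ j, ¬ (a j o.2 ≤ o.1 ∧ o.1 ≤ a j o.2 + 6) ∧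
        ¬ (b j o.2 - 6 ≤ o.1 ∧ o.1 ≤ b j o.2)) ∧
      (∀ v ∈ V, ∃ j, a j v.2 ≤ v.1 ∧ v.1 ≤ b j v.2) ∧
      (∀ j z, (∀ v ∈ V, |v.1 - (j * N + σ)| ≤ N → 2 * N < l1 z v.2) →
        j * N + σ - 7 - H ≤ a j z ∧ b j z ≤ j * N + σ + 7 + H) ∧
      (∀ j z, j * N + σ - N ≤ a j z ∧ b j z ≤ j * N + σ + N) := by
  classical
  -- constants
  obtain ⟨H, hH⟩ : ∃ H : ℕ, H = 9 * (m + 1) := ⟨_, rfl⟩
  obtain ⟨G, hG⟩ : ∃ G : ℕ, G = H + 20 := ⟨_, rfl⟩
  obtain ⟨H', hH'⟩ : ∃ H' : ℕ, H' = (m + 1) * (2 * G + 3) := ⟨_, rfl⟩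
  refine ⟨16 * (m + 1) * (2 * G + 3), H, 2 * H' + 2 * H + 4 * G + 100, ?_⟩
  intro F hF V hVF N hN σ
  have hVsp : ∀ (c : ℤ × (Fin k → ℤ)) (E : Finset (ℤ × (Fin k → ℤ))), E ⊆ V →
      (∀ o ∈ E, |o.1 - c.1| ≤ 16 * (m + 1) * (2 * G + 3) ∧
        (l1 o.2 c.2 : ℤ) ≤ 16 * (m + 1) * (2 * G + 3)) → E.card ≤ m := by
    intro c E hE hE2
    apply hF c E (hE.trans hVF)
    intro o ho
    obtain ⟨h1, h2⟩ := hE2 o ho
    constructor
    · push_cast
      exact h1
    · exact_mod_cast h2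
  have hFsp : ∀ (c : ℤ × (Fin k → ℤ)) (E : Finset (ℤ × (Fin k → ℤ))), E ⊆ F →
      (∀ o ∈ E, |o.1 - c.1| ≤ 4 * (m + 1) * 9 ∧ (l1 o.2 c.2 : ℤ) ≤ 4 * (m + 1) * 9) →
      E.card ≤ m := by
    intro c E hE hE2
    apply hF c E hE
    intro o ho
    obtain ⟨h1, h2⟩ := hE2 o ho
    have h3 : (4 * ((m : ℤ) + 1) * 9) ≤ 16 * (m + 1) * (2 * G + 3) := by
      have h4 : (0 : ℤ) ≤ m + 1 := by positivity
      have h5 : (20 : ℤ) ≤ G := by omega
      nlinarith
    constructor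
    · push_cast
      linarith
    · have : (l1 o.2 c.2 : ℤ) ≤ 16 * (m + 1) * (2 * G + 3) := by linarith
      exact_mod_cast this
  -- reflection
  let ρ : ℤ × (Fin k → ℤ) → ℤ × (Fin k → ℤ) := fun v => (-v.1, v.2)
  have hρρ : ∀ v, ρ (ρ v) = v := fun v => by simp [ρ]
  have hρinj : Function.Injective ρ := fun u v h => by
    rw [← hρρ u, h, hρρ]
  have hFsp' : ∀ (c : ℤ × (Fin k → ℤ)) (E : Finset (ℤ × (Fin k → ℤ))), E ⊆ F.image ρ →
      (∀ o ∈ E, |o.1 - c.1| ≤ 4 * (m + 1) * 9 ∧ (l1 o.2 c.2 : ℤ) ≤ 4 * (m + 1) * 9) →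
      E.card ≤ m := by
    intro c E hE hE2
    have hcard : (E.image ρ).card = E.card := Finset.card_image_of_injective _ hρinj
    rw [← hcard]
    apply hFsp (ρ c) (E.image ρ)
    · intro x hx
      obtain ⟨e, he, rfl⟩ := Finset.mem_image.1 hx
      obtain ⟨f, hf, rfl⟩ := Finset.mem_image.1 (hE he)
      rw [hρρ]
      exact hf
    · intro x hx
      obtain ⟨e, he, rfl⟩ := Finset.mem_image.1 hx
      obtain ⟨h1, h2⟩ := hE2 e he
      refine ⟨?_, h2⟩
      show |-e.1 - -c.1| ≤ _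
      rw [show -e.1 - -c.1 = -(e.1 - c.1) by ring, abs_neg]
      exact h1
  -- the middle surfaces
  have hmid := fun j : ℤ => mid k m G V hVsp (j * N + σ + ((N / 2 : ℕ) : ℤ))
  choose μ hμ1 hμ2 hμ3 using hmid
  -- upper sides
  have hup := fun j : ℤ => side k m F V hFsp (fun v => v.1 < μ j v.2) (j * N + σ + 7)
  choose b hb1 hb2 hb3 hb4 hb5 using hup
  -- lower sides
  have hlow := fun j : ℤ => side k m (F.image ρ) (V.image ρ) hFsp'
    (fun v => μ (j - 1) v.2 < -v.1) (-(j * N + σ) + 7)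
  choose a' ha1 ha2 ha3 ha4 ha5 using hlow
  have hHH : (9 * ((m : ℤ) + 1)) = H := by rw [hH]; push_cast; ring
  have hHH' : ((m : ℤ) + 1) * (2 * G + 3) = H' := by rw [hH']; push_cast; ring
  -- upper bound of b by the middle surface
  have hbμ : ∀ j z, b j z ≤ μ j z - 13 := by
    intro j z
    have hm2 := hμ2 j z
    rcases hb5 j z with h | ⟨v, hv, hq, hv1, hv2⟩
    · omega
    · have h1 := hμ3 j v hv
      have h2 := hμ1 j v.2 z
      rw [l1_symm v.2 z] at h2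
      rcases h1 with h1 | h1
      · omega
      · omega
  have haμ : ∀ j z, a' (j + 1) z ≤ -(μ j z) - 13 := by
    intro j z
    have hm2 := hμ2 j z
    have hj : ((j + 1 : ℤ) * N) = j * N + N := by ring
    rcases ha5 (j + 1) z with h | ⟨v, hv, hq, hv1, hv2⟩
    · rw [hj] at h
      omega
    · obtain ⟨w, hw, rfl⟩ := Finset.mem_image.1 hv
      have hq' : μ j w.2 < w.1 := by
        have : μ (j + 1 - 1) w.2 < - -w.1 := hq
        rw [show j + 1 - 1 = j by ring, neg_neg] at this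
        exact this
      change a' (j + 1) z ≤ -w.1 + 7 - ((l1 z w.2 / 2 : ℕ) : ℤ) + 9 * (m + 1) at hv2
      have h1 := hμ3 j w hw
      have h2 := hμ1 j z w.2
      rcases h1 with h1 | h1
      · omega
      · omega
  refine ⟨fun j z => -(a' j z), b, ?_, ?_, ?_, ?_, ?_, ?_, ?_, ?_⟩
  · intro j z w
    have h1 := ha1 j z w
    have h2 := ha1 j w z
    rw [l1_symm w z] at h2
    rw [abs_le]
    constructor <;> linarith
  · intro j z w
    have h1 := hb1 j z w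
    have h2 := hb1 j w z
    rw [l1_symm w z] at h2
    rw [abs_le]
    constructor <;> linarith
  · intro j z
    have h1 := ha2 j z
    have h2 := hb2 j z
    show -(a' j z) + 14 ≤ b j z
    linarith
  · intro j z w hzw
    have h1 := hbμ j z
    have h2 := haμ j w
    have h3 := hμ1 j z w
    show b j z + 2 ≤ -(a' (j + 1) w)
    omega
  · intro o ho j
    refine ⟨?_, hb4 j o ho⟩
    intro hcon
    have h1 := ha4 j (ρ o) (Finset.mem_image_of_mem _ ho)
    apply h1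
    change -(a' j o.2) ≤ o.1 ∧ o.1 ≤ -(a' j o.2) + 6 at hcon
    show a' j o.2 - 6 ≤ -o.1 ∧ -o.1 ≤ a' j o.2
    constructor
    · linarith [hcon.2]
    · linarith [hcon.1]
  · intro v hv
    have hNpos : (0 : ℤ) < N := by
      have : 0 < N := by omega
      exact_mod_cast this
    -- locate v
    have hkey : ∃ j : ℤ, μ (j - 1) v.2 < v.1 ∧ v.1 < μ j v.2 := by
      obtain ⟨j0, hj0⟩ : ∃ j0 : ℤ, j0 = (v.1 - σ) / N := ⟨_, rfl⟩
      have h1 := Int.mul_ediv_add_emod (v.1 - σ) N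
      have h2 := Int.emod_nonneg (v.1 - σ) hNpos.ne'
      have h3 := Int.emod_lt_of_pos (v.1 - σ) hNpos
      rw [← hj0, mul_comm] at h1
      by_cases hlt : v.1 < μ j0 v.2
      · refine ⟨j0, ?_, hlt⟩
        have h4 := (hμ2 (j0 - 1) v.2).2
        have hj : ((j0 - 1 : ℤ) * N) = j0 * N - N := by ring
        rw [hj] at h4
        omega
      · refine ⟨j0 + 1, ?_, ?_⟩
        · rw [show j0 + 1 - 1 = j0 by ring]
          rcases hμ3 j0 v hv with h5 | h5 <;> omega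
        · have h4 := (hμ2 (j0 + 1) v.2).1
          have hj : ((j0 + 1 : ℤ) * N) = j0 * N + N := by ring
          rw [hj] at h4
          omega
    obtain ⟨j, hj1, hj2⟩ := hkey
    refine ⟨j, ?_, ?_⟩
    · have h1 := ha3 j (ρ v) (Finset.mem_image_of_mem _ hv) (by
        show μ (j - 1) v.2 < - -v.1
        rw [neg_neg]
        exact hj1)
      change -v.1 + 7 ≤ a' j v.2 at h1
      show -(a' j v.2) ≤ v.1
      linarith
    · have h1 := hb3 j v hv hj2
      linarith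
  · intro j z hz
    constructor
    · show j * N + σ - 7 - H ≤ -(a' j z)
      rcases ha5 j z with h | ⟨v, hv, hq, hv1, hv2⟩
      · omega
      · exfalso
        obtain ⟨w, hw, rfl⟩ := Finset.mem_image.1 hv
        have hq' : μ (j - 1) w.2 < w.1 := by
          have : μ (j - 1) w.2 < - -w.1 := hq
          rw [neg_neg] at this
          exact this
        change -(j * N + σ) + 7 < -w.1 + 7 - ((l1 z w.2 / 2 : ℕ) : ℤ) at hv1
        have h4 := (hμ2 (j - 1) w.2).1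
        have hj : ((j - 1 : ℤ) * N) = j * N - N := by ring
        rw [hj] at h4
        have h5 := hz w hw (by
          rw [abs_le]
          constructor <;> omega)
        omega
    · rcases hb5 j z with h | ⟨v, hv, hq, hv1, hv2⟩
      · omega
      · exfalso
        have h4 := (hμ2 j v.2).2
        have h5 := hz v hv (by
          rw [abs_le]
          constructor <;> omega)
        omega
  · intro j z
    constructor
    · show j * N + σ - N ≤ -(a' j z)
      have h1 := haμ (j - 1) z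
      rw [show j - 1 + 1 = j by ring] at h1
      have h4 := (hμ2 (j - 1) z).1
      have hj : ((j - 1 : ℤ) * N) = j * N - N := by ring
      rw [hj] at h4
      omega
    · have h1 := hbμ j z
      have h4 := (hμ2 j z).2
      omega

end Pool.Agent.Helper82.GP
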